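import Mathlib

set_option autoImplicit false

/-!
AL28: infinitesimal rigidity of the near group system and algebraicity of its solutions.
(helper28, Project Z, MP_d0f9e0_co)
-/

namespace Pool.MP_d0f9e0_co.AL

open Finset

/-- The log-derivative identity: an infinitesimal deformation x of a solution c of the quadratic
Fourier system at p satisfies (n + 2 - 2 c(0)^2) x_p = 0. Here K is kappa * c(p), L = c(0)^2. -/
theorem al28_logderiv {G F M : Type*} [AddCommGroup G] [Fintype G] [DecidableEq G] [Field F]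
    [AddCommGroup M] [Module F M]
    (c ψ ω : G → F) (x : G → M) (E : G → G → F) (p : G) (hp : p ≠ 0) (K θ L : F)
    (x0 : x 0 = 0) (xneg : ∀ a, x (-a) = - x a)
    (Esymm : ∀ a b, E a b = E b a) (Eneg : ∀ a b, E a (-b) = E (-a) b)
    (FT : ∀ q, ∑ a, c a * c (p - a) * ψ a * E a q = K * (c q * c (-p - q) * ω q))
    (DFT : ∀ q, ∑ a, (c a * c (p - a) * ψ a * E a q) • (x a + x (p - a))
      = (K * (c q * c (-p - q) * ω q)) • (x p + x q + x (-p - q)))
    (h1 : ∀ a, a ≠ 0 → a ≠ p →
      c a * c (p - a) * ψ a * (c (-a) * c (-p + a) * ω (-a)) = θ)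
    (h0 : c 0 * c p * ψ 0 * (c 0 * c (-p) * ω 0) = θ * L)
    (hp1 : c p * c 0 * ψ p * (c (-p) * c 0 * ω (-p)) = θ * L)
    (hK : K ≠ 0) (hθ : θ ≠ 0) :
    ((Fintype.card G : F) + 2 - 2 * L) • x p = 0 := by
  classical
  set h : G → F := fun a => c a * c (p - a) * ψ a with hh
  set H : G → F := fun q => K * (c q * c (-p - q) * ω q) with hH
  set X : G → M := fun a => x a + x (p - a) with hX
  have FT' : ∀ q, ∑ a, h a * E a q = H q := fun q => FT q
  have DFT' : ∀ q, ∑ a, (h a * E a q) • X a = H q • (x p + x q + x (-p - q)) := fun q => DFT q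
  -- left side
  have key : ∑ q, h (-q) • ∑ a, (h a * E a q) • X a
      = ∑ a, (h a * H (-a)) • X a := by
    simp_rw [Finset.smul_sum]
    rw [Finset.sum_comm]
    refine Finset.sum_congr rfl fun a _ => ?_
    have e1 : ∑ q, h (-q) * E a q = H (-a) := by
      rw [← FT' (-a)]
      refine Fintype.sum_equiv (Equiv.neg G) _ _ fun q => ?_
      simp only [Equiv.neg_apply]
      rw [Eneg (-q) a, neg_neg, Esymm]
    calc ∑ q, h (-q) • (h a * E a q) • X a
        = ∑ q, (h a * (h (-q) * E a q)) • X a := by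
          refine Finset.sum_congr rfl fun q _ => ?_
          rw [smul_smul]; congr 1; ring
      _ = (∑ q, h a * (h (-q) * E a q)) • X a := by rw [Finset.sum_smul]
      _ = (h a * H (-a)) • X a := by rw [← Finset.mul_sum, e1]
  have key2 : ∑ q, h (-q) • ∑ a, (h a * E a q) • X a
      = ∑ a, (h a * H (-a)) • (x p - X a) := by
    simp_rw [DFT']
    refine Fintype.sum_equiv (Equiv.neg G) _ _ fun q => ?_
    simp only [Equiv.neg_apply, neg_neg, smul_smul]
    congr 1
    have e2 : x (-p - q) = - x (p - -q) := by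
      rw [← xneg]; congr 1; abel
    simp only [hX]
    rw [e2, xneg q]
    abel
  have main : ∑ a, (h a * H (-a)) • (X a + X a - x p) = 0 := by
    have e3 : ∀ a, (h a * H (-a)) • (X a + X a - x p)
        = (h a * H (-a)) • X a - (h a * H (-a)) • (x p - X a) := by
      intro a; rw [← smul_sub]; congr 1; abel
    simp_rw [e3]
    rw [Finset.sum_sub_distrib, ← key, ← key2, sub_self]
  -- the weights
  have w1 : ∀ a, a ≠ 0 → a ≠ p → h a * H (-a) = K * θ := by
    intro a ha hap
    have := h1 a ha hap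
    simp only [hh, hH]
    rw [← this]
    have : (-p - -a : G) = -p + a := by abel
    rw [this]; ring
  have w0 : h 0 * H (-0) = K * θ * L := by
    simp only [hh, hH, neg_zero, sub_zero]
    rw [mul_assoc K θ L, ← h0]; ring
  have wp : h p * H (-p) = K * θ * L := by
    simp only [hh, hH, sub_self]
    rw [mul_assoc K θ L, ← hp1]
    ring
  set Y : G → M := fun a => X a + X a - x p with hY
  have Y0 : Y 0 = x p := by
    simp only [hY, hX, sub_zero, x0]; abel
  have Yp : Y p = x p := by
    simp only [hY, hX, sub_self, x0]; abel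
  have sX : ∑ a, X a = 0 := by
    simp only [hX]
    rw [Finset.sum_add_distrib]
    have e4 : ∑ a, x (p - a) = ∑ a, x a :=
      Fintype.sum_equiv (Equiv.subLeft p) _ _ fun q => by simp [Equiv.subLeft]
    have e5 : ∑ a, x a = - ∑ a, x a := by
      conv_lhs => rw [← Equiv.sum_comp (Equiv.neg G)]
      simp [xneg]
    rw [e4]; nth_rewrite 2 [e5]; abel
  have sY : ∑ a, Y a = - ((Fintype.card G : F) • x p) := by
    simp only [hY]
    rw [Finset.sum_sub_distrib, Finset.sum_add_distrib, sX]
    simp [Finset.card_univ, Nat.cast_smul_eq_nsmul]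
  have split : ∑ a, (h a * H (-a)) • Y a
      = (K * θ) • (∑ a, Y a + (L - 1) • (x p + x p)) := by
    have e6 : ∀ a, (h a * H (-a)) • Y a = (K * θ) • Y a
        + (if a = 0 then (K * θ * (L - 1)) • Y 0 else 0)
        + (if a = p then (K * θ * (L - 1)) • Y p else 0) := by
      intro a
      by_cases ha : a = 0
      · subst ha
        rw [if_pos rfl, if_neg (Ne.symm hp), w0, ← add_smul]
        rw [add_zero]; congr 1; ring
      · by_cases hap : a = p
        · subst hap
          rw [if_neg ha, if_pos rfl, wp, add_zero, ← add_smul]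
          congr 1; ring
        · rw [if_neg ha, if_neg hap, w1 a ha hap, add_zero, add_zero]
    simp_rw [e6]
    rw [Finset.sum_add_distrib, Finset.sum_add_distrib, ← Finset.smul_sum]
    simp only [Finset.sum_ite_eq', Finset.mem_univ, if_true, Y0, Yp]
    rw [smul_add, smul_smul, smul_add]
    abel
  rw [main] at split
  have hKθ : K * θ ≠ 0 := mul_ne_zero hK hθ
  have fin := (smul_eq_zero.mp split.symm).resolve_left hKθ
  rw [sY] at fin
  have : ((Fintype.card G : F) + 2 - 2 * L) • x p
      = - (-((Fintype.card G : F) • x p) + (L - 1) • (x p + x p)) := by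
    module
  rw [this, fin, neg_zero]

/-- Algebraicity: every complex solution of the near group system (with algebraic constants)
consists of algebraic numbers. -/
theorem al28_isAlgebraic {G : Type*} [AddCommGroup G] [Fintype G] [DecidableEq G]
    (c : G → ℂ) (hc : ∀ a, c a ≠ 0) (c0 : IsAlgebraic ℚ (c 0))
    (cinv : ∀ a, a ≠ 0 → IsAlgebraic ℚ (c a * c (-a)))
    (E : G → G → ℂ) (Ealg : ∀ a b, IsAlgebraic ℚ (E a b))
    (Esymm : ∀ a b, E a b = E b a) (Eneg : ∀ a b, E a (-b) = E (-a) b)
    (κ : ℂ) (hκ : κ ≠ 0) (κalg : IsAlgebraic ℚ κ)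
    (ψ ω : G → G → ℂ) (ψalg : ∀ p a, IsAlgebraic ℚ (ψ p a)) (ωalg : ∀ p a, IsAlgebraic ℚ (ω p a))
    (FT : ∀ p, p ≠ 0 → ∀ q, ∑ a, c a * c (p - a) * ψ p a * E a q
      = κ * c p * (c q * c (-p - q) * ω p q))
    (phase : ∀ p, p ≠ 0 → ∃ θ : ℂ, θ ≠ 0 ∧
      (∀ a, a ≠ 0 → a ≠ p → c a * c (p - a) * ψ p a * (c (-a) * c (-p + a) * ω p (-a)) = θ) ∧
      c 0 * c p * ψ p 0 * (c 0 * c (-p) * ω p 0) = θ * c 0 ^ 2 ∧
      c p * c 0 * ψ p p * (c (-p) * c 0 * ω p (-p)) = θ * c 0 ^ 2)
    (hn : (Fintype.card G : ℂ) + 2 - 2 * c 0 ^ 2 ≠ 0) :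
    ∀ a, IsAlgebraic ℚ (c a) := by
  classical
  set k : IntermediateField ℚ ℂ := algebraicClosure ℚ ℂ with hk
  have mem_k : ∀ z : ℂ, IsAlgebraic ℚ z → z ∈ k := fun z hz => by
    rw [hk]; exact mem_algebraicClosure_iff.mpr hz
  set L : IntermediateField k ℂ := IntermediateField.adjoin k (Set.range c) with hL
  have : Algebra.EssFiniteType k L := by
    rw [IntermediateField.essFiniteType_iff]
    exact IntermediateField.fg_adjoin_of_finite (Set.finite_range c)
  have memL : ∀ a, c a ∈ L := fun a => IntermediateField.subset_adjoin _ _ ⟨a, rfl⟩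
  set D := KaehlerDifferential.D k L with hD
  -- constants
  have Dk : ∀ z : L, IsAlgebraic ℚ (z : ℂ) → D z = 0 := by
    intro z hz
    have : z = algebraMap k L ⟨z, mem_k _ hz⟩ := by
      apply Subtype.ext; rfl
    rw [this]; exact D.map_algebraMap _
  -- logarithmic derivatives
  let P : L → (Ω[L⁄k]) → Prop := fun u y => D u = u • y
  have Pmul : ∀ u v y z, P u y → P v z → P (u * v) (y + z) := by
    intro u v y z hu hv
    change D (u * v) = (u * v) • (y + z)
    rw [Derivation.leibniz, show D u = u • y from hu, show D v = v • z from hv, smul_add,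
      smul_smul, smul_smul, mul_comm v u]
    abel
  have Pk : ∀ z : L, IsAlgebraic ℚ (z : ℂ) → P z 0 := by
    intro z hz
    change D z = z • (0 : Ω[L⁄k])
    rw [Dk z hz, smul_zero]
  have Puniq : ∀ u y z, u ≠ 0 → P u y → P u z → y = z := by
    intro u y z hu h1 h2
    have h3 : u • (y - z) = 0 := by
      rw [smul_sub, ← show D u = u • y from h1, ← show D u = u • z from h2, sub_self]
    exact sub_eq_zero.mp ((smul_eq_zero.mp h3).resolve_left hu)
  let cL : G → L := fun a => ⟨c a, memL a⟩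
  have kL : ∀ z : ℂ, IsAlgebraic ℚ z → z ∈ L := fun z hz =>
    (algebraMap k L ⟨z, mem_k z hz⟩).2
  let EL : G → G → L := fun a b => ⟨E a b, kL _ (Ealg a b)⟩
  let ψL : G → G → L := fun a b => ⟨ψ a b, kL _ (ψalg a b)⟩
  let ωL : G → G → L := fun a b => ⟨ω a b, kL _ (ωalg a b)⟩
  let κL : L := ⟨κ, kL _ κalg⟩
  have cL0 : ∀ a, cL a ≠ 0 := fun a h => hc a (congrArg Subtype.val h)
  let x : G → Ω[L⁄k] := fun a => (cL a)⁻¹ • D (cL a)
  have Px : ∀ a, P (cL a) (x a) := by
    intro a
    change D (cL a) = cL a • ((cL a)⁻¹ • D (cL a))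
    rw [smul_smul, mul_inv_cancel₀ (cL0 a), one_smul]
  have x0 : x 0 = 0 := Puniq (cL 0) _ _ (cL0 0) (Px 0) (Pk (cL 0) c0)
  have xneg : ∀ a, x (-a) = - x a := by
    intro a
    by_cases ha : a = 0
    · subst ha; rw [neg_zero, x0, neg_zero]
    · have h1 : P (cL a * cL (-a)) (x a + x (-a)) := Pmul _ _ _ _ (Px a) (Px (-a))
      have h2 : P (cL a * cL (-a)) 0 := Pk _ (cinv a ha)
      have h3 := Puniq _ _ _ (mul_ne_zero (cL0 a) (cL0 (-a))) h1 h2
      exact eq_neg_of_add_eq_zero_right h3
  have coe_inj : Function.Injective (Subtype.val : L → ℂ) := Subtype.val_injective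
  have FTL : ∀ p, p ≠ 0 → ∀ q, ∑ a, cL a * cL (p - a) * ψL p a * EL a q
      = (κL * cL p) * (cL q * cL (-p - q) * ωL p q) := by
    intro p hp q
    apply coe_inj
    have := FT p hp q
    push_cast
    exact this
  have xp : ∀ p, p ≠ 0 → x p = 0 := by
    intro p hp
    obtain ⟨θ, hθ, hθ1, hθ0, hθp⟩ := phase p hp
    have θL : θ ∈ L := by
      have : θ * c 0 ^ 2 ∈ L := by
        rw [← hθ0]
        exact L.mul_mem (L.mul_mem (L.mul_mem (memL _) (memL _)) (kL _ (ψalg _ _)))
          (L.mul_mem (L.mul_mem (memL _) (memL _)) (kL _ (ωalg _ _)))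
      have h2 : θ = θ * c 0 ^ 2 / c 0 ^ 2 := by
        field_simp [hc 0]
      rw [h2]
      exact L.div_mem this (pow_mem (memL 0) 2)
    have res := al28_logderiv cL (ψL p) (ωL p) x EL p hp (κL * cL p) ⟨θ, θL⟩ (cL 0 ^ 2)
      x0 xneg (fun a b => coe_inj (Esymm a b)) (fun a b => coe_inj (Eneg a b)) (FTL p hp) ?_
      (fun a h1 h2 => coe_inj (hθ1 a h1 h2)) (coe_inj hθ0) (coe_inj hθp)
      (mul_ne_zero (fun h => hκ (congrArg Subtype.val h)) (cL0 p))
      (fun h => hθ (congrArg Subtype.val h))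
    · refine (smul_eq_zero.mp res).resolve_left ?_
      intro h
      apply hn
      have h9 := congrArg (algebraMap L ℂ) h
      rw [map_sub, map_add, map_mul, map_pow, map_natCast, map_ofNat, map_zero] at h9
      exact h9
    · intro q
      have hD := congrArg D (FTL p hp q)
      rw [map_sum] at hD
      have hl : ∀ a, D (cL a * cL (p - a) * ψL p a * EL a q)
          = (cL a * cL (p - a) * ψL p a * EL a q) • (x a + x (p - a)) := by
        intro a
        have := Pmul _ _ _ _ (Pmul _ _ _ _ (Pmul _ _ _ _ (Px a) (Px (p - a)))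
          (Pk (ψL p a) (ψalg p a))) (Pk (EL a q) (Ealg a q))
        rw [add_zero, add_zero] at this
        exact this
      simp_rw [hl] at hD
      rw [hD]
      have := Pmul _ _ _ _ (Pmul _ _ _ _ (Pk κL κalg) (Px p))
        (Pmul _ _ _ _ (Pmul _ _ _ _ (Px q) (Px (-p - q))) (Pk (ωL p q) (ωalg p q)))
      have h4 : D ((κL * cL p) * (cL q * cL (-p - q) * ωL p q))
        = ((κL * cL p) * (cL q * cL (-p - q) * ωL p q)) • (0 + x p + (x q + x (-p - q) + 0)) := this
      rw [h4, zero_add, add_zero, add_assoc]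
  have Dc : ∀ a, D (cL a) = 0 := by
    intro a
    by_cases ha : a = 0
    · subst ha; exact Dk (cL 0) c0
    · have := Px a
      rw [xp a ha] at this
      rw [show D (cL a) = cL a • (0 : Ω[L⁄k]) from this, smul_zero]
  have D0' : ∀ y : ℂ, y ∈ L → ∀ z : L, (z : ℂ) = y → D z = 0 := by
    intro y hy
    refine IntermediateField.adjoin_induction (F := k) (s := Set.range c)
      (p := fun y _ => ∀ z : L, (z : ℂ) = y → D z = 0) ?_ ?_ ?_ ?_ ?_ hy
    · rintro y ⟨a, rfl⟩ z hz
      rw [show z = cL a from coe_inj hz]; exact Dc a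
    · intro y z hz
      rw [show z = algebraMap k L y from coe_inj hz]; exact D.map_algebraMap y
    · intro y y' hy hy' h1 h2 z hz
      rw [show z = (⟨y, hy⟩ : L) + (⟨y', hy'⟩ : L) from coe_inj hz, map_add, h1 _ rfl, h2 _ rfl,
        add_zero]
    · intro y hy h1 z hz
      rw [show z = (⟨y, hy⟩ : L)⁻¹ from coe_inj hz, Derivation.leibniz_inv, h1 _ rfl, smul_zero]
    · intro y y' hy hy' h1 h2 z hz
      rw [show z = (⟨y, hy⟩ : L) * (⟨y', hy'⟩ : L) from coe_inj hz, Derivation.leibniz,
        h1 ⟨y, hy⟩ rfl, h2 ⟨y', hy'⟩ rfl, smul_zero, smul_zero, add_zero]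
  have D0 : ∀ z : L, D z = 0 := fun z => D0' z z.2 z rfl
  have sub : Subsingleton (Ω[L⁄k]) := by
    have h1 : Submodule.span L (Set.range D) = ⊤ := KaehlerDifferential.span_range_derivation k L
    have h2 : Set.range D ⊆ {0} := by rintro _ ⟨z, rfl⟩; exact D0 z
    have h3 : (⊤ : Submodule L (Ω[L⁄k])) ≤ ⊥ := by
      rw [← h1]; exact (Submodule.span_mono h2).trans (by simp)
    exact (Submodule.subsingleton_iff L).mp (subsingleton_of_bot_eq_top (le_antisymm bot_le h3))
  have unr : Algebra.FormallyUnramified k L := (Algebra.formallyUnramified_iff k L).mpr sub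
  have sep : Algebra.IsSeparable k L := (Algebra.FormallyUnramified.iff_isSeparable k L).mp unr
  have alg : Algebra.IsAlgebraic k L := sep.isAlgebraic
  intro a
  have h6 : IsAlgebraic k (cL a) := alg.isAlgebraic (cL a)
  have h7 : IsAlgebraic k (c a) := by
    have := h6.algebraMap (A := ℂ)
    exact this
  have h8 : Algebra.IsAlgebraic ℚ k := algebraicClosure.isAlgebraic ℚ ℂ
  exact h7.restrictScalars ℚ

end Pool.MP_d0f9e0_co.AL
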