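import Pool.Agent.Lib.MP_d0f9e0_co.DS71e
import Pool.Agent.Lib.MP_d0f9e0_co.AN.Defs

/-!
# The Faddeev normalised double sine function and the double sine function

For every function `s` with the interface `SS η s` one has
`s z = gd η z * exp (π i B22 η z / 2)`.
-/

set_option autoImplicit false

open MeasureTheory Filter Topology Set

namespace Pool.Agent.DS71

open Pool.Agent.Lib.MP_d0f9e0_co.AN (B22 SS)
open Pool.MP_d0f9e0_co.CS (ee)

theorem gd_ne_zero (η : ℝ) (z : ℂ) : gd η z ≠ 0 := inv_ne_zero (Sd_ne_zero 1 η z)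

theorem gd_add_one {η : ℝ} (hη : 1 < η) {z : ℂ} (h0 : 0 < z.re) (h1 : z.re < η) :
    gd η (z + 1) = 2 * Complex.sin (Real.pi * z / η) * gd η z := by
  have h := Sd_add (w1 := 1) (w2 := η) one_pos (by linarith) h0 h1
  rw [Complex.ofReal_one] at h
  have n1 := Sd_ne_zero 1 η z
  have n2 := Sd_ne_zero 1 η (z + 1)
  unfold gd
  rw [← h]
  have n3 : 2 * Complex.sin (Real.pi * z / η) ≠ 0 := by
    intro h3
    rw [h3, mul_zero] at h
    exact n1 h.symm
  rw [mul_inv, mul_comm (2 * Complex.sin (Real.pi * z / η)) (_ * _), mul_assoc,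
    inv_mul_cancel₀ n3, mul_one]

theorem gd_add_eta {η : ℝ} (hη : 1 < η) {z : ℂ} (h0 : 0 < z.re) (h1 : z.re < 1) :
    gd η (z + η) = 2 * Complex.sin (Real.pi * z) * gd η z := by
  have h := Sd_add' (w1 := 1) (w2 := η) one_pos (by linarith) h0 h1
  rw [Complex.ofReal_one, div_one] at h
  have n1 := Sd_ne_zero 1 η z
  have n2 := Sd_ne_zero 1 η (z + η)
  unfold gd
  rw [← h]
  have n3 : 2 * Complex.sin (Real.pi * z) ≠ 0 := by
    intro h3
    rw [h3, mul_zero] at h
    exact n1 h.symm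
  rw [mul_inv, mul_comm (2 * Complex.sin (Real.pi * z)) (_ * _), mul_assoc,
    inv_mul_cancel₀ n3, mul_one]

theorem gd_refl (η : ℝ) (z : ℂ) : gd η z * gd η (1 + η - z) = 1 := by
  have h := Sd_refl 1 η z
  rw [Complex.ofReal_one] at h
  unfold gd
  rw [← mul_inv, h, inv_one]

/-- The function `s = g exp (π i B22 / 2)`. -/
noncomputable def sd (η : ℝ) (z : ℂ) : ℂ :=
  gd η z * Complex.exp (Real.pi * Complex.I * B22 η z / 2)

theorem sd_ne_zero (η : ℝ) (z : ℂ) : sd η z ≠ 0 :=
  mul_ne_zero (gd_ne_zero η z) (Complex.exp_ne_zero _)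

theorem sin_mul_exp (u : ℂ) :
    2 * Complex.sin (Real.pi * u) * Complex.exp (Real.pi * Complex.I * (2 * u - 1) / 2) =
      1 - ee u := by
  have e1 : Complex.exp (Real.pi * Complex.I * (2 * u - 1) / 2) =
      Complex.exp (Real.pi * u * Complex.I) * (-Complex.I) := by
    rw [← Complex.exp_neg_pi_div_two_mul_I, ← Complex.exp_add]
    congr 1
    ring
  have e2 : ee u = Complex.exp (Real.pi * u * Complex.I) * Complex.exp (Real.pi * u * Complex.I) := by
    rw [ee, ← Complex.exp_add]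
    congr 1
    ring
  have e3 : Complex.exp (-(Real.pi * u) * Complex.I) * Complex.exp (Real.pi * u * Complex.I) = 1 := by
    rw [← Complex.exp_add]
    have : -(Real.pi * u) * Complex.I + Real.pi * u * Complex.I = 0 := by ring
    rw [this, Complex.exp_zero]
  rw [e1, e2, Complex.sin]
  linear_combination e3 - (Complex.exp (-(Real.pi * u) * Complex.I) *
    Complex.exp (Real.pi * u * Complex.I) - Complex.exp (Real.pi * u * Complex.I) *
    Complex.exp (Real.pi * u * Complex.I)) * Complex.I_sq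

theorem differentiable_B22 (η : ℝ) : Differentiable ℂ (B22 η) := by
  unfold B22
  fun_prop

theorem differentiableOn_sd {η : ℝ} (hη : 1 < η) :
    DifferentiableOn ℂ (sd η) {z : ℂ | 0 < z.re ∧ z.re < 1 + η} := by
  have h := differentiableOn_Sd (w1 := 1) (w2 := η) one_pos (by linarith)
  refine DifferentiableOn.mul (h.inv fun z _ => Sd_ne_zero 1 η z) ?_
  have h2 : Differentiable ℂ fun z : ℂ => Complex.exp (Real.pi * Complex.I * B22 η z / 2) := by
    have := differentiable_B22 η
    fun_prop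
  exact h2.differentiableOn

theorem sd_add_one {η : ℝ} (hη : 1 < η) {z : ℂ} (h0 : 0 < z.re) (h1 : z.re < η) :
    sd η (z + 1) = (1 - ee (z / η)) * sd η z := by
  have hc : (η : ℂ) ≠ 0 := Complex.ofReal_ne_zero.2 (by linarith)
  have e1 : Real.pi * Complex.I * B22 η (z + 1) / 2 =
      Real.pi * Complex.I * B22 η z / 2 + Real.pi * Complex.I * (2 * (z / η) - 1) / 2 := by
    unfold B22
    field_simp
    ring
  unfold sd
  rw [gd_add_one hη h0 h1, e1, Complex.exp_add, ← sin_mul_exp, mul_div_assoc]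
  ring

theorem sd_add_eta {η : ℝ} (hη : 1 < η) {z : ℂ} (h0 : 0 < z.re) (h1 : z.re < 1) :
    sd η (z + η) = (1 - ee z) * sd η z := by
  have hc : (η : ℂ) ≠ 0 := Complex.ofReal_ne_zero.2 (by linarith)
  have e1 : Real.pi * Complex.I * B22 η (z + η) / 2 =
      Real.pi * Complex.I * B22 η z / 2 + Real.pi * Complex.I * (2 * z - 1) / 2 := by
    unfold B22
    field_simp
    ring
  unfold sd
  rw [gd_add_eta hη h0 h1, e1, Complex.exp_add, ← sin_mul_exp]
  ring

theorem sd_refl {η : ℝ} (hη : 1 < η) (z : ℂ) :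
    sd η z * sd η (1 + η - z) = Complex.exp (Real.pi * Complex.I * B22 η z) := by
  have hc : (η : ℂ) ≠ 0 := Complex.ofReal_ne_zero.2 (by linarith)
  have e1 : B22 η (1 + η - z) = B22 η z := by
    unfold B22
    ring
  unfold sd
  rw [e1]
  have h := gd_refl η z
  calc _ = (gd η z * gd η (1 + η - z)) * (Complex.exp (Real.pi * Complex.I * B22 η z / 2) *
        Complex.exp (Real.pi * Complex.I * B22 η z / 2)) := by ring
    _ = _ := by
      rw [h, one_mul, ← Complex.exp_add]
      congr 1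
      ring

theorem gd_ofReal (η x : ℝ) : ∃ r : ℝ, 0 < r ∧ gd η (x : ℂ) = (r : ℂ) := by
  refine ⟨(Real.exp (-(L2 1 η ((1 + η - 2 * x : ℝ) : ℂ)).re))⁻¹, inv_pos.2 (Real.exp_pos _), ?_⟩
  unfold gd
  rw [Sd_ofReal, Complex.ofReal_inv]

/-- The Faddeev normalised double sine function is unique. -/
theorem SS_eq {η : ℝ} {s : ℂ → ℂ} (hs : SS η s) {z : ℂ} (h0 : 0 < z.re) (h1 : z.re < 1 + η) :
    s z = sd η z := by
  have hη := hs.one_lt
  have h2 : ∀ z w : ℂ, 0 < z.re → z.re < 1 + η → 0 < w.re → w.re < 1 + η →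
      s z / sd η z = s w / sd η w := by
    intro z w hz hz' hw hw'
    refine B94.two_periods (f := fun z => s z / sd η z) (a := 0) (b := 1 + η) hs.irr hη
      (by linarith) (hs.diff.div (differentiableOn_sd hη) fun z _ => sd_ne_zero η z) ?_ ?_
      hz hz' hw hw'
    · intro z hz1 hz2
      have hz3 : z.re < η := by linarith
      show s (z + 1) / sd η (z + 1) = s z / sd η z
      rw [hs.add_one z hz1 hz3, sd_add_one hη hz1 hz3]
      have h3 : (1 - ee (z / η)) ≠ 0 := by
        intro h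
        have := sd_add_one hη hz1 hz3
        rw [h, zero_mul] at this
        exact sd_ne_zero η (z + 1) this
      rw [mul_div_mul_left _ _ h3]
    · intro z hz1 hz2
      have hz3 : z.re < 1 := by linarith
      show s (z + η) / sd η (z + η) = s z / sd η z
      rw [hs.add_eta z hz1 hz3, sd_add_eta hη hz1 hz3]
      have h3 : (1 - ee z) ≠ 0 := by
        intro h
        have := sd_add_eta hη hz1 hz3
        rw [h, zero_mul] at this
        exact sd_ne_zero η (z + η) this
      rw [mul_div_mul_left _ _ h3]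
  set C : ℂ := s 1 / sd η 1 with hC
  have hC1 : ∀ z : ℂ, 0 < z.re → z.re < 1 + η → s z = C * sd η z := by
    intro z hz hz'
    have := h2 z 1 hz hz' (by simp) (by simp; linarith)
    rw [← hC] at this
    rw [← this, div_mul_cancel₀ _ (sd_ne_zero η z)]
  have hCsq : C * C = 1 := by
    have h3 := hs.refl 1 (by simp) (by simp; linarith)
    rw [hC1 1 (by simp) (by simp; linarith), hC1 (1 + η - 1) (by simp; linarith)
      (by simp)] at h3
    have h4 := sd_refl hη 1
    have h5 := Complex.exp_ne_zero (Real.pi * Complex.I * B22 η 1)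
    apply mul_right_cancel₀ h5
    rw [← h4] at h3 ⊢
    linear_combination h3
  obtain ⟨r, hr, hr'⟩ := gd_ofReal η 1
  have hreal := hs.real 1 one_pos (by linarith)
  rw [hC1 _ (by simp) (by simp; linarith)] at hreal
  have h6 : C * r = ((‖C * sd η ((1 : ℝ) : ℂ)‖ : ℝ) : ℂ) := by
    have h7 := Complex.exp_ne_zero (Real.pi * Complex.I * B22 η ((1 : ℝ) : ℂ) / 2)
    apply mul_right_cancel₀ h7
    rw [← hreal]
    unfold sd
    rw [hr']
    ring
  have hCpos : ∃ q : ℝ, 0 ≤ q ∧ C = (q : ℂ) := by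
    refine ⟨‖C * sd η ((1 : ℝ) : ℂ)‖ / r, by positivity, ?_⟩
    have hrc : (r : ℂ) ≠ 0 := Complex.ofReal_ne_zero.2 hr.ne'
    rw [Complex.ofReal_div, ← h6, mul_div_cancel_right₀ _ hrc]
  obtain ⟨q, hq, hq'⟩ := hCpos
  have hq1 : q = 1 := by
    rw [hq'] at hCsq
    have : q * q = 1 := by exact_mod_cast hCsq
    nlinarith
  rw [hC1 z h0 h1, hq', hq1, Complex.ofReal_one, one_mul]

/-- The value on the real line. -/
theorem SS_norm {η : ℝ} {s : ℂ → ℂ} (hs : SS η s) {x : ℝ} (h0 : 0 < x) (h1 : x < 1 + η) :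
    ‖s x‖ = ((Sd 1 η x).re)⁻¹ := by
  have h := SS_eq hs (z := x) (by simpa using h0) (by simpa using h1)
  have e1 : B22 η (x : ℂ) = (((x ^ 2 - (1 + η) * x + (1 + η ^ 2 + 3 * η) / 6) / η : ℝ) : ℂ) := by
    unfold B22
    push_cast
    rfl
  have e2 : Real.pi * Complex.I * B22 η x / 2 =
      ((Real.pi * ((x ^ 2 - (1 + η) * x + (1 + η ^ 2 + 3 * η) / 6) / η) / 2 : ℝ) : ℂ) *
        Complex.I := by
    rw [e1]
    push_cast
    ring
  rw [h, sd, norm_mul, e2, Complex.norm_exp_ofReal_mul_I, mul_one, gd, norm_inv]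
  rw [Sd_ofReal, Complex.norm_real, Real.norm_eq_abs, abs_of_pos (Real.exp_pos _),
    Complex.ofReal_re]

end Pool.Agent.DS71
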