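import Mathlib

/-!
# Tools for the beta integral of the double sine

* `holo_int`: an integral with a parameter is holomorphic if the integrand is, and is locally
  dominated;
* `shift_const`: an integral over a vertical line does not depend on the line;
* `two_periods`: an entire function with two incommensurable real periods is constant, and the
  same for a function on a vertical strip which is wider than both periods;
* `integral_sech`: the integral of `1 / (2 cosh (pi y))`.
-/

set_option autoImplicit false

open MeasureTheory Filter Topology Set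

namespace Pool.Agent.B94

/-- An integral with a parameter is holomorphic if the integrand is and is locally dominated. -/
theorem holo_int {F : ℂ → ℝ → ℂ} {U : Set ℂ} (hU : IsOpen U)
    (hF : ∀ y, DifferentiableOn ℂ (fun p => F p y) U)
    (hm : ∀ p ∈ U, AEStronglyMeasurable (F p) volume)
    (hb : ∀ p0 ∈ U, ∃ bd : ℝ → ℝ, Integrable bd ∧ ∀ᶠ p in 𝓝 p0, ∀ y, ‖F p y‖ ≤ bd y) :
    DifferentiableOn ℂ (fun p => ∫ y, F p y) U := by
  intro p0 hp0
  obtain ⟨bd, hbi, hbd⟩ := hb p0 hp0
  have h0 : ∀ᶠ p in 𝓝 p0, p ∈ U := hU.mem_nhds hp0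
  have h1 : ∀ᶠ p in 𝓝 p0, p ∈ U ∧ ∀ y, ‖F p y‖ ≤ bd y := h0.and hbd
  obtain ⟨r, hr, hball⟩ := Metric.eventually_nhds_iff_ball.1 h1
  have hsub : Metric.ball p0 r ⊆ U := fun p hp => (hball p hp).1
  have hdiff : ∀ y, ∀ p ∈ Metric.ball p0 r, HasDerivAt (F · y) (deriv (fun p => F p y) p) p := by
    intro y p hp
    exact ((hF y).differentiableAt (hU.mem_nhds (hsub hp))).hasDerivAt
  have hder : ∀ y, ∀ p ∈ Metric.ball p0 (r / 2),
      ‖deriv (fun p => F p y) p‖ ≤ bd y / (r / 2) := by
    intro y p hp
    have hin : Metric.closedBall p (r / 4) ⊆ Metric.ball p0 r := by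
      intro z hz
      rw [Metric.mem_closedBall] at hz
      rw [Metric.mem_ball] at hp ⊢
      have := dist_triangle z p p0
      linarith
    have hin2 : Metric.closedBall p (r / 2) ⊆ Metric.ball p0 r := by
      intro z hz
      rw [Metric.mem_closedBall] at hz
      rw [Metric.mem_ball] at hp ⊢
      have := dist_triangle z p p0
      linarith
    refine Complex.norm_deriv_le_of_forall_mem_sphere_norm_le (by positivity) ?_ ?_
    · refine DifferentiableOn.diffContOnCl_ball (U := U) (hF y) ?_
      exact hin2.trans hsub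
    · intro z hz
      exact (hball z (hin2 (Metric.sphere_subset_closedBall hz))).2 y
  have hmeas' : AEStronglyMeasurable (fun y => deriv (fun p => F p y) p0) volume := by
    have hlim : ∀ y, Tendsto (fun n : ℕ => ((r / (n + 2) : ℝ) : ℂ)⁻¹ *
        (F (p0 + ((r / (n + 2) : ℝ) : ℂ)) y - F p0 y)) atTop
        (𝓝 (deriv (fun p => F p y) p0)) := by
      intro y
      have hd := hdiff y p0 (Metric.mem_ball_self hr)
      have h2 := hd.tendsto_slope_zero
      have h3 : Tendsto (fun n : ℕ => ((r / (n + 2) : ℝ) : ℂ)) atTop (𝓝[≠] 0) := by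
        rw [tendsto_nhdsWithin_iff]
        constructor
        · have h4 : Tendsto (fun n : ℕ => (r / (n + 2) : ℝ)) atTop (𝓝 0) := by
            refine Tendsto.div_atTop tendsto_const_nhds ?_
            exact tendsto_atTop_add_const_right _ _ tendsto_natCast_atTop_atTop
          have h5 : Tendsto (fun x : ℝ => (x : ℂ)) (𝓝 0) (𝓝 ((0 : ℝ) : ℂ)) :=
            Complex.continuous_ofReal.tendsto 0
          rw [Complex.ofReal_zero] at h5
          exact h5.comp h4
        · refine Eventually.of_forall fun n => ?_
          simp only [mem_compl_iff, mem_singleton_iff, Complex.ofReal_eq_zero]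
          positivity
      have h6 := h2.comp h3
      refine h6.congr fun n => ?_
      simp [smul_eq_mul]
    refine aestronglyMeasurable_of_tendsto_ae (u := atTop) (f := fun n : ℕ => fun y =>
        ((r / (n + 2) : ℝ) : ℂ)⁻¹ * (F (p0 + ((r / (n + 2) : ℝ) : ℂ)) y - F p0 y)) ?_
        (Eventually.of_forall hlim)
    intro n
    refine AEStronglyMeasurable.const_mul ?_ _
    refine (hm _ (hsub ?_)).sub (hm p0 hp0)
    rw [Metric.mem_ball, dist_self_add_left, Complex.norm_real, Real.norm_eq_abs,
      abs_of_pos (by positivity)]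
    rw [div_lt_iff₀ (by positivity)]
    nlinarith [(n.cast_nonneg : (0 : ℝ) ≤ n)]
  have key := hasDerivAt_integral_of_dominated_loc_of_deriv_le (μ := volume)
    (F := F) (F' := fun p y => deriv (fun p => F p y) p) (x₀ := p0)
    (s := Metric.ball p0 (r / 2)) (bound := fun y => bd y / (r / 2))
    (Metric.ball_mem_nhds p0 (by positivity))
    (by filter_upwards [hU.mem_nhds hp0] with p hp using hm p hp)
    (Integrable.mono' hbi (hm p0 hp0)
      (Eventually.of_forall fun y => (hball p0 (Metric.mem_ball_self hr)).2 y))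
    hmeas'
    (Eventually.of_forall fun y p hp => hder y p hp)
    (hbi.div_const _)
    (Eventually.of_forall fun y p hp => hdiff y p
      (Metric.ball_subset_ball (by linarith) hp))
  exact key.2.differentiableAt.differentiableWithinAt

/-- The integral over a vertical line in a strip does not depend on the line. -/
theorem shift_const {f : ℂ → ℂ} {a b : ℝ}
    (hf : DifferentiableOn ℂ f {z : ℂ | a < z.re ∧ z.re < b})
    (hb : ∀ z0 : ℂ, a < z0.re → z0.re < b → ∃ bd : ℝ → ℝ, Integrable bd ∧
      ∀ᶠ z in 𝓝 z0, ∀ y : ℝ, ‖f (z + y * Complex.I)‖ ≤ bd y)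
    {x1 x2 : ℝ} (h1 : a < x1) (h1' : x1 < b) (h2 : a < x2) (h2' : x2 < b) :
    ∫ y : ℝ, f (x1 + y * Complex.I) = ∫ y : ℝ, f (x2 + y * Complex.I) := by
  set U : Set ℂ := {z : ℂ | a < z.re ∧ z.re < b} with hUdef
  have hU : IsOpen U :=
    (isOpen_lt continuous_const Complex.continuous_re).inter
      (isOpen_lt Complex.continuous_re continuous_const)
  have hin : ∀ z ∈ U, ∀ y : ℝ, z + y * Complex.I ∈ U := by
    intro z hz y
    simpa [hUdef] using hz
  have hconv : Convex ℝ U := by
    have e : U = Complex.reLm ⁻¹' Ioo a b := by ext z; simp [hUdef]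
    rw [e]
    exact (convex_Ioo a b).linear_preimage _
  have hH : DifferentiableOn ℂ (fun z => ∫ y : ℝ, f (z + y * Complex.I)) U := by
    refine holo_int hU ?_ ?_ ?_
    · intro y
      refine hf.comp ?_ ?_
      · exact (differentiable_id.add_const _).differentiableOn
      · intro z hz
        exact hin z hz y
    · intro p hp
      have hc : Continuous (fun y : ℝ => f (p + y * Complex.I)) := by
        rw [continuous_iff_continuousAt]
        intro y
        have h3 : ContinuousAt f (p + y * Complex.I) :=
          (hf.differentiableAt (hU.mem_nhds (hin p hp y))).continuousAt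
        have h4 : ContinuousAt (fun y : ℝ => p + (y : ℂ) * Complex.I) y := by fun_prop
        exact ContinuousAt.comp (f := fun y : ℝ => p + (y : ℂ) * Complex.I) h3 h4
      exact hc.aestronglyMeasurable
    · intro p0 hp0
      exact hb p0 hp0.1 hp0.2
  have htr : ∀ (z : ℂ) (u : ℝ), (∫ y : ℝ, f (z + u * Complex.I + y * Complex.I)) =
      ∫ y : ℝ, f (z + y * Complex.I) := by
    intro z u
    have := integral_add_left_eq_self (μ := (volume : Measure ℝ))
      (fun y : ℝ => f (z + y * Complex.I)) u
    rw [← this]
    refine integral_congr_ae (Eventually.of_forall fun y => ?_)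
    simp only
    congr 1
    push_cast
    ring
  have hder : U.EqOn (deriv (fun z => ∫ y : ℝ, f (z + y * Complex.I))) 0 := by
    intro z hz
    set H : ℂ → ℂ := fun z => ∫ y : ℝ, f (z + y * Complex.I) with hHdef
    have hd : HasDerivAt H (deriv H z) z :=
      (hH.differentiableAt (hU.mem_nhds hz)).hasDerivAt
    have h5 : HasDerivAt (fun t : ℝ => z + (t : ℂ) * Complex.I) Complex.I 0 := by
      have h6 : HasDerivAt (fun t : ℝ => (t : ℂ)) 1 (0 : ℝ) := Complex.ofRealCLM.hasDerivAt
      simpa using (h6.mul_const Complex.I).const_add z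
    have h7 : HasDerivAt (fun t : ℝ => H (z + (t : ℂ) * Complex.I)) (deriv H z * Complex.I) 0 := by
      have h8 : HasDerivAt H (deriv H z) (z + ((0 : ℝ) : ℂ) * Complex.I) := by simpa using hd
      exact HasDerivAt.comp (h₂ := H) (h := fun t : ℝ => z + (t : ℂ) * Complex.I) (0 : ℝ) h8 h5
    have h9 : (fun t : ℝ => H (z + (t : ℂ) * Complex.I)) = fun _ => H z := by
      funext t
      exact htr z t
    rw [h9] at h7
    have h10 := h7.unique (hasDerivAt_const (0 : ℝ) (H z))
    simpa using h10
  have := hU.is_const_of_deriv_eq_zero hconv.isPreconnected hH hder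
    (x := (x1 : ℂ)) (y := (x2 : ℂ)) ⟨by simpa using h1, by simpa using h1'⟩
    ⟨by simpa using h2, by simpa using h2'⟩
  exact this

/-- An entire function with the periods `1` and `β`, `β` irrational, is constant. -/
theorem const_of_periods {F : ℂ → ℂ} {β : ℝ} (hβ : Irrational β) (hF : Differentiable ℂ F)
    (h1 : ∀ z, F (z + 1) = F z) (h2 : ∀ z, F (z + β) = F z) (z w : ℂ) : F z = F w := by
  have hdense : Dense (AddSubgroup.closure {β, (1 : ℝ)} : Set ℝ) := by
    rw [dense_addSubgroupClosure_pair_iff]
    simpa using hβ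
  have hper : ∀ t ∈ AddSubgroup.closure {β, (1 : ℝ)}, ∀ z : ℂ, F (z + (t : ℂ)) = F z := by
    intro t ht
    refine AddSubgroup.closure_induction (p := fun (t : ℝ) _ => ∀ z : ℂ, F (z + (t : ℂ)) = F z)
      ?_ ?_ ?_ ?_ ht
    · intro x hx z
      rcases hx with rfl | hx
      · exact h2 z
      · rw [Set.mem_singleton_iff] at hx
        subst hx
        simpa using h1 z
    · intro z; simp
    · intro x y _ _ hx hy z
      push_cast
      rw [← add_assoc, hy, hx]
    · intro x _ hx z
      have := hx (z + ((-x : ℝ) : ℂ))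
      rw [← this]
      congr 1
      push_cast
      ring
  have hall : ∀ (t : ℝ) (z : ℂ), F (z + (t : ℂ)) = F z := by
    intro t z
    have hc : Continuous (fun t : ℝ => F (z + (t : ℂ))) :=
      hF.continuous.comp (by fun_prop)
    have := Continuous.ext_on hdense hc (continuous_const (y := F z)) (fun t ht => hper t ht z)
    exact congrFun this t
  refine is_const_of_deriv_eq_zero hF (fun z => ?_) z w
  have hd : HasDerivAt F (deriv F z) z := (hF z).hasDerivAt
  have h5 : HasDerivAt (fun t : ℝ => z + (t : ℂ)) 1 0 := by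
    have h6 : HasDerivAt (fun t : ℝ => (t : ℂ)) 1 (0 : ℝ) := Complex.ofRealCLM.hasDerivAt
    simpa using h6.const_add z
  have h7 : HasDerivAt (fun t : ℝ => F (z + (t : ℂ))) (deriv F z * 1) 0 := by
    have h8 : HasDerivAt F (deriv F z) (z + ((0 : ℝ) : ℂ)) := by simpa using hd
    exact HasDerivAt.comp (h₂ := F) (h := fun t : ℝ => z + (t : ℂ)) (0 : ℝ) h8 h5
  have h9 : (fun t : ℝ => F (z + (t : ℂ))) = fun _ => F z := by
    funext t
    exact hall t z
  rw [h9] at h7
  have h10 := h7.unique (hasDerivAt_const (0 : ℝ) (F z))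
  simpa using h10

/-- A holomorphic function on a vertical strip of width larger than `β > 1`, `β` irrational,
with the periods `1` and `β` in the strip, is constant. -/
theorem two_periods {f : ℂ → ℂ} {a b β : ℝ} (hβ : Irrational β) (hβ1 : 1 < β) (hab : a + β < b)
    (hf : DifferentiableOn ℂ f {z : ℂ | a < z.re ∧ z.re < b})
    (h1 : ∀ z : ℂ, a < z.re → z.re + 1 < b → f (z + 1) = f z)
    (h2 : ∀ z : ℂ, a < z.re → z.re + β < b → f (z + β) = f z)
    {z w : ℂ} (hz : a < z.re) (hz' : z.re < b) (hw : a < w.re) (hw' : w.re < b) :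
    f z = f w := by
  set U : Set ℂ := {z : ℂ | a < z.re ∧ z.re < b} with hUdef
  have hU : IsOpen U :=
    (isOpen_lt continuous_const Complex.continuous_re).inter
      (isOpen_lt Complex.continuous_re continuous_const)
  have hnat : ∀ (k : ℕ) (z : ℂ), z ∈ U → z + k ∈ U → f (z + k) = f z := by
    intro k
    induction k with
    | zero => intro z _ _; simp
    | succ k ih =>
      intro z hz hz2
      have e : z + ((k + 1 : ℕ) : ℂ) = z + k + 1 := by push_cast; ring
      have hzz : z + k ∈ U := by
        refine ⟨?_, ?_⟩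
        · have := hz.1
          have hk : (0 : ℝ) ≤ k := k.cast_nonneg
          simp only [Complex.add_re, Complex.natCast_re]
          linarith
        · have := hz2.2
          simp only [Complex.add_re, Complex.natCast_re] at this ⊢
          push_cast at this
          linarith
      rw [e, h1 (z + k) hzz.1 ?_, ih z hz hzz]
      have := hz2.2
      rw [e] at this
      simpa using this
  have hint : ∀ (k : ℤ) (z : ℂ), z ∈ U → z + k ∈ U → f (z + k) = f z := by
    intro k z hz hzk
    rcases Int.eq_nat_or_neg k with ⟨n, rfl | rfl⟩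
    · exact hnat n z hz (by simpa using hzk)
    · have := hnat n (z + ((-(n : ℤ) : ℤ) : ℂ)) hzk (by simpa using hz)
      rw [← this]
      congr 1
      push_cast
      ring
  obtain ⟨c, hc1, hc2⟩ : ∃ c, a < c ∧ c + 1 < b := ⟨(a + (b - 1)) / 2, by linarith, by linarith⟩
  set F : ℂ → ℂ := fun z => f (z - (⌊z.re - c⌋ : ℤ)) with hFdef
  have hmem : ∀ z : ℂ, z - (⌊z.re - c⌋ : ℤ) ∈ U := by
    intro z
    have e1 := Int.floor_le (z.re - c)
    have e2 := Int.lt_floor_add_one (z.re - c)
    refine ⟨?_, ?_⟩
    · simp only [Complex.sub_re, Complex.intCast_re]; linarith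
    · simp only [Complex.sub_re, Complex.intCast_re]; linarith
  have hFn : ∀ (z : ℂ) (n : ℤ), z - n ∈ U → F z = f (z - n) := by
    intro z n hzn
    have := hint (n - ⌊z.re - c⌋) (z - n) hzn (by
      have := hmem z
      convert this using 1
      push_cast
      ring)
    rw [← this, hFdef]
    simp only
    congr 1
    push_cast
    ring
  have hFd : Differentiable ℂ F := by
    intro z0
    have hopen : ∀ᶠ z : ℂ in 𝓝 z0, z - ((⌊z0.re - c⌋ : ℤ) : ℂ) ∈ U := by
      have hcont : ContinuousAt (fun z : ℂ => z - ((⌊z0.re - c⌋ : ℤ) : ℂ)) z0 := by fun_prop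
      exact hcont.eventually (hU.mem_nhds (hmem z0))
    have heq : F =ᶠ[𝓝 z0] fun z => f (z - (⌊z0.re - c⌋ : ℤ)) := by
      filter_upwards [hopen] with z hz using hFn z _ hz
    refine DifferentiableAt.congr_of_eventuallyEq ?_ heq
    have h3 : DifferentiableAt ℂ f (z0 - (⌊z0.re - c⌋ : ℤ)) :=
      hf.differentiableAt (hU.mem_nhds (hmem z0))
    exact DifferentiableAt.comp (g := f) (f := fun z : ℂ => z - ((⌊z0.re - c⌋ : ℤ) : ℂ)) z0 h3
      (by fun_prop)
  have hFU : ∀ z ∈ U, F z = f z := by
    intro z hz
    have := hFn z 0 (by simpa using hz)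
    simpa using this
  have hF1 : ∀ z, F (z + 1) = F z := by
    intro z
    have := hFn (z + 1) (⌊z.re - c⌋ + 1) (by
      have := hmem z
      convert this using 1
      push_cast
      ring)
    rw [this, hFdef]
    simp only
    congr 1
    push_cast
    ring
  have hFβ : ∀ z, F (z + β) = F z := by
    have hA1 : AnalyticOnNhd ℂ (fun z => F (z + β)) univ := by
      refine DifferentiableOn.analyticOnNhd ?_ isOpen_univ
      exact (hFd.comp (differentiable_id.add_const _)).differentiableOn
    have hA2 : AnalyticOnNhd ℂ F univ := hFd.differentiableOn.analyticOnNhd isOpen_univ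
    have hev : (fun z => F (z + β)) =ᶠ[𝓝 (((a + (b - β)) / 2 : ℝ) : ℂ)] F := by
      have hop : IsOpen {z : ℂ | a < z.re ∧ z.re < b - β} :=
        (isOpen_lt continuous_const Complex.continuous_re).inter
          (isOpen_lt Complex.continuous_re continuous_const)
      have hm0 : (((a + (b - β)) / 2 : ℝ) : ℂ) ∈ {z : ℂ | a < z.re ∧ z.re < b - β} := by
        refine ⟨?_, ?_⟩
        · simp only [Complex.ofReal_re]; linarith
        · simp only [Complex.ofReal_re]; linarith
      filter_upwards [hop.mem_nhds hm0] with z hz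
      have hzU : z ∈ U := ⟨hz.1, by have := hz.2; linarith⟩
      have hzU2 : z + β ∈ U := by
        refine ⟨?_, ?_⟩
        · have := hz.1
          simp only [Complex.add_re, Complex.ofReal_re]; linarith
        · have := hz.2
          simp only [Complex.add_re, Complex.ofReal_re]; linarith
      rw [hFU _ hzU2, hFU _ hzU]
      exact h2 z hz.1 (by have := hz.2; linarith)
    have := hA1.eq_of_eventuallyEq hA2 hev
    intro z
    exact congrFun this z
  rw [← hFU z ⟨hz, hz'⟩, ← hFU w ⟨hw, hw'⟩]
  exact const_of_periods hβ hFd hF1 hFβ z w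

/-- The function `exp (-c |y|)` is integrable. -/
theorem integrable_exp_abs {c : ℝ} (hc : 0 < c) (C : ℝ) :
    Integrable (fun y : ℝ => C * Real.exp (-c * |y|)) := by
  refine Integrable.const_mul ?_ C
  have h1 : IntegrableOn (fun y : ℝ => Real.exp (-c * |y|)) (Ioi 0) := by
    refine (integrableOn_congr_fun (fun y hy => ?_) measurableSet_Ioi).1
      (exp_neg_integrableOn_Ioi 0 hc)
    rw [abs_of_pos hy]
  have h2 : IntegrableOn (fun y : ℝ => Real.exp (-c * |y|)) (Iic 0) := by
    refine (integrableOn_congr_fun (fun y hy => ?_) measurableSet_Iic).1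
      (integrableOn_exp_mul_Iic hc 0)
    rw [abs_of_nonpos hy]
    congr 1
    ring
  have := h2.union h1
  rwa [Iic_union_Ioi, integrableOn_univ] at this

/-- The integral of `1 / (2 cosh (pi y))` is `1 / 2`. -/
theorem integral_sech : ∫ y : ℝ, 1 / (2 * Real.cosh (Real.pi * y)) = 1 / 2 := by
  have hpi := Real.pi_pos
  have hd : ∀ y : ℝ, HasDerivAt (fun y => 1 / Real.pi * Real.arctan (Real.exp (Real.pi * y)))
      (1 / (2 * Real.cosh (Real.pi * y))) y := by
    intro y
    have h1 : HasDerivAt (fun y : ℝ => Real.exp (Real.pi * y))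
        (Real.exp (Real.pi * y) * Real.pi) y := by
      have := ((hasDerivAt_id y).const_mul Real.pi).exp
      simpa using this
    have h2 := (h1.arctan).const_mul (1 / Real.pi)
    refine h2.congr_deriv ?_
    rw [Real.cosh_eq, Real.exp_neg]
    have he := Real.exp_pos (Real.pi * y)
    field_simp
    ring
  have hi : Integrable (fun y : ℝ => 1 / (2 * Real.cosh (Real.pi * y))) := by
    refine Integrable.mono' (integrable_exp_abs hpi 1) ?_ ?_
    · exact (Continuous.div continuous_const (by fun_prop)
        (fun y => by have := Real.cosh_pos (Real.pi * y); positivity)).aestronglyMeasurable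
    · refine Eventually.of_forall fun y => ?_
      have hc := Real.cosh_pos (Real.pi * y)
      rw [Real.norm_eq_abs, abs_of_pos (by positivity), div_le_iff₀ (by positivity)]
      have h3 : Real.cosh (Real.pi * y) = Real.cosh (Real.pi * |y|) := by
        rw [← Real.cosh_abs, abs_mul, abs_of_pos hpi]
      rw [h3, Real.cosh_eq]
      have e1 : Real.exp (-Real.pi * |y|) * Real.exp (Real.pi * |y|) = 1 := by
        rw [← Real.exp_add]; simp
      have e2 : 0 ≤ Real.exp (-Real.pi * |y|) * Real.exp (-(Real.pi * |y|)) := by positivity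
      nlinarith
  have htop : Tendsto (fun y => 1 / Real.pi * Real.arctan (Real.exp (Real.pi * y))) atTop
      (𝓝 (1 / Real.pi * (Real.pi / 2))) := by
    refine Tendsto.const_mul _ ?_
    have h1 : Tendsto Real.arctan atTop (𝓝 (Real.pi / 2)) :=
      tendsto_nhds_of_tendsto_nhdsWithin Real.tendsto_arctan_atTop
    exact h1.comp (Real.tendsto_exp_atTop.comp (tendsto_id.const_mul_atTop hpi))
  have hbot : Tendsto (fun y => 1 / Real.pi * Real.arctan (Real.exp (Real.pi * y))) atBot
      (𝓝 (1 / Real.pi * 0)) := by
    refine Tendsto.const_mul _ ?_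
    have h1 : Tendsto Real.arctan (𝓝 0) (𝓝 0) := by
      have := Real.continuous_arctan.tendsto 0
      simpa using this
    exact h1.comp (Real.tendsto_exp_atBot.comp (tendsto_id.const_mul_atBot hpi))
  rw [integral_of_hasDerivAt_of_tendsto hd hi hbot htop]
  field_simp
  norm_num

end Pool.Agent.B94
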