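import Pool.Agent.Lib.MP_d0f9e0_co.DS71b
import Pool.Agent.Lib.MP_d0f9e0_co.B94a

/-!
# The double sine function

`Sd w1 w2 z` for real periods `w1, w2 > 0` on the strip `0 < Re z < w1 + w2`.
-/

set_option autoImplicit false

open MeasureTheory Filter Topology Set
open scoped ComplexConjugate

namespace Pool.Agent.DS71

/-- Half the integral of the kernel `K2`. -/
noncomputable def L2 (w1 w2 : ℝ) (a : ℂ) : ℂ := (1 / 2) * ∫ t : ℝ, K2 w1 w2 a t

/-- The double sine function with the periods `w1`, `w2` (on `0 < Re z < w1 + w2`). -/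
noncomputable def Sd (w1 w2 : ℝ) (z : ℂ) : ℂ := Complex.exp (-(L2 w1 w2 (w1 + w2 - 2 * z)))

theorem Sd_ne_zero (w1 w2 : ℝ) (z : ℂ) : Sd w1 w2 z ≠ 0 := Complex.exp_ne_zero _

theorem K2_comm (w1 w2 : ℝ) (a : ℂ) (t : ℝ) : K2 w1 w2 a t = K2 w2 w1 a t := by
  unfold K2
  rw [mul_right_comm 2 (Real.sinh (w1 * t) : ℂ), mul_right_comm 2 (w1 : ℂ) (w2 : ℂ)]

theorem K2_odd (w1 w2 : ℝ) (a : ℂ) (t : ℝ) : K2 w1 w2 (-a) t = -K2 w1 w2 a t := by
  unfold K2
  rw [neg_mul, Complex.sinh_neg, neg_div, neg_div]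
  ring

theorem K2_conj (w1 w2 : ℝ) (a : ℂ) (t : ℝ) : K2 w1 w2 (conj a) t = conj (K2 w1 w2 a t) := by
  unfold K2
  simp only [map_div₀, map_sub, map_mul, Complex.conj_ofReal, map_ofNat]
  rw [← Complex.sinh_conj]
  simp only [map_mul, Complex.conj_ofReal]

theorem L2_comm (w1 w2 : ℝ) (a : ℂ) : L2 w1 w2 a = L2 w2 w1 a := by
  unfold L2
  congr 1
  exact integral_congr_ae (Eventually.of_forall fun t => K2_comm w1 w2 a t)

theorem L2_neg (w1 w2 : ℝ) (a : ℂ) : L2 w1 w2 (-a) = -L2 w1 w2 a := by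
  unfold L2
  have h : ∫ t : ℝ, K2 w1 w2 (-a) t = -∫ t : ℝ, K2 w1 w2 a t := by
    rw [← integral_neg]
    exact integral_congr_ae (Eventually.of_forall fun t => K2_odd w1 w2 a t)
  rw [h]
  ring

theorem L2_conj (w1 w2 : ℝ) (a : ℂ) : L2 w1 w2 (conj a) = conj (L2 w1 w2 a) := by
  unfold L2
  rw [map_mul, ← integral_conj]
  congr 1
  · rw [map_div₀, map_one, map_ofNat]
  · exact integral_congr_ae (Eventually.of_forall fun t => K2_conj w1 w2 a t)

theorem L2_scale {c : ℝ} (hc : 0 < c) (w1 w2 : ℝ) (a : ℂ) :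
    L2 (c * w1) (c * w2) (c * a) = L2 w1 w2 a := by
  have hcc : (c : ℂ) ≠ 0 := Complex.ofReal_ne_zero.2 hc.ne'
  have h1 : ∀ t : ℝ, K2 (c * w1) (c * w2) (c * a) t = c * K2 w1 w2 a (c * t) := by
    intro t
    unfold K2
    have e1 : c * w1 * t = w1 * (c * t) := by ring
    have e2 : c * w2 * t = w2 * (c * t) := by ring
    have e3 : (c : ℂ) * a * t = a * ((c * t : ℝ) : ℂ) := by push_cast; ring
    rw [e1, e2, e3]
    have e4 : (c : ℂ) * a / (2 * ((c * w1 : ℝ) : ℂ) * ((c * w2 : ℝ) : ℂ) * t) =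
        a / (2 * w1 * w2 * ((c * t : ℝ) : ℂ)) := by
      push_cast
      have : (2 * ((c : ℂ) * w1) * (c * w2) * t) = c * (2 * w1 * w2 * (c * t)) := by ring
      rw [this, mul_div_mul_left _ _ hcc]
    rw [e4]
    generalize (Complex.sinh (a * ((c * t : ℝ) : ℂ)) /
      (2 * (Real.sinh (w1 * (c * t)) : ℂ) * (Real.sinh (w2 * (c * t)) : ℂ)) -
      a / (2 * w1 * w2 * ((c * t : ℝ) : ℂ))) = X
    rw [Complex.ofReal_mul, ← mul_div_assoc, mul_div_mul_left _ _ hcc]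
  unfold L2
  have e2 : ∫ t : ℝ, K2 (c * w1) (c * w2) (c * a) t = c * ∫ t : ℝ, K2 w1 w2 a (c * t) := by
    rw [← integral_const_mul]
    exact integral_congr_ae (Eventually.of_forall h1)
  rw [e2, Measure.integral_comp_mul_left (fun t => K2 w1 w2 a t) c, Complex.real_smul,
    abs_of_pos (inv_pos.2 hc), Complex.ofReal_inv, mul_inv_cancel_left₀ hcc]

theorem Sd_comm (w1 w2 : ℝ) (z : ℂ) : Sd w1 w2 z = Sd w2 w1 z := by
  unfold Sd
  rw [L2_comm, add_comm (w1 : ℂ)]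

/-- The reflection formula. -/
theorem Sd_refl (w1 w2 : ℝ) (z : ℂ) : Sd w1 w2 z * Sd w1 w2 (w1 + w2 - z) = 1 := by
  unfold Sd
  have e : (w1 + w2 - 2 * (w1 + w2 - z) : ℂ) = -(w1 + w2 - 2 * z) := by ring
  rw [e, L2_neg, ← Complex.exp_add]
  simp

theorem Sd_conj (w1 w2 : ℝ) (z : ℂ) : Sd w1 w2 (conj z) = conj (Sd w1 w2 z) := by
  unfold Sd
  rw [← Complex.exp_conj, map_neg, ← L2_conj, map_sub, map_add, map_mul, Complex.conj_ofReal,
    Complex.conj_ofReal, map_ofNat]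

/-- Homogeneity of degree zero. -/
theorem Sd_scale {c : ℝ} (hc : 0 < c) (w1 w2 : ℝ) (z : ℂ) :
    Sd (c * w1) (c * w2) (c * z) = Sd w1 w2 z := by
  unfold Sd
  have e : (((c * w1 : ℝ) : ℂ) + ((c * w2 : ℝ) : ℂ) - 2 * (c * z)) =
      c * (w1 + w2 - 2 * z) := by push_cast; ring
  rw [e, L2_scale hc]

theorem L2_ofReal (w1 w2 x : ℝ) : L2 w1 w2 (x : ℂ) = ((L2 w1 w2 (x : ℂ)).re : ℂ) := by
  have h := L2_conj w1 w2 (x : ℂ)
  rw [Complex.conj_ofReal] at h
  exact (Complex.conj_eq_iff_real.1 h.symm).elim fun r hr => by rw [hr, Complex.ofReal_re]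

/-- On the real line the double sine function is real and positive. -/
theorem Sd_ofReal (w1 w2 x : ℝ) : Sd w1 w2 (x : ℂ) =
    ((Real.exp (-(L2 w1 w2 ((w1 + w2 - 2 * x : ℝ) : ℂ)).re) : ℝ) : ℂ) := by
  unfold Sd
  rw [Complex.ofReal_exp, Complex.ofReal_neg, ← L2_ofReal]
  push_cast
  rfl

theorem Sd_re_pos (w1 w2 x : ℝ) : 0 < (Sd w1 w2 (x : ℂ)).re := by
  rw [Sd_ofReal, Complex.ofReal_re]
  exact Real.exp_pos _

theorem Sd_im (w1 w2 x : ℝ) : (Sd w1 w2 (x : ℂ)).im = 0 := by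
  rw [Sd_ofReal, Complex.ofReal_im]

theorem differentiableOn_L2 {w1 w2 : ℝ} (hw1 : 0 < w1) (hw2 : 0 < w2) :
    DifferentiableOn ℂ (L2 w1 w2) {a : ℂ | |a.re| < w1 + w2} := by
  have h := B94.holo_int (F := fun a t => K2 w1 w2 a t) (isOpen_strip (w1 + w2)) ?_ ?_ ?_
  · exact h.const_mul (1 / 2)
  · intro t
    unfold K2
    fun_prop
  · intro a _
    exact (measurable_K2 w1 w2 a).aestronglyMeasurable
  · intro a ha
    have ha' : |a.re| < w1 + w2 := ha
    set r : ℝ := (w1 + w2 - |a.re|) / 2 with hr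
    have hr0 : 0 < r := by rw [hr]; linarith
    obtain ⟨M, -, hM⟩ := K2_bound hw1 hw2 (e := r) (R := ‖a‖ + r) hr0 (by positivity)
    refine ⟨fun t => M * (1 + t ^ 2)⁻¹, integrable_bd M, ?_⟩
    filter_upwards [Metric.ball_mem_nhds a hr0] with x hx t
    rw [Metric.mem_ball, dist_eq_norm] at hx
    refine hM x t ?_ ?_
    · have h1 : |(x - a).re| ≤ ‖x - a‖ := Complex.abs_re_le_norm _
      rw [Complex.sub_re] at h1
      have h2 : |x.re| ≤ |a.re| + |x.re - a.re| := by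
        calc |x.re| = |a.re + (x.re - a.re)| := by ring_nf
          _ ≤ _ := abs_add_le _ _
      rw [hr] at hx ⊢
      linarith
    · calc ‖x‖ = ‖a + (x - a)‖ := by ring_nf
        _ ≤ ‖a‖ + ‖x - a‖ := norm_add_le _ _
        _ ≤ _ := by linarith

theorem abs_re_lt {w1 w2 : ℝ} {z : ℂ} (h0 : 0 < z.re) (h1 : z.re < w1 + w2) :
    |((w1 + w2 - 2 * z : ℂ)).re| < w1 + w2 := by
  have e : ((w1 + w2 - 2 * z : ℂ)).re = w1 + w2 - 2 * z.re := by simp
  rw [e, abs_lt]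
  constructor <;> linarith

theorem differentiableOn_Sd {w1 w2 : ℝ} (hw1 : 0 < w1) (hw2 : 0 < w2) :
    DifferentiableOn ℂ (Sd w1 w2) {z : ℂ | 0 < z.re ∧ z.re < w1 + w2} := by
  have h1 : DifferentiableOn ℂ (fun z : ℂ => L2 w1 w2 (w1 + w2 - 2 * z))
      {z : ℂ | 0 < z.re ∧ z.re < w1 + w2} := by
    refine (differentiableOn_L2 hw1 hw2).comp (by fun_prop) ?_
    intro z hz
    exact abs_re_lt hz.1 hz.2
  exact h1.neg.cexp

/-- The difference of the kernels. -/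
theorem K2_sub (w1 : ℝ) {w2 : ℝ} (hw1 : 0 < w1) (hw2 : 0 < w2) (a : ℂ) (t : ℝ) :
    K2 w1 w2 a t - K2 w1 w2 (a - 2 * w1) t = w2 * K1 ((a - w1) / w2) (w2 * t) := by
  rcases eq_or_ne t 0 with rfl | ht
  · rw [mul_zero, K2_zero, K2_zero, K1_zero]
    ring
  · have htc : (t : ℂ) ≠ 0 := Complex.ofReal_ne_zero.2 ht
    have hw1c : (w1 : ℂ) ≠ 0 := Complex.ofReal_ne_zero.2 hw1.ne'
    have hw2c : (w2 : ℂ) ≠ 0 := Complex.ofReal_ne_zero.2 hw2.ne'
    have hs1 : Real.sinh (w1 * t) ≠ 0 := by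
      rw [Ne, Real.sinh_eq_zero]
      exact mul_ne_zero hw1.ne' ht
    have hs2 : Real.sinh (w2 * t) ≠ 0 := by
      rw [Ne, Real.sinh_eq_zero]
      exact mul_ne_zero hw2.ne' ht
    have hs1c : (Real.sinh (w1 * t) : ℂ) ≠ 0 := Complex.ofReal_ne_zero.2 hs1
    have hs2c : (Real.sinh (w2 * t) : ℂ) ≠ 0 := Complex.ofReal_ne_zero.2 hs2
    have e1 : a * t = (a - w1) * t + w1 * t := by ring
    have e2 : (a - 2 * w1) * t = (a - w1) * t - w1 * t := by ring
    have e3 : (a - w1) / w2 * ((w2 * t : ℝ) : ℂ) = (a - w1) * t := by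
      push_cast
      field_simp
    have e4 : Complex.sinh (w1 * t) = (Real.sinh (w1 * t) : ℂ) := by
      push_cast
      rfl
    unfold K2 K1
    rw [e3, e1, e2, Complex.sinh_add, Complex.sinh_sub, e4]
    generalize Real.sinh (w1 * t) = S1 at *
    generalize Real.sinh (w2 * t) = S2 at *
    generalize Complex.sinh ((a - w1) * t) = A
    generalize Complex.cosh ((a - w1) * t) = B
    generalize Complex.cosh (w1 * t) = C
    push_cast
    field_simp
    ring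

theorem L2_sub {w1 w2 : ℝ} (hw1 : 0 < w1) (hw2 : 0 < w2) {a : ℂ} (h1 : |a.re| < w1 + w2)
    (h2 : |a.re - 2 * w1| < w1 + w2) :
    L2 w1 w2 a - L2 w1 w2 (a - 2 * w1) = L1 ((a - w1) / w2) := by
  have hw2c : (w2 : ℂ) ≠ 0 := Complex.ofReal_ne_zero.2 hw2.ne'
  unfold L2 L1
  have i1 := integrable_K2 hw1 hw2 h1
  have i2 : Integrable (K2 w1 w2 (a - 2 * w1)) := by
    refine integrable_K2 hw1 hw2 ?_
    have : (a - 2 * (w1 : ℂ)).re = a.re - 2 * w1 := by simp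
    rw [this]
    exact h2
  rw [← mul_sub, ← integral_sub i1 i2]
  congr 1
  have e : ∫ t : ℝ, (K2 w1 w2 a t - K2 w1 w2 (a - 2 * w1) t) =
      w2 * ∫ t : ℝ, K1 ((a - w1) / w2) (w2 * t) := by
    rw [← integral_const_mul]
    exact integral_congr_ae (Eventually.of_forall fun t => K2_sub w1 hw1 hw2 a t)
  rw [e, Measure.integral_comp_mul_left (fun t => K1 ((a - w1) / w2) t) w2, Complex.real_smul,
    abs_of_pos (inv_pos.2 hw2), Complex.ofReal_inv, mul_inv_cancel_left₀ hw2c]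

/-- The functional equation for the period `w1`. -/
theorem Sd_add {w1 w2 : ℝ} (hw1 : 0 < w1) (hw2 : 0 < w2) {z : ℂ} (h0 : 0 < z.re)
    (h1 : z.re < w2) :
    Sd w1 w2 (z + w1) * (2 * Complex.sin (Real.pi * z / w2)) = Sd w1 w2 z := by
  have hw2c : (w2 : ℂ) ≠ 0 := Complex.ofReal_ne_zero.2 hw2.ne'
  have hre : ((w1 + w2 - 2 * z : ℂ)).re = w1 + w2 - 2 * z.re := by simp
  have k1 : |((w1 + w2 - 2 * z : ℂ)).re| < w1 + w2 := abs_re_lt h0 (by linarith)
  have k2 : |((w1 + w2 - 2 * z : ℂ)).re - 2 * w1| < w1 + w2 := by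
    rw [hre, abs_lt]
    constructor <;> linarith
  have h := L2_sub hw1 hw2 k1 k2
  have ha : |((w1 + w2 - 2 * z - w1 : ℂ) / w2).re| < 1 := by
    have e : ((w1 + w2 - 2 * z - w1 : ℂ) / w2).re = (w2 - 2 * z.re) / w2 := by
      rw [Complex.div_ofReal_re, Complex.sub_re, hre, Complex.ofReal_re]
      congr 1
      ring
    rw [e, abs_lt, lt_div_iff₀ hw2, div_lt_iff₀ hw2]
    constructor <;> linarith
  have hL := exp_L1 ha
  have e1 : (Real.pi / 2 * ((w1 + w2 - 2 * z - w1 : ℂ) / w2) : ℂ) =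
      Real.pi / 2 - Real.pi * z / w2 := by
    field_simp
    ring
  rw [e1, Complex.cos_pi_div_two_sub] at hL
  have e2 : (w1 + w2 - 2 * (z + w1) : ℂ) = w1 + w2 - 2 * z - 2 * w1 := by ring
  unfold Sd
  rw [e2]
  have e3 : -L2 w1 w2 (w1 + w2 - 2 * z - 2 * w1) =
      -L2 w1 w2 (w1 + w2 - 2 * z) + L1 ((w1 + w2 - 2 * z - w1) / w2) := by
    rw [← h]
    ring
  rw [e3, Complex.exp_add, mul_assoc, hL, mul_one]

/-- The functional equation for the period `w2`. -/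
theorem Sd_add' {w1 w2 : ℝ} (hw1 : 0 < w1) (hw2 : 0 < w2) {z : ℂ} (h0 : 0 < z.re)
    (h1 : z.re < w1) :
    Sd w1 w2 (z + w2) * (2 * Complex.sin (Real.pi * z / w1)) = Sd w1 w2 z := by
  rw [Sd_comm w1 w2 (z + w2), Sd_comm w1 w2 z]
  exact Sd_add hw2 hw1 h0 h1

theorem continuousAt_Sd {w1 w2 : ℝ} (hw1 : 0 < w1) (hw2 : 0 < w2) {z : ℂ} (h0 : 0 < z.re)
    (h1 : z.re < w1 + w2) : ContinuousAt (Sd w1 w2) z := by
  have hU : IsOpen {z : ℂ | 0 < z.re ∧ z.re < w1 + w2} :=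
    (isOpen_lt continuous_const Complex.continuous_re).inter
      (isOpen_lt Complex.continuous_re continuous_const)
  exact ((differentiableOn_Sd hw1 hw2).differentiableAt (hU.mem_nhds ⟨h0, h1⟩)).continuousAt

/-- The cone splitting at the level of the kernels. -/
theorem K2_split {w1 w2 : ℝ} (hw1 : 0 < w1) (hw2 : 0 < w2) (c : ℂ) (t : ℝ) :
    K2 w1 (w1 + w2) (c + w1) t + K2 (w1 + w2) w2 (c - w2) t = K2 w1 w2 c t := by
  rcases eq_or_ne t 0 with rfl | ht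
  · rw [K2_zero, K2_zero, K2_zero, add_zero]
  · have htc : (t : ℂ) ≠ 0 := Complex.ofReal_ne_zero.2 ht
    have hw1c : (w1 : ℂ) ≠ 0 := Complex.ofReal_ne_zero.2 hw1.ne'
    have hw2c : (w2 : ℂ) ≠ 0 := Complex.ofReal_ne_zero.2 hw2.ne'
    have hwc : (w1 + w2 : ℂ) ≠ 0 := by
      have := Complex.ofReal_ne_zero.2 (add_pos hw1 hw2).ne'
      rwa [Complex.ofReal_add] at this
    have hs1 : (Real.sinh (w1 * t) : ℂ) ≠ 0 := by
      rw [Complex.ofReal_ne_zero, Ne, Real.sinh_eq_zero]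
      exact mul_ne_zero hw1.ne' ht
    have hs2 : (Real.sinh (w2 * t) : ℂ) ≠ 0 := by
      rw [Complex.ofReal_ne_zero, Ne, Real.sinh_eq_zero]
      exact mul_ne_zero hw2.ne' ht
    have hs3 : (Real.sinh ((w1 + w2) * t) : ℂ) ≠ 0 := by
      rw [Complex.ofReal_ne_zero, Ne, Real.sinh_eq_zero]
      exact mul_ne_zero (add_pos hw1 hw2).ne' ht
    have e0 : (Real.sinh ((w1 + w2) * t) : ℂ) = (Real.sinh (w1 * t) : ℂ) *
        (Real.cosh (w2 * t) : ℂ) + (Real.cosh (w1 * t) : ℂ) * (Real.sinh (w2 * t) : ℂ) := by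
      rw [add_mul, Real.sinh_add]
      push_cast
      ring
    have e1 : Complex.sinh ((c + w1) * t) = Complex.sinh (c * t) * (Real.cosh (w1 * t) : ℂ) +
        Complex.cosh (c * t) * (Real.sinh (w1 * t) : ℂ) := by
      rw [add_mul, Complex.sinh_add]
      push_cast
      ring
    have e2 : Complex.sinh ((c - w2) * t) = Complex.sinh (c * t) * (Real.cosh (w2 * t) : ℂ) -
        Complex.cosh (c * t) * (Real.sinh (w2 * t) : ℂ) := by
      rw [sub_mul, Complex.sinh_sub]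
      push_cast
      ring
    unfold K2
    rw [← add_div]
    congr 1
    have f1 : Complex.sinh ((c + w1) * t) /
        (2 * (Real.sinh (w1 * t) : ℂ) * (Real.sinh ((w1 + w2) * t) : ℂ)) +
        Complex.sinh ((c - w2) * t) /
        (2 * (Real.sinh ((w1 + w2) * t) : ℂ) * (Real.sinh (w2 * t) : ℂ)) =
        Complex.sinh (c * t) / (2 * (Real.sinh (w1 * t) : ℂ) * (Real.sinh (w2 * t) : ℂ)) := by
      rw [e1, e2]
      rw [e0] at hs3 ⊢
      generalize (Real.sinh (w1 * t) : ℂ) = S1 at *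
      generalize (Real.sinh (w2 * t) : ℂ) = S2 at *
      generalize (Real.cosh (w1 * t) : ℂ) = C1 at *
      generalize (Real.cosh (w2 * t) : ℂ) = C2 at *
      generalize Complex.sinh (c * t) = A
      generalize Complex.cosh (c * t) = B
      rw [div_add_div _ _ (mul_ne_zero (mul_ne_zero two_ne_zero hs1) hs3)
        (mul_ne_zero (mul_ne_zero two_ne_zero hs3) hs2), div_eq_div_iff
        (mul_ne_zero (mul_ne_zero (mul_ne_zero two_ne_zero hs1) hs3)
          (mul_ne_zero (mul_ne_zero two_ne_zero hs3) hs2))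
        (mul_ne_zero (mul_ne_zero two_ne_zero hs1) hs2)]
      ring
    have f2 : (c + w1) / (2 * w1 * ((w1 + w2 : ℝ) : ℂ) * t) +
        (c - w2) / (2 * ((w1 + w2 : ℝ) : ℂ) * w2 * t) = c / (2 * w1 * w2 * t) := by
      push_cast
      field_simp
      ring
    linear_combination f1 - f2

/-- Splitting of the cone generated by `w1` and `w2` along `w1 + w2`. -/
theorem Sd_split {w1 w2 : ℝ} (hw1 : 0 < w1) (hw2 : 0 < w2) {z : ℂ} (h0 : 0 < z.re)
    (h1 : z.re < w1 + w2) :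
    Sd w1 w2 z = Sd w1 (w1 + w2) z * Sd (w1 + w2) w2 (z + w2) := by
  have hw : 0 < w1 + w2 := add_pos hw1 hw2
  set c : ℂ := w1 + w2 - 2 * z with hc
  have hcre : c.re = w1 + w2 - 2 * z.re := by rw [hc]; simp
  have i1 : Integrable (K2 w1 (w1 + w2) (c + w1)) := by
    refine integrable_K2 hw1 hw ?_
    rw [Complex.add_re, hcre, Complex.ofReal_re, abs_lt]
    constructor <;> linarith
  have i2 : Integrable (K2 (w1 + w2) w2 (c - w2)) := by
    refine integrable_K2 hw hw2 ?_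
    rw [Complex.sub_re, hcre, Complex.ofReal_re, abs_lt]
    constructor <;> linarith
  have key : L2 w1 (w1 + w2) (c + w1) + L2 (w1 + w2) w2 (c - w2) = L2 w1 w2 c := by
    unfold L2
    rw [← mul_add, ← integral_add i1 i2]
    congr 1
    exact integral_congr_ae (Eventually.of_forall fun t => K2_split hw1 hw2 c t)
  unfold Sd
  rw [← Complex.exp_add, ← hc, ← key]
  have e1 : ((w1 : ℂ) + ((w1 + w2 : ℝ) : ℂ) - 2 * z) = c + w1 := by
    rw [hc]
    push_cast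
    ring
  have e2 : (((w1 + w2 : ℝ) : ℂ) + w2 - 2 * (z + w2)) = c - w2 := by
    rw [hc]
    push_cast
    ring
  rw [e1, e2]
  congr 1
  ring

end Pool.Agent.DS71
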