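import Mathlib

set_option autoImplicit false
set_option linter.unusedSectionVars false
set_option linter.unusedSimpArgs false

open Matrix
open scoped ComplexOrder

namespace Pool.Agent.Lib.MP_d0f9e0_co

section Potential

variable {m ι : Type*} [Fintype m] [DecidableEq m] [Fintype ι] [DecidableEq ι]

/-- frame potential rigidity -/
lemma potential_rigid (Y : Matrix m ι ℂ) (P : Matrix m m ℂ) (hP : P * P = P) (hPh : Pᴴ = P)
    (hPY : P * Y = Y) (c : ℝ)
    (h1 : (Y * Yᴴ).trace = c * P.trace) (h2 : ((Yᴴ * Y) * (Yᴴ * Y)).trace = c ^ 2 * P.trace) :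
    Y * Yᴴ = (c : ℂ) • P := by
  have hYP : Yᴴ * P = Yᴴ := by
    have := congrArg conjTranspose hPY
    rwa [conjTranspose_mul, hPh] at this
  set D : Matrix m m ℂ := Y * Yᴴ - (c : ℂ) • P with hD
  have hDh : Dᴴ = D := by
    rw [hD, conjTranspose_sub, conjTranspose_smul, conjTranspose_mul, conjTranspose_conjTranspose,
      hPh]
    simp
  have hDD : (Dᴴ * D).trace = 0 := by
    rw [hDh]
    have e1 : D * D = Y * Yᴴ * (Y * Yᴴ) - (c : ℂ) • (Y * Yᴴ) - (c : ℂ) • (Y * Yᴴ)
        + ((c : ℂ) * c) • P := by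
      rw [hD, Matrix.sub_mul, Matrix.mul_sub, Matrix.mul_sub]
      have a1 : Y * Yᴴ * ((c : ℂ) • P) = (c : ℂ) • (Y * Yᴴ) := by
        rw [Matrix.mul_smul, Matrix.mul_assoc, hYP]
      have a2 : ((c : ℂ) • P) * (Y * Yᴴ) = (c : ℂ) • (Y * Yᴴ) := by
        rw [Matrix.smul_mul, ← Matrix.mul_assoc, hPY]
      have a3 : ((c : ℂ) • P) * ((c : ℂ) • P) = ((c : ℂ) * c) • P := by
        rw [Matrix.smul_mul, Matrix.mul_smul, hP, smul_smul]
      rw [a1, a2, a3]
      abel
    rw [e1, Matrix.trace_add, Matrix.trace_sub, Matrix.trace_sub, Matrix.trace_smul,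
      Matrix.trace_smul, h1]
    have e2 : (Y * Yᴴ * (Y * Yᴴ)).trace = c ^ 2 * P.trace := by
      rw [← h2, Matrix.mul_assoc, Matrix.trace_mul_comm]
      simp only [Matrix.mul_assoc]
    rw [e2]
    simp only [smul_eq_mul]
    ring
  have := (Matrix.trace_conjTranspose_mul_self_eq_zero_iff).1 hDD
  rw [hD] at this
  exact sub_eq_zero.1 this

lemma trace_sq_eq (G : Matrix ι ι ℂ) (hG : Gᴴ = G) :
    (G * G).trace = ((∑ i, ∑ j, ‖G i j‖ ^ 2 : ℝ) : ℂ) := by
  simp only [Matrix.trace, Matrix.diag, Matrix.mul_apply]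
  push_cast
  refine Finset.sum_congr rfl fun i _ => Finset.sum_congr rfl fun j _ => ?_
  have : G j i = star (G i j) := by
    conv_lhs => rw [← hG]
    rfl
  rw [this]
  have h := Complex.mul_conj' (G i j)
  simpa using h

end Potential

section ETF

variable {ι : Type*} [Fintype ι] [DecidableEq ι]

/-- abstract maximal ETF hypotheses for a family indexed by any finite type of cardinality d^2 -/
structure MaxETF (d : ℕ) (x : ι → EuclideanSpace ℂ (Fin d)) : Prop where
  card : Fintype.card ι = d ^ 2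
  norm : ∀ i, ‖x i‖ = 1
  off : ∀ i j, i ≠ j → ‖(inner ℂ (x i) (x j) : ℂ)‖ = 1 / Real.sqrt ((d : ℝ) + 1)

/-- the synthesis matrix -/
def syn (d : ℕ) (x : ι → EuclideanSpace ℂ (Fin d)) : Matrix (Fin d) ι ℂ :=
  Matrix.of fun a i => x i a

lemma gram_apply (d : ℕ) (x : ι → EuclideanSpace ℂ (Fin d)) (i j : ι) :
    ((syn d x)ᴴ * syn d x) i j = inner ℂ (x i) (x j) := by
  simp only [Matrix.mul_apply, Matrix.conjTranspose_apply, syn, Matrix.of_apply,
    PiLp.inner_apply, RCLike.inner_apply]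
  refine Finset.sum_congr rfl fun a _ => ?_
  rw [mul_comm]
  rfl

lemma MaxETF.inner_self {d : ℕ} {x : ι → EuclideanSpace ℂ (Fin d)} (h : MaxETF d x) (i : ι) :
    (inner ℂ (x i) (x i) : ℂ) = 1 := by
  rw [inner_self_eq_norm_sq_to_K, h.norm]
  simp

lemma MaxETF.off_sq {d : ℕ} {x : ι → EuclideanSpace ℂ (Fin d)} (h : MaxETF d x) {i j : ι}
    (hij : i ≠ j) : ‖(inner ℂ (x i) (x j) : ℂ)‖ ^ 2 = 1 / ((d : ℝ) + 1) := by
  rw [h.off i j hij, div_pow, Real.sq_sqrt (by positivity)]
  simp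

/-- sum over all pairs of f(|<x_i,x_j>|^2) type quantities -/
lemma MaxETF.double_sum {d : ℕ} {x : ι → EuclideanSpace ℂ (Fin d)} (h : MaxETF d x)
    (F : ι → ι → ℝ) (a b : ℝ) (h1 : ∀ i, F i i = a) (h2 : ∀ i j, i ≠ j → F i j = b) :
    ∑ i, ∑ j, F i j = (d : ℝ) ^ 2 * (a + ((d : ℝ) ^ 2 - 1) * b) := by
  have : ∀ i, ∑ j, F i j = a + ((d : ℝ) ^ 2 - 1) * b := by
    intro i
    rw [← Finset.add_sum_erase _ _ (Finset.mem_univ i), h1]
    rw [Finset.sum_congr rfl (g := fun _ => b)]
    · rw [Finset.sum_const, Finset.card_erase_of_mem (Finset.mem_univ i), Finset.card_univ, h.card,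
        nsmul_eq_mul]
      have : 1 ≤ d ^ 2 := by
        rw [← h.card]
        exact Fintype.card_pos_iff.2 ⟨i⟩
      push_cast [Nat.cast_sub this]
      ring
    · intro j hj
      exact h2 i j (Finset.ne_of_mem_erase hj).symm
  rw [Finset.sum_congr rfl fun i _ => this i, Finset.sum_const, Finset.card_univ, h.card,
    nsmul_eq_mul]
  push_cast
  ring

/-- tightness -/
theorem MaxETF.tight {d : ℕ} {x : ι → EuclideanSpace ℂ (Fin d)} (h : MaxETF d x) :
    syn d x * (syn d x)ᴴ = (d : ℂ) • (1 : Matrix (Fin d) (Fin d) ℂ) := by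
  have hd1 : ((d : ℝ) + 1) ≠ 0 := by positivity
  have key := potential_rigid (syn d x) 1 (by simp) (by simp) (by simp) (d : ℝ) ?_ ?_
  · simpa using key
  · rw [Matrix.trace_mul_comm]
    simp only [Matrix.trace, Matrix.diag, gram_apply, h.inner_self]
    simp [Finset.card_univ, h.card]
    ring
  · rw [trace_sq_eq]
    · have := h.double_sum (fun i j => ‖((syn d x)ᴴ * syn d x) i j‖ ^ 2) 1 (1 / ((d : ℝ) + 1))
        (fun i => by simp only [gram_apply]; rw [h.inner_self]; simp)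
        (fun i j hij => by simp only [gram_apply]; exact h.off_sq hij)
      rw [this]
      simp only [Matrix.trace_one, Fintype.card_fin]
      have e : (d : ℝ) ^ 2 * (1 + ((d : ℝ) ^ 2 - 1) * (1 / ((d : ℝ) + 1))) = (d : ℝ) ^ 2 * d := by
        field_simp
        ring
      rw [e]
      push_cast
      ring
    · rw [conjTranspose_mul, conjTranspose_conjTranspose]

/-- reconstruction formula : sum_k <x_k, v> x_k = d v, tested against inner products -/
theorem MaxETF.sum_inner {d : ℕ} {x : ι → EuclideanSpace ℂ (Fin d)} (h : MaxETF d x)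
    (u v : EuclideanSpace ℂ (Fin d)) :
    ∑ k, (inner ℂ u (x k) : ℂ) * inner ℂ (x k) v = d * inner ℂ u v := by
  have e1 : ∀ a b : Fin d, ∑ k, x k a * star (x k b) = if a = b then (d : ℂ) else 0 := by
    intro a b
    have := congrFun (congrFun h.tight a) b
    simp only [Matrix.mul_apply, syn, Matrix.of_apply, Matrix.conjTranspose_apply,
      Matrix.smul_apply, Matrix.one_apply, smul_eq_mul] at this
    rw [this]
    split_ifs <;> simp
  have e2 : ∀ k, (inner ℂ u (x k) : ℂ) * inner ℂ (x k) v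
      = ∑ a, ∑ b, (star (u a) * v b) * (x k a * star (x k b)) := by
    intro k
    simp only [PiLp.inner_apply, RCLike.inner_apply, Finset.sum_mul_sum]
    refine Finset.sum_congr rfl fun a _ => Finset.sum_congr rfl fun b _ => ?_
    simp only [RCLike.star_def]
    ring
  rw [Finset.sum_congr rfl fun k _ => e2 k, Finset.sum_comm]
  have e3 : ∀ a : Fin d, ∑ k, ∑ b, (star (u a) * v b) * (x k a * star (x k b))
      = star (u a) * v a * d := by
    intro a
    rw [Finset.sum_comm]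
    simp only [← Finset.mul_sum, e1]
    simp
  rw [Finset.sum_congr rfl fun a _ => e3 a]
  simp only [PiLp.inner_apply, RCLike.inner_apply, Finset.mul_sum]
  refine Finset.sum_congr rfl fun a _ => ?_
  simp only [RCLike.star_def]
  ring

/-- the two-fold tensor synthesis matrix -/
def syn2 (d : ℕ) (x : ι → EuclideanSpace ℂ (Fin d)) : Matrix (Fin d × Fin d) ι ℂ :=
  Matrix.of fun p i => x i p.1 * x i p.2

/-- swap matrix -/
def swapM (d : ℕ) : Matrix (Fin d × Fin d) (Fin d × Fin d) ℂ :=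
  Matrix.of fun p q => if p = q.swap then 1 else 0

lemma swapM_sq (d : ℕ) : swapM d * swapM d = 1 := by
  ext p q
  simp only [Matrix.mul_apply, swapM, Matrix.of_apply, Matrix.one_apply]
  rw [Finset.sum_eq_single q.swap]
  · simp
  · intro b _ hb
    simp [hb]
  · simp

lemma swapM_conj (d : ℕ) : (swapM d)ᴴ = swapM d := by
  ext p q
  simp only [Matrix.conjTranspose_apply, swapM, Matrix.of_apply]
  have : (q = p.swap) ↔ (p = q.swap) := by
    constructor <;> (intro h; rw [h]; simp)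
  simp only [this]
  split_ifs <;> simp

lemma swapM_syn2 (d : ℕ) (x : ι → EuclideanSpace ℂ (Fin d)) : swapM d * syn2 d x = syn2 d x := by
  ext p i
  simp only [Matrix.mul_apply, swapM, syn2, Matrix.of_apply]
  rw [Finset.sum_eq_single p.swap]
  · simp [mul_comm]
  · intro b _ hb
    have : p ≠ b.swap := fun h => hb (by rw [h]; simp)
    simp [this]
  · simp

lemma swapM_trace (d : ℕ) : (swapM d).trace = d := by
  simp only [Matrix.trace, Matrix.diag, swapM, Matrix.of_apply]
  rw [Fintype.sum_prod_type]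
  have : ∀ a b : Fin d, ((a, b) = Prod.swap (a, b)) ↔ a = b := by
    intro a b
    simp only [Prod.swap_prod_mk, Prod.mk.injEq]
    constructor
    · rintro ⟨h, _⟩; exact h
    · rintro rfl; exact ⟨rfl, rfl⟩
  simp only [this]
  simp

lemma gram2_apply (d : ℕ) (x : ι → EuclideanSpace ℂ (Fin d)) (i j : ι) :
    ((syn2 d x)ᴴ * syn2 d x) i j = (inner ℂ (x i) (x j) : ℂ) ^ 2 := by
  simp only [Matrix.mul_apply, Matrix.conjTranspose_apply, syn2, Matrix.of_apply,
    PiLp.inner_apply, RCLike.inner_apply]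
  rw [Fintype.sum_prod_type, sq, Finset.sum_mul_sum]
  refine Finset.sum_congr rfl fun a _ => Finset.sum_congr rfl fun b _ => ?_
  simp only [RCLike.star_def, map_mul]
  ring

/-- the 2-design property, matrix form -/
theorem MaxETF.design {d : ℕ} {x : ι → EuclideanSpace ℂ (Fin d)} (h : MaxETF d x) :
    syn2 d x * (syn2 d x)ᴴ
      = ((2 * d / (d + 1) : ℝ) : ℂ) • ((1 / 2 : ℂ) • (1 + swapM d)) := by
  have hd1 : ((d : ℝ) + 1) ≠ 0 := by positivity
  have hd1c : ((d : ℂ) + 1) ≠ 0 := by exact_mod_cast hd1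
  have htr : ((1 / 2 : ℂ) • (1 + swapM d)).trace = (d : ℂ) * (d + 1) / 2 := by
    rw [Matrix.trace_smul, Matrix.trace_add, swapM_trace, Matrix.trace_one]
    simp only [Fintype.card_prod, Fintype.card_fin, smul_eq_mul]
    push_cast
    ring
  refine potential_rigid (syn2 d x) _ ?_ ?_ ?_ _ ?_ ?_
  · rw [Matrix.smul_mul, Matrix.mul_smul, smul_smul]
    simp only [Matrix.add_mul, Matrix.mul_add, swapM_sq, Matrix.one_mul, Matrix.mul_one]
    ext p q
    simp only [Matrix.smul_apply, Matrix.add_apply, smul_eq_mul]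
    ring
  · rw [conjTranspose_smul, conjTranspose_add, swapM_conj, conjTranspose_one]
    simp
  · rw [Matrix.smul_mul, Matrix.add_mul, swapM_syn2, Matrix.one_mul]
    ext p q
    simp only [Matrix.smul_apply, Matrix.add_apply, smul_eq_mul]
    ring
  · rw [Matrix.trace_mul_comm, htr]
    simp only [Matrix.trace, Matrix.diag, gram2_apply, h.inner_self]
    simp only [one_pow, Finset.sum_const, Finset.card_univ, h.card, nsmul_eq_mul]
    push_cast
    field_simp
  · rw [trace_sq_eq]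
    · have := h.double_sum (fun i j => ‖((syn2 d x)ᴴ * syn2 d x) i j‖ ^ 2) 1
        ((1 / ((d : ℝ) + 1)) ^ 2)
        (fun i => by simp only [gram2_apply]; rw [h.inner_self]; simp)
        (fun i j hij => by
          simp only [gram2_apply, norm_pow]
          rw [h.off_sq hij])
      rw [this, htr]
      have e : (d : ℝ) ^ 2 * (1 + ((d : ℝ) ^ 2 - 1) * (1 / ((d : ℝ) + 1)) ^ 2)
          = (2 * d / (d + 1)) ^ 2 * (d * (d + 1) / 2) := by
        field_simp
        ring
      rw [e]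
      push_cast
      ring
    · rw [conjTranspose_mul, conjTranspose_conjTranspose]

/-- entrywise 2-design property -/
theorem MaxETF.design_entry {d : ℕ} {x : ι → EuclideanSpace ℂ (Fin d)} (h : MaxETF d x)
    (a b c e : Fin d) :
    ∑ k, x k a * x k b * (star (x k c) * star (x k e))
      = (d / (d + 1) : ℂ) * ((if a = c then 1 else 0) * (if b = e then 1 else 0)
        + (if a = e then 1 else 0) * (if b = c then 1 else 0)) := by
  have := congrFun (congrFun h.design (a, b)) (c, e)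
  simp only [Matrix.mul_apply, syn2, Matrix.of_apply, Matrix.conjTranspose_apply,
    Matrix.smul_apply, Matrix.add_apply, Matrix.one_apply, smul_eq_mul, swapM] at this
  rw [Finset.sum_congr rfl (g := fun k => x k a * x k b * star (x k c * x k e))
    (fun k _ => by rw [star_mul']), this]
  have hA : (if (a, b) = (c, e) then (1 : ℂ) else 0)
      = (if a = c then 1 else 0) * (if b = e then 1 else 0) := by
    by_cases h1 : a = c <;> by_cases h2 : b = e <;> simp [h1, h2]
  have hB : (if (a, b) = (c, e).swap then (1 : ℂ) else 0)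
      = (if a = e then 1 else 0) * (if b = c then 1 else 0) := by
    by_cases h1 : a = e <;> by_cases h2 : b = c <;> simp [h1, h2]
  rw [hA, hB]
  push_cast
  ring

lemma prod4 {α : Type*} [Fintype α] (f g h k : α → ℂ) :
    ((∑ a, f a) * ∑ b, g b) * ((∑ c, h c) * ∑ e, k e)
      = ∑ a, ∑ b, ∑ c, ∑ e, f a * g b * (h c * k e) := by
  rw [Finset.sum_mul_sum, Finset.sum_mul_sum, Finset.sum_mul]
  refine Finset.sum_congr rfl fun a _ => ?_
  rw [Finset.sum_mul]
  refine Finset.sum_congr rfl fun b _ => ?_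
  rw [Finset.mul_sum]
  refine Finset.sum_congr rfl fun c _ => ?_
  rw [Finset.mul_sum]

/-- 2-design property tested against vectors -/
theorem MaxETF.design_inner {d : ℕ} {x : ι → EuclideanSpace ℂ (Fin d)} (h : MaxETF d x)
    (u u' v v' : EuclideanSpace ℂ (Fin d)) :
    ∑ k, ((inner ℂ u (x k) : ℂ) * inner ℂ u' (x k)) * (inner ℂ (x k) v * inner ℂ (x k) v')
      = (d / (d + 1) : ℂ) * (inner ℂ u v * inner ℂ u' v' + inner ℂ u v' * inner ℂ u' v) := by
  have e2 : ∀ k, ((inner ℂ u (x k) : ℂ) * inner ℂ u' (x k)) * (inner ℂ (x k) v * inner ℂ (x k) v')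
      = ∑ a, ∑ b, ∑ c, ∑ e, (star (u a) * star (u' b) * (v c * v' e)) *
        (x k a * x k b * (star (x k c) * star (x k e))) := by
    intro k
    simp only [PiLp.inner_apply, RCLike.inner_apply]
    rw [prod4]
    refine Finset.sum_congr rfl fun a _ => Finset.sum_congr rfl fun b _ =>
      Finset.sum_congr rfl fun c _ => Finset.sum_congr rfl fun e _ => ?_
    simp only [RCLike.star_def]
    ring
  rw [Finset.sum_congr rfl fun k _ => e2 k]
  have e3 : ∑ k, ∑ a, ∑ b, ∑ c, ∑ e, (star (u a) * star (u' b) * (v c * v' e)) *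
        (x k a * x k b * (star (x k c) * star (x k e)))
      = ∑ a, ∑ b, ∑ c, ∑ e, (star (u a) * star (u' b) * (v c * v' e)) *
        ((d / (d + 1) : ℂ) * ((if a = c then 1 else 0) * (if b = e then 1 else 0)
        + (if a = e then 1 else 0) * (if b = c then 1 else 0))) := by
    rw [Finset.sum_comm]
    refine Finset.sum_congr rfl fun a _ => ?_
    rw [Finset.sum_comm]
    refine Finset.sum_congr rfl fun b _ => ?_
    rw [Finset.sum_comm]
    refine Finset.sum_congr rfl fun c _ => ?_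
    rw [Finset.sum_comm]
    refine Finset.sum_congr rfl fun e _ => ?_
    rw [← Finset.mul_sum, h.design_entry]
  rw [e3]
  simp only [PiLp.inner_apply, RCLike.inner_apply, Finset.sum_mul_sum]
  simp only [mul_add, Finset.sum_add_distrib, Finset.mul_sum]
  congr 1
  · refine Finset.sum_congr rfl fun a _ => Finset.sum_congr rfl fun b _ => ?_
    rw [Finset.sum_eq_single a, Finset.sum_eq_single b]
    · simp only [if_true, RCLike.star_def]; ring
    · intro e _ he; simp [Ne.symm he]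
    · simp
    · intro c _ hc; simp [Ne.symm hc]
    · simp
  · refine Finset.sum_congr rfl fun a _ => Finset.sum_congr rfl fun b _ => ?_
    rw [Finset.sum_eq_single b, Finset.sum_eq_single a]
    · simp only [if_true, RCLike.star_def]; ring
    · intro e _ he; simp [Ne.symm he]
    · simp
    · intro c _ hc; simp [Ne.symm hc]
    · simp

/-- normalised triple product sum -/
theorem MaxETF.triple_sum {d : ℕ} {x : ι → EuclideanSpace ℂ (Fin d)} (h : MaxETF d x)
    {i j : ι} (hij : i ≠ j) :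
    ∑ k ∈ (Finset.univ.erase i).erase j, ((Real.sqrt ((d : ℝ) + 1) : ℂ) ^ 3 *
      ((inner ℂ (x i) (x j) : ℂ) * inner ℂ (x j) (x k) * inner ℂ (x k) (x i)))
      = ((d : ℂ) - 2) * Real.sqrt ((d : ℝ) + 1) := by
  have hn2 : (Real.sqrt ((d : ℝ) + 1) : ℂ) ^ 2 = (d : ℂ) + 1 := by
    rw [← Complex.ofReal_pow, Real.sq_sqrt (by positivity)]; simp
  have hd1 : ((d : ℂ) + 1) ≠ 0 := by exact_mod_cast (Nat.succ_ne_zero d)
  have hc : (inner ℂ (x i) (x j) : ℂ) * inner ℂ (x j) (x i) = 1 / ((d : ℂ) + 1) := by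
    have h1 : (inner ℂ (x j) (x i) : ℂ) = (starRingEnd ℂ) (inner ℂ (x i) (x j)) :=
      (inner_conj_symm _ _).symm
    rw [h1, Complex.mul_conj', ← Complex.ofReal_pow, h.off_sq hij]
    push_cast
    ring
  have hs := h.sum_inner (x j) (x i)
  rw [← Finset.add_sum_erase _ _ (Finset.mem_univ i),
    ← Finset.add_sum_erase _ _ (Finset.mem_erase.2 ⟨hij.symm, Finset.mem_univ j⟩)] at hs
  rw [h.inner_self, h.inner_self] at hs
  have hs2 : ∑ k ∈ (Finset.univ.erase i).erase j, (inner ℂ (x j) (x k) : ℂ) * inner ℂ (x k) (x i)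
      = ((d : ℂ) - 2) * inner ℂ (x j) (x i) := by
    linear_combination hs
  have : ∑ k ∈ (Finset.univ.erase i).erase j, ((Real.sqrt ((d : ℝ) + 1) : ℂ) ^ 3 *
      ((inner ℂ (x i) (x j) : ℂ) * inner ℂ (x j) (x k) * inner ℂ (x k) (x i)))
      = (Real.sqrt ((d : ℝ) + 1) : ℂ) ^ 3 * (inner ℂ (x i) (x j) : ℂ) *
        ∑ k ∈ (Finset.univ.erase i).erase j, (inner ℂ (x j) (x k) : ℂ) * inner ℂ (x k) (x i) := by
    rw [Finset.mul_sum]
    refine Finset.sum_congr rfl fun k _ => ?_
    ring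
  rw [this, hs2]
  have e : (Real.sqrt ((d : ℝ) + 1) : ℂ) ^ 3 * (inner ℂ (x i) (x j) : ℂ) *
      (((d : ℂ) - 2) * inner ℂ (x j) (x i))
      = (Real.sqrt ((d : ℝ) + 1) : ℂ) ^ 2 * Real.sqrt ((d : ℝ) + 1) * ((d : ℂ) - 2) *
        ((inner ℂ (x i) (x j) : ℂ) * inner ℂ (x j) (x i)) := by ring
  rw [e, hc, hn2]
  field_simp

/-- sum of squares of normalised triple products -/
theorem MaxETF.triple_sum_sq {d : ℕ} {x : ι → EuclideanSpace ℂ (Fin d)} (h : MaxETF d x)
    {i j : ι} (hij : i ≠ j) :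
    ∑ k ∈ (Finset.univ.erase i).erase j, ((Real.sqrt ((d : ℝ) + 1) : ℂ) ^ 3 *
      ((inner ℂ (x i) (x j) : ℂ) * inner ℂ (x j) (x k) * inner ℂ (x k) (x i))) ^ 2
      = -2 := by
  have hn2 : (Real.sqrt ((d : ℝ) + 1) : ℂ) ^ 2 = (d : ℂ) + 1 := by
    rw [← Complex.ofReal_pow, Real.sq_sqrt (by positivity)]; simp
  have hd1 : ((d : ℂ) + 1) ≠ 0 := by exact_mod_cast (Nat.succ_ne_zero d)
  have hc : (inner ℂ (x i) (x j) : ℂ) * inner ℂ (x j) (x i) = 1 / ((d : ℂ) + 1) := by
    have h1 : (inner ℂ (x j) (x i) : ℂ) = (starRingEnd ℂ) (inner ℂ (x i) (x j)) :=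
      (inner_conj_symm _ _).symm
    rw [h1, Complex.mul_conj', ← Complex.ofReal_pow, h.off_sq hij]
    push_cast
    ring
  have hs := h.design_inner (x j) (x j) (x i) (x i)
  rw [← Finset.add_sum_erase _ _ (Finset.mem_univ i),
    ← Finset.add_sum_erase _ _ (Finset.mem_erase.2 ⟨hij.symm, Finset.mem_univ j⟩)] at hs
  rw [h.inner_self, h.inner_self] at hs
  have hs2 : ∑ k ∈ (Finset.univ.erase i).erase j,
      ((inner ℂ (x j) (x k) : ℂ) * inner ℂ (x j) (x k)) * (inner ℂ (x k) (x i) * inner ℂ (x k) (x i))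
      = (2 * d / (d + 1) - 2 : ℂ) * (inner ℂ (x j) (x i)) ^ 2 := by
    linear_combination hs
  have : ∑ k ∈ (Finset.univ.erase i).erase j, ((Real.sqrt ((d : ℝ) + 1) : ℂ) ^ 3 *
      ((inner ℂ (x i) (x j) : ℂ) * inner ℂ (x j) (x k) * inner ℂ (x k) (x i))) ^ 2
      = ((Real.sqrt ((d : ℝ) + 1) : ℂ) ^ 3) ^ 2 * (inner ℂ (x i) (x j) : ℂ) ^ 2 *
        ∑ k ∈ (Finset.univ.erase i).erase j,
      ((inner ℂ (x j) (x k) : ℂ) * inner ℂ (x j) (x k)) *
        (inner ℂ (x k) (x i) * inner ℂ (x k) (x i)) := by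
    rw [Finset.mul_sum]
    refine Finset.sum_congr rfl fun k _ => ?_
    ring
  rw [this, hs2]
  have e : ((Real.sqrt ((d : ℝ) + 1) : ℂ) ^ 3) ^ 2 * (inner ℂ (x i) (x j) : ℂ) ^ 2 *
      ((2 * d / (d + 1) - 2 : ℂ) * (inner ℂ (x j) (x i)) ^ 2)
      = ((Real.sqrt ((d : ℝ) + 1) : ℂ) ^ 2) ^ 3 * (2 * d / (d + 1) - 2 : ℂ) *
        ((inner ℂ (x i) (x j) : ℂ) * inner ℂ (x j) (x i)) ^ 2 := by ring
  rw [e, hc, hn2]
  field_simp
  ring

end ETF

end Pool.Agent.Lib.MP_d0f9e0_co
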