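import Mathlib
import Pool.Agent.Lib.MP_d0f9e0_co.Core

set_option autoImplicit false
set_option linter.unusedSectionVars false
set_option linter.unusedSimpArgs false

open Matrix
open scoped ComplexOrder

namespace Pool.Agent.Lib.MP_d0f9e0_co

variable {ι : Type*} [Fintype ι] [DecidableEq ι]

/-- matrix entries of a linear map in the standard basis -/
noncomputable def ent {d : ℕ} (A : EuclideanSpace ℂ (Fin d) →ₗ[ℂ] EuclideanSpace ℂ (Fin d))
    (a b : Fin d) : ℂ := A (EuclideanSpace.basisFun (Fin d) ℂ b) a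

lemma apply_eq_sum {d : ℕ} (A : EuclideanSpace ℂ (Fin d) →ₗ[ℂ] EuclideanSpace ℂ (Fin d))
    (v : EuclideanSpace ℂ (Fin d)) (a : Fin d) : A v a = ∑ b, ent A a b * v b := by
  have hv : v = ∑ b, v b • EuclideanSpace.basisFun (Fin d) ℂ b := by
    have := (EuclideanSpace.basisFun (Fin d) ℂ).sum_repr v
    simpa using this.symm
  conv_lhs => rw [hv]
  rw [map_sum]
  simp only [map_smul, ent]
  rw [WithLp.ofLp_sum, Finset.sum_apply]
  refine Finset.sum_congr rfl fun b _ => ?_
  simp [mul_comm]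

lemma trace_eq_ent {d : ℕ} (A : EuclideanSpace ℂ (Fin d) →ₗ[ℂ] EuclideanSpace ℂ (Fin d)) :
    LinearMap.trace ℂ _ A = ∑ a, ent A a a := by
  rw [LinearMap.trace_eq_matrix_trace ℂ (EuclideanSpace.basisFun (Fin d) ℂ).toBasis]
  simp only [Matrix.trace, Matrix.diag, LinearMap.toMatrix_apply, ent]
  refine Finset.sum_congr rfl fun a _ => ?_
  simp

lemma inner_map_eq {d : ℕ} (A : EuclideanSpace ℂ (Fin d) →ₗ[ℂ] EuclideanSpace ℂ (Fin d))
    (v : EuclideanSpace ℂ (Fin d)) :
    (inner ℂ v (A v) : ℂ) = ∑ a, ∑ b, ent A a b * (v b * star (v a)) := by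
  simp only [PiLp.inner_apply, RCLike.inner_apply]
  refine Finset.sum_congr rfl fun a _ => ?_
  rw [apply_eq_sum, Finset.sum_mul]
  refine Finset.sum_congr rfl fun b _ => ?_
  simp only [RCLike.star_def]
  ring

theorem MaxETF.entry {d : ℕ} {x : ι → EuclideanSpace ℂ (Fin d)} (h : MaxETF d x)
    (a b : Fin d) : ∑ k, x k a * star (x k b) = if a = b then (d : ℂ) else 0 := by
  have := congrFun (congrFun h.tight a) b
  simp only [Matrix.mul_apply, syn, Matrix.of_apply, Matrix.conjTranspose_apply,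
    Matrix.smul_apply, Matrix.one_apply, smul_eq_mul] at this
  rw [this]
  split_ifs <;> simp

theorem MaxETF.sum_inner_map {d : ℕ} {x : ι → EuclideanSpace ℂ (Fin d)} (h : MaxETF d x)
    (A : EuclideanSpace ℂ (Fin d) →ₗ[ℂ] EuclideanSpace ℂ (Fin d)) :
    ∑ k, (inner ℂ (x k) (A (x k)) : ℂ) = d * LinearMap.trace ℂ _ A := by
  simp only [inner_map_eq]
  rw [Finset.sum_comm, trace_eq_ent, Finset.mul_sum]
  refine Finset.sum_congr rfl fun a _ => ?_
  rw [Finset.sum_comm]
  simp only [← Finset.mul_sum, h.entry]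
  simp [mul_comm]

lemma prod2 {α : Type*} [Fintype α] (f g : α → α → ℂ) :
    (∑ a, ∑ b, f a b) * (∑ c, ∑ e, g c e) = ∑ a, ∑ b, ∑ c, ∑ e, f a b * g c e := by
  rw [Finset.sum_mul]
  refine Finset.sum_congr rfl fun a _ => ?_
  rw [Finset.sum_mul]
  refine Finset.sum_congr rfl fun b _ => ?_
  rw [Finset.mul_sum]
  refine Finset.sum_congr rfl fun c _ => ?_
  rw [Finset.mul_sum]

theorem MaxETF.sum_norm_inner_map {d : ℕ} {x : ι → EuclideanSpace ℂ (Fin d)} (h : MaxETF d x)
    (A : EuclideanSpace ℂ (Fin d) →ₗ[ℂ] EuclideanSpace ℂ (Fin d)) :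
    ∑ k, ‖(inner ℂ (x k) (A (x k)) : ℂ)‖ ^ 2
      = (d / (d + 1) : ℝ) * (‖LinearMap.trace ℂ _ A‖ ^ 2
        + ∑ b, ‖A (EuclideanSpace.basisFun (Fin d) ℂ b)‖ ^ 2) := by
  have hnorm : ∀ b, ((‖A (EuclideanSpace.basisFun (Fin d) ℂ b)‖ ^ 2 : ℝ) : ℂ)
      = ∑ a, ent A a b * star (ent A a b) := by
    intro b
    rw [EuclideanSpace.norm_sq_eq]
    push_cast
    refine Finset.sum_congr rfl fun a _ => ?_
    have := Complex.mul_conj' (ent A a b)
    simp only [ent] at this ⊢
    rw [RCLike.star_def, this]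
  have key : ((∑ k, ‖(inner ℂ (x k) (A (x k)) : ℂ)‖ ^ 2 : ℝ) : ℂ)
      = (((d / (d + 1) : ℝ) * (‖LinearMap.trace ℂ _ A‖ ^ 2
        + ∑ b, ‖A (EuclideanSpace.basisFun (Fin d) ℂ b)‖ ^ 2) : ℝ) : ℂ) := by
    push_cast
    have e1 : ∀ k, (‖(inner ℂ (x k) (A (x k)) : ℂ)‖ : ℂ) ^ 2
        = ∑ a, ∑ b, ∑ c, ∑ e, (ent A a b * star (ent A c e)) *
          (x k b * x k c * (star (x k a) * star (x k e))) := by
      intro k
      rw [← Complex.mul_conj', inner_map_eq, map_sum]
      simp only [map_sum]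
      rw [prod2]
      refine Finset.sum_congr rfl fun a _ => Finset.sum_congr rfl fun b _ =>
        Finset.sum_congr rfl fun c _ => Finset.sum_congr rfl fun e _ => ?_
      simp only [map_mul, RCLike.star_def, Complex.conj_conj]
      ring
    rw [Finset.sum_congr rfl fun k _ => e1 k]
    have e3 : ∑ k, ∑ a, ∑ b, ∑ c, ∑ e, (ent A a b * star (ent A c e)) *
          (x k b * x k c * (star (x k a) * star (x k e)))
        = ∑ a, ∑ b, ∑ c, ∑ e, (ent A a b * star (ent A c e)) *
        ((d / (d + 1) : ℂ) * ((if b = a then 1 else 0) * (if c = e then 1 else 0)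
        + (if b = e then 1 else 0) * (if c = a then 1 else 0))) := by
      rw [Finset.sum_comm]
      refine Finset.sum_congr rfl fun a _ => ?_
      rw [Finset.sum_comm]
      refine Finset.sum_congr rfl fun b _ => ?_
      rw [Finset.sum_comm]
      refine Finset.sum_congr rfl fun c _ => ?_
      rw [Finset.sum_comm]
      refine Finset.sum_congr rfl fun e _ => ?_
      rw [← Finset.mul_sum, h.design_entry]
    rw [e3]
    have htr : (‖LinearMap.trace ℂ _ A‖ : ℂ) ^ 2 = ∑ a, ∑ c, ent A a a * star (ent A c c) := by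
      rw [← Complex.mul_conj', trace_eq_ent, map_sum, Finset.sum_mul_sum]
      rfl
    have hnorm' : ∀ b, ((‖A (EuclideanSpace.basisFun (Fin d) ℂ b)‖ : ℂ)) ^ 2
      = ∑ a, ent A a b * star (ent A a b) := by
      intro b
      rw [← hnorm b]
      push_cast
      rfl
    rw [htr, Finset.sum_congr rfl fun b _ => hnorm' b]
    simp only [mul_add, Finset.sum_add_distrib, Finset.mul_sum]
    congr 1
    · refine Finset.sum_congr rfl fun a _ => ?_
      rw [Finset.sum_eq_single a]
      · refine Finset.sum_congr rfl fun c _ => ?_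
        rw [Finset.sum_eq_single c]
        · simp only [if_true]; ring
        · intro e _ he; simp [Ne.symm he]
        · simp
      · intro b _ hb; simp [hb]
      · simp
    · rw [Finset.sum_comm]
      refine Finset.sum_congr rfl fun b _ => Finset.sum_congr rfl fun a _ => ?_
      rw [Finset.sum_eq_single a, Finset.sum_eq_single b]
      · simp only [if_true]; ring
      · intro e _ he; simp [Ne.symm he]
      · simp
      · intro c _ hc; simp [hc]
      · simp
  exact_mod_cast key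

end Pool.Agent.Lib.MP_d0f9e0_co
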