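import Mathlib
import Pool.Agent.Lib.MP_d0f9e0_co.Sym

set_option autoImplicit false
set_option linter.unusedSectionVars false
set_option linter.unusedSimpArgs false

open scoped ComplexOrder

namespace Pool.Agent.Lib.MP_d0f9e0_co

variable {ι : Type*} [Fintype ι] [DecidableEq ι]

section

variable {d : ℕ} {x : ι → EuclideanSpace ℂ (Fin d)}

/-- the linear map underlying a linear isometry equivalence -/
noncomputable abbrev lin (U : EuclideanSpace ℂ (Fin d) ≃ₗᵢ[ℂ] EuclideanSpace ℂ (Fin d)) :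
    EuclideanSpace ℂ (Fin d) →ₗ[ℂ] EuclideanSpace ℂ (Fin d) :=
  (U.toLinearEquiv : EuclideanSpace ℂ (Fin d) →ₗ[ℂ] EuclideanSpace ℂ (Fin d))

lemma MaxETF.ne_zero (h : MaxETF d x) (i : ι) : x i ≠ 0 := by
  intro h0
  have := h.norm i
  rw [h0, norm_zero] at this
  exact zero_ne_one this

lemma MaxETF.norm_coeff (h : MaxETF d x)
    (U : EuclideanSpace ℂ (Fin d) ≃ₗᵢ[ℂ] EuclideanSpace ℂ (Fin d)) {i j : ι} {c : ℂ}
    (hc : U (x i) = c • x j) : ‖c‖ = 1 := by
  have h1 : ‖U (x i)‖ = ‖c • x j‖ := by rw [hc]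
  rw [U.norm_map, norm_smul, h.norm, h.norm, mul_one] at h1
  exact h1.symm

lemma MaxETF.norm_fixed (h : MaxETF d x)
    (U : EuclideanSpace ℂ (Fin d) ≃ₗᵢ[ℂ] EuclideanSpace ℂ (Fin d)) {i : ι}
    (hi : ∃ c : ℂ, U (x i) = c • x i) : ‖(inner ℂ (x i) (U (x i)) : ℂ)‖ = 1 := by
  obtain ⟨c, hc⟩ := hi
  rw [hc, inner_smul_right, h.inner_self, mul_one, h.norm_coeff U hc]

lemma MaxETF.norm_not_fixed (h : MaxETF d x)
    (U : EuclideanSpace ℂ (Fin d) ≃ₗᵢ[ℂ] EuclideanSpace ℂ (Fin d))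
    (hU : ∀ i, ∃ j, ∃ c : ℂ, U (x i) = c • x j) {i : ι}
    (hi : ¬ ∃ c : ℂ, U (x i) = c • x i) :
    ‖(inner ℂ (x i) (U (x i)) : ℂ)‖ = 1 / Real.sqrt ((d : ℝ) + 1) := by
  obtain ⟨j, c, hc⟩ := hU i
  have hij : i ≠ j := by
    rintro rfl
    exact hi ⟨c, hc⟩
  rw [hc, inner_smul_right, norm_mul, h.norm_coeff U hc, one_mul, h.off i j hij]

open Classical in
/-- the set of fixed lines -/
noncomputable def fixedLines (x : ι → EuclideanSpace ℂ (Fin d))
    (U : EuclideanSpace ℂ (Fin d) ≃ₗᵢ[ℂ] EuclideanSpace ℂ (Fin d)) : Finset ι :=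
  Finset.univ.filter fun i => ∃ c : ℂ, U (x i) = c • x i

lemma mem_fixedLines (U : EuclideanSpace ℂ (Fin d) ≃ₗᵢ[ℂ] EuclideanSpace ℂ (Fin d)) (i : ι) :
    i ∈ fixedLines x U ↔ ∃ c : ℂ, U (x i) = c • x i := by
  simp [fixedLines]

lemma MaxETF.sum_split (h : MaxETF d x) (S : Finset ι) (F : ι → ℝ) (a b : ℝ)
    (h1 : ∀ i ∈ S, F i = a) (h2 : ∀ i, i ∉ S → F i = b) :
    ∑ i, F i = S.card * a + ((d : ℝ) ^ 2 - S.card) * b := by
  rw [← Finset.sum_add_sum_compl S F, Finset.sum_congr rfl h1,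
    Finset.sum_congr rfl (fun i hi => h2 i (Finset.mem_compl.1 hi)), Finset.sum_const,
    Finset.sum_const, Finset.card_compl, h.card]
  have : S.card ≤ d ^ 2 := by
    rw [← h.card]
    exact Finset.card_le_univ S
  simp only [nsmul_eq_mul]
  push_cast [Nat.cast_sub this]
  ring

/-- the number of fixed lines is |tr U|^2 -/
theorem MaxETF.card_fixed (h : MaxETF d x) (hd : 1 ≤ d)
    (U : EuclideanSpace ℂ (Fin d) ≃ₗᵢ[ℂ] EuclideanSpace ℂ (Fin d))
    (hU : ∀ i, ∃ j, ∃ c : ℂ, U (x i) = c • x j) :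
    ((fixedLines x U).card : ℝ) = ‖LinearMap.trace ℂ _ (lin U)‖ ^ 2 := by
  have h1 := h.sum_norm_inner_map (lin U)
  have h2 : ∑ k, ‖(inner ℂ (x k) (lin U (x k)) : ℂ)‖ ^ 2
      = (fixedLines x U).card * 1 + ((d : ℝ) ^ 2 - (fixedLines x U).card) * (1 / ((d : ℝ) + 1)) := by
    refine h.sum_split _ _ _ _ ?_ ?_
    · intro i hi
      have := h.norm_fixed U ((mem_fixedLines U i).1 hi)
      simp only [lin, LinearEquiv.coe_coe, LinearIsometryEquiv.coe_toLinearEquiv]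
      rw [this]; norm_num
    · intro i hi
      have := h.norm_not_fixed U hU (fun hh => hi ((mem_fixedLines U i).2 hh))
      simp only [lin, LinearEquiv.coe_coe, LinearIsometryEquiv.coe_toLinearEquiv]
      rw [this, div_pow, Real.sq_sqrt (by positivity)]
      simp
  have h3 : ∑ b, ‖lin U (EuclideanSpace.basisFun (Fin d) ℂ b)‖ ^ 2 = (d : ℝ) := by
    simp [lin]
  rw [h2, h3] at h1
  have hd0 : (d : ℝ) ≠ 0 := by positivity
  have hd1 : (d : ℝ) + 1 ≠ 0 := by positivity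
  field_simp at h1
  have : (d : ℝ) * (fixedLines x U).card = d * ‖LinearMap.trace ℂ _ (lin U)‖ ^ 2 := by
    linarith
  exact mul_left_cancel₀ hd0 this

/-- a unitary with |tr U| = d is a scalar -/
lemma scalar_of_norm_trace (U : EuclideanSpace ℂ (Fin d) ≃ₗᵢ[ℂ] EuclideanSpace ℂ (Fin d))
    (hd : 1 ≤ d) (ht : (d : ℝ) ≤ ‖LinearMap.trace ℂ _ (lin U)‖) :
    ∃ c : ℂ, ∀ v, U v = c • v := by
  set e := EuclideanSpace.basisFun (Fin d) ℂ with he
  set t := LinearMap.trace ℂ _ (lin U) with ht'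
  have htr : t = ∑ a, (inner ℂ (e a) (U (e a)) : ℂ) := by
    rw [ht', trace_eq_ent]
    refine Finset.sum_congr rfl fun a _ => ?_
    simp [ent, he, EuclideanSpace.inner_single_left]
  have hle : ∀ a, ‖(inner ℂ (e a) (U (e a)) : ℂ)‖ ≤ 1 := by
    intro a
    refine (norm_inner_le_norm _ _).trans ?_
    rw [U.norm_map, e.norm_eq_one]
    simp
  have hd0 : (0 : ℝ) < d := by exact_mod_cast hd
  have hle2 : ‖t‖ ≤ d := by
    rw [htr]
    refine (norm_sum_le _ _).trans ?_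
    calc ∑ a, ‖(inner ℂ (e a) (U (e a)) : ℂ)‖ ≤ ∑ _a : Fin d, (1 : ℝ) :=
          Finset.sum_le_sum fun a _ => hle a
      _ = d := by simp
  have hteq : ‖t‖ = d := le_antisymm hle2 ht
  have ht0 : t ≠ 0 := by
    intro h0
    rw [h0, norm_zero] at hteq
    linarith
  -- c = t / d
  set c : ℂ := t / d with hc
  have hcn : ‖c‖ = 1 := by
    rw [hc, norm_div, hteq]
    simp only [Complex.norm_natCast]
    exact div_self hd0.ne'
  -- sum of ‖U e_a - c e_a‖^2 = 0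
  have hsum : ∑ a, ‖U (e a) - c • e a‖ ^ 2 = 0 := by
    have h1 : ∀ a, ‖U (e a) - c • e a‖ ^ 2
        = 2 - 2 * (star c * (inner ℂ (e a) (U (e a)) : ℂ)).re := by
      intro a
      rw [@norm_sub_sq ℂ, U.norm_map, norm_smul, e.norm_eq_one, hcn]
      have : (inner ℂ (U (e a)) (c • e a) : ℂ) = (starRingEnd ℂ) (star c * (inner ℂ (e a) (U (e a)) : ℂ)) := by
        rw [inner_smul_right, map_mul, inner_conj_symm]
        simp
      rw [this]
      simp only [RCLike.re_to_complex, Complex.conj_re]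
      ring
    rw [Finset.sum_congr rfl fun a _ => h1 a, Finset.sum_sub_distrib, ← Finset.mul_sum,
      ← Complex.re_sum, ← Finset.mul_sum, ← htr]
    have : star c * t = (d : ℂ) := by
      have hdc : (d : ℂ) ≠ 0 := by exact_mod_cast hd0.ne'
      have h2 : t = c * d := by rw [hc]; field_simp
      rw [h2, ← mul_assoc]
      have h3 := Complex.mul_conj' c
      rw [mul_comm, RCLike.star_def] 
      rw [mul_comm ((starRingEnd ℂ) c) c, h3, hcn]
      simp
    rw [this]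
    simp
    ring
  have hz : ∀ a, U (e a) = c • e a := by
    intro a
    have := (Finset.sum_eq_zero_iff_of_nonneg (fun a _ => sq_nonneg _)).1 hsum a (Finset.mem_univ a)
    have h0 : ‖U (e a) - c • e a‖ = 0 := by
      exact pow_eq_zero_iff (two_ne_zero) |>.1 this
    exact sub_eq_zero.1 (norm_eq_zero.1 h0)
  refine ⟨c, fun v => ?_⟩
  have hv := e.sum_repr v
  rw [← hv, map_sum, Finset.smul_sum]
  refine Finset.sum_congr rfl fun a _ => ?_
  rw [map_smul, hz a, smul_comm]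

/-- the bound |tr U| ≤ √(d+1) + 1 -/
theorem MaxETF.trace_bound (h : MaxETF d x) (hd : 1 ≤ d)
    (U : EuclideanSpace ℂ (Fin d) ≃ₗᵢ[ℂ] EuclideanSpace ℂ (Fin d))
    (hU : ∀ i, ∃ j, ∃ c : ℂ, U (x i) = c • x j)
    (hns : ¬ ∃ c : ℂ, ∀ v, U v = c • v) :
    ‖LinearMap.trace ℂ _ (lin U)‖ ≤ Real.sqrt ((d : ℝ) + 1) + 1 := by
  set t := ‖LinearMap.trace ℂ _ (lin U)‖ with ht
  set n := Real.sqrt ((d : ℝ) + 1) with hn
  have hn2 : n ^ 2 = (d : ℝ) + 1 := Real.sq_sqrt (by positivity)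
  have hd0 : (1 : ℝ) ≤ d := by exact_mod_cast hd
  have hn0 : 0 ≤ n := Real.sqrt_nonneg _
  have hn1 : 1 < n := by nlinarith
  have htd : t < d := by
    by_contra hcon
    exact hns (scalar_of_norm_trace U hd (not_lt.1 hcon))
  have hf := h.card_fixed hd U hU
  have hs := h.sum_inner_map (lin U)
  have hb : (d : ℝ) * t ≤ t ^ 2 + ((d : ℝ) ^ 2 - t ^ 2) * (1 / n) := by
    have e1 : (d : ℝ) * t = ‖∑ k, (inner ℂ (x k) (lin U (x k)) : ℂ)‖ := by
      rw [hs, norm_mul]; simp [ht]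
    rw [e1]
    refine (norm_sum_le _ _).trans (le_of_eq ?_)
    rw [h.sum_split (fixedLines x U) _ 1 (1 / n) ?_ ?_, hf]
    · ring
    · intro i hi
      exact h.norm_fixed U ((mem_fixedLines U i).1 hi)
    · intro i hi
      exact h.norm_not_fixed U hU (fun hh => hi ((mem_fixedLines U i).2 hh))
  have ht0 : 0 ≤ t := norm_nonneg _
  have h2 : n * (t * (d - t)) ≤ (d - t) * (d + t) := by
    have : n * (d * t) ≤ n * (t ^ 2 + ((d : ℝ) ^ 2 - t ^ 2) * (1 / n)) :=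
      mul_le_mul_of_nonneg_left hb hn0
    have e : n * (t ^ 2 + ((d : ℝ) ^ 2 - t ^ 2) * (1 / n)) = n * t ^ 2 + ((d : ℝ) ^ 2 - t ^ 2) := by
      field_simp
    rw [e] at this
    nlinarith
  have h3 : n * t ≤ d + t := by
    have hpos : 0 < (d : ℝ) - t := by linarith
    have : (d - t) * (n * t) ≤ (d - t) * (d + t) := by linarith
    exact le_of_mul_le_mul_left this hpos
  have h4 : (n - 1) * t ≤ (n - 1) * (n + 1) := by nlinarith
  exact le_of_mul_le_mul_left h4 (by linarith)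

end

end Pool.Agent.Lib.MP_d0f9e0_co
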