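import Mathlib
import Pool.Agent.Lib.MP_d0f9e0_co.Fixed

set_option autoImplicit false
set_option linter.unusedSectionVars false
set_option linter.unusedSimpArgs false

open scoped ComplexOrder

namespace Pool.Agent.Lib.MP_d0f9e0_co

variable {ι : Type*} [Fintype ι] [DecidableEq ι]
variable {d : ℕ} {x : ι → EuclideanSpace ℂ (Fin d)}

/-- the trace of an involution is an integer -/
lemma trace_invol (V : EuclideanSpace ℂ (Fin d) ≃ₗᵢ[ℂ] EuclideanSpace ℂ (Fin d))
    (hVV : ∀ v, V (V v) = v) :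
    ∃ τ : ℤ, LinearMap.trace ℂ _ (lin V) = (τ : ℂ) ∧ ∃ r : ℤ, τ = 2 * r - d := by
  set P : EuclideanSpace ℂ (Fin d) →ₗ[ℂ] EuclideanSpace ℂ (Fin d) :=
    (1 / 2 : ℂ) • (LinearMap.id + lin V) with hP
  have hPid : IsIdempotentElem P := by
    rw [IsIdempotentElem, Module.End.mul_eq_comp]
    ext1 v
    simp only [hP, LinearMap.comp_apply, LinearMap.smul_apply, LinearMap.add_apply,
      LinearMap.id_apply, map_smul, map_add]
    have : lin V (lin V v) = v := hVV v
    rw [this]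
    module
  have h1 := (LinearMap.IsIdempotentElem.isProj_range P hPid).trace
  have h2 : LinearMap.trace ℂ _ P = (1 / 2 : ℂ) * ((d : ℂ) + LinearMap.trace ℂ _ (lin V)) := by
    rw [hP, map_smul, map_add, LinearMap.trace_id]
    simp
  rw [h2] at h1
  refine ⟨2 * (Module.finrank ℂ (LinearMap.range P) : ℤ) - d, ?_, _, rfl⟩
  push_cast
  linear_combination 2 * h1

/-- If `d + 1` is not a perfect square, an involutive unitary symmetry other than `±1` fixes no
line of a maximal ETF. -/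
theorem MaxETF.involution (h : MaxETF d x) (hd : 1 ≤ d)
    (V : EuclideanSpace ℂ (Fin d) ≃ₗᵢ[ℂ] EuclideanSpace ℂ (Fin d))
    (hV : ∀ i, ∃ j, ∃ c : ℂ, V (x i) = c • x j)
    (hns : ¬ ∃ c : ℂ, ∀ v, V v = c • v)
    (hVV : ∀ v, V (V v) = v) (hsq : ¬ IsSquare (d + 1)) :
    Even d ∧ ∀ i, ¬ ∃ c : ℂ, V (x i) = c • x i := by
  obtain ⟨τ, hτ, r0, hr0⟩ := trace_invol V hVV
  have hf := h.card_fixed hd V hV
  rw [hτ] at hf
  have hf' : ((fixedLines x V).card : ℝ) = (τ : ℝ) ^ 2 := by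
    rw [hf]
    simp
  set n := Real.sqrt ((d : ℝ) + 1) with hn
  have hirr : Irrational n := by
    have := irrational_sqrt_natCast_iff.2 hsq
    rw [hn]
    convert this using 2
    push_cast
    rfl
  have hn0 : n ≠ 0 := by
    intro h0
    rw [h0] at hirr
    exact hirr ⟨0, by simp⟩
  have hnpos : 0 < n := lt_of_le_of_ne (Real.sqrt_nonneg _) (Ne.symm hn0)
  -- the overlaps are real
  set r : ι → ℂ := fun k => (inner ℂ (x k) (V (x k)) : ℂ) with hr
  have hreal : ∀ k, ((r k).re : ℂ) = r k := by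
    intro k
    have : (starRingEnd ℂ) (r k) = r k := by
      simp only [hr]
      rw [inner_conj_symm]
      conv_lhs => rw [← hVV (x k), V.inner_map_map, hVV]
    exact Complex.conj_eq_iff_re.1 this
  have hre_norm : ∀ k, |(r k).re| = ‖r k‖ := by
    intro k
    conv_rhs => rw [← hreal k]
    simp
  let s : ι → ℤ := fun k => if 0 ≤ (r k).re then 1 else -1
  have hs : ∀ k, (r k).re = s k * ‖r k‖ := by
    intro k
    rw [← hre_norm]
    simp only [s]
    split_ifs with h0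
    · rw [abs_of_nonneg h0]; simp
    · rw [abs_of_neg (not_le.1 h0)]; simp
  have hsabs : ∀ k, |s k| = 1 := by
    intro k
    simp only [s]
    split_ifs <;> simp
  set F := fixedLines x V with hF
  have hsum := h.sum_inner_map (lin V)
  have hsum' : ∑ k, (r k).re = d * (τ : ℝ) := by
    have h1 : ∑ k, r k = d * (τ : ℂ) := by
      rw [← hτ, ← hsum]
      rfl
    have h2 := congrArg Complex.re h1
    rw [Complex.re_sum] at h2
    rw [h2]
    simp
  have hsplit : ∑ k, (r k).re = ((∑ k ∈ F, s k : ℤ) : ℝ) + ((∑ k ∈ Fᶜ, s k : ℤ) : ℝ) * (1 / n) := by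
    rw [← Finset.sum_add_sum_compl F]
    congr 1
    · push_cast
      refine Finset.sum_congr rfl fun k hk => ?_
      rw [hs k]
      have := h.norm_fixed V ((mem_fixedLines V k).1 hk)
      simp only [hr]
      rw [this, mul_one]
    · push_cast
      rw [Finset.sum_mul]
      refine Finset.sum_congr rfl fun k hk => ?_
      rw [hs k]
      have := h.norm_not_fixed V hV (fun hh => (Finset.mem_compl.1 hk) ((mem_fixedLines V k).2 hh))
      simp only [hr]
      rw [this]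
  rw [hsum'] at hsplit
  set a : ℤ := ∑ k ∈ F, s k with ha
  set b : ℤ := ∑ k ∈ Fᶜ, s k with hb
  have haF : |a| ≤ (F.card : ℤ) := by
    rw [ha]
    refine (Finset.abs_sum_le_sum_abs _ _).trans ?_
    rw [Finset.sum_congr rfl fun k _ => hsabs k]
    simp
  have hda : (d : ℤ) * τ - a = 0 := by
    by_contra hne
    have hne' : ((d : ℝ) * τ - a) ≠ 0 := by exact_mod_cast hne
    have h1 : n = b / ((d : ℝ) * τ - a) := by
      rw [hsplit]
      have hbn : (b : ℝ) * (1 / n) = (d : ℝ) * τ - a := by linarith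
      have hb0 : (b : ℝ) * (1 / n) ≠ 0 := by rw [hbn]; exact hne'
      have : (a : ℝ) + b * (1 / n) - a = b * (1 / n) := by ring
      rw [this]
      have hb1 : (b : ℝ) ≠ 0 := by
        intro h0
        rw [h0] at hb0
        simp at hb0
      field_simp
    refine hirr ⟨(b : ℚ) / ((d : ℚ) * τ - a), ?_⟩
    rw [h1]
    push_cast
    rfl
  have hfz : (F.card : ℤ) = τ ^ 2 := by exact_mod_cast hf'
  have hτ0 : τ = 0 := by
    by_contra hne
    have h1 : (d : ℤ) * |τ| ≤ |τ| * |τ| := by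
      have : a = d * τ := by linarith
      rw [this, abs_mul, hfz, ← sq_abs, sq] at haF
      simpa using haF
    have hpos : 0 < |τ| := abs_pos.2 hne
    have h2 : (d : ℤ) ≤ |τ| := le_of_mul_le_mul_right h1 hpos
    refine hns (scalar_of_norm_trace V hd ?_)
    rw [hτ]
    have : (d : ℝ) ≤ |(τ : ℝ)| := by exact_mod_cast h2
    simpa using this
  have hF0 : F = ∅ := by
    rw [hτ0] at hfz
    have : F.card = 0 := by
      have : (F.card : ℤ) = 0 := by rw [hfz]; norm_num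
      exact_mod_cast this
    exact Finset.card_eq_zero.1 this
  refine ⟨?_, fun i hi => ?_⟩
  · rw [hτ0] at hr0
    have : (Even (d : ℤ)) := ⟨r0, by linarith⟩
    exact_mod_cast this
  · have := (mem_fixedLines V i).2 hi
    rw [← hF, hF0] at this
    exact absurd this (Finset.notMem_empty i)

/-- rescaling a linear isometry equivalence by a unimodular number -/
noncomputable def rescale (s : ℂ) (hs : ‖s‖ = 1)
    (W : EuclideanSpace ℂ (Fin d) ≃ₗᵢ[ℂ] EuclideanSpace ℂ (Fin d)) :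
    EuclideanSpace ℂ (Fin d) ≃ₗᵢ[ℂ] EuclideanSpace ℂ (Fin d) where
  toLinearEquiv := W.toLinearEquiv.trans
    (LinearEquiv.smulOfNeZero ℂ (EuclideanSpace ℂ (Fin d)) s
      (by rintro rfl; rw [norm_zero] at hs; exact zero_ne_one hs))
  norm_map' := by
    intro v
    simp [norm_smul, hs]

lemma rescale_apply (s : ℂ) (hs : ‖s‖ = 1)
    (W : EuclideanSpace ℂ (Fin d) ≃ₗᵢ[ℂ] EuclideanSpace ℂ (Fin d))
    (v : EuclideanSpace ℂ (Fin d)) : rescale s hs W v = s • W v := rfl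

/-- the version for unitaries whose square is a scalar -/
theorem MaxETF.proj_involution (h : MaxETF d x) (hd : 1 ≤ d)
    (W : EuclideanSpace ℂ (Fin d) ≃ₗᵢ[ℂ] EuclideanSpace ℂ (Fin d))
    (hW : ∀ i, ∃ j, ∃ c : ℂ, W (x i) = c • x j)
    (hns : ¬ ∃ c : ℂ, ∀ v, W v = c • v)
    (hWW : ∃ c : ℂ, ∀ v, W (W v) = c • v) (hsq : ¬ IsSquare (d + 1)) :
    Even d ∧ ∀ i, ¬ ∃ c : ℂ, W (x i) = c • x i := by
  obtain ⟨c, hc⟩ := hWW
  have hi0 : ∃ i : ι, True := by
    by_contra hcon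
    push Not at hcon
    have : Fintype.card ι = 0 := Fintype.card_eq_zero_iff.2 ⟨fun i => (hcon i)⟩
    rw [h.card] at this
    have : d = 0 := by simpa using this
    omega
  obtain ⟨i0, _⟩ := hi0
  have hcn : ‖c‖ = 1 := by
    have h1 : ‖W (W (x i0))‖ = ‖c • x i0‖ := by rw [hc]
    rw [W.norm_map, W.norm_map, norm_smul, h.norm, mul_one] at h1
    exact h1.symm
  obtain ⟨s, hs⟩ : ∃ s : ℂ, s ^ 2 = c := IsAlgClosed.exists_pow_nat_eq c (by norm_num)
  have hsn : ‖s‖ = 1 := by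
    have : ‖s‖ ^ 2 = 1 := by rw [← norm_pow, hs, hcn]
    have h0 : 0 ≤ ‖s‖ := norm_nonneg s
    nlinarith
  have hs0 : s ≠ 0 := by
    rintro rfl
    rw [norm_zero] at hsn
    exact zero_ne_one hsn
  have hsin : ‖s⁻¹‖ = 1 := by rw [norm_inv, hsn, inv_one]
  have hfix : ∀ i, (∃ c : ℂ, W (x i) = c • x i) → ∃ c : ℂ, rescale s⁻¹ hsin W (x i) = c • x i := by
    rintro i ⟨c', hc'⟩
    refine ⟨s⁻¹ * c', ?_⟩
    rw [rescale_apply, hc', smul_smul]
  have key := h.involution hd (rescale s⁻¹ hsin W) ?_ ?_ ?_ hsq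
  · exact ⟨key.1, fun i hi => key.2 i (hfix i hi)⟩
  · intro i
    obtain ⟨j, c', hc'⟩ := hW i
    refine ⟨j, s⁻¹ * c', ?_⟩
    rw [rescale_apply, hc', smul_smul]
  · rintro ⟨c', hc'⟩
    refine hns ⟨s * c', fun v => ?_⟩
    have := hc' v
    rw [rescale_apply] at this
    have h2 : s • (s⁻¹ • W v) = s • (c' • v) := by rw [this]
    rw [smul_smul, mul_inv_cancel₀ hs0, one_smul, smul_smul] at h2
    exact h2
  · intro v
    rw [rescale_apply, rescale_apply, map_smul, hc, smul_smul, smul_smul]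
    have : s⁻¹ * s⁻¹ * c = 1 := by
      rw [← hs]
      field_simp
    rw [this, one_smul]

lemma liq_mul_apply (A B : EuclideanSpace ℂ (Fin d) ≃ₗᵢ[ℂ] EuclideanSpace ℂ (Fin d))
    (v : EuclideanSpace ℂ (Fin d)) : (A * B) v = A (B v) := rfl

lemma permutes_pow (U : EuclideanSpace ℂ (Fin d) ≃ₗᵢ[ℂ] EuclideanSpace ℂ (Fin d))
    (hU : ∀ i, ∃ j, ∃ c : ℂ, U (x i) = c • x j) (k : ℕ) :
    ∀ i, ∃ j, ∃ c : ℂ, (U ^ k) (x i) = c • x j := by
  induction k with
  | zero => intro i; exact ⟨i, 1, by simp⟩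
  | succ k ih =>
    intro i
    obtain ⟨j, c, hc⟩ := ih i
    obtain ⟨l, c', hc'⟩ := hU j
    refine ⟨l, c * c', ?_⟩
    rw [pow_succ', liq_mul_apply, hc, map_smul, hc', smul_smul]

lemma fixes_pow (U : EuclideanSpace ℂ (Fin d) ≃ₗᵢ[ℂ] EuclideanSpace ℂ (Fin d))
    {i : ι} (hU : ∃ c : ℂ, U (x i) = c • x i) (k : ℕ) :
    ∃ c : ℂ, (U ^ k) (x i) = c • x i := by
  induction k with
  | zero => exact ⟨1, by simp⟩
  | succ k ih =>
    obtain ⟨c, hc⟩ := ih
    obtain ⟨c', hc'⟩ := hU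
    refine ⟨c * c', ?_⟩
    rw [pow_succ', liq_mul_apply, hc, map_smul, hc', smul_smul]

/-- If `d + 1` is not a perfect square, a nonscalar unitary symmetry of 2-power order modulo
scalars fixes no line. -/
theorem MaxETF.two_power (h : MaxETF d x) (hd : 1 ≤ d)
    (U : EuclideanSpace ℂ (Fin d) ≃ₗᵢ[ℂ] EuclideanSpace ℂ (Fin d))
    (hU : ∀ i, ∃ j, ∃ c : ℂ, U (x i) = c • x j)
    (hns : ¬ ∃ c : ℂ, ∀ v, U v = c • v)
    (m : ℕ) (hm : ∃ c : ℂ, ∀ v, (U ^ (2 ^ m)) v = c • v) (hsq : ¬ IsSquare (d + 1)) :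
    Even d ∧ LinearMap.trace ℂ _ (lin U) = 0 ∧ ∀ i, ¬ ∃ c : ℂ, U (x i) = c • x i := by
  classical
  have hex : ∃ k, ∃ c : ℂ, ∀ v, (U ^ (2 ^ k)) v = c • v := ⟨m, hm⟩
  set k := Nat.find hex with hk
  have hkspec := Nat.find_spec hex
  have hk0 : k ≠ 0 := by
    intro h0
    rw [← hk, h0] at hkspec
    exact hns (by simpa using hkspec)
  obtain ⟨l, hl⟩ := Nat.exists_eq_succ_of_ne_zero hk0
  have hlmin : ¬ ∃ c : ℂ, ∀ v, (U ^ (2 ^ l)) v = c • v := by
    apply Nat.find_min hex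
    rw [← hk, hl]
    exact Nat.lt_succ_self l
  have key := h.proj_involution hd (U ^ (2 ^ l)) (permutes_pow U hU _) hlmin ?_ hsq
  · refine ⟨key.1, ?_, fun i hi => key.2 i (fixes_pow U hi _)⟩
    have hF0 : fixedLines x U = ∅ := by
      rw [Finset.eq_empty_iff_forall_notMem]
      intro i hi
      exact key.2 i (fixes_pow U ((mem_fixedLines U i).1 hi) _)
    have := h.card_fixed hd U hU
    rw [hF0] at this
    simp only [Finset.card_empty, Nat.cast_zero] at this
    have h1 : ‖LinearMap.trace ℂ _ (lin U)‖ = 0 := by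
      exact pow_eq_zero_iff (two_ne_zero) |>.1 this.symm
    exact norm_eq_zero.1 h1
  · obtain ⟨c, hc⟩ := hkspec
    refine ⟨c, fun v => ?_⟩
    rw [← hc v, ← liq_mul_apply, ← pow_add, ← hk, hl, pow_succ, mul_two]

end Pool.Agent.Lib.MP_d0f9e0_co
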