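import Mathlib
import Pool.Agent.Lib.MP_d0f9e0_co.Invol

set_option autoImplicit false
set_option linter.unusedSectionVars false
set_option linter.unusedSimpArgs false

open Matrix Polynomial
open scoped ComplexOrder

namespace Pool.Agent.Lib.MP_d0f9e0_co

/-- divisibility transfer for a quadratic irrationality -/
lemma quad_dvd (F : Subfield ℂ) (n : ℂ) (hn : n ∉ F) (D : F) (hD : (D : ℂ) = n ^ 2) (e : ℕ) :
    ∀ p : F[X], (X + C n) ^ e ∣ p.map (algebraMap F ℂ) → (X ^ 2 - C D) ^ e ∣ p := by
  have hn0 : n ≠ 0 := by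
    rintro rfl
    exact hn F.zero_mem
  induction e with
  | zero => intro p _; simp
  | succ e ih =>
    intro p hp
    have hmonic : (X ^ 2 - C D : F[X]).Monic := by
      exact monic_X_pow_sub_C D two_ne_zero
    have hdeg : (X ^ 2 - C D : F[X]).natDegree = 2 := natDegree_X_pow_sub_C
    have hroot : (p.map (algebraMap F ℂ)).eval (-n) = 0 := by
      have : (X + C n) ∣ p.map (algebraMap F ℂ) := (dvd_pow_self _ (Nat.succ_ne_zero e)).trans hp
      obtain ⟨q, hq⟩ := this
      rw [hq]
      simp
    -- division with remainder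
    have hdiv := modByMonic_add_div p (X ^ 2 - C D : F[X])
    set r := p %ₘ (X ^ 2 - C D : F[X]) with hr
    set s := p /ₘ (X ^ 2 - C D : F[X]) with hs
    have hrdeg : r.natDegree ≤ 1 := by
      have := natDegree_modByMonic_lt p hmonic (by
        intro h1
        have := congrArg natDegree h1
        rw [hdeg] at this
        simp at this)
      rw [hdeg, ← hr] at this
      omega
    obtain ⟨a, b, hab⟩ := exists_eq_X_add_C_of_natDegree_le_one hrdeg
    have hr0 : r = 0 := by
      have h1 : (p.map (algebraMap F ℂ)).eval (-n) = (a : ℂ) * (-n) + b := by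
        rw [← hdiv, hab]
        simp only [Polynomial.map_add, Polynomial.map_mul, Polynomial.map_C, Polynomial.map_X,
          Polynomial.map_sub, Polynomial.map_pow, eval_add, eval_mul, eval_C, eval_X, eval_sub,
          eval_pow]
        have : (algebraMap F ℂ) D = n ^ 2 := hD
        rw [this]
        have h2 : (algebraMap F ℂ) a = (a : ℂ) := rfl
        have h3 : (algebraMap F ℂ) b = (b : ℂ) := rfl
        rw [h2, h3]
        ring
      rw [hroot] at h1
      have ha : a = 0 := by
        by_contra ha
        have ha' : (a : ℂ) ≠ 0 := by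
          intro h0
          exact ha (Subtype.ext (by simpa using h0))
        apply hn
        have : n = ((b / a : F) : ℂ) := by
          push_cast
          field_simp
          linear_combination h1
        rw [this]
        exact (b / a : F).2
      have hb : b = 0 := by
        rw [ha] at h1
        apply Subtype.ext
        simpa using h1.symm
      rw [hab, ha, hb]
      simp
    rw [hr0, zero_add] at hdiv
    have hfac : (X ^ 2 - C D : F[X]).map (algebraMap F ℂ) = (X + C n) * (X - C n) := by
      simp only [Polynomial.map_sub, Polynomial.map_pow, Polynomial.map_X, Polynomial.map_C]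
      have : (algebraMap F ℂ) D = n ^ 2 := hD
      rw [this, C_pow]
      ring
    have hp2 : (X + C n) ^ (e + 1) ∣ (X + C n) * ((X - C n) * s.map (algebraMap F ℂ)) := by
      have : p.map (algebraMap F ℂ) = (X + C n) * ((X - C n) * s.map (algebraMap F ℂ)) := by
        rw [← hdiv, Polynomial.map_mul, hfac]
        ring
      rwa [this] at hp
    rw [pow_succ'] at hp2
    have hX : (X + C n : ℂ[X]) ≠ 0 := X_add_C_ne_zero n
    have hp3 : (X + C n) ^ e ∣ (X - C n) * s.map (algebraMap F ℂ) :=
      (mul_dvd_mul_iff_left hX).1 hp2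
    have hcop : IsCoprime ((X + C n : ℂ[X]) ^ e) (X - C n) := by
      apply IsCoprime.pow_left
      have h1 : (X + C n : ℂ[X]) = X - C (-n) := by simp
      rw [h1]
      exact isCoprime_X_sub_C_of_isUnit_sub (by
        rw [isUnit_iff_ne_zero]
        intro h0
        apply hn0
        linear_combination (-1 / 2 : ℂ) * h0)
    have hp4 := hcop.dvd_of_dvd_mul_left hp3
    obtain ⟨q, hq⟩ := ih s hp4
    refine ⟨q, ?_⟩
    rw [← hdiv, hq, pow_succ']
    ring

/-- At most `2 d` unit vectors of `ℂ^d` can have all their off-diagonal inner products of the form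
`a / √(d+1)` with `a` in a subfield not containing `√(d+1)`. -/
theorem subfield_bound {κ : Type*} [Fintype κ] [DecidableEq κ] (d : ℕ)
    (y : κ → EuclideanSpace ℂ (Fin d)) (hy : ∀ a, ‖y a‖ = 1) (F : Subfield ℂ)
    (hF : (Real.sqrt ((d : ℝ) + 1) : ℂ) ∉ F)
    (hG : ∀ a b, a ≠ b → (Real.sqrt ((d : ℝ) + 1) : ℂ) * (inner ℂ (y a) (y b) : ℂ) ∈ F) :
    Fintype.card κ ≤ 2 * d := by
  set n : ℂ := (Real.sqrt ((d : ℝ) + 1) : ℂ) with hn
  have hn2 : n ^ 2 = (d : ℂ) + 1 := by
    rw [hn, ← Complex.ofReal_pow, Real.sq_sqrt (by positivity)]; simp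
  -- the matrix Q over F
  let Q : Matrix κ κ F := Matrix.of fun a b =>
    if h : a = b then 0 else ⟨n * (inner ℂ (y a) (y b) : ℂ), hG a b h⟩
  let QC : Matrix κ κ ℂ := Q.map (algebraMap F ℂ)
  have hQC : QC + n • (1 : Matrix κ κ ℂ) = n • ((syn d y)ᴴ * syn d y) := by
    ext a b
    simp only [QC, Q, Matrix.add_apply, Matrix.map_apply, Matrix.of_apply, Matrix.smul_apply,
      smul_eq_mul, gram_apply, Matrix.one_apply]
    by_cases hab : a = b
    · subst hab
      rw [dif_pos rfl, if_pos rfl, inner_self_eq_norm_sq_to_K, hy]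
      simp
    · rw [dif_neg hab, if_neg hab]
      simp only [mul_zero, add_zero]
      rfl
  have hrank : (QC + n • (1 : Matrix κ κ ℂ)).rank ≤ d := by
    rw [hQC]
    have h1 : (n • ((syn d y)ᴴ * syn d y)) = (n • (syn d y)ᴴ) * syn d y := by
      rw [Matrix.smul_mul]
    rw [h1]
    refine (Matrix.rank_mul_le_right _ _).trans ?_
    refine (Matrix.rank_le_card_height _).trans ?_
    simp
  -- geometric multiplicity of -n
  have hker : Fintype.card κ - d ≤ Module.finrank ℂ (Module.End.eigenspace (Matrix.toLin' QC) (-n)) := by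
    have h1 := LinearMap.finrank_range_add_finrank_ker (Matrix.toLin' (QC + n • (1 : Matrix κ κ ℂ)))
    have h2 : Module.finrank ℂ (LinearMap.range (Matrix.toLin' (QC + n • (1 : Matrix κ κ ℂ)))) ≤ d := by
      have := hrank
      rw [Matrix.rank] at this
      exact this
    have h3 : LinearMap.ker (Matrix.toLin' (QC + n • (1 : Matrix κ κ ℂ)))
        = Module.End.eigenspace (Matrix.toLin' QC) (-n) := by
      ext v
      rw [LinearMap.mem_ker, Module.End.mem_eigenspace_iff]
      simp only [Matrix.toLin'_apply, Matrix.add_mulVec, Matrix.smul_mulVec, Matrix.one_mulVec,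
        neg_smul]
      exact add_eq_zero_iff_eq_neg
    rw [h3] at h1
    rw [Module.finrank_fintype_fun_eq_card] at h1
    omega
  have hmult := LinearMap.finrank_eigenspace_le (Matrix.toLin' QC) (-n)
  rw [Matrix.charpoly_toLin'] at hmult
  have hcp : QC.charpoly = Q.charpoly.map (algebraMap F ℂ) := by
    rw [Matrix.charpoly_map]
  have hcp0 : QC.charpoly ≠ 0 := (Matrix.charpoly_monic QC).ne_zero
  have hdvd : (X + C n) ^ (Fintype.card κ - d) ∣ Q.charpoly.map (algebraMap F ℂ) := by
    rw [← hcp]
    have h1 : (X - C (-n)) ^ (Fintype.card κ - d) ∣ QC.charpoly :=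
      (le_rootMultiplicity_iff hcp0).1 (hker.trans hmult)
    simpa using h1
  have hDmem : ((d : ℂ) + 1) ∈ F := F.add_mem (natCast_mem F d) F.one_mem
  have hdvd2 := quad_dvd F n hF ⟨(d : ℂ) + 1, hDmem⟩ hn2.symm _ Q.charpoly hdvd
  have hdeg := natDegree_le_of_dvd hdvd2 (Matrix.charpoly_monic Q).ne_zero
  rw [natDegree_pow, natDegree_X_pow_sub_C, Matrix.charpoly_natDegree_eq_dim] at hdeg
  omega

end Pool.Agent.Lib.MP_d0f9e0_co
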