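import Mathlib
import Pool.Agent.Lib.MP_d0f9e0_co.Galois

set_option autoImplicit false
set_option linter.unusedSectionVars false
set_option linter.unusedSimpArgs false

open scoped ComplexOrder

namespace Pool.Agent.Lib.MP_d0f9e0_co

/-- the field of Gaussian rationals inside `ℂ` -/
def gaussQ : Subfield ℂ where
  carrier := {z | ∃ a b : ℚ, z = a + b * Complex.I}
  mul_mem' := by
    rintro _ _ ⟨a, b, rfl⟩ ⟨c, e, rfl⟩
    refine ⟨a * c - b * e, a * e + b * c, ?_⟩
    push_cast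
    linear_combination (b * e : ℂ) * Complex.I_mul_I
  one_mem' := ⟨1, 0, by simp⟩
  add_mem' := by
    rintro _ _ ⟨a, b, rfl⟩ ⟨c, e, rfl⟩
    refine ⟨a + c, b + e, ?_⟩
    push_cast
    ring
  zero_mem' := ⟨0, 0, by simp⟩
  neg_mem' := by
    rintro _ ⟨a, b, rfl⟩
    refine ⟨-a, -b, ?_⟩
    push_cast
    ring
  inv_mem' := by
    rintro _ ⟨a, b, rfl⟩
    refine ⟨a / (a ^ 2 + b ^ 2), -b / (a ^ 2 + b ^ 2), ?_⟩
    by_cases h : a ^ 2 + b ^ 2 = 0
    · have ha : a = 0 := by nlinarith [sq_nonneg a, sq_nonneg b]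
      have hb : b = 0 := by nlinarith [sq_nonneg a, sq_nonneg b]
      simp [ha, hb]
    · have h' : ((a : ℂ) ^ 2 + (b : ℂ) ^ 2) ≠ 0 := by exact_mod_cast h
      push_cast
      rw [inv_eq_of_mul_eq_one_right]
      field_simp
      linear_combination (-(b : ℂ) ^ 2) * Complex.I_sq

lemma mem_gaussQ_iff (z : ℂ) : z ∈ gaussQ ↔ ∃ a b : ℚ, z = a + b * Complex.I := Iff.rfl

lemma sqrt_not_mem_gaussQ (d : ℕ) (hsq : ¬ IsSquare (d + 1)) :
    (Real.sqrt ((d : ℝ) + 1) : ℂ) ∉ gaussQ := by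
  rintro ⟨a, b, h⟩
  have hirr : Irrational (Real.sqrt ((d : ℝ) + 1)) := by
    have := irrational_sqrt_natCast_iff.2 hsq
    convert this using 2
    push_cast
    rfl
  have h1 := congrArg Complex.re h
  simp at h1
  exact hirr ⟨a, by rw [h1]⟩

/-- a real or purely imaginary number of modulus one is a Gaussian unit -/
lemma gauss_unit (z : ℂ) (hz : ‖z‖ = 1) (l : ℂ) (hl : l = 1 ∨ l = -1)
    (h : (starRingEnd ℂ) z = l * z) : z ∈ gaussQ := by
  have hsq : z.re * z.re + z.im * z.im = 1 := by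
    have := Complex.sq_norm z
    rw [hz, Complex.normSq_apply] at this
    linarith
  rcases hl with rfl | rfl
  · rw [one_mul] at h
    have him : z.im = 0 := Complex.conj_eq_iff_im.1 h
    rw [him] at hsq
    have : z.re = 1 ∨ z.re = -1 := by
      have : (z.re - 1) * (z.re + 1) = 0 := by nlinarith
      rcases mul_eq_zero.1 this with h0 | h0
      · left; linarith
      · right; linarith
    rcases this with h0 | h0
    · exact ⟨1, 0, by apply Complex.ext <;> simp [h0, him]⟩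
    · exact ⟨-1, 0, by apply Complex.ext <;> simp [h0, him]⟩
  · have hre : z.re = 0 := by
      have := congrArg Complex.re h
      simp at this
      linarith
    rw [hre] at hsq
    have : z.im = 1 ∨ z.im = -1 := by
      have : (z.im - 1) * (z.im + 1) = 0 := by nlinarith
      rcases mul_eq_zero.1 this with h0 | h0
      · left; linarith
      · right; linarith
    rcases this with h0 | h0
    · exact ⟨0, 1, by apply Complex.ext <;> simp [h0, hre]⟩
    · exact ⟨0, -1, by apply Complex.ext <;> simp [h0, hre]⟩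

variable {ι : Type*} [Fintype ι] [DecidableEq ι]
variable {d : ℕ} {x : ι → EuclideanSpace ℂ (Fin d)}

lemma permutes_mul (A B : EuclideanSpace ℂ (Fin d) ≃ₗᵢ[ℂ] EuclideanSpace ℂ (Fin d))
    (hA : ∀ i, ∃ j, ∃ c : ℂ, A (x i) = c • x j) (hB : ∀ i, ∃ j, ∃ c : ℂ, B (x i) = c • x j) :
    ∀ i, ∃ j, ∃ c : ℂ, (A * B) (x i) = c • x j := by
  intro i
  obtain ⟨j, c, hc⟩ := hB i
  obtain ⟨l, c', hc'⟩ := hA j
  refine ⟨l, c * c', ?_⟩
  rw [liq_mul_apply, hc, map_smul, hc', smul_smul]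

lemma MaxETF.permutes_inv (h : MaxETF d x)
    (A : EuclideanSpace ℂ (Fin d) ≃ₗᵢ[ℂ] EuclideanSpace ℂ (Fin d)) (hd : 1 ≤ d)
    (hA : ∀ i, ∃ j, ∃ c : ℂ, A (x i) = c • x j) :
    ∀ i, ∃ j, ∃ c : ℂ, (A⁻¹) (x i) = c • x j := by
  choose π c hc using hA
  have hcn : ∀ i, ‖c i‖ = 1 := fun i => h.norm_coeff A (hc i)
  have hc0 : ∀ i, c i ≠ 0 := by
    intro i h0
    have := hcn i
    rw [h0, norm_zero] at this
    exact zero_ne_one this
  have hinj : Function.Injective π := by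
    intro i j hij
    by_contra hne
    have h1 : A (x i) = (c i * (c j)⁻¹) • A (x j) := by
      rw [hc i, hc j, hij, smul_smul, mul_assoc, inv_mul_cancel₀ (hc0 j), mul_one]
    have h2 : x i = (c i * (c j)⁻¹) • x j := by
      apply A.injective
      rw [map_smul, h1]
    have h3 := h.off j i (Ne.symm hne)
    rw [h2, inner_smul_right, h.inner_self, mul_one, norm_mul, norm_inv, hcn, hcn] at h3
    have h4 : (1 : ℝ) < Real.sqrt ((d : ℝ) + 1) := by
      have hd' : (1 : ℝ) ≤ d := by exact_mod_cast hd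
      rw [Real.lt_sqrt (by norm_num)]
      linarith
    have h5 : 1 / Real.sqrt ((d : ℝ) + 1) < 1 := by
      rw [div_lt_one (by linarith)]
      exact h4
    simp at h3
    simp at h5
    linarith
  have hsurj := (Finite.injective_iff_surjective.1 hinj)
  intro i
  obtain ⟨j, hj⟩ := hsurj i
  refine ⟨j, (c j)⁻¹, ?_⟩
  have h1 : A⁻¹ (A (x j)) = x j := by
    rw [← liq_mul_apply, inv_mul_cancel]
    rfl
  rw [hc j, hj, map_smul] at h1
  rw [← h1, smul_smul, inv_mul_cancel₀ (hc0 j), one_smul]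

/-- the elementary abelian bound -/
theorem MaxETF.elemAb (h : MaxETF d x) (hsq : ¬ IsSquare (d + 1))
    {κ : Type*} [Fintype κ] [DecidableEq κ]
    (A : κ → (EuclideanSpace ℂ (Fin d) ≃ₗᵢ[ℂ] EuclideanSpace ℂ (Fin d)))
    (hA : ∀ a, ∀ i, ∃ j, ∃ c : ℂ, A a (x i) = c • x j)
    (hne : ∀ a b, a ≠ b → ¬ ∃ c : ℂ, ∀ v, A b v = c • A a v)
    (h2 : ∀ a b, ∃ c : ℂ, ∀ v, (((A a)⁻¹ * A b) ^ 2) v = c • v) :
    Fintype.card κ ≤ 2 * d := by
  have hd : 1 ≤ d := by
    rcases Nat.eq_zero_or_pos d with h0 | h0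
    · exfalso
      apply hsq
      rw [h0]
      exact ⟨1, rfl⟩
    · exact h0
  rcases isEmpty_or_nonempty κ with hκ | ⟨⟨a0⟩⟩
  · simp
  have hι : Nonempty ι := by
    rw [← Fintype.card_pos_iff, h.card]
    positivity
  obtain ⟨i0⟩ := hι
  -- normalised elements
  have hW : ∀ a, ∃ s : ℂ, ‖s‖ = 1 ∧ ∀ v, ((A a0)⁻¹ * A a) (((A a0)⁻¹ * A a) v) = s ^ 2 • v := by
    intro a
    obtain ⟨c, hc⟩ := h2 a0 a
    obtain ⟨s, hs⟩ : ∃ s : ℂ, s ^ 2 = c := IsAlgClosed.exists_pow_nat_eq c (by norm_num)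
    have hcn : ‖c‖ = 1 := by
      have h1 : ‖(((A a0)⁻¹ * A a) ^ 2) (x i0)‖ = ‖c • x i0‖ := by rw [hc]
      rw [LinearIsometryEquiv.norm_map, norm_smul, h.norm, mul_one] at h1
      exact h1.symm
    have hsn : ‖s‖ = 1 := by
      have : ‖s‖ ^ 2 = 1 := by rw [← norm_pow, hs, hcn]
      have h0 : 0 ≤ ‖s‖ := norm_nonneg s
      nlinarith
    refine ⟨s, hsn, fun v => ?_⟩
    rw [hs, ← hc v, sq]
    rfl
  choose s hs1 hs2 using hW
  have hs0 : ∀ a, s a ≠ 0 := by
    intro a h0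
    have := hs1 a
    rw [h0, norm_zero] at this
    exact zero_ne_one this
  have hsi : ∀ a, ‖(s a)⁻¹‖ = 1 := fun a => by rw [norm_inv, hs1, inv_one]
  let W : κ → (EuclideanSpace ℂ (Fin d) ≃ₗᵢ[ℂ] EuclideanSpace ℂ (Fin d)) :=
    fun a => (A a0)⁻¹ * A a
  let D : κ → (EuclideanSpace ℂ (Fin d) ≃ₗᵢ[ℂ] EuclideanSpace ℂ (Fin d)) :=
    fun a => rescale (s a)⁻¹ (hsi a) (W a)
  have hDapp : ∀ a v, D a v = (s a)⁻¹ • W a v := fun a v => rfl
  have hDD : ∀ a v, D a (D a v) = v := by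
    intro a v
    rw [hDapp, hDapp, map_smul]
    have : W a (W a v) = s a ^ 2 • v := hs2 a v
    rw [this, smul_smul, smul_smul]
    have e : (s a)⁻¹ * (s a)⁻¹ * s a ^ 2 = 1 := by
      have := hs0 a
      field_simp
    rw [e, one_smul]
  have hDsym : ∀ a u v, (inner ℂ (D a u) v : ℂ) = inner ℂ u (D a v) := by
    intro a u v
    conv_lhs => rw [← hDD a v]
    rw [(D a).inner_map_map]
  have hWp : ∀ a, ∀ i, ∃ j, ∃ c : ℂ, W a (x i) = c • x j :=
    fun a => permutes_mul _ _ (h.permutes_inv (A a0) hd (hA a0)) (hA a)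
  have hDp : ∀ a, ∀ i, ∃ j, ∃ c : ℂ, D a (x i) = c • x j := by
    intro a i
    obtain ⟨j, c, hc⟩ := hWp a i
    refine ⟨j, (s a)⁻¹ * c, ?_⟩
    rw [hDapp, hc, smul_smul]
  -- D a = s a • (W a)⁻¹
  have hDinv : ∀ a v, D a v = s a • (W a)⁻¹ v := by
    intro a v
    apply (D a).injective
    rw [hDD, map_smul, hDapp]
    have : W a ((W a)⁻¹ v) = v := by
      rw [← liq_mul_apply, mul_inv_cancel]
      rfl
    rw [this, smul_smul, mul_inv_cancel₀ (hs0 a), one_smul]
  have hR : ∀ a b v, D a (D b v) = (s a * (s b)⁻¹) • ((A a)⁻¹ * A b) v := by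
    intro a b v
    rw [hDinv a, hDapp b, map_smul, smul_smul]
    congr 1
    have : (W a)⁻¹ * W b = (A a)⁻¹ * A b := by
      simp only [W]
      group
    rw [← this]
    rfl
  have key := subfield_bound (κ := κ) d (fun a => D a (x i0))
    (fun a => by rw [(D a).norm_map, h.norm]) gaussQ (sqrt_not_mem_gaussQ d hsq) ?_
  · exact key
  intro a b hab
  set R := D a * D b with hRdef
  have hRapp : ∀ v, R v = D a (D b v) := fun v => rfl
  have hz : (inner ℂ (D a (x i0)) (D b (x i0)) : ℂ) = inner ℂ (x i0) (R (x i0)) := by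
    rw [hDsym, hRapp]
  obtain ⟨c, hc⟩ := h2 a b
  have hRR : ∃ l : ℂ, ∀ v, R (R v) = l • v := by
    refine ⟨(s a * (s b)⁻¹) * (s a * (s b)⁻¹) * c, fun v => ?_⟩
    rw [hRapp, hRapp, hR, hR, map_smul, smul_smul, mul_smul _ c v, ← hc v, sq]
    rfl
  obtain ⟨l, hl⟩ := hRR
  have hRns : ¬ ∃ c : ℂ, ∀ v, R v = c • v := by
    rintro ⟨c', hc'⟩
    refine hne a b hab ⟨(s a * (s b)⁻¹)⁻¹ * c', fun v => ?_⟩
    have h1 := hc' v
    rw [hRapp, hR] at h1
    have hss : s a * (s b)⁻¹ ≠ 0 := mul_ne_zero (hs0 a) (inv_ne_zero (hs0 b))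
    have h3 : ((A a)⁻¹ * A b) v = ((s a * (s b)⁻¹)⁻¹ * c') • v := by
      rw [mul_smul, ← h1, smul_smul, inv_mul_cancel₀ hss, one_smul]
    have h4 : A a (((A a)⁻¹ * A b) v) = A b v := by
      rw [← liq_mul_apply, mul_inv_cancel_left]
    rw [← h4, h3, map_smul]
  have hRp : ∀ i, ∃ j, ∃ c : ℂ, R (x i) = c • x j := permutes_mul _ _ (hDp a) (hDp b)
  have hRfix := (h.proj_involution hd R hRp hRns ⟨l, hl⟩ hsq).2 i0
  have hnorm := h.norm_not_fixed R hRp hRfix
  have hll : l = 1 ∨ l = -1 := by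
    have h1 : ∀ w, D b (D a (D b (D a w))) = l • w := by
      intro w
      have h3 : D a (D b (D a (D b (D a w)))) = l • D a w := hl (D a w)
      have h4 : D a (D a (D b (D a (D b (D a w))))) = l • w := by
        rw [h3, map_smul, hDD]
      rwa [hDD] at h4
    have h5 : l • l • x i0 = x i0 := by
      have h6 : D b (D a (D b (D a (D a (D b (D a (D b (x i0)))))))) = x i0 := by
        rw [hDD, hDD, hDD, hDD]
      rw [h1] at h6
      have h7 : D a (D b (D a (D b (x i0)))) = l • x i0 := hl (x i0)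
      rwa [h7] at h6
    have h8 : (l * l) • x i0 = (1 : ℂ) • x i0 := by rw [mul_smul, h5, one_smul]
    have h9 : l * l = 1 := smul_left_injective ℂ (h.ne_zero i0) h8
    exact mul_self_eq_one_iff.1 h9
  have hl1 : l * l = 1 := by rcases hll with rfl | rfl <;> norm_num
  have hconj : (starRingEnd ℂ) (inner ℂ (x i0) (R (x i0))) = l * inner ℂ (x i0) (R (x i0)) := by
    rw [inner_conj_symm, hRapp, hDsym, hDsym]
    have h1 : D b (D a (x i0)) = l • D a (D b (x i0)) := by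
      have h3 : D a (D b (D a (D b (x i0)))) = l • x i0 := hl (x i0)
      have h4 : D a (D b (x i0)) = l • D b (D a (x i0)) := by
        have h5 : D b (D a (D a (D b (D a (D b (x i0)))))) = l • D b (D a (x i0)) := by
          rw [h3, map_smul, map_smul]
        rwa [hDD, hDD] at h5
      rw [h4, smul_smul, hl1, one_smul]
    rw [h1, inner_smul_right]
  rw [hz]
  refine gauss_unit _ ?_ l hll ?_
  · rw [norm_mul, hnorm]
    have hpos : 0 < Real.sqrt ((d : ℝ) + 1) := Real.sqrt_pos.2 (by positivity)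
    rw [Complex.norm_real, Real.norm_eq_abs, abs_of_pos hpos]
    field_simp
  · rw [map_mul, hconj, Complex.conj_ofReal]
    ring

end Pool.Agent.Lib.MP_d0f9e0_co
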