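import Mathlib
import Pool.Agent.Lib.MP_d0f9e0_co.Fixed

set_option autoImplicit false
set_option linter.unusedSectionVars false
set_option linter.unusedSimpArgs false

open scoped ComplexOrder

namespace Pool.Agent.Lib.MP_d0f9e0_co

variable {ι : Type*} [Fintype ι] [DecidableEq ι]
variable {d : ℕ} {x : ι → EuclideanSpace ℂ (Fin d)}

theorem MaxETF.sum_map_inner (h : MaxETF d x)
    (A : EuclideanSpace ℂ (Fin d) →ₗ[ℂ] EuclideanSpace ℂ (Fin d))
    (v w : EuclideanSpace ℂ (Fin d)) :
    ∑ k, (inner ℂ (x k) (A (x k)) : ℂ) * (inner ℂ v (x k) * inner ℂ (x k) w)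
      = (d / (d + 1) : ℂ) * (inner ℂ v (A w) + LinearMap.trace ℂ _ A * inner ℂ v w) := by
  have e1 : ∀ k, (inner ℂ (x k) (A (x k)) : ℂ) * (inner ℂ v (x k) * inner ℂ (x k) w)
      = ∑ a, ∑ b, ∑ c, ∑ e, (ent A a b * (star (v c) * w e)) *
          (x k b * x k c * (star (x k a) * star (x k e))) := by
    intro k
    have e2 : (inner ℂ v (x k) * inner ℂ (x k) w : ℂ)
        = ∑ c, ∑ e, (x k c * star (v c)) * (w e * star (x k e)) := by
      simp only [PiLp.inner_apply, RCLike.inner_apply, Finset.sum_mul_sum]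
      rfl
    rw [inner_map_eq, e2, prod2]
    refine Finset.sum_congr rfl fun a _ => Finset.sum_congr rfl fun b _ =>
        Finset.sum_congr rfl fun c _ => Finset.sum_congr rfl fun e _ => ?_
    ring
  rw [Finset.sum_congr rfl fun k _ => e1 k]
  have e3 : ∑ k, ∑ a, ∑ b, ∑ c, ∑ e, (ent A a b * (star (v c) * w e)) *
          (x k b * x k c * (star (x k a) * star (x k e)))
        = ∑ a, ∑ b, ∑ c, ∑ e, (ent A a b * (star (v c) * w e)) *
        ((d / (d + 1) : ℂ) * ((if b = a then 1 else 0) * (if c = e then 1 else 0)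
        + (if b = e then 1 else 0) * (if c = a then 1 else 0))) := by
    rw [Finset.sum_comm]
    refine Finset.sum_congr rfl fun a _ => ?_
    rw [Finset.sum_comm]
    refine Finset.sum_congr rfl fun b _ => ?_
    rw [Finset.sum_comm]
    refine Finset.sum_congr rfl fun c _ => ?_
    rw [Finset.sum_comm]
    refine Finset.sum_congr rfl fun e _ => ?_
    rw [← Finset.mul_sum, h.design_entry]
  rw [e3]
  have htr : LinearMap.trace ℂ _ A * inner ℂ v w
      = ∑ a, ∑ c, ent A a a * (star (v c) * w c) := by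
    rw [trace_eq_ent]
    simp only [PiLp.inner_apply, RCLike.inner_apply, Finset.sum_mul_sum]
    refine Finset.sum_congr rfl fun a _ => Finset.sum_congr rfl fun b _ => ?_
    rw [mul_comm (w b)]
    rfl
  have hin : (inner ℂ v (A w) : ℂ) = ∑ a, ∑ b, ent A a b * (star (v a) * w b) := by
    simp only [PiLp.inner_apply, RCLike.inner_apply]
    refine Finset.sum_congr rfl fun a _ => ?_
    rw [apply_eq_sum, Finset.sum_mul]
    refine Finset.sum_congr rfl fun b _ => ?_
    simp only [RCLike.star_def]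
    ring
  rw [htr, hin]
  simp only [mul_add, Finset.sum_add_distrib, Finset.mul_sum]
  rw [add_comm]
  congr 1
  · refine Finset.sum_congr rfl fun a _ => Finset.sum_congr rfl fun b _ => ?_
    rw [Finset.sum_eq_single a, Finset.sum_eq_single b]
    · simp only [if_true]; ring
    · intro e _ he; simp [Ne.symm he]
    · simp
    · intro c _ hc; simp [hc]
    · simp
  · refine Finset.sum_congr rfl fun a _ => ?_
    rw [Finset.sum_eq_single a]
    · refine Finset.sum_congr rfl fun c _ => ?_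
      rw [Finset.sum_eq_single c]
      · simp only [if_true]; ring
      · intro e _ he; simp [Ne.symm he]
      · simp
    · intro b _ hb; simp [hb]
    · simp

/-- operator form of the 2-design property -/
theorem MaxETF.sum_map_apply (h : MaxETF d x)
    (A : EuclideanSpace ℂ (Fin d) →ₗ[ℂ] EuclideanSpace ℂ (Fin d))
    (w : EuclideanSpace ℂ (Fin d)) :
    ∑ k, ((inner ℂ (x k) (A (x k)) : ℂ) * inner ℂ (x k) w) • x k
      = (d / (d + 1) : ℂ) • (A w + LinearMap.trace ℂ _ A • w) := by
  refine ext_inner_left ℂ fun v => ?_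
  rw [inner_sum, inner_smul_right, inner_add_right, inner_smul_right, ← h.sum_map_inner]
  refine Finset.sum_congr rfl fun k _ => ?_
  rw [inner_smul_right]
  ring

theorem MaxETF.sum_apply (h : MaxETF d x) (w : EuclideanSpace ℂ (Fin d)) :
    ∑ k, (inner ℂ (x k) w : ℂ) • x k = (d : ℂ) • w := by
  refine ext_inner_left ℂ fun v => ?_
  rw [inner_sum, inner_smul_right, ← h.sum_inner]
  refine Finset.sum_congr rfl fun k _ => ?_
  rw [inner_smul_right]
  ring

/-- analysis of the equality case -/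
theorem MaxETF.trace_equality (h : MaxETF d x) (hd : 1 ≤ d)
    (U : EuclideanSpace ℂ (Fin d) ≃ₗᵢ[ℂ] EuclideanSpace ℂ (Fin d))
    (hU : ∀ i, ∃ j, ∃ c : ℂ, U (x i) = c • x j)
    (heq : ‖LinearMap.trace ℂ _ (lin U)‖ = Real.sqrt ((d : ℝ) + 1) + 1) :
    ∃ (n : ℕ) (u : ℂ), d + 1 = n ^ 2 ∧ ‖u‖ = 1 ∧ (∀ v, U (U v) = u ^ 2 • v) ∧
      (∀ i, (∃ c : ℂ, U (x i) = c • x i) → U (x i) = u • x i) ∧
      2 * Module.finrank ℂ (Module.End.eigenspace (lin U) u) = n * (n + 1) ∧
      ∀ v, U v = u • v → ∑ k ∈ fixedLines x U, (inner ℂ (x k) v : ℂ) • x k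
        = (2 * ((n : ℂ) + 1) / n) • v := by
  set T : ℂ := LinearMap.trace ℂ _ (lin U) with hT
  set ν : ℝ := Real.sqrt ((d : ℝ) + 1) with hν
  have hν2 : ν ^ 2 = (d : ℝ) + 1 := Real.sq_sqrt (by positivity)
  have hd0 : (1 : ℝ) ≤ d := by exact_mod_cast hd
  have hν0 : 0 ≤ ν := Real.sqrt_nonneg _
  have hν1 : 1 < ν := by nlinarith
  have hdν : (d : ℝ) = (ν - 1) * (ν + 1) := by nlinarith
  have htpos : 0 < ‖T‖ := by rw [heq]; linarith
  have hT0 : (‖T‖ : ℂ) ≠ 0 := by exact_mod_cast htpos.ne'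
  set u : ℂ := T / ‖T‖ with hu
  have hun : ‖u‖ = 1 := by
    rw [hu, norm_div]
    simp only [Complex.norm_real, norm_norm]
    exact div_self htpos.ne'
  have hTu : T = (ν + 1 : ℝ) * u := by
    rw [← heq, hu]
    field_simp
  have huu : (starRingEnd ℂ) u * u = 1 := by
    have := Complex.conj_mul' u
    rw [this, hun]; simp
  have hu0 : u ≠ 0 := by
    intro h0
    rw [h0, norm_zero] at hun
    exact zero_ne_one hun
  set r : ι → ℂ := fun k => (inner ℂ (x k) (lin U (x k)) : ℂ) with hr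
  have hf : ((fixedLines x U).card : ℝ) = (ν + 1) ^ 2 := by
    rw [h.card_fixed hd U hU, ← hT, heq]
  have hrf : ∀ k ∈ fixedLines x U, ‖r k‖ = 1 := fun k hk =>
    h.norm_fixed U ((mem_fixedLines U k).1 hk)
  have hrn : ∀ k, k ∉ fixedLines x U → ‖r k‖ = 1 / ν := fun k hk =>
    h.norm_not_fixed U hU (fun hh => hk ((mem_fixedLines U k).2 hh))
  have hsumn : ∑ k, ‖r k‖ = d * (ν + 1) := by
    rw [h.sum_split (fixedLines x U) _ 1 (1 / ν) hrf hrn, hf, hdν]
    field_simp
    ring
  have hsumr : ∑ k, r k = d * T := h.sum_inner_map (lin U)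
  have hsumre : ∑ k, ((starRingEnd ℂ) u * r k).re = d * (ν + 1) := by
    rw [← Complex.re_sum, ← Finset.mul_sum, hsumr, hTu]
    have : (starRingEnd ℂ) u * ((d : ℂ) * (((ν + 1 : ℝ) : ℂ) * u)) = ((d * (ν + 1) : ℝ) : ℂ) := by
      push_cast
      linear_combination ((d : ℂ) * ((ν : ℂ) + 1)) * huu
    rw [this, Complex.ofReal_re]
  have hle : ∀ k, ((starRingEnd ℂ) u * r k).re ≤ ‖r k‖ := by
    intro k
    refine (Complex.re_le_norm _).trans ?_
    rw [norm_mul, RCLike.norm_conj, hun, one_mul]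
  have hall : ∀ k, ((starRingEnd ℂ) u * r k).re = ‖r k‖ := by
    intro k
    have h0 : ∑ k, (‖r k‖ - ((starRingEnd ℂ) u * r k).re) = 0 := by
      rw [Finset.sum_sub_distrib, hsumn, hsumre, sub_self]
    have := (Finset.sum_eq_zero_iff_of_nonneg (fun k _ => sub_nonneg.2 (hle k))).1 h0 k
      (Finset.mem_univ k)
    linarith
  have hrk : ∀ k, r k = (‖r k‖ : ℂ) * u := by
    intro k
    set z := (starRingEnd ℂ) u * r k with hz
    have hzn : ‖z‖ = ‖r k‖ := by
      rw [hz, norm_mul, RCLike.norm_conj, hun, one_mul]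
    have hzre : z.re = ‖z‖ := by rw [hzn]; exact hall k
    have hz2 : z = (‖z‖ : ℂ) := by
      have him : z.im = 0 := by
        have h1 := Complex.sq_norm z
        rw [Complex.normSq_apply, ← hzre] at h1
        have : z.im * z.im = 0 := by nlinarith
        exact mul_self_eq_zero.1 this
      apply Complex.ext
      · simp [hzre]
      · simp [him]
    have h4 : u * z = r k := by
      rw [hz]
      linear_combination r k * huu
    have h5 : u * z = (‖r k‖ : ℂ) * u := by
      rw [hz2, hzn]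
      ring
    exact h4.symm.trans h5
  -- the frame operator of the fixed lines
  have hνc : (ν : ℂ) ≠ 0 := by
    have : ν ≠ 0 := by linarith
    exact_mod_cast this
  have hν1c : (ν : ℂ) + 1 ≠ 0 := by
    have : ν + 1 ≠ 0 := by linarith
    exact_mod_cast this
  have hdc : (d : ℂ) = ((ν : ℂ) - 1) * ((ν : ℂ) + 1) := by exact_mod_cast hdν
  have hd1c : (d : ℂ) + 1 = (ν : ℂ) ^ 2 := by exact_mod_cast hν2.symm
  have hm1c : (ν : ℂ) - 1 ≠ 0 := by
    have : ν - 1 ≠ 0 := by linarith
    exact_mod_cast this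
  have hmain : ∀ w, U w = u • (((ν : ℂ) / (ν + 1)) •
      (∑ k ∈ fixedLines x U, (inner ℂ (x k) w : ℂ) • x k) - w) := by
    intro w
    have h1 := h.sum_map_apply (lin U) w
    have h2 := h.sum_apply w
    rw [← Finset.sum_add_sum_compl (fixedLines x U)] at h1 h2
    have h3 : ∑ k ∈ fixedLines x U, ((inner ℂ (x k) (lin U (x k)) : ℂ) * inner ℂ (x k) w) • x k
        = u • ∑ k ∈ fixedLines x U, (inner ℂ (x k) w : ℂ) • x k := by
      rw [Finset.smul_sum]
      refine Finset.sum_congr rfl fun k hk => ?_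
      have := hrk k
      rw [hrf k hk] at this
      simp only [hr] at this
      rw [this, smul_smul]
      simp
    have h4 : ∑ k ∈ (fixedLines x U)ᶜ, ((inner ℂ (x k) (lin U (x k)) : ℂ) * inner ℂ (x k) w) • x k
        = (u / ν) • ∑ k ∈ (fixedLines x U)ᶜ, (inner ℂ (x k) w : ℂ) • x k := by
      rw [Finset.smul_sum]
      refine Finset.sum_congr rfl fun k hk => ?_
      have := hrk k
      rw [hrn k (Finset.mem_compl.1 hk)] at this
      simp only [hr] at this
      rw [this, smul_smul]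
      congr 1
      push_cast
      ring
    rw [h3, h4] at h1
    set Y := ∑ k ∈ fixedLines x U, (inner ℂ (x k) w : ℂ) • x k with hY
    set Z := ∑ k ∈ (fixedLines x U)ᶜ, (inner ℂ (x k) w : ℂ) • x k with hZ
    have hZ' : Z = (d : ℂ) • w - Y := by rw [← h2]; abel
    rw [hZ', ← hT, hTu, hd1c] at h1
    have h5 : U w = (ν ^ 2 / d : ℂ) • (u • Y + (u / ν) • ((d : ℂ) • w - Y))
        - (((ν + 1 : ℝ) : ℂ) * u) • w := by
      have hdne : (d : ℂ) ≠ 0 := by
        have : (d : ℝ) ≠ 0 := by linarith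
        exact_mod_cast this
      rw [h1, smul_smul]
      have : (ν ^ 2 / d : ℂ) * (d / ν ^ 2) = 1 := by field_simp
      rw [this, one_smul]
      simp [lin]
    rw [h5, hdc]
    ext a
    simp only [PiLp.sub_apply, PiLp.smul_apply, PiLp.add_apply, smul_eq_mul]
    push_cast
    field_simp
    ring
  have hsym : ∀ v w, (inner ℂ v (∑ k ∈ fixedLines x U, (inner ℂ (x k) w : ℂ) • x k) : ℂ)
      = inner ℂ (∑ k ∈ fixedLines x U, (inner ℂ (x k) v : ℂ) • x k) w := by
    intro v w
    rw [inner_sum, _root_.sum_inner]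
    refine Finset.sum_congr rfl fun k _ => ?_
    rw [inner_smul_right, inner_smul_left, inner_conj_symm]
    ring
  have hUsym : ∀ v w, (inner ℂ v (U w) : ℂ) = u * u * inner ℂ (U v) w := by
    intro v w
    rw [hmain w, hmain v, inner_smul_right, inner_smul_left, inner_sub_right, inner_sub_left,
      inner_smul_right, inner_smul_left, hsym]
    have : (starRingEnd ℂ) ((ν : ℂ) / (ν + 1)) = (ν : ℂ) / (ν + 1) := by
      simp
    rw [this]
    linear_combination (-u * ((ν : ℂ) / (ν + 1) *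
      inner ℂ (∑ k ∈ fixedLines x U, (inner ℂ (x k) v : ℂ) • x k) w - inner ℂ v w)) * huu
  have hUU : ∀ v, U (U v) = u ^ 2 • v := by
    intro v
    refine ext_inner_left ℂ fun w => ?_
    rw [hUsym, U.inner_map_map, inner_smul_right]
    ring
  have hfixu : ∀ i, (∃ c : ℂ, U (x i) = c • x i) → U (x i) = u • x i := by
    intro i hi
    have h1 := hrk i
    have hin := (mem_fixedLines U i).2 hi
    rw [hrf i hin] at h1
    obtain ⟨c, hc⟩ := hi
    have h2 : r i = c := by
      simp only [hr]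
      change (inner ℂ (x i) (U (x i)) : ℂ) = c
      rw [hc, inner_smul_right, h.inner_self, mul_one]
    rw [h2] at h1
    rw [hc, h1]
    simp
  have hframe : ∀ v, U v = u • v → ∑ k ∈ fixedLines x U, (inner ℂ (x k) v : ℂ) • x k
        = (2 * ((ν : ℂ) + 1) / ν) • v := by
    intro v hv
    have h1 := hmain v
    rw [hv] at h1
    have h2 := congrArg (fun z => u⁻¹ • z) h1
    simp only [smul_smul, inv_mul_cancel₀ hu0, one_smul] at h2
    have h3 : (2 : ℂ) • v = ((ν : ℂ) / (ν + 1)) •
        ∑ k ∈ fixedLines x U, (inner ℂ (x k) v : ℂ) • x k := by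
      have : (2 : ℂ) • v = v + v := two_smul ℂ v
      rw [this]
      nth_rewrite 1 [h2]
      abel
    have h4 := congrArg (fun z => (((ν : ℂ) + 1) / ν) • z) h3
    simp only [smul_smul] at h4
    have e1 : ((ν : ℂ) + 1) / ν * (ν / (ν + 1)) = 1 := by field_simp
    rw [e1, one_smul] at h4
    rw [← h4]
    congr 1
    ring
  -- dimension
  have hdim : 2 * (Module.finrank ℂ (Module.End.eigenspace (lin U) u) : ℝ) = ν * (ν + 1) := by
    -- projection onto the eigenspace
    set P : EuclideanSpace ℂ (Fin d) →ₗ[ℂ] EuclideanSpace ℂ (Fin d) :=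
      (1 / 2 : ℂ) • (LinearMap.id + u⁻¹ • lin U) with hP
    have hproj : LinearMap.IsProj (Module.End.eigenspace (lin U) u) P := by
      constructor
      · intro v
        rw [Module.End.mem_eigenspace_iff]
        simp only [hP, LinearMap.smul_apply, LinearMap.add_apply, LinearMap.id_apply, map_smul,
          map_add]
        have : lin U (lin U v) = u ^ 2 • v := hUU v
        rw [this]
        ext a
        simp only [PiLp.smul_apply, PiLp.add_apply, smul_eq_mul]
        field_simp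
        ring
      · intro v hv
        rw [Module.End.mem_eigenspace_iff] at hv
        simp only [hP, LinearMap.smul_apply, LinearMap.add_apply, LinearMap.id_apply]
        rw [hv, smul_smul, inv_mul_cancel₀ hu0, one_smul]
        module
    have h1 := hproj.trace
    rw [hP, map_smul, map_add, LinearMap.trace_id, map_smul, ← hT, hTu] at h1
    simp only [smul_eq_mul, finrank_euclideanSpace, Fintype.card_fin] at h1
    have e1 : (1 / 2 : ℂ) * ((d : ℂ) + u⁻¹ * (((ν + 1 : ℝ) : ℂ) * u))
        = (((1 / 2 : ℝ) * (d + (ν + 1)) : ℝ) : ℂ) := by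
      push_cast
      field_simp
    rw [e1] at h1
    have h2 : (1 / 2 : ℝ) * (d + (ν + 1)) = (Module.finrank ℂ (Module.End.eigenspace (lin U) u) : ℝ) := by
      exact_mod_cast h1
    rw [← h2, hdν]
    ring
  -- ν is a natural number
  have hνint : ν = ((2 * (Module.finrank ℂ (Module.End.eigenspace (lin U) u) : ℤ) - (d + 1) : ℤ) : ℝ) := by
    push_cast
    nlinarith
  obtain ⟨n, hn⟩ : ∃ n : ℕ, (n : ℝ) = ν := by
    have hz : (0 : ℤ) ≤ (2 * (Module.finrank ℂ (Module.End.eigenspace (lin U) u) : ℤ) - (d + 1)) := by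
      have : (0 : ℝ) ≤ ((2 * (Module.finrank ℂ (Module.End.eigenspace (lin U) u) : ℤ) - (d + 1) : ℤ) : ℝ) := by
        rw [← hνint]; exact hν0
      exact_mod_cast this
    obtain ⟨n, hn⟩ := Int.eq_ofNat_of_zero_le hz
    refine ⟨n, ?_⟩
    rw [hνint, hn]
    simp
  have hnc : (ν : ℂ) = (n : ℂ) := by rw [← hn]; simp
  refine ⟨n, u, ?_, hun, hUU, hfixu, ?_, ?_⟩
  · have : ((d : ℝ) + 1) = (n : ℝ) ^ 2 := by rw [hn, hν2]
    exact_mod_cast this
  · rw [← hn] at hdim
    exact_mod_cast hdim
  · intro v hv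
    rw [hframe v hv, hnc]

end Pool.Agent.Lib.MP_d0f9e0_co
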