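import Mathlib
import Pool.Agent.Lib.MP_d0f9e0_co.ElemAb
import Pool.Agent.Lib.MP_d0f9e0_co.Equality

set_option autoImplicit false
set_option linter.unusedSectionVars false
set_option linter.unusedSimpArgs false
set_option linter.deprecated false

open Matrix

namespace Pool.Agent.Lib.MP_d0f9e0_co

/-- the standard Hermitian inner product of `ℂ^d`, linear in the first argument -/
noncomputable def ip {d : ℕ} (u v : Fin d → ℂ) : ℂ := ∑ k, u k * star (v k)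

/-- a maximal equiangular tight frame: `d^2` unit vectors of `ℂ^d` whose pairwise inner products
have modulus `1/√(d+1)` -/
def IsMaximalETF (d : ℕ) (x : Fin (d ^ 2) → (Fin d → ℂ)) : Prop :=
  (∀ i, ip (x i) (x i) = 1) ∧ ∀ i j, i ≠ j → ‖ip (x i) (x j)‖ = 1 / Real.sqrt ((d : ℝ) + 1)

/-- `U` is a unitary matrix mapping each line `ℂ x_i` onto some line `ℂ x_j` -/
def IsSymmetry {d : ℕ} (x : Fin (d ^ 2) → (Fin d → ℂ)) (U : Matrix (Fin d) (Fin d) ℂ) : Prop :=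
  U ∈ Matrix.unitaryGroup (Fin d) ℂ ∧ ∀ i, ∃ j, ∃ c : ℂ, U.mulVec (x i) = c • x j

lemma inner_toLp {d : ℕ} (u v : Fin d → ℂ) :
    (inner ℂ (WithLp.toLp 2 u : EuclideanSpace ℂ (Fin d)) (WithLp.toLp 2 v) : ℂ) = ip v u := by
  simp only [PiLp.inner_apply, RCLike.inner_apply, ip]
  rfl

lemma IsMaximalETF.toMaxETF {d : ℕ} {x : Fin (d ^ 2) → (Fin d → ℂ)} (h : IsMaximalETF d x) :
    MaxETF d (fun i => (WithLp.toLp 2 (x i) : EuclideanSpace ℂ (Fin d))) := by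
  refine ⟨by simp, fun i => ?_, fun i j hij => ?_⟩
  · have h1 := h.1 i
    rw [← inner_toLp, inner_self_eq_norm_sq_to_K] at h1
    have h1' : ((‖(WithLp.toLp 2 (x i) : EuclideanSpace ℂ (Fin d))‖ : ℝ) : ℂ) ^ 2 = 1 := h1
    have h2 : ‖(WithLp.toLp 2 (x i) : EuclideanSpace ℂ (Fin d))‖ ^ 2 = 1 := by exact_mod_cast h1'
    have h0 : 0 ≤ ‖(WithLp.toLp 2 (x i) : EuclideanSpace ℂ (Fin d))‖ := norm_nonneg _
    nlinarith
  · rw [inner_toLp]
    exact h.2 j i (Ne.symm hij)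

/-- the linear isometry equivalence of a unitary matrix -/
noncomputable def toLIE {d : ℕ} (U : Matrix (Fin d) (Fin d) ℂ) (h1 : Uᴴ * U = 1) (h2 : U * Uᴴ = 1) :
    EuclideanSpace ℂ (Fin d) ≃ₗᵢ[ℂ] EuclideanSpace ℂ (Fin d) where
  toLinearEquiv := LinearEquiv.ofLinearMap (Matrix.toEuclideanLin U) (Matrix.toEuclideanLin Uᴴ)
    (by
      ext v a
      simp [Matrix.toEuclideanLin_apply, Matrix.mulVec_mulVec, h2])
    (by
      ext v a
      simp [Matrix.toEuclideanLin_apply, Matrix.mulVec_mulVec, h1])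
  norm_map' := by
    intro v
    have h3 : ‖(Matrix.toEuclideanLin U) v‖ ^ 2 = ‖v‖ ^ 2 := by
      have h4 : ((‖(Matrix.toEuclideanLin U) v‖ ^ 2 : ℝ) : ℂ) = ((‖v‖ ^ 2 : ℝ) : ℂ) := by
        have e1 := inner_self_eq_norm_sq_to_K (𝕜 := ℂ) ((Matrix.toEuclideanLin U) v)
        have e2 := inner_self_eq_norm_sq_to_K (𝕜 := ℂ) v
        push_cast
        have e3 : (inner ℂ ((Matrix.toEuclideanLin U) v) ((Matrix.toEuclideanLin U) v) : ℂ)
            = inner ℂ v v := by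
          have := Matrix.toEuclideanLin_conjTranspose_eq_adjoint U
          rw [← LinearMap.adjoint_inner_right, ← this]
          congr 1
          simp [Matrix.toEuclideanLin_apply, Matrix.mulVec_mulVec, h1]
        rw [e1, e2] at e3
        exact e3
      exact_mod_cast h4
    exact (pow_left_inj₀ (norm_nonneg _) (norm_nonneg _) two_ne_zero).1 h3

lemma toLIE_apply {d : ℕ} (U : Matrix (Fin d) (Fin d) ℂ) (h1 : Uᴴ * U = 1) (h2 : U * Uᴴ = 1)
    (v : Fin d → ℂ) : toLIE U h1 h2 (WithLp.toLp 2 v) = WithLp.toLp 2 (U.mulVec v) := by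
  rfl

lemma toLIE_pow_apply {d : ℕ} (U : Matrix (Fin d) (Fin d) ℂ) (h1 : Uᴴ * U = 1) (h2 : U * Uᴴ = 1)
    (k : ℕ) (v : Fin d → ℂ) :
    (toLIE U h1 h2 ^ k) (WithLp.toLp 2 v) = WithLp.toLp 2 ((U ^ k).mulVec v) := by
  induction k with
  | zero => simp
  | succ k ih => rw [pow_succ', pow_succ', liq_mul_apply, ih, toLIE_apply, Matrix.mulVec_mulVec]

lemma toLIE_inv_apply {d : ℕ} (U : Matrix (Fin d) (Fin d) ℂ) (h1 : Uᴴ * U = 1) (h2 : U * Uᴴ = 1)
    (v : Fin d → ℂ) :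
    (toLIE U h1 h2)⁻¹ (WithLp.toLp 2 v) = WithLp.toLp 2 (Uᴴ.mulVec v) := by
  rfl

lemma toLIE_trace {d : ℕ} (U : Matrix (Fin d) (Fin d) ℂ) (h1 : Uᴴ * U = 1) (h2 : U * Uᴴ = 1) :
    LinearMap.trace ℂ _ (lin (toLIE U h1 h2)) = U.trace := by
  rw [trace_eq_ent]
  simp only [Matrix.trace, Matrix.diag]
  refine Finset.sum_congr rfl fun a _ => ?_
  have : (EuclideanSpace.basisFun (Fin d) ℂ) a = WithLp.toLp 2 (Pi.single a 1) := by
    simp
  simp only [ent, lin]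
  rw [this]
  change (toLIE U h1 h2 (WithLp.toLp 2 (Pi.single a 1))) a = U a a
  rw [toLIE_apply]
  simp

lemma eq_smul_one_of_forall {d : ℕ} (U : Matrix (Fin d) (Fin d) ℂ) (h1 : Uᴴ * U = 1)
    (h2 : U * Uᴴ = 1) (c : ℂ) (h : ∀ v, toLIE U h1 h2 v = c • v) : U = c • 1 := by
  ext a b
  have := h (WithLp.toLp 2 (Pi.single b 1))
  rw [toLIE_apply] at this
  have h3 := congrArg (fun z : EuclideanSpace ℂ (Fin d) => z a) this
  simp only [Matrix.mulVec_single_one, PiLp.smul_apply, smul_eq_mul] at h3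
  have h4 : U a b = c * (Pi.single b (1 : ℂ) : Fin d → ℂ) a := h3
  rw [h4, Matrix.smul_apply, Matrix.one_apply, smul_eq_mul]
  congr 1
  rw [Pi.single_apply]

lemma IsSymmetry.left {d : ℕ} {x : Fin (d ^ 2) → (Fin d → ℂ)} {U : Matrix (Fin d) (Fin d) ℂ}
    (h : IsSymmetry x U) : Uᴴ * U = 1 := (Matrix.mem_unitaryGroup_iff'.1 h.1)

lemma IsSymmetry.right {d : ℕ} {x : Fin (d ^ 2) → (Fin d → ℂ)} {U : Matrix (Fin d) (Fin d) ℂ}
    (h : IsSymmetry x U) : U * Uᴴ = 1 := (Matrix.mem_unitaryGroup_iff.1 h.1)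

lemma IsSymmetry.permutes {d : ℕ} {x : Fin (d ^ 2) → (Fin d → ℂ)} {U : Matrix (Fin d) (Fin d) ℂ}
    (h : IsSymmetry x U) : ∀ i, ∃ j, ∃ c : ℂ,
      toLIE U h.left h.right (WithLp.toLp 2 (x i)) = c • (WithLp.toLp 2 (x j)) := by
  intro i
  obtain ⟨j, c, hc⟩ := h.2 i
  refine ⟨j, c, ?_⟩
  rw [toLIE_apply, hc]
  rfl

lemma fixes_iff {d : ℕ} (U : Matrix (Fin d) (Fin d) ℂ) (h1 : Uᴴ * U = 1)
    (h2 : U * Uᴴ = 1) (v : Fin d → ℂ) (c : ℂ) :
    toLIE U h1 h2 (WithLp.toLp 2 v) = c • (WithLp.toLp 2 v) ↔ U.mulVec v = c • v := by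
  rw [toLIE_apply]
  constructor
  · intro h
    exact (WithLp.toLp_injective 2) h
  · intro h
    rw [h]
    rfl

end Pool.Agent.Lib.MP_d0f9e0_co
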