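import Mathlib
import Pool.Agent.Lib.MP_d0f9e0_co.Bridge

set_option autoImplicit false
set_option linter.unusedSectionVars false
set_option linter.unusedSimpArgs false

open Matrix

namespace Pool.Agent.Lib.MP_d0f9e0_co.Ramif

/-- the Hadamard square of a Gram type matrix through `d` columns has rank at most `d(d+1)/2` -/
lemma exists_ker_sq {d n : ℕ} (hn : d * (d + 1) / 2 < n) (P Q : Fin n → Fin d → ℂ) :
    (Matrix.of fun k l : Fin n => (∑ a, P k a * Q l a) ^ 2).det = 0 := by
  rw [← Matrix.exists_mulVec_eq_zero_iff]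
  let g : Fin n → Sym2 (Fin d) → ℂ := fun l s =>
    Sym2.lift ⟨fun a b => Q l a * Q l b, fun a b => mul_comm _ _⟩ s
  let f : (Fin n → ℂ) →ₗ[ℂ] (Sym2 (Fin d) → ℂ) :=
    { toFun := fun y s => ∑ l, y l * g l s
      map_add' := by
        intro y z
        ext s
        simp [add_mul, Finset.sum_add_distrib]
      map_smul' := by
        intro c y
        ext s
        simp [Finset.mul_sum, mul_assoc] }
  have hlt : Module.finrank ℂ (Sym2 (Fin d) → ℂ) < Module.finrank ℂ (Fin n → ℂ) := by
    rw [Module.finrank_fintype_fun_eq_card, Module.finrank_fintype_fun_eq_card, Sym2.card,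
      Fintype.card_fin, Fintype.card_fin, Nat.choose_two_right]
    simpa [mul_comm] using hn
  have hker : LinearMap.ker f ≠ ⊥ := LinearMap.ker_ne_bot_of_finrank_lt hlt
  obtain ⟨y, hy, hy0⟩ := (Submodule.ne_bot_iff _).1 hker
  have hy' : ∀ a b, ∑ l, y l * (Q l a * Q l b) = 0 := by
    intro a b
    have := congrFun (LinearMap.mem_ker.1 hy) s(a, b)
    simpa [f, g] using this
  refine ⟨y, hy0, ?_⟩
  ext k
  simp only [Matrix.mulVec, dotProduct, Matrix.of_apply, Pi.zero_apply]
  calc ∑ l, (∑ a, P k a * Q l a) ^ 2 * y l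
      = ∑ l, ∑ a, ∑ b, (P k a * P k b) * (y l * (Q l a * Q l b)) := by
        refine Finset.sum_congr rfl fun l _ => ?_
        rw [sq, Finset.sum_mul_sum, Finset.sum_mul]
        refine Finset.sum_congr rfl fun a _ => ?_
        rw [Finset.sum_mul]
        refine Finset.sum_congr rfl fun b _ => ?_
        ring
    _ = ∑ a, ∑ b, (P k a * P k b) * ∑ l, (y l * (Q l a * Q l b)) := by
        rw [Finset.sum_comm]
        refine Finset.sum_congr rfl fun a _ => ?_
        rw [Finset.sum_comm]
        refine Finset.sum_congr rfl fun b _ => ?_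
        rw [Finset.mul_sum]
    _ = 0 := by simp [hy']

variable {Γ : Type*} [LinearOrderedCommGroupWithZero Γ]

lemma val_natCast_le {K : Type*} [Field K] (v : Valuation K Γ) (n : ℕ) : v (n : K) ≤ 1 := by
  induction n with
  | zero => simp
  | succ n ih =>
    push_cast
    exact v.map_add_le ih (by simp)

lemma sq_inj {a b : Γ} (h : a ^ 2 = b ^ 2) : a = b := by
  rcases lt_trichotomy a b with hab | hab | hab
  · exact absurd h (ne_of_lt (pow_lt_pow_left₀ hab zero_le two_ne_zero))
  · exact hab
  · exact absurd h.symm (ne_of_lt (pow_lt_pow_left₀ hab zero_le two_ne_zero))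

/-- conjugation restricted to a conjugation closed subfield -/
noncomputable def conjHom (K : Subfield ℂ) (hc : ∀ z ∈ K, star z ∈ K) : K →+* K :=
  ((starRingEnd ℂ).comp K.subtype).codRestrict K.toSubring.toSubsemiring (fun z => hc z.1 z.2)

lemma conjHom_coe (K : Subfield ℂ) (hc : ∀ z ∈ K, star z ∈ K) (z : K) :
    ((conjHom K hc z : K) : ℂ) = star (z : ℂ) := rfl

section abstract

variable {K : Type*} [Field K] [CharZero K]

/-- purely algebraic core: a kernel vector of the Hadamard square is impossible -/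
lemma core_false {n : ℕ} (v : Valuation K Γ) (c : K →+* K) (hcc : ∀ z, c (c z) = z) (D : K)
    (hD0 : D ≠ 0) (hD : v D ≤ 1) (hD1 : D + 1 ≠ 0)
    (hH : ∀ w, v w ≤ 1 → v (c w - w) < v D)
    (h : Fin (n + 2) → Fin (n + 2) → K) (hdiag : ∀ k, h k k = 1)
    (hoff : ∀ k l, k ≠ l → h k l * c (h k l) = 1 / (D + 1))
    (row col : Fin (n + 1) → Fin (n + 2))
    (hne : ∀ r s, row r = col s ↔ (r = s ∧ r ≠ 0))
    (y : Fin (n + 1) → K) (hy0 : y ≠ 0)
    (hy : ∀ r, ∑ s, h (row r) (col s) ^ 2 * y s = 0) : False := by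
  have hvD : v D ≠ 0 := by simpa using hD0
  have hcD : ∀ w, v w ≤ 1 → v (c w) ≤ 1 := by
    intro w hw
    have h1 : c w = w + (c w - w) := by ring
    rw [h1]
    exact v.map_add_le hw ((hH w hw).le.trans hD)
  -- conjugation preserves the valuation
  have hcv : ∀ w, v (c w) = v w := by
    intro w
    by_cases hw : w = 0
    · simp [hw]
    have hcw : c w ≠ 0 := by simpa using hw
    have hvw : v w ≠ 0 := by simpa using hw
    have hr : ∀ r : K, r ≠ 0 → c r = r⁻¹ → v r = 1 := by
      intro r hr0 hcr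
      rcases le_total (v r) 1 with h1 | h1
      · have h2 := hcD r h1
        rw [hcr, map_inv₀] at h2
        have hvr : v r ≠ 0 := by simpa using hr0
        refine le_antisymm h1 ?_
        exact (inv_le_one₀ (zero_lt_iff.2 hvr)).1 h2
      · have h3 : v r⁻¹ ≤ 1 := by
          rw [map_inv₀]
          exact (inv_le_one₀ (lt_of_lt_of_le zero_lt_one h1)).2 h1
        have h2 := hcD r⁻¹ h3
        rw [map_inv₀, hcr, inv_inv] at h2
        exact le_antisymm h2 h1
    have h1 := hr (c w / w) (div_ne_zero hcw hw) (by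
      rw [map_div₀, hcc, inv_div])
    rw [map_div₀, div_eq_one_iff_eq hvw] at h1
    exact h1
  have hsq : ∀ k l, k ≠ l → v (h k l) ^ 2 = v (1 / (D + 1)) := by
    intro k l hkl
    rw [← hoff k l hkl, map_mul, hcv, sq]
  have h01 : (0 : Fin (n + 2)) ≠ 1 := by simp
  set s : K := (h 0 1)⁻¹ with hs
  have hne0 : ∀ k l, k ≠ l → h k l ≠ 0 := by
    intro k l hkl h0
    have := hoff k l hkl
    rw [h0, zero_mul] at this
    exact (one_div_ne_zero hD1) this.symm
  have hs0 : s ≠ 0 := inv_ne_zero (hne0 _ _ h01)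
  have hvs : ∀ k l, k ≠ l → v (s * h k l) = 1 := by
    intro k l hkl
    have h1 : v (h k l) = v (h 0 1) := sq_inj (by rw [hsq k l hkl, hsq 0 1 h01])
    rw [map_mul, h1, ← map_mul, hs, inv_mul_cancel₀ (hne0 _ _ h01), map_one]
  have hvs1 : v s ≤ 1 := by
    have h2 : v s ^ 2 ≤ 1 := by
      rw [hs, map_inv₀, inv_pow, hsq 0 1 h01, ← map_inv₀, one_div, inv_inv]
      exact v.map_add_le hD (by simp)
    by_contra hlt
    push Not at hlt
    exact absurd h2 (not_le.2 (one_lt_pow₀ hlt two_ne_zero))
  set u : K := s * c s / (D + 1) with hu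
  have hvu : v u = 1 := by
    have h1 : u = (s * h 0 1) * c (s * h 0 1) := by
      rw [hu, map_mul, div_eq_mul_one_div, ← hoff 0 1 h01]
      ring
    rw [h1, map_mul, hcv, hvs 0 1 h01, one_mul]
  -- errors
  have herr_off : ∀ k l, k ≠ l → v ((s * h k l) ^ 2 - u) < v D := by
    intro k l hkl
    have h1 : (s * h k l) ^ 2 - u = -((s * h k l) * (c (s * h k l) - s * h k l)) := by
      have h2 : u = (s * h k l) * c (s * h k l) := by
        rw [hu, map_mul, div_eq_mul_one_div, ← hoff k l hkl]
        ring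
      rw [h2]
      ring
    rw [h1, Valuation.map_neg, map_mul, hvs k l hkl, one_mul]
    exact hH _ (hvs k l hkl).le
  have herr_diag : v (s ^ 2 - (u + u * D)) < v D := by
    have h1 : s ^ 2 - (u + u * D) = -(s * (c s - s)) := by
      have h2 : u + u * D = s * c s := by
        rw [hu]
        field_simp
        ring
      rw [h2]
      ring
    rw [h1, Valuation.map_neg, map_mul]
    calc v s * v (c s - s) ≤ 1 * v (c s - s) := mul_le_mul_left hvs1 _
      _ < v D := by rw [one_mul]; exact hH _ hvs1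
  -- scaled equations
  have hy2 : ∀ r, ∑ t, (s * h (row r) (col t)) ^ 2 * y t = 0 := by
    intro r
    have : ∑ t, (s * h (row r) (col t)) ^ 2 * y t = s ^ 2 * ∑ t, h (row r) (col t) ^ 2 * y t := by
      rw [Finset.mul_sum]
      refine Finset.sum_congr rfl fun t _ => ?_
      ring
    rw [this, hy r, mul_zero]
  -- a coordinate of maximal size
  obtain ⟨i, -, hi⟩ := Finset.exists_max_image Finset.univ (fun t => v (y t)) ⟨0, by simp⟩
  have hi' : ∀ t, v (y t) ≤ v (y i) := fun t => hi t (by simp)
  have hvi : v (y i) ≠ 0 := by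
    intro h0
    apply hy0
    ext t
    have h1 := hi' t
    rw [h0] at h1
    have h2 : v (y t) = 0 := le_antisymm h1 zero_le
    simpa using h2
  -- decomposition of the entries
  let δ : Fin (n + 1) → Fin (n + 1) → K := fun r t =>
    (s * h (row r) (col t)) ^ 2 - (u + if r = t ∧ r ≠ 0 then u * D else 0)
  have hδ : ∀ r t, v (δ r t) < v D := by
    intro r t
    by_cases hrt : r = t ∧ r ≠ 0
    · have h1 := (hne r t).2 hrt
      simp only [δ, if_pos hrt, h1, hdiag, mul_one]
      exact herr_diag
    · have h1 : row r ≠ col t := fun h => hrt ((hne r t).1 h)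
      simp only [δ, hrt, if_false, add_zero]
      exact herr_off _ _ h1
  have hdec : ∀ r t, (s * h (row r) (col t)) ^ 2
      = u + (if r = t ∧ r ≠ 0 then u * D else 0) + δ r t := by
    intro r t
    simp only [δ]
    ring
  have hlt : ∀ r, v (∑ t, δ r t * y t) < v D * v (y i) := by
    intro r
    refine v.map_sum_lt (mul_ne_zero hvD hvi) fun t _ => ?_
    rw [map_mul]
    calc v (δ r t) * v (y t) ≤ v (δ r t) * v (y i) := mul_le_mul_right (hi' t) _
      _ < v D * v (y i) := by
        exact mul_lt_mul_of_pos_right (hδ r t) (zero_lt_iff.2 hvi)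
  have heq : ∀ r, u * ∑ t, y t + (if r ≠ 0 then u * D * y r else 0) + ∑ t, δ r t * y t = 0 := by
    intro r
    have e : ∑ t, (if r = t ∧ r ≠ 0 then u * D else 0) * y t
        = if r ≠ 0 then u * D * y r else 0 := by
      by_cases hr : r = 0
      · simp [hr]
      · simp [hr]
    have e2 : ∑ t, (s * h (row r) (col t)) ^ 2 * y t
        = ∑ t, u * y t + ∑ t, (if r = t ∧ r ≠ 0 then u * D else 0) * y t
          + ∑ t, δ r t * y t := by
      rw [← Finset.sum_add_distrib, ← Finset.sum_add_distrib]
      refine Finset.sum_congr rfl fun t _ => ?_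
      rw [hdec]
      ring
    have e3 := hy2 r
    rw [e2, e, ← Finset.mul_sum] at e3
    exact e3
  have hsmall : ∀ r, r ≠ 0 → v (y r) < v (y i) := by
    intro r hr
    have h1 : u * D * y r = (∑ t, δ 0 t * y t) - ∑ t, δ r t * y t := by
      have e1 := heq r
      have e2 := heq 0
      simp only [hr, ne_eq, not_false_eq_true, if_true, not_true_eq_false, if_false,
        add_zero] at e1 e2
      linear_combination e1 - e2
    have h2 : v (u * D * y r) < v D * v (y i) := by
      rw [h1]
      exact v.map_sub_lt (hlt 0) (hlt r)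
    rw [map_mul, map_mul, hvu, one_mul] at h2
    exact lt_of_mul_lt_mul_left h2 zero_le
  have hi0 : i = 0 := by
    by_contra h
    exact lt_irrefl _ (hsmall i h)
  subst hi0
  have h3 := heq 0
  simp only [ne_eq, not_true_eq_false, if_false, add_zero] at h3
  have h4 : u * y 0 = -(u * ∑ t ∈ Finset.univ.erase 0, y t) - ∑ t, δ 0 t * y t := by
    have e : ∑ t, y t = y 0 + ∑ t ∈ Finset.univ.erase 0, y t :=
      (Finset.add_sum_erase _ _ (Finset.mem_univ 0)).symm
    rw [e] at h3
    linear_combination h3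
  have h5 : v (u * y 0) < v (y 0) := by
    rw [h4]
    refine v.map_sub_lt ?_ ?_
    · rw [Valuation.map_neg, map_mul, hvu, one_mul]
      refine v.map_sum_lt hvi fun t ht => ?_
      exact hsmall t (Finset.ne_of_mem_erase ht)
    · calc v (∑ t, δ 0 t * y t) < v D * v (y 0) := hlt 0
        _ ≤ 1 * v (y 0) := mul_le_mul_left hD _
        _ = v (y 0) := one_mul _
  rw [map_mul, hvu, one_mul] at h5
  exact lt_irrefl _ h5

end abstract

lemma star_ip {d : ℕ} (u w : Fin d → ℂ) : star (ip u w) = ip w u := by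
  simp only [ip, star_sum, star_mul', star_star]
  refine Finset.sum_congr rfl fun k _ => mul_comm _ _

lemma ip_mul_ip {d N : ℕ} {x : Fin N → (Fin d → ℂ)}
    (hx2 : ∀ i j, i ≠ j → ‖ip (x i) (x j)‖ = 1 / Real.sqrt ((d : ℝ) + 1))
    {i j : Fin N} (hij : i ≠ j) : ip (x i) (x j) * ip (x j) (x i) = 1 / ((d : ℂ) + 1) := by
  have h := hx2 i j hij
  have h1 : ip (x i) (x j) * ip (x j) (x i) = ((‖ip (x i) (x j)‖ ^ 2 : ℝ) : ℂ) := by
    rw [← star_ip (x i) (x j)]
    exact_mod_cast Complex.mul_conj' (ip (x i) (x j))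
  rw [h1, h, div_pow, one_pow, Real.sq_sqrt (by positivity)]
  push_cast
  rfl

/-- a maximal ETF excludes valuations for which conjugation is too close to the identity -/
theorem etf_false {d N : ℕ} (hd : d ≠ 0) (hN : d * (d + 1) / 2 + 3 ≤ N)
    {x : Fin N → (Fin d → ℂ)} (hx1 : ∀ i, ip (x i) (x i) = 1)
    (hx2 : ∀ i j, i ≠ j → ‖ip (x i) (x j)‖ = 1 / Real.sqrt ((d : ℝ) + 1))
    (K : Subfield ℂ) (hc : ∀ z ∈ K, star z ∈ K)
    (hK : ∀ i j k, ip (x i) (x j) * ip (x j) (x k) * ip (x k) (x i) ∈ K)
    (v : Valuation K Γ) (hH : ∀ w, v w ≤ 1 → v (conjHom K hc w - w) < v (d : K)) : False := by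
  obtain ⟨n, hn⟩ : ∃ n, n = d * (d + 1) / 2 := ⟨_, rfl⟩
  have hnd : n + 3 ≤ N := by omega
  let b : Fin N := ⟨0, by omega⟩
  let line : Fin (n + 2) → Fin N := fun k => ⟨k.1 + 1, by have := k.2; omega⟩
  have hline : ∀ k l, k ≠ l → line k ≠ line l := by
    intro k l hkl h
    apply hkl
    have := congrArg Fin.val h
    simp only [line] at this
    exact Fin.ext (by omega)
  have hlb : ∀ k, line k ≠ b := by
    intro k h
    have := congrArg Fin.val h
    simp [line, b] at this
  have hbl : ∀ k, b ≠ line k := fun k => (hlb k).symm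
  have hd1 : ((d : ℂ) + 1) ≠ 0 := by
    exact_mod_cast Nat.succ_ne_zero d
  let T : Fin (n + 2) → Fin (n + 2) → ℂ := fun k l =>
    ip (x b) (x (line k)) * ip (x (line k)) (x (line l)) * ip (x (line l)) (x b)
  let h : Fin (n + 2) → Fin (n + 2) → K := fun k l => ((d : K) + 1) * ⟨T k l, hK _ _ _⟩
  have hcoe : ∀ k l, ((h k l : K) : ℂ) = ((d : ℂ) + 1) * T k l := by
    intro k l
    simp [h]
  have hdiag : ∀ k, h k k = 1 := by
    intro k
    apply Subtype.ext
    rw [hcoe]
    have h1 : T k k = 1 / ((d : ℂ) + 1) := by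
      simp only [T]
      rw [hx1, mul_one, ip_mul_ip hx2 (hbl k)]
    rw [h1]
    simp [hd1]
  have hoff : ∀ k l, k ≠ l → h k l * conjHom K hc (h k l) = 1 / ((d : K) + 1) := by
    intro k l hkl
    apply Subtype.ext
    have e1 : ((h k l * conjHom K hc (h k l) : K) : ℂ) = (h k l : ℂ) * star (h k l : ℂ) := rfl
    rw [e1, hcoe]
    have e2 : ((1 / ((d : K) + 1) : K) : ℂ) = 1 / ((d : ℂ) + 1) := by
      push_cast
      rfl
    rw [e2]
    have e3 : star (((d : ℂ) + 1) * T k l) = ((d : ℂ) + 1) *
        (ip (x (line k)) (x b) * ip (x (line l)) (x (line k)) * ip (x b) (x (line l))) := by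
      simp only [T, star_mul', star_ip, star_add, star_one, star_natCast]
    rw [e3]
    have f1 := ip_mul_ip hx2 (hbl k)
    have f2 := ip_mul_ip hx2 (hline k l hkl)
    have f3 := ip_mul_ip hx2 (hlb l)
    calc ((d : ℂ) + 1) * T k l * (((d : ℂ) + 1) *
        (ip (x (line k)) (x b) * ip (x (line l)) (x (line k)) * ip (x b) (x (line l))))
        = ((d : ℂ) + 1) ^ 2 * ((ip (x b) (x (line k)) * ip (x (line k)) (x b)) *
          (ip (x (line k)) (x (line l)) * ip (x (line l)) (x (line k))) *
          (ip (x (line l)) (x b) * ip (x b) (x (line l)))) := by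
          simp only [T]
          ring
      _ = 1 / ((d : ℂ) + 1) := by
          rw [f1, f2, f3]
          field_simp
  let row : Fin (n + 1) → Fin (n + 2) := fun r => if r = 0 then 0 else r.succ
  let col : Fin (n + 1) → Fin (n + 2) := fun s => s.succ
  have hne : ∀ r s, row r = col s ↔ (r = s ∧ r ≠ 0) := by
    intro r s
    by_cases hr : r = 0
    · simp only [row, col, hr, if_true, ne_eq, not_true_eq_false, and_false, iff_false]
      exact (Fin.succ_ne_zero s).symm
    · simp only [row, col, hr, if_false, ne_eq, not_false_eq_true, and_true]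
      exact Fin.succ_inj
  have hdet : (Matrix.of fun r s : Fin (n + 1) => h (row r) (col s) ^ 2).det = 0 := by
    have h1 : (Matrix.of fun r s : Fin (n + 1) => (((h (row r) (col s) : K) : ℂ)) ^ 2).det = 0 := by
      have h2 := exists_ker_sq (d := d) (n := n + 1) (by omega)
        (fun r a => ((d : ℂ) + 1) * ip (x b) (x (line (row r))) * x (line (row r)) a)
        (fun s a => star (x (line (col s)) a) * ip (x (line (col s))) (x b))
      rw [← h2]
      congr 1
      ext r s
      simp only [Matrix.of_apply]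
      congr 1
      rw [hcoe]
      simp only [T]
      rw [show ip (x (line (row r))) (x (line (col s)))
        = ∑ a, x (line (row r)) a * star (x (line (col s)) a) from rfl]
      rw [Finset.mul_sum, Finset.sum_mul, Finset.mul_sum]
      refine Finset.sum_congr rfl fun a _ => ?_
      ring
    have h3 := RingHom.map_det K.subtype (Matrix.of fun r s : Fin (n + 1) => h (row r) (col s) ^ 2)
    have h4 : (K.subtype.mapMatrix (Matrix.of fun r s : Fin (n + 1) => h (row r) (col s) ^ 2))
        = Matrix.of fun r s : Fin (n + 1) => (((h (row r) (col s) : K) : ℂ)) ^ 2 := by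
      ext r s
      simp
    rw [h4, h1] at h3
    exact Subtype.ext h3
  obtain ⟨y, hy0, hy⟩ := Matrix.exists_mulVec_eq_zero_iff.2 hdet
  refine core_false (n := n) v (conjHom K hc) (fun z => Subtype.ext (by
    rw [conjHom_coe, conjHom_coe, star_star])) (d : K) ?_ (val_natCast_le v d) ?_ hH h hdiag hoff
    row col hne y hy0 ?_
  · exact_mod_cast hd
  · exact_mod_cast Nat.succ_ne_zero d
  · intro r
    have := congrFun hy r
    simpa [Matrix.mulVec, dotProduct] using this

end Pool.Agent.Lib.MP_d0f9e0_co.Ramif
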