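import Mathlib
import Pool.Agent.Lib.MP_d0f9e0_co.Ramif

set_option autoImplicit false
set_option linter.unusedSectionVars false
set_option linter.unusedSimpArgs false

open Matrix NumberField IsDedekindDomain

namespace Pool.Agent.Lib.MP_d0f9e0_co.Ramif

variable (K : Subfield ℂ) [NumberField K]

/-- the ideal generated by all `conj z - z` -/
noncomputable def conjIdeal (hc : ∀ z ∈ K, star z ∈ K) : Ideal (𝓞 K) :=
  Ideal.span (Set.range fun z : 𝓞 K => RingOfIntegers.mapRingHom (conjHom K hc) z - z)

theorem mem_conjIdeal {d N : ℕ} (hN : d * (d + 1) / 2 + 3 ≤ N)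
    {x : Fin N → (Fin d → ℂ)} (hx1 : ∀ i, ip (x i) (x i) = 1)
    (hx2 : ∀ i j, i ≠ j → ‖ip (x i) (x j)‖ = 1 / Real.sqrt ((d : ℝ) + 1))
    (hc : ∀ z ∈ K, star z ∈ K)
    (hK : ∀ i j k, ip (x i) (x j) * ip (x j) (x k) * ip (x k) (x i) ∈ K) :
    ((d : ℕ) : 𝓞 K) ∈ conjIdeal K hc := by
  rcases Nat.eq_zero_or_pos d with h0 | hd
  · subst h0
    simp
  by_contra hdI
  set I := conjIdeal K hc with hI
  set c : 𝓞 K →+* 𝓞 K := RingOfIntegers.mapRingHom (conjHom K hc) with hcdef
  let J : Ideal (𝓞 K) := Submodule.comap (LinearMap.mulLeft (𝓞 K) ((d : ℕ) : 𝓞 K)) I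
  have hJ : J ≠ ⊤ := by
    intro h
    apply hdI
    have h1 : (1 : 𝓞 K) ∈ J := h ▸ Submodule.mem_top
    simpa [J] using h1
  obtain ⟨P, hPmax, hJP⟩ := Ideal.exists_le_maximal J hJ
  have hPbot : P ≠ ⊥ := Ring.ne_bot_of_isMaximal_of_not_isField hPmax (RingOfIntegers.not_isField K)
  let p : HeightOneSpectrum (𝓞 K) := ⟨P, hPmax.isPrime, hPbot⟩
  have hd0 : ((d : ℕ) : K) ≠ 0 := by exact_mod_cast (by omega : d ≠ 0)
  have hvd0 : p.valuation K (d : K) ≠ 0 := by simpa using hd0
  have hdcast : algebraMap (𝓞 K) K ((d : ℕ) : 𝓞 K) = (d : K) := map_natCast _ _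
  have h1 : ∀ i ∈ I, p.valuation K (algebraMap (𝓞 K) K i) < p.valuation K (d : K) := by
    intro i hi
    by_contra hlt
    push Not at hlt
    have hi0 : algebraMap (𝓞 K) K i ≠ 0 := by
      intro h0
      rw [h0, map_zero] at hlt
      exact hvd0 (le_antisymm hlt zero_le)
    have hvi0 : p.valuation K (algebraMap (𝓞 K) K i) ≠ 0 := by simpa using hi0
    have hq : p.valuation K ((d : K) / algebraMap (𝓞 K) K i) ≤ 1 := by
      rw [map_div₀]
      exact (div_le_one₀ (zero_lt_iff.2 hvi0)).2 hlt
    obtain ⟨n, s, hns⟩ := p.exists_primeCompl_mul_eq_of_integer _ hq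
    have h2 : ((d : ℕ) : 𝓞 K) * (s : 𝓞 K) = n * i := by
      apply RingOfIntegers.coe_injective

      rw [map_mul, map_mul, hdcast, ← hns]
      field_simp
    have h3 : (s : 𝓞 K) ∈ J := by
      change ((d : ℕ) : 𝓞 K) * (s : 𝓞 K) ∈ I
      rw [h2]
      exact I.mul_mem_left _ hi
    exact s.2 (hJP h3)
  have hmem : ∀ z : 𝓞 K, c z - z ∈ I := fun z => Ideal.subset_span ⟨z, rfl⟩
  have hvd1 : p.valuation K (d : K) ≤ 1 := val_natCast_le _ _
  have hcK : ∀ z : 𝓞 K, algebraMap (𝓞 K) K (c z) = conjHom K hc (algebraMap (𝓞 K) K z) := by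
    intro z
    rfl
  refine etf_false hd.ne' hN hx1 hx2 K hc hK (p.valuation K) ?_
  intro w hw
  obtain ⟨a, s, has⟩ := p.exists_primeCompl_mul_eq_of_integer w hw
  have hvs : p.valuation K (algebraMap (𝓞 K) K s) = 1 :=
    (p.valuation_eq_one_iff_notMem).2 s.2
  have hvcs : p.valuation K (algebraMap (𝓞 K) K (c s)) = 1 := by
    have e : algebraMap (𝓞 K) K (c s) = algebraMap (𝓞 K) K s
        + algebraMap (𝓞 K) K (c s - s) := by
      rw [map_sub]
      ring
    rw [e, Valuation.map_add_eq_of_lt_left, hvs]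
    rw [hvs]
    exact (h1 _ (hmem s)).trans_le hvd1
  have hvs' : p.valuation K (algebraMap (𝓞 K) K s * algebraMap (𝓞 K) K (c s)) = 1 := by
    rw [map_mul, hvs, hvcs, one_mul]
  have key : (conjHom K hc w - w) * (algebraMap (𝓞 K) K s * algebraMap (𝓞 K) K (c s))
      = algebraMap (𝓞 K) K (c a - a) * algebraMap (𝓞 K) K s
        - algebraMap (𝓞 K) K a * algebraMap (𝓞 K) K (c s - s) := by
    have h2 : conjHom K hc w * algebraMap (𝓞 K) K (c s) = algebraMap (𝓞 K) K (c a) := by
      rw [hcK, hcK, ← map_mul, has]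
    rw [map_sub, map_sub, ← h2, ← has]
    ring
  have h3 : p.valuation K ((conjHom K hc w - w)
      * (algebraMap (𝓞 K) K s * algebraMap (𝓞 K) K (c s))) < p.valuation K (d : K) := by
    rw [key]
    refine Valuation.map_sub_lt _ ?_ ?_
    · rw [map_mul, hvs, mul_one]
      exact h1 _ (hmem a)
    · rw [map_mul]
      calc p.valuation K (algebraMap (𝓞 K) K a) * p.valuation K (algebraMap (𝓞 K) K (c s - s))
          ≤ 1 * p.valuation K (algebraMap (𝓞 K) K (c s - s)) :=
            mul_le_mul_left (p.valuation_le_one a) _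
        _ = p.valuation K (algebraMap (𝓞 K) K (c s - s)) := one_mul _
        _ < p.valuation K (d : K) := h1 _ (hmem s)
  rwa [map_mul, hvs', mul_one] at h3

/-- the real elements of `K`, as a subfield of `K` -/
noncomputable def realSub (K : Subfield ℂ) : Subfield K :=
  Complex.ofRealHom.fieldRange.comap K.subtype

omit [NumberField K] in
lemma mem_realSub (z : K) : z ∈ realSub K ↔ star (z : ℂ) = z := by
  simp only [realSub, Subfield.mem_comap, RingHom.mem_fieldRange]
  constructor
  · rintro ⟨r, hr⟩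
    rw [← show Complex.ofRealHom r = (z : ℂ) from hr]
    exact Complex.conj_ofReal r
  · intro h
    exact ⟨(z : ℂ).re, Complex.conj_eq_iff_re.1 h⟩

lemma sub_mem_different (hc : ∀ z ∈ K, star z ∈ K) (z : 𝓞 K) :
    RingOfIntegers.mapRingHom (conjHom K hc) z - z
      ∈ differentIdeal (𝓞 (realSub K)) (𝓞 K) := by
  set c : 𝓞 K →+* 𝓞 K := RingOfIntegers.mapRingHom (conjHom K hc) with hcdef
  have hcK : ∀ z : 𝓞 K, algebraMap (𝓞 K) K (c z) = conjHom K hc (algebraMap (𝓞 K) K z) := by
    intro z
    rfl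
  have hcc : ∀ w : K, conjHom K hc (conjHom K hc w) = w := fun w => Subtype.ext (by
    rw [conjHom_coe, conjHom_coe, star_star])
  have hreal : ∀ w : K, conjHom K hc w = w → w ∈ realSub K := by
    intro w hw
    rw [mem_realSub]
    have := congrArg Subtype.val hw
    rwa [conjHom_coe] at this
  have hfix : ∀ w : realSub K, conjHom K hc (w : K) = w := by
    intro w
    have := (mem_realSub K w.1).1 w.2
    exact Subtype.ext (by rw [conjHom_coe]; exact this)
  by_cases hz : c z = z
  · rw [hz, sub_self]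
    exact Ideal.zero_mem _
  set Z : K := algebraMap (𝓞 K) K z with hZ
  have hZc : conjHom K hc Z ≠ Z := by
    intro h
    apply hz
    apply RingOfIntegers.coe_injective
    rw [hcK]
    exact h
  have hsub : conjHom K hc Z - Z ≠ 0 := sub_ne_zero.2 hZc
  have hadj : Algebra.adjoin (realSub K) {Z} = ⊤ := by
    rw [eq_top_iff]
    intro w _
    set b : K := (conjHom K hc w - w) / (conjHom K hc Z - Z) with hb
    have hbr : b ∈ realSub K := by
      apply hreal
      rw [hb, map_div₀, map_sub, map_sub, hcc, hcc, ← neg_sub w, ← neg_sub Z, neg_div_neg_eq]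
    have har : w - b * Z ∈ realSub K := by
      apply hreal
      have h1 : conjHom K hc b = b := hfix ⟨b, hbr⟩
      rw [map_sub, map_mul, h1]
      have h2 : b * (conjHom K hc Z - Z) = conjHom K hc w - w := by
        rw [hb, div_mul_cancel₀ _ hsub]
      linear_combination (-1 : K) * h2
    have h3 : w = algebraMap (realSub K) K ⟨w - b * Z, har⟩
        + algebraMap (realSub K) K ⟨b, hbr⟩ * Z := by
      change w = (w - b * Z) + b * Z
      ring
    rw [h3]
    exact Subalgebra.add_mem _ (Subalgebra.algebraMap_mem _ _)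
      (Subalgebra.mul_mem _ (Subalgebra.algebraMap_mem _ _) (Algebra.subset_adjoin rfl))
  have key := aeval_derivative_mem_differentIdeal (𝓞 (realSub K)) (realSub K) K z hadj
  have hneg : c z - z = -(Polynomial.aeval z (Polynomial.derivative (minpoly (𝓞 (realSub K)) z))) := by
    have ht : Z + conjHom K hc Z ∈ realSub K := by
      apply hreal
      rw [map_add, hcc, add_comm]
    have hn : Z * conjHom K hc Z ∈ realSub K := by
      apply hreal
      rw [map_mul, hcc, mul_comm]
    let q : Polynomial (realSub K) := Polynomial.X ^ 2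
      - Polynomial.C ⟨_, ht⟩ * Polynomial.X + Polynomial.C ⟨_, hn⟩
    have hqd : q.natDegree = 2 := by
      simp only [q]
      compute_degree!
    have hqm : q.Monic := by
      simp only [q]
      monicity!
    have hq0 : Polynomial.aeval Z q = 0 := by
      simp only [q, map_add, map_sub, map_mul, map_pow, Polynomial.aeval_X, Polynomial.aeval_C]
      change Z ^ 2 - (Z + conjHom K hc Z) * Z + Z * conjHom K hc Z = 0
      ring
    have hmin : q = minpoly (realSub K) Z := by
      refine minpoly.unique _ _ hqm hq0 fun r hrm hr0 => ?_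
      rw [Polynomial.degree_eq_natDegree hqm.ne_zero, Polynomial.degree_eq_natDegree hrm.ne_zero,
        hqd]
      by_contra hlt
      push Not at hlt
      have h1 : r.natDegree ≤ 1 := by
        have : (r.natDegree : WithBot ℕ) < ((2 : ℕ) : WithBot ℕ) := hlt
        have := WithBot.coe_lt_coe.1 this
        exact Nat.lt_succ_iff.1 this
      obtain ⟨a, b, hab⟩ := Polynomial.exists_eq_X_add_C_of_natDegree_le_one h1
      have hdr : r.natDegree = 1 := by
        refine le_antisymm h1 (Nat.one_le_iff_ne_zero.2 fun h0 => ?_)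
        have h0' : r = 1 := Polynomial.eq_one_of_monic_natDegree_zero hrm h0
        rw [h0'] at hr0
        simp at hr0
      have ha : a = 1 := by
        have h2 := hrm
        rw [Polynomial.Monic, Polynomial.leadingCoeff, hdr, hab] at h2
        simpa using h2
      rw [hab, ha] at hr0
      simp only [map_one, one_mul, map_add, Polynomial.aeval_X, Polynomial.aeval_C] at hr0
      apply hZc
      have h3 : Z = -(b : K) := by
        have : Z + (b : K) = 0 := hr0
        linear_combination this
      rw [h3, map_neg, hfix]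
    have hint : IsIntegral (𝓞 (realSub K)) z := Algebra.IsIntegral.isIntegral z
    apply RingOfIntegers.coe_injective
    have h4 : algebraMap (𝓞 K) K
        (Polynomial.aeval z (Polynomial.derivative (minpoly (𝓞 (realSub K)) z)))
        = Polynomial.aeval Z (Polynomial.derivative (minpoly (realSub K) Z)) := by
      rw [hZ, minpoly.isIntegrallyClosed_eq_field_fractions (realSub K) K hint,
        Polynomial.derivative_map, Polynomial.aeval_map_algebraMap,
        Polynomial.aeval_algebraMap_apply]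
    change algebraMap (𝓞 K) K _ = algebraMap (𝓞 K) K _
    rw [map_neg, h4, ← hmin, map_sub, hcK]
    simp only [q, Polynomial.derivative_add, Polynomial.derivative_sub, Polynomial.derivative_mul,
      Polynomial.derivative_X_pow, Polynomial.derivative_C, Polynomial.derivative_X, zero_mul,
      mul_one, zero_add, add_zero, map_sub, map_mul, Polynomial.aeval_X, Polynomial.aeval_C,
      Nat.cast_ofNat]
    change conjHom K hc Z - Z = -(_ - (Z + conjHom K hc Z))
    simp only [Nat.add_one_sub_one, pow_one, map_ofNat, Polynomial.aeval_X]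
    ring
  rw [hneg]
  exact neg_mem key

theorem mem_different {d N : ℕ} (hN : d * (d + 1) / 2 + 3 ≤ N)
    {x : Fin N → (Fin d → ℂ)} (hx1 : ∀ i, ip (x i) (x i) = 1)
    (hx2 : ∀ i j, i ≠ j → ‖ip (x i) (x j)‖ = 1 / Real.sqrt ((d : ℝ) + 1))
    (hc : ∀ z ∈ K, star z ∈ K)
    (hK : ∀ i j k, ip (x i) (x j) * ip (x j) (x k) * ip (x k) (x i) ∈ K) :
    ((d : ℕ) : 𝓞 K) ∈ differentIdeal (𝓞 (realSub K)) (𝓞 K) := by
  have h := mem_conjIdeal K hN hx1 hx2 hc hK
  refine (Ideal.span_le.2 ?_ : conjIdeal K hc ≤ _) h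
  rintro _ ⟨z, rfl⟩
  exact sub_mem_different K hc z

end Pool.Agent.Lib.MP_d0f9e0_co.Ramif
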