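import Mathlib

set_option autoImplicit false
set_option linter.unusedSectionVars false
set_option linter.unusedSimpArgs false
set_option linter.unusedVariables false

open Matrix
open scoped Kronecker

namespace Pool.Agent.Lib.MP_d0f9e0_co.FieldDisc

/-- the standard Hermitian inner product, local copy -/
noncomputable def ipp {d : ℕ} (u v : Fin d → ℂ) : ℂ := ∑ k, u k * star (v k)

lemma star_ipp {d : ℕ} (u v : Fin d → ℂ) : star (ipp u v) = ipp v u := by
  unfold ipp
  rw [star_sum]
  refine Finset.sum_congr rfl fun k _ => ?_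
  rw [star_mul', star_star, mul_comm]

lemma sign_swap (d : ℕ) :
    Equiv.Perm.sign (Equiv.prodComm (Fin d) (Fin d) : Equiv.Perm (Fin d × Fin d))
      = (-1 : ℤˣ) ^ (d * (d - 1) / 2) := by
  have h2 : (Equiv.prodComm (Fin d) (Fin d) : Equiv.Perm (Fin d × Fin d)) ^ 2 = 1 := by
    ext p : 1
    simp [pow_two, Equiv.Perm.mul_apply]
  rw [Equiv.Perm.sign_of_pow_two_eq_one h2]
  have hfix : Fintype.card (Function.fixedPoints
      (Equiv.prodComm (Fin d) (Fin d) : Equiv.Perm (Fin d × Fin d))) = d := by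
    have e : Function.fixedPoints
      (Equiv.prodComm (Fin d) (Fin d) : Equiv.Perm (Fin d × Fin d)) ≃ Fin d :=
      { toFun := fun p => p.1.1
        invFun := fun a => ⟨(a, a), rfl⟩
        left_inv := by
          rintro ⟨⟨a, b⟩, h⟩
          have h' : (b, a) = (a, b) := h
          simp only [Prod.mk.injEq] at h'
          simp [h'.1]
        right_inv := by intro a; rfl }
    rw [Fintype.card_congr e, Fintype.card_fin]
  rw [hfix]
  have : Fintype.card (Fin d × Fin d) - d = d * (d - 1) := by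
    rw [Fintype.card_prod, Fintype.card_fin, Nat.mul_sub, mul_one]
  rw [this]

/-- the matrix of all the rank-one projectors, one projector in each row -/
noncomputable def projMat {d : ℕ} (y : Fin d × Fin d → (Fin d → ℂ)) :
    Matrix (Fin d × Fin d) (Fin d × Fin d) ℂ :=
  Matrix.of fun p q => y p q.1 * star (y p q.2)

lemma projMat_conjTranspose {d : ℕ} (y : Fin d × Fin d → (Fin d → ℂ)) :
    (projMat y)ᴴ = ((projMat y).submatrix id (Equiv.prodComm (Fin d) (Fin d)))ᵀ := by
  ext p q
  simp [projMat, Matrix.conjTranspose_apply, mul_comm]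

lemma projMat_mul {d : ℕ} (y : Fin d × Fin d → (Fin d → ℂ)) :
    projMat y * (projMat y)ᴴ = Matrix.of fun p q => ipp (y p) (y q) * ipp (y q) (y p) := by
  ext p q
  simp only [Matrix.mul_apply, projMat, Matrix.conjTranspose_apply, Matrix.of_apply, ipp]
  rw [Fintype.sum_prod_type, Finset.sum_mul_sum]
  refine Finset.sum_congr rfl fun a _ => Finset.sum_congr rfl fun b _ => ?_
  rw [star_mul', star_star]
  ring

lemma det_projMat_sq {d : ℕ} (y : Fin d × Fin d → (Fin d → ℂ)) :
    (projMat y).det ^ 2 = (-1 : ℂ) ^ (d * (d - 1) / 2) *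
      (Matrix.of fun p q => ipp (y p) (y q) * ipp (y q) (y p)).det := by
  rw [← projMat_mul, Matrix.det_mul, projMat_conjTranspose, Matrix.det_transpose,
    Matrix.det_permute', sign_swap]
  have h : (((-1 : ℤˣ) ^ (d * (d - 1) / 2) : ℤˣ) : ℂ) = (-1 : ℂ) ^ (d * (d - 1) / 2) := by
    push_cast
    rfl
  rw [show ((((-1 : ℤˣ) ^ (d * (d - 1) / 2) : ℤˣ) : ℤ) : ℂ) = (-1 : ℂ) ^ (d * (d - 1) / 2) by
    push_cast; ring]
  have hh : ((-1 : ℂ) ^ (d * (d - 1) / 2)) * ((-1 : ℂ) ^ (d * (d - 1) / 2)) = 1 := by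
    rw [← mul_pow]; simp
  linear_combination (-((projMat y).det ^ 2)) * hh


/-- determinant of `a I + b J` -/
lemma det_simplex {ι : Type*} [Fintype ι] [DecidableEq ι] (a b : ℂ) (ha : a ≠ 0) :
    (Matrix.of fun p q : ι => if p = q then a + b else b).det
      = a ^ Fintype.card ι * (1 + Fintype.card ι * (b / a)) := by
  have h1 : (Matrix.of fun p q : ι => if p = q then a + b else b)
      = a • (1 + replicateCol Unit (fun _ : ι => b / a) * replicateRow Unit (fun _ : ι => (1 : ℂ))) := by
    ext p q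
    simp only [Matrix.of_apply, Matrix.smul_apply, Matrix.add_apply, Matrix.one_apply,
      Matrix.mul_apply, Finset.univ_unique, Finset.sum_const, Finset.card_singleton, one_smul,
      replicateCol_apply, replicateRow_apply, mul_one, smul_eq_mul]
    split_ifs
    · field_simp
    · field_simp
      ring
  rw [h1, Matrix.det_smul, Matrix.det_one_add_replicateCol_mul_replicateRow]
  congr 1
  simp [dotProduct, Finset.sum_const, Finset.card_univ]

section Base

variable {d : ℕ} (y : Fin d × Fin d → (Fin d → ℂ)) (o : Fin d × Fin d) (κ : Fin d → Fin d × Fin d)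

/-- the base change matrix -/
noncomputable def Q : Matrix (Fin d) (Fin d) ℂ :=
  Matrix.of fun a k => star (y (κ a) k) / ipp (y o) (y (κ a))

/-- the Gram matrix of the base change -/
lemma Q_mul : Q y o κ * (Q y o κ)ᴴ = Matrix.of fun a b =>
    ipp (y (κ b)) (y (κ a)) / (ipp (y o) (y (κ a)) * ipp (y (κ b)) (y o)) := by
  ext a b
  simp only [Matrix.mul_apply, Q, Matrix.conjTranspose_apply, Matrix.of_apply]
  rw [show ipp (y (κ b)) (y (κ a)) = ∑ k, y (κ b) k * star (y (κ a) k) from rfl, Finset.sum_div]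
  refine Finset.sum_congr rfl fun k _ => ?_
  rw [star_div₀, star_star, star_ipp]
  rw [div_mul_div_comm]
  ring

/-- the matrix of the projectors in the new coordinates -/
noncomputable def newMat : Matrix (Fin d × Fin d) (Fin d × Fin d) ℂ :=
  Matrix.of fun p q => (ipp (y p) (y (κ q.1)) * ipp (y (κ q.2)) (y p)) /
    (ipp (y o) (y (κ q.1)) * ipp (y (κ q.2)) (y o))

lemma newMat_eq : newMat y o κ = projMat y * ((Q y o κ) ⊗ₖ ((Q y o κ).map star))ᵀ := by
  ext p q
  simp only [newMat, projMat, Matrix.mul_apply, Matrix.of_apply, Matrix.transpose_apply,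
    Matrix.kroneckerMap_apply, Matrix.map_apply, Q]
  rw [Fintype.sum_prod_type]
  rw [show ipp (y p) (y (κ q.1)) = ∑ k, y p k * star (y (κ q.1) k) from rfl,
    show ipp (y (κ q.2)) (y p) = ∑ k, y (κ q.2) k * star (y p k) from rfl,
    Finset.sum_mul_sum, Finset.sum_div]
  refine Finset.sum_congr rfl fun a _ => ?_
  rw [Finset.sum_div]
  refine Finset.sum_congr rfl fun b _ => ?_
  rw [star_div₀, star_star, star_ipp]
  rw [div_mul_div_comm, ← mul_div_assoc]
  ring

lemma det_map_star {n : Type*} [Fintype n] [DecidableEq n] (A : Matrix n n ℂ) :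
    (A.map star).det = star A.det := by
  rw [← Matrix.det_transpose]
  exact Matrix.det_conjTranspose A

lemma det_newMat : (newMat y o κ).det
    = (projMat y).det * (Q y o κ * (Q y o κ)ᴴ).det ^ d := by
  rw [newMat_eq, Matrix.det_mul, Matrix.det_transpose, Matrix.det_kronecker, det_map_star,
    Matrix.det_mul, Matrix.det_conjTranspose, Fintype.card_fin, mul_pow]

end Base

lemma exists_basis {d : ℕ} (y : Fin d × Fin d → (Fin d → ℂ)) (hP : (projMat y).det ≠ 0) :
    ∃ κ : Fin d → Fin d × Fin d, LinearIndependent ℂ (fun a => y (κ a)) := by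
  have hspan : Submodule.span ℂ (Set.range y) = ⊤ := by
    by_contra hne
    obtain ⟨f, hf0, hf⟩ := Submodule.exists_le_ker_of_lt_top _ (lt_top_iff_ne_top.2 hne)
    have hfy : ∀ p, f (y p) = 0 := fun p =>
      LinearMap.mem_ker.1 (hf (Submodule.subset_span ⟨p, rfl⟩))
    set w : Fin d → ℂ := fun a => f (Pi.single a 1) with hw
    have hfw : ∀ u : Fin d → ℂ, f u = ∑ a, u a * w a := by
      intro u
      conv_lhs => rw [pi_eq_sum_univ' u]
      rw [map_sum]
      refine Finset.sum_congr rfl fun a _ => ?_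
      rw [map_smul, smul_eq_mul]
    have hmul : projMat y *ᵥ (fun q => w q.1 * star (w q.2)) = 0 := by
      ext p
      simp only [Matrix.mulVec, dotProduct, projMat, Matrix.of_apply, Pi.zero_apply]
      rw [Fintype.sum_prod_type]
      have : (∑ a, ∑ b, y p a * star (y p b) * (w a * star (w b)))
          = (∑ a, y p a * w a) * star (∑ b, y p b * w b) := by
        rw [star_sum, Finset.sum_mul_sum]
        refine Finset.sum_congr rfl fun a _ => Finset.sum_congr rfl fun b _ => ?_
        rw [star_mul']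
        ring
      rw [this, ← hfw, hfy]
      simp
    have h0 := Matrix.eq_zero_of_mulVec_eq_zero hP hmul
    have hw0 : ∀ a, w a = 0 := by
      intro a
      have := congrFun h0 (a, a)
      simp only [Pi.zero_apply] at this
      have h3 : w a * star (w a) = 0 := this
      rcases mul_eq_zero.1 h3 with h | h
      · exact h
      · exact star_eq_zero.1 h
    apply hf0
    ext a
    simp [hfw, hw0]
  obtain ⟨ι', a, hinj, hsp, hli⟩ := exists_linearIndependent' ℂ y
  have : Finite ι' := Finite.of_injective a hinj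
  have : Fintype ι' := Fintype.ofFinite ι'
  have hb : Fintype.card ι' = d := by
    have B : Module.Basis ι' ℂ (Fin d → ℂ) := Module.Basis.mk hli (by rw [hsp, hspan])
    have := Module.finrank_eq_card_basis B
    rw [Module.finrank_fin_fun] at this
    exact this.symm
  let e : Fin d ≃ ι' := (Fintype.equivFinOfCardEq hb).symm
  refine ⟨fun i => a (e i), ?_⟩
  exact hli.comp e e.injective

lemma det_mem {n : Type*} [Fintype n] [DecidableEq n] (K : Subfield ℂ) (M : Matrix n n ℂ)
    (h : ∀ i j, M i j ∈ K) : M.det ∈ K := by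
  rw [Matrix.det_apply']
  refine sum_mem fun σ _ => mul_mem (intCast_mem K _) (prod_mem fun i _ => h _ _)

lemma det_Q_ne_zero {d : ℕ} (y : Fin d × Fin d → (Fin d → ℂ)) (o : Fin d × Fin d)
    (κ : Fin d → Fin d × Fin d) (hli : LinearIndependent ℂ (fun a => y (κ a)))
    (hg : ∀ a, ipp (y o) (y (κ a)) ≠ 0) : (Q y o κ * (Q y o κ)ᴴ).det ≠ 0 := by
  have h1 : Q y o κ = Matrix.diagonal (fun a => (ipp (y o) (y (κ a)))⁻¹) *
      (Matrix.of fun a k => y (κ a) k).map star := by
    ext a k
    rw [Matrix.diagonal_mul]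
    simp only [Q, Matrix.of_apply, Matrix.map_apply]
    rw [div_eq_mul_inv, mul_comm]
  have h2 : (Q y o κ).det ≠ 0 := by
    rw [h1, Matrix.det_mul, det_map_star, Matrix.det_diagonal]
    refine mul_ne_zero (Finset.prod_ne_zero_iff.2 fun a _ => inv_ne_zero (hg a)) ?_
    rw [Ne, star_eq_zero]
    have : IsUnit (Matrix.of fun a k => y (κ a) k) :=
      Matrix.linearIndependent_rows_iff_isUnit.1 hli
    exact ((Matrix.isUnit_iff_isUnit_det _).1 this).ne_zero
  rw [Matrix.det_mul, Matrix.det_conjTranspose]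
  exact mul_ne_zero h2 (star_ne_zero.2 h2)

/-- the key membership -/
lemma det_projMat_mem {d : ℕ} (y : Fin d × Fin d → (Fin d → ℂ)) (K : Subfield ℂ)
    (hP : (projMat y).det ≠ 0) (o : Fin d × Fin d)
    (hg : ∀ a, ipp (y o) (y a) ≠ 0)
    (hn : ∀ a b, ipp (y a) (y b) * ipp (y b) (y a) ∈ K)
    (hT : ∀ i j k, ipp (y i) (y j) * ipp (y j) (y k) * ipp (y k) (y i) ∈ K)
    (hg2 : ∀ a b, ipp (y a) (y b) = 0 → ipp (y b) (y a) = 0) :
    (projMat y).det ∈ K := by
  obtain ⟨κ, hli⟩ := exists_basis y hP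
  have hg' : ∀ a, ipp (y a) (y o) ≠ 0 := by
    intro a h
    exact hg a (hg2 _ _ h)
  have hQ0 := det_Q_ne_zero y o κ hli (fun a => hg _)
  have hQK : (Q y o κ * (Q y o κ)ᴴ).det ∈ K := by
    refine det_mem K _ fun a b => ?_
    rw [Q_mul]
    simp only [Matrix.of_apply]
    have h : ipp (y (κ b)) (y (κ a)) / (ipp (y o) (y (κ a)) * ipp (y (κ b)) (y o))
        = (ipp (y o) (y (κ b)) * ipp (y (κ b)) (y (κ a)) * ipp (y (κ a)) (y o)) /
          ((ipp (y o) (y (κ b)) * ipp (y (κ b)) (y o)) *
            (ipp (y o) (y (κ a)) * ipp (y (κ a)) (y o))) := by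
      have e1 := hg (κ a)
      have e2 := hg (κ b)
      have e3 := hg' (κ a)
      have e4 := hg' (κ b)
      field_simp
    rw [h]
    exact div_mem (hT _ _ _) (mul_mem (hn _ _) (hn _ _))
  have hNK : (newMat y o κ).det ∈ K := by
    refine det_mem K _ fun p q => ?_
    simp only [newMat, Matrix.of_apply]
    have h : (ipp (y p) (y (κ q.1)) * ipp (y (κ q.2)) (y p)) /
        (ipp (y o) (y (κ q.1)) * ipp (y (κ q.2)) (y o))
        = ((ipp (y o) (y p) * ipp (y p) (y (κ q.1)) * ipp (y (κ q.1)) (y o)) *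
            (ipp (y o) (y (κ q.2)) * ipp (y (κ q.2)) (y p) * ipp (y p) (y o))) /
          ((ipp (y o) (y p) * ipp (y p) (y o)) *
            (ipp (y o) (y (κ q.1)) * ipp (y (κ q.1)) (y o)) *
            (ipp (y o) (y (κ q.2)) * ipp (y (κ q.2)) (y o))) := by
      have e1 := hg (κ q.1)
      have e2 := hg (κ q.2)
      have e3 := hg' (κ q.1)
      have e4 := hg' (κ q.2)
      have e5 := hg p
      have e6 := hg' p
      field_simp
    rw [h]
    exact div_mem (mul_mem (hT _ _ _) (hT _ _ _)) (mul_mem (mul_mem (hn _ _) (hn _ _)) (hn _ _))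
  have h := det_newMat y o κ
  have : (projMat y).det = (newMat y o κ).det / (Q y o κ * (Q y o κ)ᴴ).det ^ d := by
    rw [h, mul_div_assoc, div_self (pow_ne_zero _ hQ0), mul_one]
  rw [this]
  exact div_mem hNK (pow_mem hQK _)


/-- main theorem, indexed by pairs -/
theorem main_pairs {d : ℕ} (hd : 1 ≤ d) (y : Fin d × Fin d → (Fin d → ℂ))
    (h1 : ∀ i, ipp (y i) (y i) = 1)
    (h2 : ∀ i j, i ≠ j → ipp (y i) (y j) * ipp (y j) (y i) = 1 / ((d : ℂ) + 1))
    (K : Subfield ℂ)
    (hT : ∀ i j k, ipp (y i) (y j) * ipp (y j) (y k) * ipp (y k) (y i) ∈ K) :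
    ∃ z ∈ K, z ^ 2 = (-1 : ℂ) ^ (d * (d - 1) / 2) * (if Even d then (d : ℂ) + 1 else d) := by
  have hd0 : (d : ℂ) ≠ 0 := by exact_mod_cast (show d ≠ 0 by omega)
  have hd1 : (d : ℂ) + 1 ≠ 0 := by exact_mod_cast (show d + 1 ≠ 0 by omega)
  have hn : ∀ a b, ipp (y a) (y b) * ipp (y b) (y a) = if a = b then 1 else 1 / ((d : ℂ) + 1) := by
    intro a b
    split_ifs with h
    · subst h; rw [h1, one_mul]
    · exact h2 a b h
  have hnz : ∀ a b, ipp (y a) (y b) ≠ 0 := by
    intro a b h
    have := hn a b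
    rw [h, zero_mul] at this
    split_ifs at this
    · exact one_ne_zero this.symm
    · exact (one_div_ne_zero hd1) this.symm
  have hM : (Matrix.of fun p q => ipp (y p) (y q) * ipp (y q) (y p)).det
      = ((d : ℂ) / (d + 1)) ^ (d * d) * ((d : ℂ) + 1) := by
    have : (Matrix.of fun p q => ipp (y p) (y q) * ipp (y q) (y p))
        = Matrix.of fun p q : Fin d × Fin d =>
          if p = q then (d : ℂ) / (d + 1) + 1 / (d + 1) else 1 / ((d : ℂ) + 1) := by
      ext p q
      simp only [Matrix.of_apply]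
      rw [hn]
      split_ifs
      · field_simp
      · rfl
    rw [this, det_simplex _ _ (div_ne_zero hd0 hd1)]
    rw [Fintype.card_prod, Fintype.card_fin]
    congr 1
    push_cast
    field_simp
    ring
  have hsq := det_projMat_sq y
  rw [hM] at hsq
  have hne : (projMat y).det ≠ 0 := by
    intro h
    rw [h] at hsq
    have : (-1 : ℂ) ^ (d * (d - 1) / 2) * (((d : ℂ) / (d + 1)) ^ (d * d) * ((d : ℂ) + 1)) ≠ 0 :=
      mul_ne_zero (pow_ne_zero _ (by norm_num))
        (mul_ne_zero (pow_ne_zero _ (div_ne_zero hd0 hd1)) hd1)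
    exact this (by rw [← hsq]; ring)
  have hmem : (projMat y).det ∈ K := by
    refine det_projMat_mem y K hne (⟨0, hd⟩, ⟨0, hd⟩) (fun a => hnz _ _) (fun a b => ?_) hT
      (fun a b h => absurd h (hnz _ _))
    rw [hn]
    split_ifs
    · exact one_mem K
    · exact div_mem (one_mem K) (add_mem (natCast_mem K d) (one_mem K))
  have hr : ((d : ℂ) / (d + 1)) ∈ K :=
    div_mem (natCast_mem K d) (add_mem (natCast_mem K d) (one_mem K))
  have hr0 : ((d : ℂ) / (d + 1)) ≠ 0 := div_ne_zero hd0 hd1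
  rcases Nat.even_or_odd d with he | ho
  · obtain ⟨e, he'⟩ := he
    refine ⟨(projMat y).det / ((d : ℂ) / (d + 1)) ^ (d * e), div_mem hmem (pow_mem hr _), ?_⟩
    rw [if_pos ⟨e, he'⟩, div_pow, hsq, ← pow_mul]
    have : d * e * 2 = d * d := by
      conv_rhs => rw [he']
      rw [he']; ring
    rw [this]
    field_simp
  · obtain ⟨e, he'⟩ := ho
    refine ⟨(projMat y).det / (((d : ℂ) / (d + 1)) ^ (d * e + e + 1) * ((d : ℂ) + 1)) * d,
      mul_mem (div_mem hmem (mul_mem (pow_mem hr _) (add_mem (natCast_mem K d) (one_mem K))))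
        (natCast_mem K d), ?_⟩
    rw [if_neg (by rw [Nat.not_even_iff_odd]; exact ⟨e, he'⟩), mul_pow, div_pow, hsq, mul_pow,
      ← pow_mul]
    have : (d * e + e + 1) * 2 = d * d + 1 := by
      conv_rhs => rw [he']
      rw [he']; ring
    rw [this, pow_succ]
    field_simp

end Pool.Agent.Lib.MP_d0f9e0_co.FieldDisc
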