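import Mathlib

set_option autoImplicit false

open Module Quaternion

namespace Pool.Agent.Lib.MP_d0f9e0_co.Level

section Anis

variable {K : Type} [Field K]

/-- `-1` is not a sum of two squares in `K` -/
def NoTwo (K : Type) [Field K] : Prop := ∀ a b : K, a ^ 2 + b ^ 2 ≠ -1

lemma two_zero (h : NoTwo K) {a b : K} (hab : a ^ 2 + b ^ 2 = 0) : a = 0 ∧ b = 0 := by
  have hb : b = 0 := by
    by_contra hb
    refine h (a / b) 0 ?_
    field_simp
    linear_combination hab
  subst hb
  have : a ^ 2 = 0 := by linear_combination hab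
  exact ⟨by simpa using this, rfl⟩

lemma four_zero (h : NoTwo K) {a b c e : K} (habc : a ^ 2 + b ^ 2 + c ^ 2 + e ^ 2 = 0) :
    a = 0 ∧ b = 0 ∧ c = 0 ∧ e = 0 := by
  by_cases hr : a ^ 2 + b ^ 2 = 0
  · obtain ⟨ha, hb⟩ := two_zero h hr
    obtain ⟨hc, he⟩ := two_zero h (a := c) (b := e) (by linear_combination habc - hr)
    exact ⟨ha, hb, hc, he⟩
  · exfalso
    refine h ((c * a - e * b) / (a ^ 2 + b ^ 2)) ((c * b + e * a) / (a ^ 2 + b ^ 2)) ?_
    field_simp
    linear_combination (a ^ 2 + b ^ 2) * habc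

lemma normSq_anis (h : NoTwo K) (x : ℍ[K]) (hx : normSq x = 0) : x = 0 := by
  rw [normSq_def'] at hx
  obtain ⟨h1, h2, h3, h4⟩ := four_zero h hx
  ext <;> assumption

lemma noZero (h : NoTwo K) : NoZeroDivisors ℍ[K] where
  eq_zero_or_eq_zero_of_mul_eq_zero := by
    intro a b hab
    have : normSq a * normSq b = 0 := by rw [← map_mul, hab, map_zero]
    rcases mul_eq_zero.1 this with h' | h'
    · exact Or.inl (normSq_anis h _ h')
    · exact Or.inr (normSq_anis h _ h')

lemma isDom (h : NoTwo K) : IsDomain ℍ[K] :=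
  have := noZero h
  NoZeroDivisors.to_isDomain _

/-- a `ℍ`-submodule has dimension divisible by four -/
lemma four_dvd (h : NoTwo K) {κ : Type} [Fintype κ] (W : Submodule ℍ[K] (κ → ℍ[K])) :
    4 ∣ finrank K (W.restrictScalars K) := by
  have := isDom h
  let D : DivisionRing ℍ[K] := divisionRingOfFiniteDimensional K ℍ[K]
  have h1 := Module.finrank_mul_finrank K ℍ[K] W
  rw [Quaternion.finrank_eq_four] at h1
  exact ⟨_, h1.symm⟩

end Anis

section Herm

variable {K : Type} [Field K] {κ : Type} [Fintype κ]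

/-- the symmetric bilinear form `∑ a i Re (x i * conj (y i))` -/
noncomputable def B (a : κ → K) : LinearMap.BilinForm K (κ → ℍ[K]) :=
  LinearMap.mk₂ K (fun x y => ∑ i, a i * (x i * star (y i)).re)
    (by
      intro x x' y
      rw [← Finset.sum_add_distrib]
      refine Finset.sum_congr rfl fun i _ => ?_
      rw [Pi.add_apply, add_mul, re_add, mul_add])
    (by
      intro c x y
      rw [smul_eq_mul, Finset.mul_sum]
      refine Finset.sum_congr rfl fun i _ => ?_
      rw [Pi.smul_apply, smul_mul_assoc, re_smul, smul_eq_mul]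
      ring)
    (by
      intro x y y'
      rw [← Finset.sum_add_distrib]
      refine Finset.sum_congr rfl fun i _ => ?_
      rw [Pi.add_apply, star_add, mul_add, re_add, mul_add])
    (by
      intro c x y
      rw [smul_eq_mul, Finset.mul_sum]
      refine Finset.sum_congr rfl fun i _ => ?_
      rw [Pi.smul_apply, Quaternion.star_smul, mul_smul_comm, re_smul, smul_eq_mul]
      ring)

lemma B_apply (a : κ → K) (x y : κ → ℍ[K]) : B a x y = ∑ i, a i * (x i * star (y i)).re := rfl

lemma B_symm (a : κ → K) (x y : κ → ℍ[K]) : B a x y = B a y x := by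
  rw [B_apply, B_apply]
  refine Finset.sum_congr rfl fun i _ => ?_
  congr 1
  rw [← re_star, star_mul, star_star]

lemma B_self (a : κ → K) (x : κ → ℍ[K]) : B a x x = ∑ i, a i * normSq (x i) := rfl

lemma B_smul (a : κ → K) (q : ℍ[K]) (x y : κ → ℍ[K]) : B a (q • x) y = B a x (star q • y) := by
  rw [B_apply, B_apply]
  refine Finset.sum_congr rfl fun i _ => ?_
  congr 1
  simp only [Pi.smul_apply, smul_eq_mul, star_mul, star_star, re_mul, imI_mul, imJ_mul, imK_mul,
    re_star, imI_star, imJ_star, imK_star]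
  ring

lemma B_smul_smul (a : κ → K) (q : ℍ[K]) (x : κ → ℍ[K]) :
    B a (q • x) (q • x) = normSq q * B a x x := by
  rw [B_self, B_self, Finset.mul_sum]
  refine Finset.sum_congr rfl fun i _ => ?_
  rw [Pi.smul_apply, smul_eq_mul, map_mul]
  ring

lemma B_refl (a : κ → K) : (B a).IsRefl := by
  intro x y h
  rw [B_symm]
  exact h

lemma B_nondeg (h : NoTwo K) (a : κ → K) (ha : ∀ i, a i ≠ 0) : (B a).Nondegenerate := by
  classical
  have key : ∀ x, (∀ y, B a x y = 0) → x = 0 := by
    intro x hx
    funext i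
    have h1 := hx (Pi.single i (x i))
    rw [B_apply, Finset.sum_eq_single i] at h1
    · rw [Pi.single_eq_same] at h1
      have h2 : normSq (x i) = 0 := by
        rcases mul_eq_zero.1 h1 with h3 | h3
        · exact absurd h3 (ha i)
        · exact h3
      exact normSq_anis h _ h2
    · intro j _ hj
      rw [Pi.single_eq_of_ne hj]
      simp
    · intro hi
      exact absurd (Finset.mem_univ i) hi
  refine ⟨key, fun y hy => key y fun x => ?_⟩
  rw [B_symm]
  exact hy x

/-- totally isotropic subspaces over the quaternion division algebra `(-1,-1)`: a Lagrangian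
exists only in even quaternionic dimension -/
theorem even_card (h : NoTwo K) (h2 : (2 : K) ≠ 0) (a : κ → K) (ha : ∀ i, a i ≠ 0)
    (L : Submodule K (κ → ℍ[K])) (hL : ∀ x ∈ L, B a x x = 0)
    (hdim : 4 * Fintype.card κ ≤ 2 * finrank K L) : Even (Fintype.card κ) := by
  classical
  have hnd := B_nondeg h a ha
  have hrf := B_refl a
  have hV : finrank K (κ → ℍ[K]) = 4 * Fintype.card κ := by
    rw [Module.finrank_pi_fintype]
    simp [Quaternion.finrank_eq_four, mul_comm]
  -- polarisation
  have pol : ∀ (M : Submodule K (κ → ℍ[K])), (∀ x ∈ M, B a x x = 0) →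
      ∀ x ∈ M, ∀ y ∈ M, B a x y = 0 := by
    intro M hM x hx y hy
    have h1 := hM (x + y) (M.add_mem hx hy)
    rw [map_add, LinearMap.map_add₂, LinearMap.map_add₂, hM x hx, hM y hy, B_symm a y x] at h1
    have h3 : 2 * B a x y = 0 := by linear_combination h1
    exact (mul_eq_zero.1 h3).resolve_left h2
  -- a maximal totally isotropic quaternionic submodule
  let S : Set (Submodule ℍ[K] (κ → ℍ[K])) := {W | ∀ x ∈ W, B a x x = 0}
  have hS : S.Nonempty := ⟨⊥, by
    intro x hx
    rw [Submodule.mem_bot] at hx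
    subst hx
    simp⟩
  have hfin : ∀ W : Submodule ℍ[K] (κ → ℍ[K]), finrank K (W.restrictScalars K) ≤ 4 * Fintype.card κ := by
    intro W
    rw [← hV]
    exact Submodule.finrank_le _
  obtain ⟨W, hWS, hWmax⟩ : ∃ W ∈ S, ∀ W' ∈ S, W ≤ W' → W' = W := by
    obtain ⟨n, hn⟩ : ∃ n, (∃ W ∈ S, finrank K (W.restrictScalars K) = n) ∧
        ∀ m, (∃ W ∈ S, finrank K (W.restrictScalars K) = m) → m ≤ n := by
      have hbd : ∃ b, ∀ m, (∃ W ∈ S, finrank K (W.restrictScalars K) = m) → m ≤ b :=
        ⟨4 * Fintype.card κ, by rintro m ⟨W, -, rfl⟩; exact hfin W⟩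
      have hne : ∃ m, ∃ W ∈ S, finrank K (W.restrictScalars K) = m :=
        ⟨_, hS.choose, hS.choose_spec, rfl⟩
      obtain ⟨b, hb⟩ := hbd
      exact ⟨Nat.findGreatest (fun m => ∃ W ∈ S, finrank K (W.restrictScalars K) = m) b,
        Nat.findGreatest_spec (P := fun m => ∃ W ∈ S, finrank K (W.restrictScalars K) = m)
          (hb _ hne.choose_spec) hne.choose_spec,
        fun m hm => Nat.le_findGreatest (hb m hm) hm⟩
    obtain ⟨⟨W, hW, hWn⟩, hmax⟩ := hn
    refine ⟨W, hW, fun W' hW' hle => ?_⟩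
    have h1 : W.restrictScalars K ≤ W'.restrictScalars K := hle
    have h3 := hmax _ ⟨W', hW', rfl⟩
    have h4 : W.restrictScalars K = W'.restrictScalars K :=
      Submodule.eq_of_le_of_finrank_le h1 (by rw [hWn]; exact h3)
    ext x
    have := SetLike.ext_iff.1 h4 x
    simpa using this.symm
  set W' := W.restrictScalars K with hW'
  have hWiso : ∀ x ∈ W', B a x x = 0 := hWS
  have hWpol := pol W' hWiso
  -- isotropic vectors orthogonal to W lie in W
  have hmem : ∀ x ∈ (B a).orthogonal W', B a x x = 0 → x ∈ W' := by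
    intro x hx hxx
    have hx' : ∀ w ∈ W, B a w x = 0 := fun w hw => hx w hw
    have h1 : W ⊔ Submodule.span ℍ[K] {x} ∈ S := by
      intro z hz
      obtain ⟨w, hw, u, hu, rfl⟩ := Submodule.mem_sup.1 hz
      obtain ⟨q, rfl⟩ := Submodule.mem_span_singleton.1 hu
      have e1 : B a w (q • x) = 0 := by
        rw [B_symm, B_smul, B_symm]
        exact hx' _ (W.smul_mem _ hw)
      rw [map_add, LinearMap.map_add₂, LinearMap.map_add₂, hWS w hw, B_smul_smul, hxx,
        B_symm a (q • x) w, e1]
      ring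
    have h3 := hWmax _ h1 le_sup_left
    have : x ∈ W ⊔ Submodule.span ℍ[K] {x} :=
      Submodule.mem_sup_right (Submodule.mem_span_singleton_self x)
    rw [h3] at this
    exact this
  -- dimension count
  have hLpol := pol L hL
  have h3 : L ⊓ (B a).orthogonal W' = L ⊓ W' := by
    apply le_antisymm
    · intro x hx
      exact ⟨hx.1, hmem x hx.2 (hL x hx.1)⟩
    · intro x hx
      exact ⟨hx.1, fun w hw => hWpol w hw x hx.2⟩
  have h4 : L ⊔ (B a).orthogonal W' ≤ (B a).orthogonal (L ⊓ W') := by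
    refine sup_le (fun x hx y hy => hLpol y hy.1 x hx) (fun x hx y hy => hx y hy.2)
  have h5 := Submodule.finrank_sup_add_finrank_inf_eq L ((B a).orthogonal W')
  have h6 := Submodule.finrank_mono h4
  have h7 := LinearMap.BilinForm.finrank_orthogonal hnd (L ⊓ W')
  have h8 := LinearMap.BilinForm.finrank_orthogonal hnd W'
  have h9 : finrank K (L ⊓ W' : Submodule K _) ≤ finrank K (κ → ℍ[K]) := Submodule.finrank_le _
  have h10 : finrank K W' ≤ finrank K (κ → ℍ[K]) := Submodule.finrank_le _
  have h11 : W' ≤ (B a).orthogonal W' := fun x hx y hy => hWpol y hy x hx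
  have h12 := Submodule.finrank_mono h11
  obtain ⟨r, hr⟩ := four_dvd h W
  rw [← hW'] at hr
  rw [h3] at h5
  rw [hV] at h7 h8 h9 h10
  refine ⟨r, ?_⟩
  omega

end Herm

section Lag

variable {K : Type} [Field K]

/-- the diagonal form with coefficients `w` has a totally isotropic subspace of at least half the
dimension -/
def HasLag {ι : Type} [Fintype ι] (w : ι → K) : Prop :=
  ∃ (E : Type) (_ : AddCommGroup E) (_ : Module K E) (_ : FiniteDimensional K E)
    (f : E →ₗ[K] (ι → K)), Function.Injective f ∧ Fintype.card ι ≤ 2 * finrank K E ∧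
      ∀ v, ∑ i, w i * (f v i) ^ 2 = 0

lemma HasLag.map {ι ι' : Type} [Fintype ι] [Fintype ι'] {w : ι → K} {w' : ι' → K}
    (h : HasLag w) (T : (ι → K) →ₗ[K] (ι' → K)) (hT : Function.Injective T)
    (hw : ∀ x, ∑ i, w' i * (T x i) ^ 2 = ∑ i, w i * (x i) ^ 2)
    (hc : Fintype.card ι' ≤ Fintype.card ι) : HasLag w' := by
  obtain ⟨E, _, _, _, f, hf, hd, h0⟩ := h
  refine ⟨E, _, _, ‹_›, T ∘ₗ f, hT.comp hf, hc.trans hd, fun v => ?_⟩
  rw [LinearMap.comp_apply, hw, h0]

lemma HasLag.reindex {ι ι' : Type} [Fintype ι] [Fintype ι'] {w : ι → K} {w' : ι' → K}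
    (h : HasLag w) (e : ι ≃ ι') (hw : ∀ i, w' (e i) = w i) : HasLag w' := by
  refine h.map (LinearMap.funLeft K K e.symm) ?_ ?_ ?_
  · exact LinearMap.funLeft_injective_of_surjective _ _ _ e.symm.surjective
  · intro x
    rw [← e.sum_comp]
    refine Finset.sum_congr rfl fun i _ => ?_
    rw [hw, LinearMap.funLeft_apply, e.symm_apply_apply]
  · rw [Fintype.card_congr e]

lemma HasLag.scale {ι : Type} [Fintype ι] {w : ι → K} (h : HasLag w) (w' s : ι → K)
    (hs : ∀ i, s i ≠ 0) (hw : ∀ i, w' i * s i ^ 2 = w i) : HasLag w' := by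
  refine h.map (LinearMap.pi fun i => s i • LinearMap.proj i) ?_ ?_ le_rfl
  · intro x y hxy
    funext i
    have := congrFun hxy i
    simp only [LinearMap.pi_apply, LinearMap.smul_apply, LinearMap.proj_apply, smul_eq_mul] at this
    exact mul_left_cancel₀ (hs i) this
  · intro x
    refine Finset.sum_congr rfl fun i _ => ?_
    simp only [LinearMap.pi_apply, LinearMap.smul_apply, LinearMap.proj_apply, smul_eq_mul]
    rw [← hw]
    ring

lemma HasLag.add {ι ρ : Type} [Fintype ι] [Fintype ρ] {w : ι → K} (h : HasLag w) (a : K) :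
    HasLag (Sum.elim w (Sum.elim (fun _ : ρ => a) (fun _ : ρ => -a))) := by
  obtain ⟨E, _, _, _, f, hf, hd, h0⟩ := h
  let F : E × (ρ → K) →ₗ[K] (ι ⊕ (ρ ⊕ ρ) → K) :=
    { toFun := fun v => Sum.elim (f v.1) (Sum.elim v.2 v.2)
      map_add' := by
        intro v v'
        funext i
        rcases i with i | i | i <;> simp
      map_smul' := by
        intro c v
        funext i
        rcases i with i | i | i <;> simp }
  refine ⟨E × (ρ → K), inferInstance, inferInstance, inferInstance, F, ?_, ?_, ?_⟩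
  · intro v v' hv
    have h1 : f v.1 = f v'.1 := by
      funext i
      exact congrFun hv (Sum.inl i)
    have h2 : v.2 = v'.2 := by
      funext i
      exact congrFun hv (Sum.inr (Sum.inl i))
    exact Prod.ext (hf h1) h2
  · rw [Module.finrank_prod, Module.finrank_fintype_fun_eq_card, Fintype.card_sum,
      Fintype.card_sum]
    omega
  · intro v
    rw [Fintype.sum_sum_type, Fintype.sum_sum_type]
    simp only [Sum.elim_inl, Sum.elim_inr, F, LinearMap.coe_mk, AddHom.coe_mk]
    rw [h0 v.1, zero_add, ← Finset.sum_add_distrib]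
    refine Finset.sum_eq_zero fun i _ => ?_
    ring

/-- three constant blocks of coefficients -/
def G (a b e : K) (n m l : ℕ) : Prop :=
  HasLag (Sum.elim (fun _ : Fin n => a) (Sum.elim (fun _ : Fin m => b) (fun _ : Fin l => e)))

lemma G_of_types {A B C : Type} [Fintype A] [Fintype B] [Fintype C] {a b e : K} {n m l : ℕ}
    (hA : Fintype.card A = n) (hB : Fintype.card B = m) (hC : Fintype.card C = l)
    (h : HasLag (Sum.elim (fun _ : A => a) (Sum.elim (fun _ : B => b) (fun _ : C => e)))) :
    G a b e n m l := by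
  refine h.reindex (Equiv.sumCongr (Fintype.equivFinOfCardEq hA)
    (Equiv.sumCongr (Fintype.equivFinOfCardEq hB) (Fintype.equivFinOfCardEq hC))) ?_
  rintro (i | i | i) <;> rfl

lemma G.types {a b e : K} {n m l : ℕ} (h : G a b e n m l) {A B C : Type} [Fintype A] [Fintype B]
    [Fintype C]
    (hA : Fintype.card A = n) (hB : Fintype.card B = m) (hC : Fintype.card C = l) :
    HasLag (Sum.elim (fun _ : A => a) (Sum.elim (fun _ : B => b) (fun _ : C => e))) := by
  refine HasLag.reindex h (Equiv.sumCongr (Fintype.equivFinOfCardEq hA)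
    (Equiv.sumCongr (Fintype.equivFinOfCardEq hB) (Fintype.equivFinOfCardEq hC))).symm ?_
  rintro (i | i | i) <;> rfl

lemma G.scale {a b e : K} {n m l : ℕ} (h : G a b e n m l) (b' s : K) (hs : s ≠ 0)
    (hb : b' * s ^ 2 = b) : G a b' e n m l := by
  refine HasLag.scale h _ (Sum.elim (fun _ => 1) (Sum.elim (fun _ => s) (fun _ => 1))) ?_ ?_
  · rintro (i | i | i)
    · exact one_ne_zero
    · exact hs
    · exact one_ne_zero
  · rintro (i | i | i)
    · simp
    · simpa using hb
    · simp

lemma G.add23 {a b : K} {n m l : ℕ} (h : G a b (-b) n m l) (r : ℕ) :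
    G a b (-b) n (m + r) (l + r) := by
  have h1 := HasLag.add (ρ := Fin r) h b
  refine G_of_types (A := Fin n) (B := Fin m ⊕ Fin r) (C := Fin l ⊕ Fin r) (by simp) (by simp)
    (by simp) (h1.reindex ((Equiv.sumAssoc _ _ _).trans
      (Equiv.sumCongr (Equiv.refl _) (Equiv.sumSumSumComm _ _ _ _))) ?_)
  rintro ((i | i | i) | (i | i)) <;> rfl

lemma G.add12 {a e : K} {n m l : ℕ} (h : G a (-a) e n m l) (r : ℕ) :
    G a (-a) e (n + r) (m + r) l := by
  have h1 := HasLag.add (ρ := Fin r) h a
  refine G_of_types (A := Fin n ⊕ Fin r) (B := Fin m ⊕ Fin r) (C := Fin l) (by simp) (by simp)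
    (by simp) (h1.reindex
      { toFun := fun x => match x with
          | Sum.inl (Sum.inl i) => Sum.inl (Sum.inl i)
          | Sum.inl (Sum.inr (Sum.inl i)) => Sum.inr (Sum.inl (Sum.inl i))
          | Sum.inl (Sum.inr (Sum.inr i)) => Sum.inr (Sum.inr i)
          | Sum.inr (Sum.inl i) => Sum.inl (Sum.inr i)
          | Sum.inr (Sum.inr i) => Sum.inr (Sum.inl (Sum.inr i))
        invFun := fun x => match x with
          | Sum.inl (Sum.inl i) => Sum.inl (Sum.inl i)
          | Sum.inr (Sum.inl (Sum.inl i)) => Sum.inl (Sum.inr (Sum.inl i))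
          | Sum.inr (Sum.inr i) => Sum.inl (Sum.inr (Sum.inr i))
          | Sum.inl (Sum.inr i) => Sum.inr (Sum.inl i)
          | Sum.inr (Sum.inl (Sum.inr i)) => Sum.inr (Sum.inr i)
        left_inv := by rintro ((i | i | i) | (i | i)) <;> rfl
        right_inv := by rintro ((i | i) | ((i | i) | i)) <;> rfl } ?_)
  rintro ((i | i | i) | (i | i)) <;> rfl

lemma G.merge {a b : K} {n m l : ℕ} (h : G a b b n m l) (m' l' : ℕ) (hml : m' + l' = m + l) :
    G a b b n m' l' := by
  have e : Fin m ⊕ Fin l ≃ Fin m' ⊕ Fin l' := Fintype.equivOfCardEq (by simp [hml])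
  refine HasLag.reindex h (Equiv.sumCongr (Equiv.refl _) e) ?_
  rintro (i | i)
  · rfl
  · show Sum.elim (fun _ => b) (fun _ => b) (e i) = Sum.elim (fun _ => b) (fun _ => b) i
    rcases e i with j | j <;> rcases i with i | i <;> rfl

/-- the two dimensional form `<u^2, 1>` is `<c, c>` with `c = 1 + u^2` -/
lemma G.two {a e : K} {n l : ℕ} (h : G a 1 e (n + 1) 1 l) (u : K) (hu : u ≠ 0) (ha : a = u ^ 2)
    (hc : (1 + u ^ 2 : K) ≠ 0) : G a (1 + u ^ 2) e n 2 l := by
  have h1 := h.types (A := Fin n ⊕ Unit) (B := Unit) (C := Fin l) (by simp) (by simp) (by simp)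
  refine G_of_types (A := Fin n) (B := Unit ⊕ Unit) (C := Fin l) (by simp) (by simp) (by simp) ?_
  let T : (((Fin n ⊕ Unit) ⊕ (Unit ⊕ Fin l)) → K) →ₗ[K] ((Fin n ⊕ ((Unit ⊕ Unit) ⊕ Fin l)) → K) :=
    { toFun := fun x => Sum.elim (fun i => x (Sum.inl (Sum.inl i))) (Sum.elim
        (Sum.elim (fun _ => (u * x (Sum.inl (Sum.inr ())) + u * x (Sum.inr (Sum.inl ()))) / (1 + u ^ 2))
          (fun _ => (u * (u * x (Sum.inl (Sum.inr ()))) - x (Sum.inr (Sum.inl ()))) / (1 + u ^ 2)))
        (fun i => x (Sum.inr (Sum.inr i))))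
      map_add' := by
        intro x y
        funext i
        rcases i with i | (i | i) | i
        · simp
        · simp only [Sum.elim_inr, Sum.elim_inl, Pi.add_apply]; ring
        · simp only [Sum.elim_inr, Sum.elim_inl, Pi.add_apply]; ring
        · simp
      map_smul' := by
        intro c x
        funext i
        rcases i with i | (i | i) | i
        · simp
        · simp only [Sum.elim_inr, Sum.elim_inl, Pi.smul_apply, smul_eq_mul, RingHom.id_apply]; ring
        · simp only [Sum.elim_inr, Sum.elim_inl, Pi.smul_apply, smul_eq_mul, RingHom.id_apply]; ring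
        · simp }
  refine h1.map T ?_ ?_ ?_
  · intro x y hxy
    have e1 := congrFun hxy (Sum.inr (Sum.inl (Sum.inl ())))
    have e2 := congrFun hxy (Sum.inr (Sum.inl (Sum.inr ())))
    simp only [T, LinearMap.coe_mk, AddHom.coe_mk, Sum.elim_inr, Sum.elim_inl] at e1 e2
    rw [div_left_inj' hc] at e1 e2
    have e3 : (1 + u ^ 2) * (u * x (Sum.inl (Sum.inr ()))) = (1 + u ^ 2) * (u * y (Sum.inl (Sum.inr ()))) := by
      linear_combination e1 + u * e2
    have e4 : (1 + u ^ 2) * (x (Sum.inr (Sum.inl ()))) = (1 + u ^ 2) * (y (Sum.inr (Sum.inl ()))) := by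
      linear_combination u * e1 - e2
    funext i
    rcases i with (i | i) | (i | i)
    · exact congrFun hxy (Sum.inl i)
    · exact mul_left_cancel₀ hu (mul_left_cancel₀ hc e3)
    · exact mul_left_cancel₀ hc e4
    · exact congrFun hxy (Sum.inr (Sum.inr i))
  · intro x
    simp only [Fintype.sum_sum_type, T, LinearMap.coe_mk, AddHom.coe_mk, Sum.elim_inr, Sum.elim_inl,
      Finset.univ_unique, Finset.sum_singleton]
    have : (1 + u ^ 2) * ((u * x (Sum.inl (Sum.inr ())) + u * x (Sum.inr (Sum.inl ()))) / (1 + u ^ 2)) ^ 2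
        + (1 + u ^ 2) * ((u * (u * x (Sum.inl (Sum.inr ()))) - x (Sum.inr (Sum.inl ()))) / (1 + u ^ 2)) ^ 2
        = a * x (Sum.inl (Sum.inr ())) ^ 2 + 1 * x (Sum.inr (Sum.inl ())) ^ 2 := by
      rw [ha]
      field_simp
      ring
    have hd : (default : Unit) = () := rfl
    rw [hd]
    linear_combination this
  · simp
    omega

/-- conclusion when all the coefficients come in groups of four -/
theorem G.even (hN : NoTwo K) (h2 : (2 : K) ≠ 0) {a b e : K} (ha : a ≠ 0) (hb : b ≠ 0)
    (he : e ≠ 0) {n m l : ℕ} (h : G a b e (4 * n) (4 * m) (4 * l)) : Even (n + m + l) := by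
  have h1 := h.types (A := Fin n × Fin 4) (B := Fin m × Fin 4) (C := Fin l × Fin 4)
    (by simp [mul_comm]) (by simp [mul_comm]) (by simp [mul_comm])
  obtain ⟨E, _, _, _, f, hf, hd, h0⟩ := h1
  let w : Fin n ⊕ (Fin m ⊕ Fin l) → K := Sum.elim (fun _ => a) (Sum.elim (fun _ => b) (fun _ => e))
  let F : E →ₗ[K] (Fin n ⊕ (Fin m ⊕ Fin l) → ℍ[K]) :=
    { toFun := fun v => Sum.elim
        (fun i => ⟨f v (Sum.inl (i, 0)), f v (Sum.inl (i, 1)), f v (Sum.inl (i, 2)), f v (Sum.inl (i, 3))⟩)
        (Sum.elim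
        (fun i => ⟨f v (Sum.inr (Sum.inl (i, 0))), f v (Sum.inr (Sum.inl (i, 1))),
          f v (Sum.inr (Sum.inl (i, 2))), f v (Sum.inr (Sum.inl (i, 3)))⟩)
        (fun i => ⟨f v (Sum.inr (Sum.inr (i, 0))), f v (Sum.inr (Sum.inr (i, 1))),
          f v (Sum.inr (Sum.inr (i, 2))), f v (Sum.inr (Sum.inr (i, 3)))⟩))
      map_add' := by
        intro v v'
        funext i
        rcases i with i | i | i <;> ext <;> simp
      map_smul' := by
        intro c v
        funext i
        rcases i with i | i | i <;> ext <;> simp }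
  have hFi : Function.Injective F := by
    intro v v' hv
    apply hf
    funext i
    rcases i with ⟨i, j⟩ | ⟨i, j⟩ | ⟨i, j⟩
    · have := congrFun hv (Sum.inl i)
      simp only [F, LinearMap.coe_mk, AddHom.coe_mk, Sum.elim_inl, Quaternion.ext_iff] at this
      fin_cases j
      · exact this.1
      · exact this.2.1
      · exact this.2.2.1
      · exact this.2.2.2
    · have := congrFun hv (Sum.inr (Sum.inl i))
      simp only [F, LinearMap.coe_mk, AddHom.coe_mk, Sum.elim_inl, Sum.elim_inr,
        Quaternion.ext_iff] at this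
      fin_cases j
      · exact this.1
      · exact this.2.1
      · exact this.2.2.1
      · exact this.2.2.2
    · have := congrFun hv (Sum.inr (Sum.inr i))
      simp only [F, LinearMap.coe_mk, AddHom.coe_mk, Sum.elim_inl, Sum.elim_inr,
        Quaternion.ext_iff] at this
      fin_cases j
      · exact this.1
      · exact this.2.1
      · exact this.2.2.1
      · exact this.2.2.2
  have key := even_card hN h2 w (by rintro (i | i | i) <;> assumption) (LinearMap.range F) ?_ ?_
  · simpa [add_assoc] using key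
  · rintro _ ⟨v, rfl⟩
    rw [B_self]
    have := h0 v
    simp only [Fintype.sum_sum_type, Fintype.sum_prod_type, Fin.sum_univ_four, Sum.elim_inl,
      Sum.elim_inr] at this
    simp only [Fintype.sum_sum_type, F, w, LinearMap.coe_mk, AddHom.coe_mk, Sum.elim_inl,
      Sum.elim_inr, normSq_def']
    rw [← this]
    congr 1
    · refine Finset.sum_congr rfl fun i _ => ?_
      ring
    · congr 1
      · refine Finset.sum_congr rfl fun i _ => ?_
        ring
      · refine Finset.sum_congr rfl fun i _ => ?_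
        ring
  · rw [LinearMap.finrank_range_of_inj hFi]
    refine le_trans ?_ hd
    simp only [Fintype.card_sum, Fintype.card_prod, Fintype.card_fin]
    omega

end Lag

end Pool.Agent.Lib.MP_d0f9e0_co.Level
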