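import Mathlib
import Pool.Agent.Lib.MP_d0f9e0_co.Level

set_option autoImplicit false
set_option linter.unusedSectionVars false

open Module Matrix

namespace Pool.Agent.Lib.MP_d0f9e0_co.Level

section PartB

variable {K : Type} [Field K] [CharZero K] {d : ℕ}

/-- positions on or above the diagonal -/
abbrev Up (d : ℕ) : Type := {q : Fin d × Fin d // q.1 ≤ q.2}

lemma card_up (d : ℕ) : d * d + d ≤ 2 * Fintype.card (Up d) := by
  classical
  have h1 : Fintype.card (Up d) = Fintype.card {q : Fin d × Fin d // q.2 ≤ q.1} :=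
    Fintype.card_congr
      { toFun := fun q => ⟨(q.1.2, q.1.1), q.2⟩
        invFun := fun q => ⟨(q.1.2, q.1.1), q.2⟩
        left_inv := fun q => rfl
        right_inv := fun q => rfl }
  have h2 : Fintype.card (Up d) + Fintype.card {q : Fin d × Fin d // q.2 ≤ q.1}
      = Fintype.card (Fin d × Fin d) + Fintype.card {q : Fin d × Fin d // q.1 = q.2} := by
    rw [Fintype.card_subtype, Fintype.card_subtype, Fintype.card_subtype, ← Finset.card_univ]
    have hu : (Finset.univ : Finset (Fin d × Fin d))
        = (Finset.univ.filter fun q : Fin d × Fin d => q.1 ≤ q.2) ∪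
          (Finset.univ.filter fun q : Fin d × Fin d => q.2 ≤ q.1) := by
      ext q
      simp [le_total]
    have hi : (Finset.univ.filter fun q : Fin d × Fin d => q.1 = q.2)
        = (Finset.univ.filter fun q : Fin d × Fin d => q.1 ≤ q.2) ∩
          (Finset.univ.filter fun q : Fin d × Fin d => q.2 ≤ q.1) := by
      ext q
      simp [le_antisymm_iff]
    rw [hi, ← Finset.card_union_add_card_inter]
    congr 2
    exact hu.symm
  have h3 : Fintype.card {q : Fin d × Fin d // q.1 = q.2} = d := by
    rw [Fintype.card_congr (show {q : Fin d × Fin d // q.1 = q.2} ≃ Fin d from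
      { toFun := fun q => q.1.1
        invFun := fun i => ⟨(i, i), rfl⟩
        left_inv := by rintro ⟨⟨a, b⟩, h⟩; simp only at h; subst h; rfl
        right_inv := fun i => rfl }), Fintype.card_fin]
  rw [Fintype.card_prod, Fintype.card_fin, h3] at h2
  omega

/-- the upper triangular matrix with given entries -/
def upMat (s : Up d → K) : Matrix (Fin d) (Fin d) K :=
  Matrix.of fun i j => if h : i ≤ j then s ⟨(i, j), h⟩ else 0

lemma upMat_add (s t : Up d → K) : upMat (s + t) = upMat s + upMat t := by
  ext i j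
  simp only [upMat, Matrix.of_apply, Matrix.add_apply, Pi.add_apply]
  split_ifs <;> simp

lemma upMat_smul (c : K) (s : Up d → K) : upMat (c • s) = c • upMat s := by
  ext i j
  simp only [upMat, Matrix.of_apply, Matrix.smul_apply, Pi.smul_apply]
  split_ifs <;> simp

lemma trace_upMat (s : Up d → K) : (upMat s * upMat s).trace = ∑ i, (upMat s i i) ^ 2 := by
  simp only [Matrix.trace, Matrix.diag_apply, Matrix.mul_apply]
  refine Finset.sum_congr rfl fun i _ => ?_
  rw [Finset.sum_eq_single i]
  · ring
  · intro j _ hj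
    simp only [upMat, Matrix.of_apply]
    by_cases h : i ≤ j
    · have : ¬ j ≤ i := fun h' => hj (le_antisymm h' h)
      rw [dif_neg this, mul_zero]
    · rw [dif_neg h, zero_mul]
  · intro h
    exact absurd (Finset.mem_univ i) h

variable (Φ : Fin d × Fin d → Matrix (Fin d) (Fin d) K)

/-- the linear combination map -/
def comb : (Fin d × Fin d → K) →ₗ[K] Matrix (Fin d) (Fin d) K :=
  Fintype.linearCombination K Φ

lemma comb_apply (c : Fin d × Fin d → K) : comb Φ c = ∑ p, c p • Φ p := rfl

lemma trace_comb (hd : 1 ≤ d)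
    (hΦ : ∀ p q, (Φ p * Φ q).trace = if p = q then 1 else 1 / ((d : K) + 1))
    (c : Fin d × Fin d → K) (q : Fin d × Fin d) :
    (comb Φ c * Φ q).trace = ((d : K) * c q + ∑ p, c p) / ((d : K) + 1) := by
  have hd1 : (d : K) + 1 ≠ 0 := by exact_mod_cast (show d + 1 ≠ 0 by omega)
  rw [comb_apply, Finset.sum_mul, Matrix.trace_sum]
  have : ∀ p, (c p • Φ p * Φ q).trace
      = (c p) / ((d : K) + 1) + (if p = q then (d : K) * c q / ((d : K) + 1) else 0) := by
    intro p
    rw [Matrix.smul_mul, Matrix.trace_smul, hΦ, smul_eq_mul]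
    split_ifs with h
    · subst h
      field_simp
      ring
    · rw [add_zero]; field_simp
  rw [Finset.sum_congr rfl fun p _ => this p, Finset.sum_add_distrib, Finset.sum_ite_eq',
    if_pos (Finset.mem_univ q), ← Finset.sum_div]
  ring

lemma comb_inj (hd : 1 ≤ d)
    (hΦ : ∀ p q, (Φ p * Φ q).trace = if p = q then 1 else 1 / ((d : K) + 1)) :
    Function.Injective (comb Φ) := by
  have hd0 : (d : K) ≠ 0 := by exact_mod_cast (show d ≠ 0 by omega)
  have hd1 : (d : K) + 1 ≠ 0 := by exact_mod_cast (show d + 1 ≠ 0 by omega)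
  rw [injective_iff_map_eq_zero]
  intro c hc
  have h1 : ∀ q, (d : K) * c q + ∑ p, c p = 0 := by
    intro q
    have := trace_comb Φ hd hΦ c q
    rw [hc, Matrix.zero_mul, Matrix.trace_zero] at this
    have h2 := this.symm
    rw [div_eq_zero_iff] at h2
    exact h2.resolve_right hd1
  have h2 : ∑ q : Fin d × Fin d, ((d : K) * c q + ∑ p, c p) = 0 :=
    Finset.sum_eq_zero fun q _ => h1 q
  rw [Finset.sum_add_distrib, ← Finset.mul_sum, Finset.sum_const, Finset.card_univ,
    Fintype.card_prod, Fintype.card_fin, nsmul_eq_mul] at h2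
  have h3 : (d : K) * ((d : K) + 1) * ∑ p, c p = 0 := by
    push_cast at h2
    linear_combination h2
  have h4 : ∑ p, c p = 0 := (mul_eq_zero.1 h3).resolve_left (mul_ne_zero hd0 hd1)
  funext q
  have := h1 q
  rw [h4, add_zero] at this
  exact (mul_eq_zero.1 this).resolve_left hd0

/-- the explicit Lagrangian -/
theorem lag_of_matrices (hd : 1 ≤ d)
    (hΦ : ∀ p q, (Φ p * Φ q).trace = if p = q then 1 else 1 / ((d : K) + 1)) :
    G (d : K) 1 (-((d : K) + 1)) (d * d) 1 (d + 1) := by
  have hd0 : (d : K) ≠ 0 := by exact_mod_cast (show d ≠ 0 by omega)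
  have hd1 : (d : K) + 1 ≠ 0 := by exact_mod_cast (show d + 1 ≠ 0 by omega)
  let e : (Fin d × Fin d → K) ≃ₗ[K] Matrix (Fin d) (Fin d) K :=
    LinearEquiv.ofInjectiveOfFinrankEq (comb Φ) (comb_inj Φ hd hΦ) (by
      rw [Module.finrank_fintype_fun_eq_card, Module.finrank_matrix]
      simp)
  have he : ∀ c, e c = comb Φ c := fun c => rfl
  have hq : ∀ X : Matrix (Fin d) (Fin d) K, (d : K) * ∑ p, (e.symm X p) ^ 2 + (∑ p, e.symm X p) ^ 2
      = ((d : K) + 1) * (X * X).trace := by
    intro X
    set c := e.symm X with hc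
    have hX : X = comb Φ c := by rw [← he, hc, e.apply_symm_apply]
    have h1 : (X * X).trace = ∑ q, c q * (((d : K) * c q + ∑ p, c p) / ((d : K) + 1)) := by
      conv_lhs => rw [hX]
      conv_lhs => rw [comb_apply Φ c, ← comb_apply Φ c, show comb Φ c * comb Φ c
        = comb Φ c * ∑ q, c q • Φ q from rfl]
      rw [Finset.mul_sum, Matrix.trace_sum]
      refine Finset.sum_congr rfl fun q _ => ?_
      rw [Matrix.mul_smul, Matrix.trace_smul, trace_comb Φ hd hΦ, smul_eq_mul]
    rw [h1, Finset.mul_sum, Finset.mul_sum]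
    have : ∀ q, ((d : K) + 1) * (c q * (((d : K) * c q + ∑ p, c p) / ((d : K) + 1)))
        = (d : K) * c q ^ 2 + c q * ∑ p, c p := by
      intro q
      field_simp
    rw [Finset.sum_congr rfl fun q _ => this q, Finset.sum_add_distrib, ← Finset.sum_mul]
    ring
  refine G_of_types (A := Fin d × Fin d) (B := Unit) (C := Fin d ⊕ Unit) (by simp) (by simp)
    (by simp) ?_
  let F : (Up d → K) × K →ₗ[K] ((Fin d × Fin d) ⊕ (Unit ⊕ (Fin d ⊕ Unit)) → K) :=
    { toFun := fun v => Sum.elim (fun p => e.symm (upMat v.1) p + v.2)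
        (Sum.elim (fun _ => ∑ p, e.symm (upMat v.1) p - (d : K) * v.2)
          (Sum.elim (fun i => upMat v.1 i i) (fun _ => (d : K) * v.2)))
      map_add' := by
        intro v v'
        funext i
        rcases i with i | i | i | i
        · simp only [Sum.elim_inl, Prod.fst_add, Prod.snd_add, upMat_add, map_add, Pi.add_apply]
          ring
        · simp only [Sum.elim_inl, Sum.elim_inr, Prod.fst_add, Prod.snd_add, upMat_add, map_add,
            Pi.add_apply, Finset.sum_add_distrib]
          ring
        · simp only [Sum.elim_inl, Sum.elim_inr, Prod.fst_add, upMat_add, Matrix.add_apply,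
            Pi.add_apply]
        · simp only [Sum.elim_inr, Prod.snd_add, Pi.add_apply]
          ring
      map_smul' := by
        intro c v
        funext i
        rcases i with i | i | i | i
        · simp only [Sum.elim_inl, Prod.smul_fst, Prod.smul_snd, upMat_smul, map_smul,
            Pi.smul_apply, smul_eq_mul, RingHom.id_apply]
          ring
        · simp only [Sum.elim_inl, Sum.elim_inr, Prod.smul_fst, Prod.smul_snd, upMat_smul, map_smul,
            Pi.smul_apply, smul_eq_mul, RingHom.id_apply, ← Finset.mul_sum]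
          ring
        · simp only [Sum.elim_inl, Sum.elim_inr, Prod.smul_fst, upMat_smul, Matrix.smul_apply,
            Pi.smul_apply, smul_eq_mul, RingHom.id_apply]
        · simp only [Sum.elim_inr, Prod.smul_snd, Pi.smul_apply, smul_eq_mul, RingHom.id_apply]
          ring }
  refine ⟨(Up d → K) × K, inferInstance, inferInstance, inferInstance, F, ?_, ?_, ?_⟩
  · rw [injective_iff_map_eq_zero]
    rintro ⟨s, t⟩ h
    have h1 := congrFun h (Sum.inr (Sum.inr (Sum.inr ())))
    have h2 := fun p => congrFun h (Sum.inl p)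
    simp only [F, LinearMap.coe_mk, AddHom.coe_mk, Sum.elim_inl, Sum.elim_inr, Pi.zero_apply] at h1 h2
    have ht : t = 0 := (mul_eq_zero.1 h1).resolve_left hd0
    subst ht
    have h3 : e.symm (upMat s) = 0 := by
      funext p
      have := h2 p
      rw [add_zero] at this
      exact this
    have h4 : upMat s = 0 := by
      rw [← e.symm.map_eq_zero_iff]
      exact h3
    have hs : s = 0 := by
      funext q
      obtain ⟨⟨i, j⟩, hq⟩ := q
      have := congrFun (congrFun h4 i) j
      simp only [upMat, Matrix.of_apply, Matrix.zero_apply] at this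
      rw [dif_pos hq] at this
      exact this
    subst hs
    rfl
  · rw [Module.finrank_prod, Module.finrank_fintype_fun_eq_card, Module.finrank_self]
    simp only [Fintype.card_sum, Fintype.card_prod, Fintype.card_fin, Fintype.card_unit]
    have := card_up d
    omega
  · rintro ⟨s, t⟩
    simp only [Fintype.sum_sum_type, F, LinearMap.coe_mk, AddHom.coe_mk, Sum.elim_inl, Sum.elim_inr,
      Finset.univ_unique, Finset.sum_singleton]
    have h1 := hq (upMat s)
    rw [trace_upMat] at h1
    have h2 : ∑ p : Fin d × Fin d, (d : K) * (e.symm (upMat s) p + t) ^ 2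
        = (d : K) * ∑ p, (e.symm (upMat s) p) ^ 2 + 2 * d * t * ∑ p, e.symm (upMat s) p
          + (d : K) * (d * d) * t ^ 2 := by
      rw [Finset.mul_sum, Finset.mul_sum, ← Finset.sum_add_distrib]
      have : (d : K) * (d * d) * t ^ 2 = ∑ p : Fin d × Fin d, (d : K) * t ^ 2 := by
        rw [Finset.sum_const, Finset.card_univ, Fintype.card_prod, Fintype.card_fin, nsmul_eq_mul]
        push_cast
        ring
      rw [this, ← Finset.sum_add_distrib]
      refine Finset.sum_congr rfl fun p _ => ?_
      ring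
    have h3 : ∑ i : Fin d, -((d : K) + 1) * upMat s i i ^ 2
        = -((d : K) + 1) * ∑ i, upMat s i i ^ 2 := by rw [Finset.mul_sum]
    rw [h2, h3]
    linear_combination h1

end PartB

section Cases

variable {K : Type} [Field K] [CharZero K] {d : ℕ}

theorem level (hd : 1 ≤ d) (h : G (d : K) 1 (-((d : K) + 1)) (d * d) 1 (d + 1))
    (z : K) (hz : z ^ 2 = (-1 : K) ^ (d * (d - 1) / 2) * (if Even d then (d : K) + 1 else d))
    (hmod : d % 8 = 3 ∨ d % 8 = 4 ∨ d % 8 = 5 ∨ d % 8 = 6) : ∃ a b : K, a ^ 2 + b ^ 2 = -1 := by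
  have hd0 : (d : K) ≠ 0 := by exact_mod_cast (show d ≠ 0 by omega)
  have hd1 : (d : K) + 1 ≠ 0 := by exact_mod_cast (show d + 1 ≠ 0 by omega)
  have hnd1 : -((d : K) + 1) ≠ 0 := neg_ne_zero.2 hd1
  have h2 : (2 : K) ≠ 0 := two_ne_zero
  by_contra hcon
  have hN : NoTwo K := fun a b hab => hcon ⟨a, b, hab⟩
  obtain ⟨m, hm⟩ : ∃ m, d = 8 * m + d % 8 := ⟨d / 8, by omega⟩
  rcases hmod with h8 | h8 | h8 | h8 <;> rw [h8] at hm
  · -- d = 8m+3
    have hodd : ¬ Even d := by rw [hm, Nat.not_even_iff_odd]; exact ⟨4 * m + 1, by ring⟩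
    have hs : Odd (d * (d - 1) / 2) := by
      have : d * (d - 1) / 2 = (8 * m + 3) * (4 * m + 1) := by
        rw [hm]
        apply Nat.div_eq_of_eq_mul_left (by norm_num)
        have : 8 * m + 3 - 1 = 8 * m + 2 := by omega
        rw [this]; ring
      rw [this]
      exact Nat.odd_mul.2 ⟨⟨4 * m + 1, by ring⟩, ⟨2 * m, by ring⟩⟩
    rw [if_neg hodd, hs.neg_one_pow] at hz
    have hz0 : z ≠ 0 := by
      rintro rfl
      apply hd0
      linear_combination hz
    have g1 := h.scale (-(d : K)) z⁻¹ (inv_ne_zero hz0) (by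
      field_simp
      linear_combination -hz)
    have g2 := g1.add12 3
    have e1 : d * d + 3 = 4 * (16 * m * m + 12 * m + 3) := by rw [hm]; ring
    have e2 : d + 1 = 4 * (2 * m + 1) := by rw [hm]; ring
    rw [e1, e2, show 1 + 3 = 4 * 1 by norm_num] at g2
    have := g2.even hN h2 hd0 (neg_ne_zero.2 hd0) hnd1
    rw [Nat.even_iff] at this
    have e3 : (16 * m * m + 12 * m + 3 + 1 + (2 * m + 1)) = 2 * (8 * m * m + 7 * m + 2) + 1 := by ring
    omega
  · -- d = 8m+4
    have heven : Even d := by rw [hm]; exact ⟨4 * m + 2, by ring⟩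
    have hs : Even (d * (d - 1) / 2) := by
      have : d * (d - 1) / 2 = (4 * m + 2) * (8 * m + 3) := by
        rw [hm]
        apply Nat.div_eq_of_eq_mul_left (by norm_num)
        have : 8 * m + 4 - 1 = 8 * m + 3 := by omega
        rw [this]; ring
      rw [this]
      exact Nat.even_mul.2 (Or.inl ⟨2 * m + 1, by ring⟩)
    rw [if_pos heven, hs.neg_one_pow, one_mul] at hz
    have hz0 : z ≠ 0 := by
      rintro rfl
      apply hd1
      linear_combination -hz
    have g1 := h.scale ((d : K) + 1) z⁻¹ (inv_ne_zero hz0) (by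
      field_simp
      linear_combination -hz)
    have g2 := g1.add23 3
    have e1 : d * d = 4 * (16 * m * m + 16 * m + 4) := by rw [hm]; ring
    have e2 : d + 1 + 3 = 4 * (2 * m + 2) := by rw [hm]; ring
    rw [e1, e2, show 1 + 3 = 4 * 1 by norm_num] at g2
    have := g2.even hN h2 hd0 hd1 hnd1
    rw [Nat.even_iff] at this
    have e3 : (16 * m * m + 16 * m + 4 + 1 + (2 * m + 2)) = 2 * (8 * m * m + 9 * m + 3) + 1 := by ring
    omega
  · -- d = 8m+5
    have hodd : ¬ Even d := by rw [hm, Nat.not_even_iff_odd]; exact ⟨4 * m + 2, by ring⟩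
    have hs : Even (d * (d - 1) / 2) := by
      have : d * (d - 1) / 2 = (8 * m + 5) * (4 * m + 2) := by
        rw [hm]
        apply Nat.div_eq_of_eq_mul_left (by norm_num)
        have : 8 * m + 5 - 1 = 8 * m + 4 := by omega
        rw [this]; ring
      rw [this]
      exact Nat.even_mul.2 (Or.inr ⟨2 * m + 1, by ring⟩)
    rw [if_neg hodd, hs.neg_one_pow, one_mul] at hz
    have hz0 : z ≠ 0 := by
      rintro rfl
      apply hd0
      linear_combination -hz
    have e1 : d * d = 4 * (16 * m * m + 20 * m + 6) + 1 := by rw [hm]; ring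
    rw [e1] at h
    have hc : (1 + z ^ 2 : K) ≠ 0 := by
      rw [hz]
      intro h'
      apply hd1
      linear_combination h'
    have g1 := h.two z hz0 hz.symm hc
    have e4 : -((d : K) + 1) = -(1 + z ^ 2) := by rw [hz]; ring
    rw [e4] at g1
    have g2 := g1.add23 2
    have e2 : d + 1 + 2 = 4 * (2 * m + 2) := by rw [hm]; ring
    rw [e2, show 2 + 2 = 4 * 1 by norm_num] at g2
    have := g2.even hN h2 hd0 hc (neg_ne_zero.2 hc)
    rw [Nat.even_iff] at this
    have e3 : (16 * m * m + 20 * m + 6 + 1 + (2 * m + 2)) = 2 * (8 * m * m + 11 * m + 4) + 1 := by ring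
    omega
  · -- d = 8m+6
    have heven : Even d := by rw [hm]; exact ⟨4 * m + 3, by ring⟩
    have hs : Odd (d * (d - 1) / 2) := by
      have : d * (d - 1) / 2 = (4 * m + 3) * (8 * m + 5) := by
        rw [hm]
        apply Nat.div_eq_of_eq_mul_left (by norm_num)
        have : 8 * m + 6 - 1 = 8 * m + 5 := by omega
        rw [this]; ring
      rw [this]
      exact Nat.odd_mul.2 ⟨⟨2 * m + 1, by ring⟩, ⟨4 * m + 2, by ring⟩⟩
    rw [if_pos heven, hs.neg_one_pow] at hz
    have hz0 : z ≠ 0 := by
      rintro rfl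
      apply hd1
      linear_combination hz
    have g1 := h.scale (-((d : K) + 1)) z⁻¹ (inv_ne_zero hz0) (by
      field_simp
      linear_combination -hz)
    have g2 := g1.merge 0 (d + 2) (by omega)
    have e1 : d * d = 4 * (16 * m * m + 24 * m + 9) := by rw [hm]; ring
    have e2 : d + 2 = 4 * (2 * m + 2) := by rw [hm]; ring
    rw [e1, e2, show 0 = 4 * 0 by norm_num] at g2
    have := g2.even hN h2 hd0 hnd1 hnd1
    rw [Nat.even_iff] at this
    have e3 : (16 * m * m + 24 * m + 9 + 0 + (2 * m + 2)) = 2 * (8 * m * m + 13 * m + 5) + 1 := by ring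
    omega

end Cases

end Pool.Agent.Lib.MP_d0f9e0_co.Level
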