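import Mathlib
import Pool.Agent.Lib.MP_d0f9e0_co.FieldDisc
import Pool.Agent.Lib.MP_d0f9e0_co.LevelB

set_option autoImplicit false
set_option linter.unusedSectionVars false

open Module Matrix

namespace Pool.Agent.Lib.MP_d0f9e0_co.Level

open Pool.Agent.Lib.MP_d0f9e0_co.FieldDisc

/-- the rank one matrix of a vector -/
noncomputable def proj {d : ℕ} (u : Fin d → ℂ) : Matrix (Fin d) (Fin d) ℂ :=
  Matrix.of fun a b => u a * star (u b)

lemma trace_proj {d : ℕ} (u v : Fin d → ℂ) :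
    (proj u * proj v).trace = ipp u v * ipp v u := by
  simp only [Matrix.trace, Matrix.diag_apply, Matrix.mul_apply, proj, Matrix.of_apply, ipp]
  rw [Finset.sum_mul_sum]
  refine Finset.sum_congr rfl fun a _ => Finset.sum_congr rfl fun b _ => ?_
  ring

/-- descent of the projectors to matrices over the field of triple products -/
theorem descend {d : ℕ} (y : Fin d × Fin d → (Fin d → ℂ)) (K : Subfield ℂ)
    (hP : (projMat y).det ≠ 0) (o : Fin d × Fin d)
    (hg : ∀ a, ipp (y o) (y a) ≠ 0)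
    (hn : ∀ a b, ipp (y a) (y b) * ipp (y b) (y a) ∈ K)
    (hT : ∀ i j k, ipp (y i) (y j) * ipp (y j) (y k) * ipp (y k) (y i) ∈ K)
    (hg2 : ∀ a b, ipp (y a) (y b) = 0 → ipp (y b) (y a) = 0) :
    ∃ Φ : Fin d × Fin d → Matrix (Fin d) (Fin d) K,
      ∀ p q, (((Φ p * Φ q).trace : K) : ℂ) = ipp (y p) (y q) * ipp (y q) (y p) := by
  obtain ⟨κ, hli⟩ := exists_basis y hP
  have hg' : ∀ a, ipp (y a) (y o) ≠ 0 := by
    intro a h
    exact hg a (hg2 _ _ h)
  have hQ0 := det_Q_ne_zero y o κ hli (fun a => hg _)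
  set A := Q y o κ with hA
  have hAdet : A.det ≠ 0 := by
    intro h
    apply hQ0
    rw [Matrix.det_mul, h, zero_mul]
  have hAu : IsUnit A.det := isUnit_iff_ne_zero.2 hAdet
  have hAsu : IsUnit (Aᴴ).det := by
    rw [Matrix.det_conjTranspose]
    exact isUnit_iff_ne_zero.2 (star_ne_zero.2 hAdet)
  -- entries of the Gram matrix
  have hΓ : ∀ a b, (A * Aᴴ) a b ∈ K := by
    intro a b
    rw [hA, Q_mul]
    simp only [Matrix.of_apply]
    have h : ipp (y (κ b)) (y (κ a)) / (ipp (y o) (y (κ a)) * ipp (y (κ b)) (y o))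
        = (ipp (y o) (y (κ b)) * ipp (y (κ b)) (y (κ a)) * ipp (y (κ a)) (y o)) /
          ((ipp (y o) (y (κ b)) * ipp (y (κ b)) (y o)) *
            (ipp (y o) (y (κ a)) * ipp (y (κ a)) (y o))) := by
      have e1 := hg (κ a)
      have e2 := hg (κ b)
      have e3 := hg' (κ a)
      have e4 := hg' (κ b)
      field_simp
    rw [h]
    exact div_mem (hT _ _ _) (mul_mem (hn _ _) (hn _ _))
  have hN : ∀ p a b, (A * proj (y p) * Aᴴ) a b ∈ K := by
    intro p a b
    have h0 : (A * proj (y p) * Aᴴ) a b = (ipp (y p) (y (κ a)) * ipp (y (κ b)) (y p)) /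
        (ipp (y o) (y (κ a)) * ipp (y (κ b)) (y o)) := by
      simp only [Matrix.mul_apply, hA, Q, proj, Matrix.conjTranspose_apply, Matrix.of_apply]
      rw [show ipp (y p) (y (κ a)) = ∑ k, y p k * star (y (κ a) k) from rfl,
        show ipp (y (κ b)) (y p) = ∑ k, y (κ b) k * star (y p k) from rfl,
        Finset.sum_mul_sum]
      simp only [Finset.sum_mul, Finset.sum_div]
      rw [Finset.sum_comm]
      refine Finset.sum_congr rfl fun k _ => Finset.sum_congr rfl fun l _ => ?_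
      rw [star_div₀, star_star, star_ipp]
      have e1 := hg (κ a)
      have e4 := hg' (κ b)
      field_simp
    have h : (ipp (y p) (y (κ a)) * ipp (y (κ b)) (y p)) /
        (ipp (y o) (y (κ a)) * ipp (y (κ b)) (y o))
        = ((ipp (y o) (y p) * ipp (y p) (y (κ a)) * ipp (y (κ a)) (y o)) *
            (ipp (y o) (y (κ b)) * ipp (y (κ b)) (y p) * ipp (y p) (y o))) /
          ((ipp (y o) (y p) * ipp (y p) (y o)) *
            (ipp (y o) (y (κ a)) * ipp (y (κ a)) (y o)) *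
            (ipp (y o) (y (κ b)) * ipp (y (κ b)) (y o))) := by
      have e1 := hg (κ a)
      have e2 := hg (κ b)
      have e3 := hg' (κ a)
      have e4 := hg' (κ b)
      have e5 := hg p
      have e6 := hg' p
      field_simp
    rw [h0, h]
    exact div_mem (mul_mem (hT _ _ _) (hT _ _ _)) (mul_mem (mul_mem (hn _ _) (hn _ _)) (hn _ _))
  let Γ' : Matrix (Fin d) (Fin d) K := Matrix.of fun a b => ⟨(A * Aᴴ) a b, hΓ a b⟩
  let N' : Fin d × Fin d → Matrix (Fin d) (Fin d) K := fun p =>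
    Matrix.of fun a b => ⟨(A * proj (y p) * Aᴴ) a b, hN p a b⟩
  have hΓ' : Γ'.map K.subtype = A * Aᴴ := by
    ext a b
    rfl
  have hN' : ∀ p, (N' p).map K.subtype = A * proj (y p) * Aᴴ := by
    intro p
    ext a b
    rfl
  have hdet : Γ'.det ≠ 0 := by
    intro h
    apply hQ0
    rw [← hΓ', ← RingHom.mapMatrix_apply, ← RingHom.map_det, h, map_zero]
  have hinv : (Γ'⁻¹).map K.subtype = (A * Aᴴ)⁻¹ := by
    symm
    apply Matrix.inv_eq_right_inv
    rw [← hΓ', ← Matrix.map_mul, Matrix.mul_nonsing_inv _ (isUnit_iff_ne_zero.2 hdet)]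
    ext a b
    simp only [Matrix.map_apply, Matrix.one_apply]
    split_ifs <;> simp
  have hΦ : ∀ p, (N' p * Γ'⁻¹).map K.subtype = A * proj (y p) * A⁻¹ := by
    intro p
    rw [Matrix.map_mul, hinv, hN', Matrix.mul_inv_rev, ← Matrix.mul_assoc,
      Matrix.mul_assoc (A * proj (y p)) Aᴴ, Matrix.mul_nonsing_inv _ hAsu, Matrix.mul_one]
  refine ⟨fun p => N' p * Γ'⁻¹, fun p q => ?_⟩
  have h1 : (((N' p * Γ'⁻¹ * (N' q * Γ'⁻¹)).trace : K) : ℂ)
      = ((N' p * Γ'⁻¹ * (N' q * Γ'⁻¹)).map K.subtype).trace := by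
    simp only [Matrix.trace, Matrix.diag_apply, Matrix.map_apply]
    exact map_sum K.subtype _ _
  rw [h1, Matrix.map_mul, hΦ, hΦ]
  have h2 : A * proj (y p) * A⁻¹ * (A * proj (y q) * A⁻¹) = A * (proj (y p) * proj (y q)) * A⁻¹ := by
    have : A⁻¹ * A = 1 := Matrix.nonsing_inv_mul _ hAu
    calc A * proj (y p) * A⁻¹ * (A * proj (y q) * A⁻¹)
        = A * proj (y p) * (A⁻¹ * A) * proj (y q) * A⁻¹ := by simp only [Matrix.mul_assoc]
      _ = A * (proj (y p) * proj (y q)) * A⁻¹ := by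
        rw [this, Matrix.mul_one]; simp only [Matrix.mul_assoc]
  rw [h2, Matrix.trace_mul_comm, ← Matrix.mul_assoc, Matrix.nonsing_inv_mul _ hAu, Matrix.one_mul,
    trace_proj]

/-- the second half, indexed by pairs -/
theorem main_level {d : ℕ} (hd : 1 ≤ d) (y : Fin d × Fin d → (Fin d → ℂ))
    (h1 : ∀ i, ipp (y i) (y i) = 1)
    (h2 : ∀ i j, i ≠ j → ipp (y i) (y j) * ipp (y j) (y i) = 1 / ((d : ℂ) + 1))
    (K : Subfield ℂ)
    (hT : ∀ i j k, ipp (y i) (y j) * ipp (y j) (y k) * ipp (y k) (y i) ∈ K)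
    (hmod : d % 8 = 3 ∨ d % 8 = 4 ∨ d % 8 = 5 ∨ d % 8 = 6) :
    ∃ a ∈ K, ∃ b ∈ K, a ^ 2 + b ^ 2 = (-1 : ℂ) := by
  have hd0 : (d : ℂ) ≠ 0 := by exact_mod_cast (show d ≠ 0 by omega)
  have hd1 : (d : ℂ) + 1 ≠ 0 := by exact_mod_cast (show d + 1 ≠ 0 by omega)
  obtain ⟨z, hzK, hz⟩ := main_pairs hd y h1 h2 K hT
  have hn : ∀ a b, ipp (y a) (y b) * ipp (y b) (y a) = if a = b then 1 else 1 / ((d : ℂ) + 1) := by
    intro a b
    split_ifs with h
    · subst h; rw [h1, one_mul]
    · exact h2 a b h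
  have hnz : ∀ a b, ipp (y a) (y b) ≠ 0 := by
    intro a b h
    have := hn a b
    rw [h, zero_mul] at this
    split_ifs at this
    · exact one_ne_zero this.symm
    · exact (one_div_ne_zero hd1) this.symm
  have hM : (Matrix.of fun p q => ipp (y p) (y q) * ipp (y q) (y p)).det
      = ((d : ℂ) / (d + 1)) ^ (d * d) * ((d : ℂ) + 1) := by
    have : (Matrix.of fun p q => ipp (y p) (y q) * ipp (y q) (y p))
        = Matrix.of fun p q : Fin d × Fin d =>
          if p = q then (d : ℂ) / (d + 1) + 1 / (d + 1) else 1 / ((d : ℂ) + 1) := by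
      ext p q
      simp only [Matrix.of_apply]
      rw [hn]
      split_ifs
      · field_simp
      · rfl
    rw [this, det_simplex _ _ (div_ne_zero hd0 hd1)]
    rw [Fintype.card_prod, Fintype.card_fin]
    congr 1
    push_cast
    field_simp
    ring
  have hne : (projMat y).det ≠ 0 := by
    intro h
    have hsq := det_projMat_sq y
    rw [hM, h] at hsq
    have : (-1 : ℂ) ^ (d * (d - 1) / 2) * (((d : ℂ) / (d + 1)) ^ (d * d) * ((d : ℂ) + 1)) ≠ 0 :=
      mul_ne_zero (pow_ne_zero _ (by norm_num))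
        (mul_ne_zero (pow_ne_zero _ (div_ne_zero hd0 hd1)) hd1)
    exact this (by rw [← hsq]; ring)
  obtain ⟨Φ, hΦ⟩ := descend y K hne (⟨0, hd⟩, ⟨0, hd⟩) (fun a => hnz _ _) (fun a b => by
      rw [hn]
      split_ifs
      · exact one_mem K
      · exact div_mem (one_mem K) (add_mem (natCast_mem K d) (one_mem K))) hT
      (fun a b h => absurd h (hnz _ _))
  have hΦ' : ∀ p q, (Φ p * Φ q).trace = if p = q then 1 else 1 / ((d : K) + 1) := by
    intro p q
    apply Subtype.coe_injective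
    show (((Φ p * Φ q).trace : K) : ℂ) = _
    rw [hΦ, hn]
    split_ifs <;> simp
  have hG := lag_of_matrices Φ hd hΦ'
  obtain ⟨a, b, hab⟩ := level hd hG ⟨z, hzK⟩ (by
    apply Subtype.coe_injective
    push_cast
    rw [hz]
    split_ifs <;> simp) hmod
  refine ⟨a, a.2, b, b.2, ?_⟩
  have := congrArg (fun t : K => (t : ℂ)) hab
  simpa using this

end Pool.Agent.Lib.MP_d0f9e0_co.Level
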