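import Pool.Agent.Lib.MP_d0f9e0_co.B94a

/-!
# The beta integral of the double sine: interface, local bounds, contiguous relations
-/

set_option autoImplicit false

open MeasureTheory Filter Topology Set

namespace Pool.Agent.B94

/-- The interface: the reciprocal double sine function `g = 1 / S_2(. | 1, β)` on the open strip
`0 < Re z < 1 + β`. -/
structure DS (β : ℝ) (g : ℂ → ℂ) : Prop where
  one_lt : 1 < β
  irr : Irrational β
  diff : DifferentiableOn ℂ g {z : ℂ | 0 < z.re ∧ z.re < 1 + β}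
  ne : ∀ z : ℂ, 0 < z.re → z.re < 1 + β → g z ≠ 0
  add_one : ∀ z : ℂ, 0 < z.re → z.re < β →
    g (z + 1) = 2 * Complex.sin (Real.pi * z / β) * g z
  add_beta : ∀ z : ℂ, 0 < z.re → z.re < 1 → g (z + β) = 2 * Complex.sin (Real.pi * z) * g z
  refl : ∀ z : ℂ, 0 < z.re → z.re < 1 + β → g z * g (1 + β - z) = 1
  g_one : g 1 = ((1 / √β : ℝ) : ℂ)
  growth : ∀ a b : ℝ, 0 < a → b < 1 + β → ∃ C : ℝ, ∀ z : ℂ, a ≤ z.re → z.re ≤ b →
    ‖g z‖ ≤ C * Real.exp (-(Real.pi * ((1 + β) / 2 - z.re) / β * |z.im|))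

/-- The integrand. -/
noncomputable def Phi (β : ℝ) (g : ℂ → ℂ) (A w x : ℂ) : ℂ :=
  g (A + x) * g (A - x) * Complex.exp (2 * Real.pi * Complex.I * w * x / β)

/-- The beta integral. -/
noncomputable def BI (β : ℝ) (g : ℂ → ℂ) (A w : ℂ) : ℂ :=
  ∫ y : ℝ, Phi β g A w (y * Complex.I)

variable {β : ℝ} {g : ℂ → ℂ}

theorem isOpen_strip (a b : ℝ) : IsOpen {z : ℂ | a < z.re ∧ z.re < b} :=
  (isOpen_lt continuous_const Complex.continuous_re).inter
    (isOpen_lt Complex.continuous_re continuous_const)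

theorem isPreconnected_strip (a b : ℝ) : IsPreconnected {z : ℂ | a < z.re ∧ z.re < b} := by
  have e : {z : ℂ | a < z.re ∧ z.re < b} = Complex.reLm ⁻¹' Ioo a b := by ext z; simp
  rw [e]
  exact ((convex_Ioo a b).linear_preimage _).isPreconnected

theorem DS.differentiableAt (h : DS β g) {z : ℂ} (h1 : 0 < z.re) (h2 : z.re < 1 + β) :
    DifferentiableAt ℂ g z :=
  h.diff.differentiableAt ((isOpen_strip 0 (1 + β)).mem_nhds ⟨h1, h2⟩)

theorem abs_aux (k u y : ℝ) : -(k * |u + y|) ≤ -(k * |y|) + |k| * |u| := by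
  have h1 : |(|u + y| - |y|)| ≤ |u| := by
    have := abs_abs_sub_abs_le_abs_sub (u + y) y
    simpa using this
  have h2 : -(k * (|u + y| - |y|)) ≤ |k| * |u| := by
    calc -(k * (|u + y| - |y|)) ≤ |k * (|u + y| - |y|)| := neg_le_abs _
      _ = |k| * |(|u + y| - |y|)| := abs_mul _ _
      _ ≤ |k| * |u| := mul_le_mul_of_nonneg_left h1 (abs_nonneg k)
  linarith [mul_sub k |u + y| |y|]

/-- The pointwise bound of the integrand. -/
theorem norm_Phi_le (hβ : 0 < β) {a b C : ℝ} (hC : ∀ z : ℂ, a ≤ z.re → z.re ≤ b →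
    ‖g z‖ ≤ C * Real.exp (-(Real.pi * ((1 + β) / 2 - z.re) / β * |z.im|))) {A w x : ℂ} {k1 k2 : ℝ}
    (hk1 : k1 = Real.pi * ((1 + β) / 2 - (A.re + x.re)) / β)
    (hk2 : k2 = Real.pi * ((1 + β) / 2 - (A.re - x.re)) / β)
    (h1 : a ≤ A.re + x.re) (h2 : A.re + x.re ≤ b) (h3 : a ≤ A.re - x.re) (h4 : A.re - x.re ≤ b)
    (y : ℝ) :
    ‖Phi β g A w (x + y * Complex.I)‖ ≤ |C| * |C| * Real.exp
      (-((k1 + k2 - 2 * Real.pi * |w.re| / β) * |y|) +
        (|k1| * |A.im + x.im| + |k2| * |A.im - x.im| + 2 * Real.pi * |(w * x).im| / β)) := by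
  have hpi := Real.pi_pos
  have e1 : ‖g (A + (x + y * Complex.I))‖ ≤
      |C| * Real.exp (-(k1 * |y|) + |k1| * |A.im + x.im|) := by
    have hz1 : (A + (x + y * Complex.I)).re = A.re + x.re := by simp
    have hz2 : (A + (x + y * Complex.I)).im = A.im + x.im + y := by simp; ring
    have := hC (A + (x + y * Complex.I)) (by rw [hz1]; exact h1) (by rw [hz1]; exact h2)
    rw [hz1, hz2, ← hk1] at this
    refine this.trans ?_
    refine mul_le_mul (le_abs_self C) ?_ (Real.exp_pos _).le (abs_nonneg C)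
    exact Real.exp_le_exp.2 (abs_aux k1 (A.im + x.im) y)
  have e2 : ‖g (A - (x + y * Complex.I))‖ ≤
      |C| * Real.exp (-(k2 * |y|) + |k2| * |A.im - x.im|) := by
    have hz1 : (A - (x + y * Complex.I)).re = A.re - x.re := by simp
    have hz2 : (A - (x + y * Complex.I)).im = (A.im - x.im) + (-y) := by simp; ring
    have := hC (A - (x + y * Complex.I)) (by rw [hz1]; exact h3) (by rw [hz1]; exact h4)
    rw [hz1, hz2, ← hk2] at this
    refine this.trans ?_
    refine mul_le_mul (le_abs_self C) ?_ (Real.exp_pos _).le (abs_nonneg C)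
    refine Real.exp_le_exp.2 ?_
    have := abs_aux k2 (A.im - x.im) (-y)
    rwa [abs_neg y] at this
  have e3 : ‖Complex.exp (2 * Real.pi * Complex.I * w * (x + y * Complex.I) / β)‖ ≤
      Real.exp (2 * Real.pi * |w.re| / β * |y| + 2 * Real.pi * |(w * x).im| / β) := by
    rw [Complex.norm_exp]
    refine Real.exp_le_exp.2 ?_
    have hr : (2 * Real.pi * Complex.I * w * (x + y * Complex.I) / β).re =
        -(2 * Real.pi / β * ((w * x).im + w.re * y)) := by
      have : (2 * Real.pi * Complex.I * w * (x + y * Complex.I) / β : ℂ) =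
          ((2 * Real.pi / β : ℝ) : ℂ) * (Complex.I * (w * x + w * (y * Complex.I))) := by
        push_cast
        ring
      rw [this, Complex.re_ofReal_mul]
      simp
      ring
    rw [hr]
    have hc : 0 ≤ 2 * Real.pi / β := by positivity
    have h5 : -((w * x).im + w.re * y) ≤ |w.re| * |y| + |(w * x).im| := by
      have h6 : -(w.re * y) ≤ |w.re| * |y| := by
        rw [← abs_mul]; exact neg_le_abs _
      have h7 : -(w * x).im ≤ |(w * x).im| := neg_le_abs _
      linarith
    calc -(2 * Real.pi / β * ((w * x).im + w.re * y))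
        = 2 * Real.pi / β * (-((w * x).im + w.re * y)) := by ring
      _ ≤ 2 * Real.pi / β * (|w.re| * |y| + |(w * x).im|) := mul_le_mul_of_nonneg_left h5 hc
      _ = _ := by ring
  rw [Phi, norm_mul, norm_mul]
  calc ‖g (A + (x + y * Complex.I))‖ * ‖g (A - (x + y * Complex.I))‖ *
        ‖Complex.exp (2 * Real.pi * Complex.I * w * (x + y * Complex.I) / β)‖
      ≤ (|C| * Real.exp (-(k1 * |y|) + |k1| * |A.im + x.im|)) *
          (|C| * Real.exp (-(k2 * |y|) + |k2| * |A.im - x.im|)) *
          Real.exp (2 * Real.pi * |w.re| / β * |y| + 2 * Real.pi * |(w * x).im| / β) := by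
        gcongr
    _ = |C| * |C| * (Real.exp (-(k1 * |y|) + |k1| * |A.im + x.im|) *
          Real.exp (-(k2 * |y|) + |k2| * |A.im - x.im|) *
          Real.exp (2 * Real.pi * |w.re| / β * |y| + 2 * Real.pi * |(w * x).im| / β)) := by ring
    _ = _ := by
        rw [← Real.exp_add, ← Real.exp_add]
        congr 2
        ring

/-- The locally uniform exponential decay of the integrand. -/
theorem DS.locbd (h : DS β g) {A w x : ℂ} (h1 : |x.re| < A.re)
    (h5 : |w.re| < (1 + β) / 2 - A.re) :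
    ∃ C c : ℝ, 0 < c ∧ ∀ᶠ q : ℂ × ℂ × ℂ in 𝓝 (A, w, x), ∀ y : ℝ,
      ‖Phi β g q.1 q.2.1 (q.2.2 + y * Complex.I)‖ ≤ C * Real.exp (-c * |y|) := by
  have hβ : 0 < β := by linarith [h.one_lt]
  have hpi := Real.pi_pos
  have hw0 := abs_nonneg w.re
  obtain ⟨hx1, hx2⟩ := abs_lt.1 h1
  obtain ⟨C, hC⟩ := h.growth ((A.re - |x.re|) / 2) ((A.re + |x.re| + (1 + β)) / 2)
    (by linarith) (by linarith)
  set k1 : ℂ × ℂ × ℂ → ℝ := fun q => Real.pi * ((1 + β) / 2 - (q.1.re + q.2.2.re)) / β with hk1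
  set k2 : ℂ × ℂ × ℂ → ℝ := fun q => Real.pi * ((1 + β) / 2 - (q.1.re - q.2.2.re)) / β with hk2
  set cc : ℂ × ℂ × ℂ → ℝ := fun q => k1 q + k2 q - 2 * Real.pi * |q.2.1.re| / β with hcc
  set EE : ℂ × ℂ × ℂ → ℝ := fun q => |k1 q| * |q.1.im + q.2.2.im| + |k2 q| * |q.1.im - q.2.2.im| +
    2 * Real.pi * |(q.2.1 * q.2.2).im| / β with hEE
  have hk1c : Continuous k1 := by
    rw [hk1]; fun_prop
  have hk2c : Continuous k2 := by
    rw [hk2]; fun_prop
  have hccc : Continuous cc := by
    rw [hcc]; fun_prop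
  have hEEc : Continuous EE := by
    rw [hEE]; fun_prop
  have hpos : 0 < cc (A, w, x) := by
    have : cc (A, w, x) = 2 * Real.pi / β * ((1 + β) / 2 - A.re - |w.re|) := by
      simp only [hcc, hk1, hk2]
      field_simp
      ring
    rw [this]
    have : 0 < (1 + β) / 2 - A.re - |w.re| := by linarith
    positivity
  refine ⟨|C| * |C| * Real.exp (EE (A, w, x) + 1), cc (A, w, x) / 2, by positivity, ?_⟩
  have c1 : Continuous (fun q : ℂ × ℂ × ℂ => q.1.re + q.2.2.re) := by fun_prop
  have c2 : Continuous (fun q : ℂ × ℂ × ℂ => q.1.re - q.2.2.re) := by fun_prop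
  have hxa : -|x.re| ≤ x.re ∧ x.re ≤ |x.re| := ⟨neg_abs_le _, le_abs_self _⟩
  have hApos : 0 < A.re := lt_of_le_of_lt (abs_nonneg _) h1
  have n1 := (c1.tendsto (A, w, x)).eventually
    (isOpen_Ioo.mem_nhds (show (A, w, x).1.re + (A, w, x).2.2.re ∈
      Ioo ((A.re - |x.re|) / 2) ((A.re + |x.re| + (1 + β)) / 2) by
        constructor
        · show (A.re - |x.re|) / 2 < A.re + x.re; linarith [hxa.1]
        · show A.re + x.re < (A.re + |x.re| + (1 + β)) / 2; linarith [hxa.2]))
  have n2 := (c2.tendsto (A, w, x)).eventually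
    (isOpen_Ioo.mem_nhds (show (A, w, x).1.re - (A, w, x).2.2.re ∈
      Ioo ((A.re - |x.re|) / 2) ((A.re + |x.re| + (1 + β)) / 2) by
        constructor
        · show (A.re - |x.re|) / 2 < A.re - x.re; linarith [hxa.2]
        · show A.re - x.re < (A.re + |x.re| + (1 + β)) / 2; linarith [hxa.1]))
  have n3 := (hccc.tendsto (A, w, x)).eventually
    (lt_mem_nhds (show cc (A, w, x) / 2 < cc (A, w, x) by linarith))
  have n4 := (hEEc.tendsto (A, w, x)).eventually
    (gt_mem_nhds (show EE (A, w, x) < EE (A, w, x) + 1 by linarith))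
  filter_upwards [n1, n2, n3, n4] with q q1 q2 q3 q4
  intro y
  refine (norm_Phi_le hβ hC (k1 := k1 q) (k2 := k2 q) rfl rfl q1.1.le q1.2.le q2.1.le q2.2.le
    y).trans ?_
  rw [mul_assoc (|C| * |C|), ← Real.exp_add]
  refine mul_le_mul_of_nonneg_left (Real.exp_le_exp.2 ?_) (by positivity)
  have h6 : cc (A, w, x) / 2 * |y| ≤ cc q * |y| := mul_le_mul_of_nonneg_right q3.le (abs_nonneg y)
  have h7 : EE q ≤ EE (A, w, x) + 1 := q4.le
  have h8 : -((k1 q + k2 q - 2 * Real.pi * |q.2.1.re| / β) * |y|) +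
      (|k1 q| * |q.1.im + q.2.2.im| + |k2 q| * |q.1.im - q.2.2.im| +
        2 * Real.pi * |(q.2.1 * q.2.2).im| / β) = -(cc q * |y|) + EE q := rfl
  rw [h8]
  linarith [neg_mul (cc (A, w, x) / 2) |y|]

/-- The integrand is holomorphic in all variables together along holomorphic curves. -/
theorem DS.diff_Phi (h : DS β g) {A w x : ℂ → ℂ} {t : ℂ} (hA : DifferentiableAt ℂ A t)
    (hw : DifferentiableAt ℂ w t) (hx : DifferentiableAt ℂ x t) (h1 : |(x t).re| < (A t).re)
    (h2 : (A t).re < (1 + β) / 2) :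
    DifferentiableAt ℂ (fun t => Phi β g (A t) (w t) (x t)) t := by
  obtain ⟨hx1, hx2⟩ := abs_lt.1 h1
  unfold Phi
  have d1 : DifferentiableAt ℂ (fun t => g (A t + x t)) t := by
    have : DifferentiableAt ℂ g (A t + x t) := by
      refine h.differentiableAt ?_ ?_
      · simp only [Complex.add_re]; linarith
      · simp only [Complex.add_re]; linarith
    exact DifferentiableAt.comp (g := g) (f := fun t => A t + x t) t this (hA.add hx)
  have d2 : DifferentiableAt ℂ (fun t => g (A t - x t)) t := by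
    have : DifferentiableAt ℂ g (A t - x t) := by
      refine h.differentiableAt ?_ ?_
      · simp only [Complex.sub_re]; linarith
      · simp only [Complex.sub_re]; linarith
    exact DifferentiableAt.comp (g := g) (f := fun t => A t - x t) t this (hA.sub hx)
  have d3 : DifferentiableAt ℂ
      (fun t => Complex.exp (2 * Real.pi * Complex.I * w t * x t / β)) t := by
    exact (((hw.const_mul _).mul hx).div_const _).cexp
  exact (d1.mul d2).mul d3

theorem DS.continuous_Phi (h : DS β g) {A w : ℂ} {s : ℂ} (h1 : |s.re| < A.re)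
    (h2 : A.re < (1 + β) / 2) :
    Continuous (fun y : ℝ => Phi β g A w (s + y * Complex.I)) := by
  rw [continuous_iff_continuousAt]
  intro y
  have h3 : ContinuousAt (fun x => Phi β g A w x) (s + y * Complex.I) := by
    refine (h.diff_Phi (A := fun _ => A) (w := fun _ => w) (x := fun x => x)
      (differentiableAt_const _) (differentiableAt_const _) differentiableAt_id ?_ h2).continuousAt
    simpa using h1
  have h4 : ContinuousAt (fun y : ℝ => s + (y : ℂ) * Complex.I) y := by fun_prop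
  exact ContinuousAt.comp (f := fun y : ℝ => s + (y : ℂ) * Complex.I) h3 h4

theorem DS.integrable_Phi (h : DS β g) {A w : ℂ} (h1 : 0 < A.re)
    (h5 : |w.re| < (1 + β) / 2 - A.re) :
    Integrable (fun y : ℝ => Phi β g A w (y * Complex.I)) := by
  have hw0 := abs_nonneg w.re
  obtain ⟨C, c, hc, hev⟩ := h.locbd (A := A) (w := w) (x := 0) (by simpa using h1) h5
  have h6 := hev.self_of_nhds
  refine Integrable.mono' (integrable_exp_abs hc C) ?_ (Eventually.of_forall fun y => ?_)
  · have := h.continuous_Phi (A := A) (w := w) (s := 0) (by simpa using h1) (by linarith)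
    simpa using this.aestronglyMeasurable
  · simpa using h6 y

/-- The beta integral is holomorphic along holomorphic curves of parameters. -/
theorem DS.diff_BI (h : DS β g) {A w : ℂ → ℂ} {U : Set ℂ} (hU : IsOpen U)
    (hA : Differentiable ℂ A) (hw : Differentiable ℂ w) (h1 : ∀ t ∈ U, 0 < (A t).re)
    (h5 : ∀ t ∈ U, |(w t).re| < (1 + β) / 2 - (A t).re) :
    DifferentiableOn ℂ (fun t => BI β g (A t) (w t)) U := by
  refine holo_int hU ?_ ?_ ?_
  · intro y t ht
    have hw0 := abs_nonneg (w t).re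
    refine (h.diff_Phi (hA t) (hw t) (differentiableAt_const _) ?_ ?_).differentiableWithinAt
    · simpa using h1 t ht
    · linarith [h5 t ht]
  · intro t ht
    exact (h.integrable_Phi (h1 t ht) (h5 t ht)).aestronglyMeasurable
  · intro t ht
    obtain ⟨C, c, hc, hev⟩ := h.locbd (A := A t) (w := w t) (x := 0)
      (by simpa using h1 t ht) (h5 t ht)
    refine ⟨_, integrable_exp_abs hc C, ?_⟩
    have hcont : Tendsto (fun t => ((A t, w t, 0) : ℂ × ℂ × ℂ)) (𝓝 t) (𝓝 (A t, w t, 0)) :=
      (hA.continuous.prodMk (hw.continuous.prodMk continuous_const)).tendsto t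
    filter_upwards [hcont.eventually hev] with s hs
    intro y
    simpa using hs y

/-- The contour shift. -/
theorem DS.shift (h : DS β g) {A w : ℂ} (h5 : |w.re| < (1 + β) / 2 - A.re) {s : ℝ}
    (hs : |s| < A.re) :
    BI β g A w = ∫ y : ℝ, Phi β g A w (s + y * Complex.I) := by
  have hw0 := abs_nonneg w.re
  have hA : 0 < A.re := lt_of_le_of_lt (abs_nonneg _) hs
  obtain ⟨hs1, hs2⟩ := abs_lt.1 hs
  have key := shift_const (f := fun x => Phi β g A w x) (a := -A.re) (b := A.re) ?_ ?_
    (x1 := 0) (x2 := s) (by linarith) hA hs1 hs2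
  · rw [← key, BI]
    simp
  · intro x hx
    refine (h.diff_Phi (A := fun _ => A) (w := fun _ => w) (x := fun x => x)
      (differentiableAt_const _) (differentiableAt_const _) differentiableAt_id ?_
      (by linarith)).differentiableWithinAt
    exact abs_lt.2 hx
  · intro z0 hz1 hz2
    obtain ⟨C, c, hc, hev⟩ := h.locbd (A := A) (w := w) (x := z0) (abs_lt.2 ⟨hz1, hz2⟩) h5
    refine ⟨_, integrable_exp_abs hc C, ?_⟩
    have hcont : Tendsto (fun z => ((A, w, z) : ℂ × ℂ × ℂ)) (𝓝 z0) (𝓝 (A, w, z0)) :=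
      (continuous_const.prodMk (continuous_const.prodMk continuous_id)).tendsto z0
    filter_upwards [hcont.eventually hev] with s hs
    exact hs

theorem BI_neg (A w : ℂ) : BI β g A (-w) = BI β g A w := by
  unfold BI
  rw [← integral_neg_eq_self]
  refine integral_congr_ae (Eventually.of_forall fun y => ?_)
  simp only [Phi]
  have e1 : A + ((-y : ℝ) : ℂ) * Complex.I = A - y * Complex.I := by push_cast; ring
  have e2 : A - ((-y : ℝ) : ℂ) * Complex.I = A + y * Complex.I := by push_cast; ring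
  have e3 : 2 * Real.pi * Complex.I * -w * (((-y : ℝ) : ℂ) * Complex.I) / β =
      2 * Real.pi * Complex.I * w * (y * Complex.I) / β := by push_cast; ring
  rw [e1, e2, e3]
  ring

end Pool.Agent.B94
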