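import Pool.Agent.Lib.MP_d0f9e0_co.B94b

/-!
# The beta integral of the double sine: contiguous relations and the evaluation
-/

set_option autoImplicit false

open MeasureTheory Filter Topology Set

namespace Pool.Agent.B94

variable {β : ℝ} {g : ℂ → ℂ}

/-- The value of the beta integral up to the constant. -/
noncomputable def RI (β : ℝ) (g : ℂ → ℂ) (A w : ℂ) : ℂ :=
  g (2 * A) * g ((1 + β) / 2 - A + w) * g ((1 + β) / 2 - A - w)

/-- A pair of periods: `(1, β)` or `(β, 1)`. -/
structure Pr (β : ℝ) (g : ℂ → ℂ) (h k : ℝ) : Prop where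
  hpos : 0 < h
  kpos : 0 < k
  mul : h * k = β
  add : h + k = 1 + β
  feq : ∀ z : ℂ, 0 < z.re → z.re < k → g (z + h) = 2 * Complex.sin (Real.pi * z / k) * g z

theorem DS.pr1 (h : DS β g) : Pr β g 1 β where
  hpos := one_pos
  kpos := by linarith [h.one_lt]
  mul := one_mul _
  add := rfl
  feq := fun z h1 h2 => by simpa using h.add_one z h1 h2

theorem DS.prβ (h : DS β g) : Pr β g β 1 where
  hpos := by linarith [h.one_lt]
  kpos := one_pos
  mul := mul_one _
  add := add_comm _ _
  feq := fun z h1 h2 => by simpa using h.add_beta z h1 h2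

theorem DS.RI_ne (h : DS β g) {A w : ℂ} (h1 : 0 < A.re) (h5 : |w.re| < (1 + β) / 2 - A.re) :
    RI β g A w ≠ 0 := by
  obtain ⟨h6, h7⟩ := abs_lt.1 h5
  have r1 : (((1 : ℂ) + β) / 2).re = (1 + β) / 2 := by
    rw [show ((1 : ℂ) + β) / 2 = (((1 + β) / 2 : ℝ) : ℂ) by push_cast; ring, Complex.ofReal_re]
  unfold RI
  refine mul_ne_zero (mul_ne_zero (h.ne _ ?_ ?_) (h.ne _ ?_ ?_)) (h.ne _ ?_ ?_)
  · simp; linarith
  · simp; linarith [abs_nonneg w.re]
  · simp only [Complex.add_re, Complex.sub_re, r1]; linarith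
  · simp only [Complex.add_re, Complex.sub_re, r1]; linarith
  · simp only [Complex.sub_re, r1]; linarith
  · simp only [Complex.sub_re, r1]; linarith

/-- The first contiguous relation. -/
theorem DS.rel (hd : DS β g) {h k : ℝ} (p : Pr β g h k) {A w : ℂ} (h1 : 0 < A.re)
    (h5 : |w.re| < (1 + β) / 2 - A.re - h / 2) :
    BI β g (A + h / 2) w = -Complex.I * Complex.exp (Real.pi * Complex.I * w / k) *
      (Complex.exp (Real.pi * Complex.I * A / k) * BI β g A (w + h / 2) -
        Complex.exp (-(Real.pi * Complex.I * A / k)) * BI β g A (w - h / 2)) := by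
  have hh := p.hpos
  have hk := p.kpos
  have hβ : β ≠ 0 := by linarith [hd.one_lt]
  have hkC : (k : ℂ) ≠ 0 := by exact_mod_cast hk.ne'
  have hhC : (h : ℂ) ≠ 0 := by exact_mod_cast hh.ne'
  have hβC : (β : ℂ) ≠ 0 := by exact_mod_cast hβ
  have hw0 := abs_nonneg w.re
  obtain ⟨h6, h7⟩ := abs_lt.1 h5
  have hadd := p.add
  have hre : (A + h / 2 : ℂ).re = A.re + h / 2 := by
    rw [show (h : ℂ) / 2 = ((h / 2 : ℝ) : ℂ) by push_cast; ring]
    simp
  rw [hd.shift (A := A + h / 2) (w := w) (by rw [hre]; linarith) (s := h / 2)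
    (by rw [hre, abs_of_pos (by positivity)]; linarith)]
  have hw1 : |(w + h / 2 : ℂ).re| < (1 + β) / 2 - A.re := by
    rw [show (h : ℂ) / 2 = ((h / 2 : ℝ) : ℂ) by push_cast; ring, Complex.add_re,
      Complex.ofReal_re]
    exact abs_lt.2 ⟨by linarith, by linarith⟩
  have hw2 : |(w - h / 2 : ℂ).re| < (1 + β) / 2 - A.re := by
    rw [show (h : ℂ) / 2 = ((h / 2 : ℝ) : ℂ) by push_cast; ring, Complex.sub_re,
      Complex.ofReal_re]
    exact abs_lt.2 ⟨by linarith, by linarith⟩
  have i1 := hd.integrable_Phi (A := A) (w := w + h / 2) h1 hw1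
  have i2 := hd.integrable_Phi (A := A) (w := w - h / 2) h1 hw2
  unfold BI
  rw [← integral_const_mul, ← integral_const_mul, ← integral_sub (i1.const_mul _)
    (i2.const_mul _), ← integral_const_mul]
  refine integral_congr_ae (Eventually.of_forall fun y => ?_)
  simp only [Phi]
  have e1 : A + h / 2 + (((h / 2 : ℝ) : ℂ) + y * Complex.I) = (A + y * Complex.I) + h := by
    push_cast; ring
  have e2 : A + h / 2 - (((h / 2 : ℝ) : ℂ) + y * Complex.I) = A - y * Complex.I := by
    push_cast; ring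
  rw [e1, e2, p.feq (A + y * Complex.I) (by simpa using h1) (by simp; linarith)]
  have hkk : (h : ℂ) / β = 1 / k := by
    rw [← p.mul]
    push_cast
    field_simp
  have e3 : Complex.exp (2 * Real.pi * Complex.I * w * (((h / 2 : ℝ) : ℂ) + y * Complex.I) / β) =
      Complex.exp (Real.pi * Complex.I * w / k) *
        Complex.exp (2 * Real.pi * Complex.I * w * (y * Complex.I) / β) := by
    rw [← Complex.exp_add]
    congr 1
    calc 2 * Real.pi * Complex.I * w * (((h / 2 : ℝ) : ℂ) + y * Complex.I) / β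
        = Real.pi * Complex.I * w * (h / β) +
          2 * Real.pi * Complex.I * w * (y * Complex.I) / β := by push_cast; ring
      _ = _ := by rw [hkk]; ring
  have e4 : Complex.exp (2 * Real.pi * Complex.I * (w + h / 2) * (y * Complex.I) / β) =
      Complex.exp (Real.pi * Complex.I * (y * Complex.I) / k) *
        Complex.exp (2 * Real.pi * Complex.I * w * (y * Complex.I) / β) := by
    rw [← Complex.exp_add]
    congr 1
    calc 2 * Real.pi * Complex.I * (w + h / 2) * (y * Complex.I) / β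
        = Real.pi * Complex.I * (y * Complex.I) * (h / β) +
          2 * Real.pi * Complex.I * w * (y * Complex.I) / β := by ring
      _ = _ := by rw [hkk]; ring
  have e5 : Complex.exp (2 * Real.pi * Complex.I * (w - h / 2) * (y * Complex.I) / β) =
      Complex.exp (-(Real.pi * Complex.I * (y * Complex.I) / k)) *
        Complex.exp (2 * Real.pi * Complex.I * w * (y * Complex.I) / β) := by
    rw [← Complex.exp_add]
    congr 1
    calc 2 * Real.pi * Complex.I * (w - h / 2) * (y * Complex.I) / β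
        = -(Real.pi * Complex.I * (y * Complex.I) * (h / β)) +
          2 * Real.pi * Complex.I * w * (y * Complex.I) / β := by ring
      _ = _ := by rw [hkk]; ring
  have e6 : 2 * Complex.sin (Real.pi * (A + y * Complex.I) / k) =
      -Complex.I * (Complex.exp (Real.pi * Complex.I * A / k) *
        Complex.exp (Real.pi * Complex.I * (y * Complex.I) / k) -
        Complex.exp (-(Real.pi * Complex.I * A / k)) *
          Complex.exp (-(Real.pi * Complex.I * (y * Complex.I) / k))) := by
    rw [← Complex.exp_add, ← Complex.exp_add, Complex.sin]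
    have f1 : -(Real.pi * (A + y * Complex.I) / k) * Complex.I =
        -(Real.pi * Complex.I * A / k) + -(Real.pi * Complex.I * (y * Complex.I) / k) := by ring
    have f2 : (Real.pi * (A + y * Complex.I) / k) * Complex.I =
        Real.pi * Complex.I * A / k + Real.pi * Complex.I * (y * Complex.I) / k := by ring
    rw [f1, f2]
    ring
  rw [e3, e4, e5, e6]
  ring

/-- The solved contiguous relation. -/
theorem DS.rel2 (hd : DS β g) {h k : ℝ} (p : Pr β g h k) {A w : ℂ} (h1 : 0 < A.re)
    (h5 : |w.re| < (1 + β) / 2 - A.re - h / 2) :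
    Complex.cos (Real.pi * (A - w) / k) * BI β g (A + h / 2) w =
      Complex.sin (2 * Real.pi * A / k) * BI β g A (w + h / 2) := by
  have r1 := hd.rel p h1 h5
  have r2 := hd.rel p (w := -w) h1 (by simpa using h5)
  rw [BI_neg, show -w + (h : ℂ) / 2 = -(w - h / 2) by ring,
    show -w - (h : ℂ) / 2 = -(w + h / 2) by ring, BI_neg, BI_neg] at r2
  set X := BI β g A (w + h / 2)
  set Y := BI β g A (w - h / 2)
  set Z := BI β g (A + h / 2) w
  set a := Complex.exp (Real.pi * Complex.I * A / k) with ha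
  set a' := Complex.exp (-(Real.pi * Complex.I * A / k)) with ha'
  set u := Complex.exp (Real.pi * Complex.I * w / k) with hu
  set u' := Complex.exp (Real.pi * Complex.I * -w / k) with hu'
  have q1 : a * a' = 1 := by rw [ha, ha', ← Complex.exp_add]; simp
  have q2 : u * u' = 1 := by
    rw [hu, hu', ← Complex.exp_add, show Real.pi * Complex.I * w / k +
      Real.pi * Complex.I * -w / k = (0 : ℂ) by ring, Complex.exp_zero]
  have q3 : 2 * Complex.cos (Real.pi * (A - w) / k) = a * u' + a' * u := by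
    rw [Complex.cos, ha, ha', hu, hu', ← Complex.exp_add, ← Complex.exp_add]
    have f1 : Real.pi * (A - w) / k * Complex.I = Real.pi * Complex.I * A / k +
        Real.pi * Complex.I * -w / k := by ring
    have f2 : -(Real.pi * (A - w) / k) * Complex.I = -(Real.pi * Complex.I * A / k) +
        Real.pi * Complex.I * w / k := by ring
    rw [f1, f2]
    ring
  have q4 : 2 * Complex.sin (2 * Real.pi * A / k) = -Complex.I * (a * a - a' * a') := by
    rw [Complex.sin, ha, ha', ← Complex.exp_add, ← Complex.exp_add]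
    have f1 : 2 * Real.pi * A / k * Complex.I = Real.pi * Complex.I * A / k +
        Real.pi * Complex.I * A / k := by ring
    have f2 : -(2 * Real.pi * A / k) * Complex.I = -(Real.pi * Complex.I * A / k) +
        -(Real.pi * Complex.I * A / k) := by ring
    rw [f1, f2]
    ring
  have q5 : 2 * (Complex.cos (Real.pi * (A - w) / k) * Z) =
      2 * (Complex.sin (2 * Real.pi * A / k) * X) := by
    calc 2 * (Complex.cos (Real.pi * (A - w) / k) * Z)
        = (2 * Complex.cos (Real.pi * (A - w) / k)) * Z := by ring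
      _ = a * u' * Z + a' * u * Z := by rw [q3]; ring
      _ = a * u' * (-Complex.I * u * (a * X - a' * Y)) +
          a' * u * (-Complex.I * u' * (a * Y - a' * X)) := by
            nth_rewrite 1 [r1]
            rw [r2]
      _ = -Complex.I * (u * u') * ((a * a - a' * a') * X - (a * a') * Y + (a * a') * Y) := by
            ring
      _ = (2 * Complex.sin (2 * Real.pi * A / k)) * X := by rw [q2, q4]; ring
      _ = _ := by ring
  exact mul_left_cancel₀ two_ne_zero q5

/-- The relation of the product side. -/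
theorem DS.relR (_hd : DS β g) {h k : ℝ} (p : Pr β g h k) {A w : ℂ} (h1 : 0 < A.re)
    (h5 : |w.re| < (1 + β) / 2 - A.re - h / 2) :
    Complex.cos (Real.pi * (A - w) / k) * RI β g (A + h / 2) w =
      Complex.sin (2 * Real.pi * A / k) * RI β g A (w + h / 2) := by
  have hh := p.hpos
  have hk := p.kpos
  have hadd := p.add
  have hkC : (k : ℂ) ≠ 0 := by exact_mod_cast hk.ne'
  have hw0 := abs_nonneg w.re
  obtain ⟨h6, h7⟩ := abs_lt.1 h5
  have hQ : ((1 : ℂ) + β) / 2 = (h + k) / 2 := by
    have : ((h : ℂ) + k) = 1 + β := by exact_mod_cast hadd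
    rw [this]
  unfold RI
  have e1 : g (2 * (A + h / 2)) = 2 * Complex.sin (2 * Real.pi * A / k) * g (2 * A) := by
    rw [show 2 * (A + (h : ℂ) / 2) = 2 * A + h by ring,
      p.feq (2 * A) (by simp; linarith) (by simp; linarith)]
    congr 3
    ring
  have e2 : g ((1 + β) / 2 - A + (w + h / 2)) = 2 * Complex.cos (Real.pi * (A - w) / k) *
      g ((1 + β) / 2 - (A + h / 2) + w) := by
    have f0 : ((1 + β) / 2 - (A + h / 2) + w : ℂ).re = k / 2 - A.re + w.re := by
      rw [hQ, show ((h : ℂ) + k) / 2 - (A + h / 2) + w = ((k / 2 : ℝ) : ℂ) - A + w by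
        push_cast; ring]
      simp
    rw [show ((1 : ℂ) + β) / 2 - A + (w + h / 2) = ((1 + β) / 2 - (A + h / 2) + w) + h by ring,
      p.feq _ (by rw [f0]; linarith) (by rw [f0]; linarith)]
    have f1 : Real.pi * ((1 + β) / 2 - (A + h / 2) + w) / k =
        Real.pi / 2 - Real.pi * (A - w) / k := by
      rw [hQ]
      field_simp
      ring
    rw [f1, Complex.sin_pi_div_two_sub]
  have e3 : ((1 : ℂ) + β) / 2 - A - (w + h / 2) = (1 + β) / 2 - (A + h / 2) - w := by ring
  rw [e1, e2, e3]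
  ring

/-- The quotient. -/
noncomputable def JI (β : ℝ) (g : ℂ → ℂ) (p m : ℂ) : ℂ :=
  BI β g ((p + m) / 2) ((p - m) / 2) / RI β g ((p + m) / 2) ((p - m) / 2)

theorem JI_symm (p m : ℂ) : JI β g p m = JI β g m p := by
  have e1 : (m + p) / 2 = (p + m) / 2 := by ring
  have e2 : (m - p) / 2 = -((p - m) / 2) := by ring
  unfold JI
  rw [e1, e2, BI_neg]
  congr 1
  unfold RI
  rw [sub_neg_eq_add, ← sub_eq_add_neg]
  ring

theorem dom_aux {p m : ℂ} (h1 : 0 < p.re + m.re) (h2 : p.re < (1 + β) / 2)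
    (h3 : m.re < (1 + β) / 2) :
    0 < ((p + m) / 2).re ∧ |((p - m) / 2).re| < (1 + β) / 2 - ((p + m) / 2).re := by
  have e1 : ((p + m) / 2).re = (p.re + m.re) / 2 := by simp
  have e2 : ((p - m) / 2).re = (p.re - m.re) / 2 := by simp
  rw [e1, e2]
  exact ⟨by linarith, abs_lt.2 ⟨by linarith, by linarith⟩⟩

/-- Periodicity of the quotient. -/
theorem DS.JI_per (hd : DS β g) {h k : ℝ} (pr : Pr β g h k) {p m : ℂ} (h1 : 0 < p.re + m.re)
    (h2 : p.re < (1 + β) / 2) (h3 : m.re + h < (1 + β) / 2) :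
    JI β g p (m + h) = JI β g p m := by
  have hh := pr.hpos
  have hk := pr.kpos
  set A := (p + m) / 2 with hA
  set w := (p - m) / 2 - (h : ℂ) / 2 with hw
  have eA : A.re = (p.re + m.re) / 2 := by simp [hA]
  have ew : w.re = (p.re - m.re) / 2 - h / 2 := by
    rw [hw, show (h : ℂ) / 2 = ((h / 2 : ℝ) : ℂ) by push_cast; ring]
    simp
  have hA0 : 0 < A.re := by rw [eA]; linarith
  have hw0 : |w.re| < (1 + β) / 2 - A.re - h / 2 := by
    rw [eA, ew]
    exact abs_lt.2 ⟨by linarith, by linarith⟩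
  have e1 : (p + (m + h)) / 2 = A + h / 2 := by rw [hA]; ring
  have e2 : (p - (m + h)) / 2 = w := by rw [hw]; ring
  have e3 : (p - m) / 2 = w + h / 2 := by rw [hw]; ring
  have r1 := hd.rel2 pr hA0 hw0
  have r2 := hd.relR pr hA0 hw0
  unfold JI
  rw [e1, e2, e3]
  have hre : (A + h / 2 : ℂ).re = A.re + h / 2 := by
    rw [show (h : ℂ) / 2 = ((h / 2 : ℝ) : ℂ) by push_cast; ring]
    simp
  have hre2 : (w + h / 2 : ℂ).re = w.re + h / 2 := by
    rw [show (h : ℂ) / 2 = ((h / 2 : ℝ) : ℂ) by push_cast; ring]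
    simp
  obtain ⟨h6, h7⟩ := abs_lt.1 hw0
  have n1 : RI β g (A + h / 2) w ≠ 0 :=
    hd.RI_ne (by rw [hre]; linarith) (by rw [hre]; linarith)
  have n2 : RI β g A (w + h / 2) ≠ 0 := by
    refine hd.RI_ne hA0 ?_
    rw [hre2]
    exact abs_lt.2 ⟨by linarith, by linarith⟩
  have n3 : Complex.sin (2 * Real.pi * A / k) ≠ 0 := by
    intro h0
    have hadd := pr.add
    have := pr.feq (2 * A) (by simp; linarith) (by simp; linarith)
    rw [show Real.pi * (2 * A) / k = 2 * Real.pi * A / k by ring, h0, mul_zero, zero_mul] at this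
    refine hd.ne (2 * A + h) ?_ ?_ this
    · simp; linarith
    · simp; linarith
  have n4 : Complex.cos (Real.pi * (A - w) / k) ≠ 0 := by
    intro h0
    rw [h0, zero_mul] at r2
    exact (mul_ne_zero n3 n2) r2.symm
  rw [div_eq_div_iff n1 n2]
  have : Complex.cos (Real.pi * (A - w) / k) * Complex.sin (2 * Real.pi * A / k) *
      (BI β g (A + h / 2) w * RI β g A (w + h / 2)) =
      Complex.cos (Real.pi * (A - w) / k) * Complex.sin (2 * Real.pi * A / k) *
      (BI β g A (w + h / 2) * RI β g (A + h / 2) w) := by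
    calc _ = (Complex.cos (Real.pi * (A - w) / k) * BI β g (A + h / 2) w) *
          (Complex.sin (2 * Real.pi * A / k) * RI β g A (w + h / 2)) := by ring
      _ = _ := by rw [r1, ← r2]; ring
  exact mul_left_cancel₀ (mul_ne_zero n4 n3) this

/-- The quotient is holomorphic in the second variable. -/
theorem DS.JI_diff (hd : DS β g) {p : ℂ} (h2 : p.re < (1 + β) / 2) :
    DifferentiableOn ℂ (fun m => JI β g p m) {m : ℂ | -p.re < m.re ∧ m.re < (1 + β) / 2} := by
  have hU := isOpen_strip (-p.re) ((1 + β) / 2)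
  have hdom : ∀ m ∈ {m : ℂ | -p.re < m.re ∧ m.re < (1 + β) / 2},
      0 < ((p + m) / 2).re ∧ |((p - m) / 2).re| < (1 + β) / 2 - ((p + m) / 2).re :=
    fun m hm => dom_aux (by linarith [hm.1]) h2 hm.2
  have h3 : DifferentiableOn ℂ (fun m => BI β g ((p + m) / 2) ((p - m) / 2))
      {m : ℂ | -p.re < m.re ∧ m.re < (1 + β) / 2} := by
    refine hd.diff_BI (A := fun m => (p + m) / 2) (w := fun m => (p - m) / 2) hU (by fun_prop)
      (by fun_prop) (fun m hm => (hdom m hm).1) (fun m hm => (hdom m hm).2)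
  have r1 : (((1 : ℂ) + β) / 2).re = (1 + β) / 2 := by
    rw [show ((1 : ℂ) + β) / 2 = (((1 + β) / 2 : ℝ) : ℂ) by push_cast; ring, Complex.ofReal_re]
  have h4 : DifferentiableOn ℂ (fun m => RI β g ((p + m) / 2) ((p - m) / 2))
      {m : ℂ | -p.re < m.re ∧ m.re < (1 + β) / 2} := by
    intro m hm
    refine DifferentiableAt.differentiableWithinAt ?_
    have hm1 := hm.1
    have hm2 := hm.2
    unfold RI
    have s1 : ((p + m) / 2).re = (p.re + m.re) / 2 := by simp
    have s2 : ((p - m) / 2).re = (p.re - m.re) / 2 := by simp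
    have d1 : DifferentiableAt ℂ (fun m : ℂ => g (2 * ((p + m) / 2))) m := by
      refine DifferentiableAt.comp (g := g) (f := fun m : ℂ => 2 * ((p + m) / 2)) m
        (hd.differentiableAt ?_ ?_) (by fun_prop)
      · rw [show 2 * ((p + m) / 2) = p + m by ring]; simp; linarith
      · rw [show 2 * ((p + m) / 2) = p + m by ring]; simp; linarith
    have d2 : DifferentiableAt ℂ
        (fun m : ℂ => g ((1 + β) / 2 - (p + m) / 2 + (p - m) / 2)) m := by
      refine DifferentiableAt.comp (g := g)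
        (f := fun m : ℂ => (1 + β) / 2 - (p + m) / 2 + (p - m) / 2) m
        (hd.differentiableAt ?_ ?_) (by fun_prop)
      · simp only [Complex.add_re, Complex.sub_re, r1, s1, s2] at *; linarith
      · simp only [Complex.add_re, Complex.sub_re, r1, s1, s2] at *; linarith
    have d3 : DifferentiableAt ℂ
        (fun m : ℂ => g ((1 + β) / 2 - (p + m) / 2 - (p - m) / 2)) m := by
      refine DifferentiableAt.comp (g := g)
        (f := fun m : ℂ => (1 + β) / 2 - (p + m) / 2 - (p - m) / 2) m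
        (hd.differentiableAt ?_ ?_) (by fun_prop)
      · simp only [Complex.sub_re, r1, s1, s2] at *; linarith
      · simp only [Complex.sub_re, r1, s1, s2] at *; linarith
    exact (d1.mul d2).mul d3
  exact h3.div h4 (fun m hm => hd.RI_ne (hdom m hm).1 (hdom m hm).2)

/-- For `Re p` close to the upper end the quotient does not depend on the second variable. -/
theorem DS.JI_const1 (hd : DS β g) {p m m' : ℂ} (hp : (β - 1) / 2 < p.re)
    (h2 : p.re < (1 + β) / 2) (h3 : -p.re < m.re) (h4 : m.re < (1 + β) / 2)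
    (h3' : -p.re < m'.re) (h4' : m'.re < (1 + β) / 2) : JI β g p m = JI β g p m' := by
  have hβ := hd.one_lt
  refine two_periods hd.irr hβ (a := -p.re) (b := (1 + β) / 2) (by linarith)
    (hd.JI_diff h2) ?_ ?_ h3 h4 h3' h4'
  · intro z hz1 hz2
    have := hd.JI_per hd.pr1 (p := p) (m := z) (by linarith) h2 hz2
    simpa using this
  · intro z hz1 hz2
    exact hd.JI_per hd.prβ (p := p) (m := z) (by linarith) h2 hz2

/-- The quotient is constant. -/
theorem DS.JI_const (hd : DS β g) {p m : ℂ} (h1 : 0 < p.re + m.re) (h2 : p.re < (1 + β) / 2)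
    (h3 : m.re < (1 + β) / 2) : JI β g p m = JI β g ((β : ℂ) / 2) ((β : ℂ) / 2) := by
  have hβ := hd.one_lt
  have rb : ((β : ℂ) / 2).re = β / 2 := by
    rw [show (β : ℂ) / 2 = ((β / 2 : ℝ) : ℂ) by push_cast; ring, Complex.ofReal_re]
  have step : ∀ q : ℂ, (β - 1) / 2 < q.re → q.re < (1 + β) / 2 → ∀ n : ℂ,
      -q.re < n.re → n.re < (1 + β) / 2 → JI β g q n = JI β g ((β : ℂ) / 2) ((β : ℂ) / 2) := by
    intro q hq1 hq2 n hn1 hn2
    rw [hd.JI_const1 hq1 hq2 hn1 hn2 (m' := (β : ℂ) / 2) (by rw [rb]; linarith)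
      (by rw [rb]; linarith), JI_symm]
    exact hd.JI_const1 (by rw [rb]; linarith) (by rw [rb]; linarith) (by rw [rb]; linarith) hq2
      (by rw [rb]; linarith) (by rw [rb]; linarith)
  have hop := isOpen_strip (-p.re) ((1 + β) / 2)
  have hA1 : AnalyticOnNhd ℂ (fun m => JI β g p m)
      {m : ℂ | -p.re < m.re ∧ m.re < (1 + β) / 2} := (hd.JI_diff h2).analyticOnNhd hop
  have hA2 : AnalyticOnNhd ℂ (fun _ : ℂ => JI β g ((β : ℂ) / 2) ((β : ℂ) / 2))
      {m : ℂ | -p.re < m.re ∧ m.re < (1 + β) / 2} := analyticOnNhd_const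
  set c : ℝ := max (-p.re) ((β - 1) / 2) with hc
  have hc2 : c < (1 + β) / 2 := max_lt (by linarith) (by linarith)
  have hc3 : -p.re ≤ c := le_max_left _ _
  have hc4 : (β - 1) / 2 ≤ c := le_max_right _ _
  have hm0 : ((((c + (1 + β) / 2) / 2 : ℝ)) : ℂ) ∈ {m : ℂ | c < m.re ∧ m.re < (1 + β) / 2} := by
    constructor
    · rw [Complex.ofReal_re]; linarith
    · rw [Complex.ofReal_re]; linarith
  have hev : (fun m => JI β g p m) =ᶠ[𝓝 ((((c + (1 + β) / 2) / 2 : ℝ)) : ℂ)]
      (fun _ : ℂ => JI β g ((β : ℂ) / 2) ((β : ℂ) / 2)) := by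
    filter_upwards [(isOpen_strip c ((1 + β) / 2)).mem_nhds hm0] with n hn
    rw [JI_symm]
    exact step n (by linarith [hn.1]) hn.2 p (by linarith [hn.1]) h2
  have := hA1.eqOn_of_preconnected_of_eventuallyEq hA2 (isPreconnected_strip _ _)
    (z₀ := ((((c + (1 + β) / 2) / 2 : ℝ)) : ℂ)) ⟨by linarith [hm0.1], hm0.2⟩ hev
  exact this (x := m) ⟨by linarith, h3⟩

/-- The value of the constant. -/
theorem DS.JI_val (hd : DS β g) : JI β g ((β : ℂ) / 2) ((β : ℂ) / 2) = ((√β : ℝ) : ℂ) := by
  have hβ := hd.one_lt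
  have hβ0 : 0 < β := by linarith
  have hβC : (β : ℂ) ≠ 0 := by exact_mod_cast hβ0.ne'
  have hs0 : 0 < √β := Real.sqrt_pos.2 hβ0
  have h1 : JI β g ((1 : ℂ) / 2) ((1 : ℂ) / 2) = JI β g ((β : ℂ) / 2) ((β : ℂ) / 2) := by
    have rb : ((1 : ℂ) / 2).re = 1 / 2 := by
      rw [show (1 : ℂ) / 2 = ((1 / 2 : ℝ) : ℂ) by push_cast; ring, Complex.ofReal_re]
    exact hd.JI_const (by rw [rb]; norm_num) (by rw [rb]; linarith) (by rw [rb]; linarith)
  rw [← h1]
  unfold JI
  rw [show ((1 : ℂ) / 2 + 1 / 2) / 2 = 1 / 2 by ring, show ((1 : ℂ) / 2 - 1 / 2) / 2 = 0 by ring]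
  have e1 : RI β g (1 / 2) 0 = ((1 / (2 * √β) : ℝ) : ℂ) := by
    unfold RI
    rw [show (2 : ℂ) * (1 / 2) = 1 by ring, hd.g_one,
      show ((1 : ℂ) + β) / 2 - 1 / 2 + 0 = β / 2 by ring,
      show ((1 : ℂ) + β) / 2 - 1 / 2 - 0 = β / 2 by ring]
    have rb : ((β : ℂ) / 2).re = β / 2 := by
      rw [show (β : ℂ) / 2 = ((β / 2 : ℝ) : ℂ) by push_cast; ring, Complex.ofReal_re]
    have f1 := hd.add_one ((β : ℂ) / 2) (by rw [rb]; linarith) (by rw [rb]; linarith)
    have f2 := hd.refl ((β : ℂ) / 2) (by rw [rb]; linarith) (by rw [rb]; linarith)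
    rw [show Real.pi * ((β : ℂ) / 2) / β = Real.pi / 2 by field_simp,
      Complex.sin_pi_div_two] at f1
    rw [show 1 + (β : ℂ) - β / 2 = β / 2 + 1 by ring, f1] at f2
    have f3 : g (β / 2) * g (β / 2) = 1 / 2 := by
      linear_combination (1 / 2 : ℂ) * f2
    rw [mul_assoc, f3]
    push_cast
    field_simp
  have e2 : BI β g (1 / 2) 0 = 1 / 2 := by
    unfold BI
    have e3 : ∀ y : ℝ, Phi β g (1 / 2) 0 (y * Complex.I) =
        ((1 / (2 * Real.cosh (Real.pi * y)) : ℝ) : ℂ) := by
      intro y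
      unfold Phi
      have r1 : ((1 : ℂ) / 2 + y * Complex.I).re = 1 / 2 := by
        rw [show (1 : ℂ) / 2 = ((1 / 2 : ℝ) : ℂ) by push_cast; ring]; simp
      have f1 := hd.add_beta (1 / 2 + y * Complex.I) (by rw [r1]; norm_num)
        (by rw [r1]; norm_num)
      have r2 : ((1 : ℂ) / 2 - y * Complex.I).re = 1 / 2 := by
        rw [show (1 : ℂ) / 2 = ((1 / 2 : ℝ) : ℂ) by push_cast; ring]; simp
      have f2 := hd.refl (1 / 2 - y * Complex.I) (by rw [r2]; norm_num) (by rw [r2]; linarith)
      rw [show 1 + (β : ℂ) - (1 / 2 - y * Complex.I) = 1 / 2 + y * Complex.I + β by ring, f1]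
        at f2
      have f3 : Complex.sin (Real.pi * (1 / 2 + y * Complex.I)) =
          ((Real.cosh (Real.pi * y) : ℝ) : ℂ) := by
        rw [show Real.pi * ((1 : ℂ) / 2 + y * Complex.I) =
          (((Real.pi * y : ℝ) : ℂ) * Complex.I) + Real.pi / 2 by push_cast; ring,
          Complex.sin_add_pi_div_two, Complex.cos_mul_I, Complex.ofReal_cosh]
      rw [f3] at f2
      have hc : ((Real.cosh (Real.pi * y) : ℝ) : ℂ) ≠ 0 := by
        exact_mod_cast (Real.cosh_pos _).ne'
      have f4 : g (1 / 2 + y * Complex.I) * g (1 / 2 - y * Complex.I) =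
          1 / (2 * ((Real.cosh (Real.pi * y) : ℝ) : ℂ)) := by
        rw [eq_div_iff (mul_ne_zero two_ne_zero hc)]
        linear_combination f2
      rw [f4, show 2 * Real.pi * Complex.I * 0 * (y * Complex.I) / β = (0 : ℂ) by ring,
        Complex.exp_zero, mul_one]
      push_cast
      rfl
    rw [integral_congr_ae (Eventually.of_forall e3), integral_complex_ofReal, integral_sech]
    norm_num
  rw [e1, e2]
  have hsC : ((√β : ℝ) : ℂ) ≠ 0 := by exact_mod_cast hs0.ne'
  push_cast
  field_simp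

/-- **The beta integral of the double sine function.** -/
theorem DS.beta_integral (hd : DS β g) {A w : ℂ} (h1 : 0 < A.re)
    (h5 : |w.re| < (1 + β) / 2 - A.re) :
    ∫ y : ℝ, g (A + y * Complex.I) * g (A - y * Complex.I) *
        Complex.exp (-(2 * Real.pi * w * y / β)) =
      ((√β : ℝ) : ℂ) * (g (2 * A) * g ((1 + β) / 2 - A + w) * g ((1 + β) / 2 - A - w)) := by
  obtain ⟨h6, h7⟩ := abs_lt.1 h5
  have e0 : (∫ y : ℝ, g (A + y * Complex.I) * g (A - y * Complex.I) *
      Complex.exp (-(2 * Real.pi * w * y / β))) = BI β g A w := by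
    unfold BI
    refine integral_congr_ae (Eventually.of_forall fun y => ?_)
    simp only [Phi]
    congr 2
    have : Complex.I * Complex.I = -1 := Complex.I_mul_I
    linear_combination (2 * Real.pi * w * y / β) * (-1 : ℂ) * this
  have hJ := hd.JI_const (p := A + w) (m := A - w) (by simp; linarith) (by simp; linarith)
    (by simp; linarith)
  rw [hd.JI_val] at hJ
  unfold JI at hJ
  rw [show (A + w + (A - w)) / 2 = A by ring, show (A + w - (A - w)) / 2 = w by ring] at hJ
  have hR := hd.RI_ne h1 h5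
  rw [div_eq_iff hR] at hJ
  rw [e0, hJ, RI]

end Pool.Agent.B94
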