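import Mathlib

set_option autoImplicit false

/-!
CS26: contour shift tools (helper26, Project Z, MP_d0f9e0_co).

* `integrable_line`: a continuous function on the line with exponential decay is integrable.
* `vshift`: a vertical line of integration can be moved inside a strip of holomorphy.
* `pole_sum`: `∑_{k < n} h k` is the difference of two vertical integrals of `h / (e(·) - 1)`.
-/

open Complex MeasureTheory Filter Topology Set

namespace Pool.MP_d0f9e0_co.CS

/-- A continuous function on the line with exponential decay is integrable. -/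
theorem integrable_line {g : ℝ → ℂ} {C ε Y : ℝ} (hε : 0 < ε) (hg : Continuous g)
    (hb : ∀ y : ℝ, Y ≤ |y| → ‖g y‖ ≤ C * Real.exp (-ε * |y|)) : Integrable g := by
  have hloc : LocallyIntegrable g := hg.locallyIntegrable
  refine hloc.integrable_of_isBigO_atBot_atTop (g := fun y : ℝ => Real.exp (ε * y))
    (g' := fun y : ℝ => Real.exp (-ε * y)) ?_ ?_ ?_ ?_
  · refine Asymptotics.IsBigO.of_bound C ?_
    filter_upwards [tendsto_abs_atBot_atTop.eventually_ge_atTop Y, eventually_le_atBot (0 : ℝ)]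
      with y hy hy0
    rw [Real.norm_of_nonneg (Real.exp_pos _).le]
    have := hb y hy
    rw [abs_of_nonpos hy0] at this
    simpa using this
  · exact ⟨Iic 0, Iic_mem_atBot 0, integrableOn_exp_mul_Iic hε 0⟩
  · refine Asymptotics.IsBigO.of_bound C ?_
    filter_upwards [tendsto_abs_atTop_atTop.eventually_ge_atTop Y, eventually_ge_atTop (0 : ℝ)]
      with y hy hy0
    rw [Real.norm_of_nonneg (Real.exp_pos _).le]
    have := hb y hy
    rwa [abs_of_nonneg hy0] at this
  · exact ⟨Ioi 0, Ioi_mem_atTop 0, exp_neg_integrableOn_Ioi 0 hε⟩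

/-- The exponential bound tends to zero. -/
theorem bound_tendsto {C ε : ℝ} (hε : 0 < ε) (L : ℝ) :
    Tendsto (fun R : ℝ => C * Real.exp (-ε * R) * L) atTop (𝓝 0) := by
  have h1 : Tendsto (fun R : ℝ => -ε * R) atTop atBot := by
    have := tendsto_id.const_mul_atTop_of_neg (r := -ε) (by linarith) (l := (atTop : Filter ℝ))
    simpa using this
  have h2 := (Real.tendsto_exp_atBot.comp h1).const_mul C
  have h3 := h2.mul_const L
  simpa [Function.comp_def] using h3

/-- A vertical line of integration can be moved inside a strip of holomorphy. -/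
theorem vshift {f : ℂ → ℂ} {a b C ε Y : ℝ} (hab : a ≤ b) (hε : 0 < ε)
    (hf : ∀ z : ℂ, a ≤ z.re → z.re ≤ b → DifferentiableAt ℂ f z)
    (hb : ∀ x y : ℝ, a ≤ x → x ≤ b → Y ≤ |y| →
      ‖f (x + y * I)‖ ≤ C * Real.exp (-ε * |y|)) :
    ∫ y : ℝ, f (b + y * I) = ∫ y : ℝ, f (a + y * I) := by
  have hcont : ∀ x : ℝ, a ≤ x → x ≤ b → Continuous fun y : ℝ => f (x + y * I) := by
    intro x hx1 hx2
    rw [continuous_iff_continuousAt]
    intro y
    have h1 : ContinuousAt f ((x : ℂ) + y * I) := (hf _ (by simpa using hx1)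
      (by simpa using hx2)).continuousAt
    exact ContinuousAt.comp (f := fun y : ℝ => (x : ℂ) + y * I) h1 (by fun_prop)
  have hint : ∀ x : ℝ, a ≤ x → x ≤ b → Integrable fun y : ℝ => f (x + y * I) :=
    fun x hx1 hx2 => integrable_line hε (hcont x hx1 hx2) fun y hy => hb x y hx1 hx2 hy
  have hl : ∀ x : ℝ, a ≤ x → x ≤ b →
      Tendsto (fun R : ℝ => ∫ y in (-R)..R, f (x + y * I)) atTop
        (𝓝 (∫ y : ℝ, f (x + y * I))) := fun x hx1 hx2 =>
    intervalIntegral_tendsto_integral (hint x hx1 hx2) tendsto_neg_atTop_atBot tendsto_id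
  have hrect : ∀ R : ℝ, (∫ x in a..b, f (x + (-R : ℝ) * I)) - (∫ x in a..b, f (x + (R : ℝ) * I)) +
      (I • ∫ y in (-R)..R, f (b + y * I)) - I • ∫ y in (-R)..R, f (a + y * I) = 0 := by
    intro R
    have := integral_boundary_rect_eq_zero_of_differentiableOn f ⟨a, -R⟩ ⟨b, R⟩ (by
      intro z hz
      rw [mem_reProdIm] at hz
      have h2 := hz.1
      rw [uIcc_of_le hab] at h2
      exact (hf z h2.1 h2.2).differentiableWithinAt)
    simpa using this
  have hhor : ∀ s : ℝ, |s| = 1 → Tendsto (fun R : ℝ => ∫ x in a..b, f (x + ((s * R : ℝ) : ℂ) * I))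
      atTop (𝓝 0) := by
    intro s hs
    rw [tendsto_zero_iff_norm_tendsto_zero]
    refine squeeze_zero' (Eventually.of_forall fun R => norm_nonneg _) ?_
      (bound_tendsto (C := C) hε |b - a|)
    filter_upwards [eventually_ge_atTop (max 0 Y)] with R hR
    have hR0 : 0 ≤ R := le_trans (le_max_left _ _) hR
    have hRY : Y ≤ R := le_trans (le_max_right _ _) hR
    have habs : |s * R| = R := by rw [abs_mul, hs, one_mul, abs_of_nonneg hR0]
    refine intervalIntegral.norm_integral_le_of_norm_le_const fun x hx => ?_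
    rw [uIoc_of_le hab] at hx
    have := hb x (s * R) hx.1.le hx.2 (by rw [habs]; exact hRY)
    rwa [habs] at this
  have h1 := hhor 1 (by simp)
  have h2 := hhor (-1) (by simp)
  have h3 := ((h2.sub h1).add ((hl b hab le_rfl).const_smul I)).sub
    ((hl a le_rfl hab).const_smul I)
  have h4 : Tendsto (fun _ : ℝ => (0 : ℂ)) atTop
      (𝓝 (0 - 0 + I • (∫ y : ℝ, f (b + y * I)) - I • ∫ y : ℝ, f (a + y * I))) := by
    refine h3.congr fun R => ?_
    have := hrect R
    rw [← this]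
    simp
  have h5 := tendsto_nhds_unique h4 tendsto_const_nhds
  simp only [sub_zero, zero_add, smul_eq_mul] at h5
  have h6 : I * ((∫ y : ℝ, f (b + y * I)) - ∫ y : ℝ, f (a + y * I)) = 0 := by
    rw [mul_sub]; exact h5
  rcases mul_eq_zero.mp h6 with h | h
  · exact absurd h I_ne_zero
  · exact sub_eq_zero.mp h

/-- The Gaussian kernel integral: inner integral. -/
theorem gauss_inner (b s : ℝ) :
    ∫ t : ℝ, cexp (((b : ℂ) + t * I) ^ 2 - s * ((b : ℂ) + t * I)) =
      ((Real.sqrt Real.pi * Real.exp (-(1/4) * s ^ 2) : ℝ) : ℂ) := by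
  have h := integral_cexp_quadratic (b := (-1 : ℂ)) (by simp) (2 * b * I - s * I)
    ((b : ℂ) ^ 2 - s * b)
  have e1 : ∀ t : ℝ, (-1 : ℂ) * (t : ℂ) ^ 2 + (2 * b * I - s * I) * t + ((b : ℂ) ^ 2 - s * b) =
      ((b : ℂ) + t * I) ^ 2 - s * ((b : ℂ) + t * I) := by
    intro t
    linear_combination (-(t : ℂ) ^ 2) * I_sq
  simp_rw [e1] at h
  rw [h]
  have e2 : (b : ℂ) ^ 2 - s * b - (2 * b * I - s * I) ^ 2 / (4 * -1) = -(1 / 4) * (s : ℂ) ^ 2 := by
    linear_combination ((2 * (b : ℂ) - s) ^ 2 / 4) * I_sq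
  rw [e2]
  push_cast
  congr 1
  rw [neg_neg, div_one, Real.sqrt_eq_rpow, ofReal_cpow Real.pi_pos.le]
  norm_num

/-- `∫ e^{z²}/z` over a vertical line to the right of the origin. -/
theorem gauss_right {b : ℝ} (hb : 0 < b) :
    ∫ t : ℝ, cexp (((b : ℂ) + t * I) ^ 2) / ((b : ℂ) + t * I) = Real.pi := by
  have hre : ∀ t : ℝ, ((b : ℂ) + t * I).re = b := by intro t; simp
  have h1 : ∀ t : ℝ, cexp (((b : ℂ) + t * I) ^ 2) / ((b : ℂ) + t * I) =
      ∫ s in Ioi (0 : ℝ), cexp (((b : ℂ) + t * I) ^ 2 - s * ((b : ℂ) + t * I)) := by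
    intro t
    have h2 := integral_exp_mul_complex_Ioi (a := -((b : ℂ) + t * I))
      (by rw [neg_re, hre]; linarith) 0
    have h3 : ∀ s : ℝ, cexp (((b : ℂ) + t * I) ^ 2 - s * ((b : ℂ) + t * I)) =
        cexp (((b : ℂ) + t * I) ^ 2) * cexp (-((b : ℂ) + t * I) * s) := by
      intro s
      rw [← Complex.exp_add]; congr 1; ring
    simp_rw [h3]
    rw [integral_const_mul, h2]
    simp only [ofReal_zero, mul_zero, Complex.exp_zero]
    rw [neg_div_neg_eq]
    ring
  simp_rw [h1]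
  rw [integral_integral_swap]
  · simp_rw [gauss_inner]
    rw [integral_complex_ofReal, integral_const_mul, integral_gaussian_Ioi]
    have h4 : Real.sqrt (Real.pi / (1 / 4)) = 2 * Real.sqrt Real.pi := by
      rw [show Real.pi / (1 / 4) = 2 ^ 2 * Real.pi by ring, Real.sqrt_mul (by norm_num),
        Real.sqrt_sq (by norm_num)]
    rw [h4]
    have h5 := Real.mul_self_sqrt Real.pi_pos.le
    rw [show Real.sqrt Real.pi * (2 * Real.sqrt Real.pi / 2) = Real.pi by
      rw [mul_div_cancel_left₀ _ (two_ne_zero)]; exact h5]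
  · have hA : Integrable (fun t : ℝ => Real.exp (b ^ 2) * Real.exp (-1 * t ^ 2)) :=
      (integrable_exp_neg_mul_sq (by norm_num : (0:ℝ) < 1)).const_mul _
    have hB : Integrable (fun s : ℝ => Real.exp (-b * s)) (volume.restrict (Ioi 0)) :=
      exp_neg_integrableOn_Ioi 0 hb
    refine (hA.mul_prod hB).mono' ?_ ?_
    · exact (Continuous.aestronglyMeasurable (by unfold Function.uncurry; fun_prop))
    · refine Eventually.of_forall fun z => ?_
      simp only [Function.uncurry]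
      rw [Complex.norm_exp, ← Real.exp_add, ← Real.exp_add]
      refine Real.exp_le_exp.mpr (le_of_eq ?_)
      simp [pow_two]
      ring

/-- `∫ e^{z²}/z` over a vertical line to the left of the origin. -/
theorem gauss_left {a : ℝ} (ha : a < 0) :
    ∫ t : ℝ, cexp (((a : ℂ) + t * I) ^ 2) / ((a : ℂ) + t * I) = -Real.pi := by
  have h := gauss_right (b := -a) (by linarith)
  have h2 : ∫ t : ℝ, cexp (((a : ℂ) + t * I) ^ 2) / ((a : ℂ) + t * I) =
      ∫ t : ℝ, -(cexp ((((-a : ℝ) : ℂ) + t * I) ^ 2) / (((-a : ℝ) : ℂ) + t * I)) := by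
    rw [← integral_neg_eq_self]
    refine integral_congr_ae (Eventually.of_forall fun t => ?_)
    simp only
    have e1 : (a : ℂ) + ((-t : ℝ) : ℂ) * I = -((((-a : ℝ) : ℂ) + t * I)) := by
      push_cast; ring
    rw [e1, neg_sq, div_neg]
  rw [h2, integral_neg, h]

/-- `e(z) = exp(2πiz)`. -/
noncomputable def ee (z : ℂ) : ℂ := cexp (2 * Real.pi * I * z)

theorem ee_differentiable : Differentiable ℂ ee := by
  unfold ee; fun_prop

theorem ee_zero : ee 0 = 1 := by simp [ee]

theorem ee_add (z w : ℂ) : ee (z + w) = ee z * ee w := by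
  unfold ee; rw [← Complex.exp_add]; congr 1; ring

theorem ee_int (n : ℤ) : ee n = 1 := by
  unfold ee
  rw [Complex.exp_eq_one_iff]
  exact ⟨n, by ring⟩

theorem ee_add_int (z : ℂ) (n : ℤ) : ee (z + n) = ee z := by
  rw [ee_add, ee_int, mul_one]

theorem ee_eq_one {z : ℂ} (h : ee z = 1) : ∃ n : ℤ, z = n := by
  unfold ee at h
  rw [Complex.exp_eq_one_iff] at h
  obtain ⟨n, hn⟩ := h
  refine ⟨n, ?_⟩
  have h2 : (2 * Real.pi * I : ℂ) ≠ 0 := by
    simp [Real.pi_ne_zero, I_ne_zero]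
  have h3 : (2 * Real.pi * I : ℂ) * z = (2 * Real.pi * I : ℂ) * n := by
    rw [hn]; ring
  exact mul_left_cancel₀ h2 h3

theorem ee_sub_one_ne {z : ℂ} (h1 : -1 < z.re) (h2 : z.re < 1) (h0 : z.re ≠ 0) :
    ee z - 1 ≠ 0 := by
  intro h
  obtain ⟨n, hn⟩ := ee_eq_one (sub_eq_zero.mp h)
  rw [hn, intCast_re] at h1 h2 h0
  have h3 : (-1 : ℤ) < n := by exact_mod_cast h1
  have h4 : n < (1 : ℤ) := by exact_mod_cast h2
  have h5 : n ≠ 0 := by
    rintro rfl
    simp at h0
  omega

/-- The quotient `(e(z) - 1)/z`, extended to `z = 0`. -/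
noncomputable def pp (z : ℂ) : ℂ := dslope ee 0 z

theorem pp_differentiable : Differentiable ℂ pp := by
  have := (differentiableOn_dslope (c := (0 : ℂ)) (f := ee) (univ_mem)).mpr
    ee_differentiable.differentiableOn
  exact differentiableOn_univ.mp this

theorem pp_zero : pp 0 = 2 * Real.pi * I := by
  unfold pp
  rw [dslope_same]
  have h1 : HasDerivAt (fun z : ℂ => 2 * Real.pi * I * z) (2 * Real.pi * I * 1) 0 :=
    (hasDerivAt_id (0 : ℂ)).const_mul _
  have h2 := h1.cexp
  have h3 : deriv ee 0 = _ := h2.deriv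
  rw [h3]; simp

theorem mul_pp (z : ℂ) : z * pp z = ee z - 1 := by
  have := sub_smul_dslope ee 0 z
  rw [smul_eq_mul, sub_zero, ee_zero] at this
  exact this

theorem pp_ne_zero {z : ℂ} (h1 : -1 < z.re) (h2 : z.re < 1) : pp z ≠ 0 := by
  intro h
  have h3 := mul_pp z
  rw [h, mul_zero] at h3
  obtain ⟨n, hn⟩ := ee_eq_one (sub_eq_zero.mp h3.symm)
  have h4 : n = 0 := by
    rw [hn, intCast_re] at h1 h2
    have h3 : (-1 : ℤ) < n := by exact_mod_cast h1
    have h4 : n < (1 : ℤ) := by exact_mod_cast h2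
    omega
  rw [hn, h4, Int.cast_zero, pp_zero] at h
  have : (2 * Real.pi * I : ℂ) ≠ 0 := by simp [Real.pi_ne_zero, I_ne_zero]
  exact this h

theorem gauss_bound {u : ℂ} {x y ε : ℝ} (hx : |x| ≤ 1) (hy : 1 ≤ |y|) :
    ‖u * (cexp (((x : ℂ) + y * I) ^ 2) / ((x : ℂ) + y * I))‖ ≤
      ‖u‖ * Real.exp (1 + ε ^ 2 / 4) * Real.exp (-ε * |y|) := by
  rw [norm_mul, norm_div, Complex.norm_exp, mul_assoc, ← Real.exp_add]
  refine mul_le_mul_of_nonneg_left ?_ (norm_nonneg _)
  have h1 : 1 ≤ ‖(x : ℂ) + y * I‖ := by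
    have := abs_im_le_norm ((x : ℂ) + y * I)
    simp at this
    linarith
  have h2 : (((x : ℂ) + y * I) ^ 2).re = x ^ 2 - y ^ 2 := by
    simp [pow_two]
  rw [h2]
  refine (div_le_self (Real.exp_pos _).le h1).trans (Real.exp_le_exp.mpr ?_)
  have h3 : x ^ 2 ≤ 1 := by
    rw [← sq_abs]; nlinarith [abs_nonneg x]
  have h4 : y ^ 2 = |y| ^ 2 := (sq_abs y).symm
  rw [h4]
  nlinarith [sq_nonneg (|y| - ε / 2)]

/-- One simple pole inside a strip of width one. -/
theorem pole_one {h : ℂ → ℂ} {δ C ε Y : ℝ} (hδ0 : 0 < δ) (hδ1 : δ < 1) (hε : 0 < ε)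
    (hh : ∀ z : ℂ, -δ ≤ z.re → z.re ≤ 1 - δ → DifferentiableAt ℂ h z)
    (hb : ∀ x y : ℝ, -δ ≤ x → x ≤ 1 - δ → Y ≤ |y| →
      ‖h (x + y * I) / (ee (x + y * I) - 1)‖ ≤ C * Real.exp (-ε * |y|)) :
    I * ((∫ y : ℝ, h ((1 - δ : ℝ) + y * I) / (ee ((1 - δ : ℝ) + y * I) - 1)) -
      ∫ y : ℝ, h ((-δ : ℝ) + y * I) / (ee ((-δ : ℝ) + y * I) - 1)) = h 0 := by
  set u : ℂ → ℂ := fun z => h z / pp z with hu
  set k : ℂ → ℂ := fun z => u z - u 0 * cexp (z ^ 2) with hk
  have hk0 : k 0 = 0 := by simp [hk]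
  have hud : ∀ z : ℂ, -δ ≤ z.re → z.re ≤ 1 - δ → DifferentiableAt ℂ u z := by
    intro z h1 h2
    exact (hh z h1 h2).div (pp_differentiable z) (pp_ne_zero (by linarith) (by linarith))
  have hkd : ∀ z : ℂ, -δ ≤ z.re → z.re ≤ 1 - δ → DifferentiableAt ℂ k z := by
    intro z h1 h2
    refine (hud z h1 h2).sub ?_
    fun_prop
  have hf : ∀ z : ℂ, -δ ≤ z.re → z.re ≤ 1 - δ → DifferentiableAt ℂ (dslope k 0) z := by
    intro z h1 h2
    rcases eq_or_ne z 0 with rfl | hz
    · have hS : {z : ℂ | -δ < z.re ∧ z.re < 1 - δ} ∈ 𝓝 (0 : ℂ) := by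
        have ho : IsOpen {z : ℂ | -δ < z.re ∧ z.re < 1 - δ} :=
          (isOpen_lt continuous_const continuous_re).inter
            (isOpen_lt continuous_re continuous_const)
        refine ho.mem_nhds ?_
        simp only [mem_ofPred_eq, zero_re]
        constructor <;> linarith
      have h3 : DifferentiableOn ℂ k {z : ℂ | -δ < z.re ∧ z.re < 1 - δ} :=
        fun z hz => (hkd z hz.1.le hz.2.le).differentiableWithinAt
      exact ((differentiableOn_dslope hS).mpr h3).differentiableAt hS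
    · exact (differentiableAt_dslope_of_ne hz).mpr (hkd z h1 h2)
  have hval : ∀ z : ℂ, z ≠ 0 → dslope k 0 z = h z / (ee z - 1) - u 0 * (cexp (z ^ 2) / z) := by
    intro z hz
    rw [dslope_of_ne _ hz, slope_def_field, hk0, sub_zero, sub_zero, ← mul_pp z]
    simp only [hk, hu]
    rw [sub_div, div_div, mul_comm (pp z) z]
    ring
  have hne : ∀ x y : ℝ, (x ≠ 0 ∨ y ≠ 0) → (x : ℂ) + y * I ≠ 0 := by
    intro x y hxy h0
    have h1 := congrArg re h0
    have h2 := congrArg im h0
    simp at h1 h2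
    rcases hxy with h | h
    · exact h h1
    · exact h h2
  have hgb : ∀ x y : ℝ, -δ ≤ x → x ≤ 1 - δ → max Y 1 ≤ |y| →
      ‖dslope k 0 (x + y * I)‖ ≤
        (C + ‖u 0‖ * Real.exp (1 + ε ^ 2 / 4)) * Real.exp (-ε * |y|) := by
    intro x y h1 h2 h3
    have hY : Y ≤ |y| := le_trans (le_max_left _ _) h3
    have h1' : 1 ≤ |y| := le_trans (le_max_right _ _) h3
    have hy0 : y ≠ 0 := by
      rintro rfl
      simp at h1'
      linarith
    rw [hval _ (hne x y (Or.inr hy0)), add_mul]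
    refine (norm_sub_le _ _).trans (add_le_add (hb x y h1 h2 hY) ?_)
    exact gauss_bound (abs_le.mpr ⟨by linarith, by linarith⟩) h1'
  have hsh := vshift (f := dslope k 0) (a := -δ) (b := 1 - δ) (by linarith) hε hf hgb
  -- integrability of the two pieces on the two lines
  have hline : ∀ x : ℝ, -δ ≤ x → x ≤ 1 - δ → x ≠ 0 →
      ∫ y : ℝ, dslope k 0 (x + y * I) =
        (∫ y : ℝ, h (x + y * I) / (ee (x + y * I) - 1)) -
          u 0 * ∫ y : ℝ, cexp (((x : ℂ) + y * I) ^ 2) / ((x : ℂ) + y * I) := by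
    intro x h1 h2 hx
    have e1 : ∀ y : ℝ, dslope k 0 (x + y * I) =
        h (x + y * I) / (ee (x + y * I) - 1) -
          u 0 * (cexp (((x : ℂ) + y * I) ^ 2) / ((x : ℂ) + y * I)) :=
      fun y => hval _ (hne x y (Or.inl hx))
    simp_rw [e1]
    have hre : ∀ y : ℝ, ((x : ℂ) + y * I).re = x := by intro y; simp
    rw [integral_sub, integral_const_mul]
    · refine integrable_line hε ?_ (fun y hy => hb x y h1 h2 hy)
      rw [continuous_iff_continuousAt]
      intro y
      have h3 : ContinuousAt (fun z : ℂ => h z / (ee z - 1)) ((x : ℂ) + y * I) := by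
        refine ContinuousAt.div ?_ ?_ ?_
        · exact (hh _ (by rw [hre]; exact h1) (by rw [hre]; exact h2)).continuousAt
        · exact (ee_differentiable.continuous.continuousAt).sub continuousAt_const
        · exact ee_sub_one_ne (by rw [hre]; linarith) (by rw [hre]; linarith) (by rwa [hre])
      exact ContinuousAt.comp (f := fun y : ℝ => (x : ℂ) + y * I) h3 (by fun_prop)
    · refine integrable_line (Y := 1) hε ?_
        (fun y hy => gauss_bound (abs_le.mpr ⟨by linarith, by linarith⟩) hy)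
      refine continuous_const.mul (Continuous.div (by fun_prop) (by fun_prop) ?_)
      intro y
      exact hne x y (Or.inl hx)
  rw [hline (1 - δ) (by linarith) le_rfl (by linarith),
    hline (-δ) le_rfl (by linarith) (by linarith),
    gauss_right (by linarith), gauss_left (by linarith)] at hsh
  have hu0 : u 0 = h 0 / (2 * Real.pi * I) := by simp only [hu, pp_zero]
  have hpi : (Real.pi : ℂ) ≠ 0 := by exact_mod_cast Real.pi_ne_zero
  have h7 : I * ((∫ y : ℝ, h ((1 - δ : ℝ) + y * I) / (ee ((1 - δ : ℝ) + y * I) - 1)) -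
      ∫ y : ℝ, h ((-δ : ℝ) + y * I) / (ee ((-δ : ℝ) + y * I) - 1)) =
      u 0 * (2 * Real.pi * I) := by
    linear_combination I * hsh
  rw [h7, hu0]
  field_simp

/-- **Sum of residues.** `∑_{k < n} h k` as a difference of two vertical integrals. -/
theorem pole_sum {h : ℂ → ℂ} {δ C ε Y : ℝ} (n : ℕ) (hδ0 : 0 < δ) (hδ1 : δ < 1) (hε : 0 < ε)
    (hh : ∀ z : ℂ, -δ ≤ z.re → z.re ≤ n - δ → DifferentiableAt ℂ h z)
    (hb : ∀ x y : ℝ, -δ ≤ x → x ≤ n - δ → Y ≤ |y| →
      ‖h (x + y * I) / (ee (x + y * I) - 1)‖ ≤ C * Real.exp (-ε * |y|)) :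
    I * ((∫ y : ℝ, h ((n - δ : ℝ) + y * I) / (ee ((n - δ : ℝ) + y * I) - 1)) -
      ∫ y : ℝ, h ((-δ : ℝ) + y * I) / (ee ((-δ : ℝ) + y * I) - 1)) =
      ∑ k ∈ Finset.range n, h k := by
  induction n with
  | zero => simp
  | succ n ih =>
    simp only [Nat.cast_succ] at hh hb ⊢
    rw [Finset.sum_range_succ, ← ih (fun z h1 h2 => hh z h1 (by linarith))
      (fun x y h1 h2 h3 => hb x y h1 (by linarith) h3)]
    have h1 := pole_one (h := fun z => h (z + n)) hδ0 hδ1 hε (C := C) (Y := Y)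
      (fun z h1 h2 => by
        have h3 : DifferentiableAt ℂ h (z + n) := hh (z + n)
          (by simp; linarith [(Nat.cast_nonneg n : (0:ℝ) ≤ n)]) (by simp; linarith)
        exact h3.comp z (by fun_prop))
      (fun x y h1 h2 h3 => by
        have h4 := hb (x + n) y (by linarith [(Nat.cast_nonneg n : (0:ℝ) ≤ n)])
          (by linarith) h3
        have e1 : ((x + n : ℝ) : ℂ) + y * I = (x : ℂ) + y * I + n := by push_cast; ring
        have e2 : ee ((x : ℂ) + y * I + n) = ee ((x : ℂ) + y * I) := by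
          have := ee_add_int ((x : ℂ) + y * I) n
          simpa using this
        rw [e1, e2] at h4
        exact h4)
    simp only [zero_add] at h1
    rw [← h1]
    have e3 : ∀ (s : ℝ) (y : ℝ), h ((s : ℂ) + y * I + n) / (ee ((s : ℂ) + y * I) - 1) =
        h (((s + n : ℝ) : ℂ) + y * I) / (ee (((s + n : ℝ) : ℂ) + y * I) - 1) := by
      intro s y
      have e1 : ((s + n : ℝ) : ℂ) + y * I = (s : ℂ) + y * I + n := by push_cast; ring
      have e2 : ee ((s : ℂ) + y * I + n) = ee ((s : ℂ) + y * I) := by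
        have := ee_add_int ((s : ℂ) + y * I) n
        simpa using this
      rw [e1, e2]
    simp_rw [e3]
    have e4 : (1 - δ + n : ℝ) = n + 1 - δ := by ring
    have e5 : (-δ + n : ℝ) = n - δ := by ring
    rw [e4, e5]
    ring

end Pool.MP_d0f9e0_co.CS
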