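import Mathlib

/-!
# Estimates for the kernels of the double sine function
-/

set_option autoImplicit false

open MeasureTheory Filter Topology Set

namespace Pool.Agent.DS71

theorem norm_sinh_sub_le (u : ℂ) : ‖Complex.sinh u - u‖ ≤ ‖u‖ ^ 3 * Real.exp ‖u‖ := by
  have h1 := Complex.norm_exp_sub_sum_le_norm_mul_exp u 3
  have h2 := Complex.norm_exp_sub_sum_le_norm_mul_exp (-u) 3
  rw [norm_neg] at h2
  have e : Complex.sinh u - u = ((Complex.exp u - ∑ m ∈ Finset.range 3, u ^ m / m.factorial) -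
      (Complex.exp (-u) - ∑ m ∈ Finset.range 3, (-u) ^ m / m.factorial)) / 2 := by
    rw [Complex.sinh]
    simp only [Finset.sum_range_succ, Finset.sum_range_zero, Nat.factorial]
    push_cast
    ring
  rw [e, norm_div, Complex.norm_ofNat]
  have h3 := norm_sub_le (Complex.exp u - ∑ m ∈ Finset.range 3, u ^ m / m.factorial)
    (Complex.exp (-u) - ∑ m ∈ Finset.range 3, (-u) ^ m / m.factorial)
  linarith

theorem norm_cosh_sub_one_le (u : ℂ) : ‖Complex.cosh u - 1‖ ≤ ‖u‖ ^ 2 * Real.exp ‖u‖ := by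
  have h1 := Complex.norm_exp_sub_sum_le_norm_mul_exp u 2
  have h2 := Complex.norm_exp_sub_sum_le_norm_mul_exp (-u) 2
  rw [norm_neg] at h2
  have e : Complex.cosh u - 1 = ((Complex.exp u - ∑ m ∈ Finset.range 2, u ^ m / m.factorial) +
      (Complex.exp (-u) - ∑ m ∈ Finset.range 2, (-u) ^ m / m.factorial)) / 2 := by
    rw [Complex.cosh]
    simp only [Finset.sum_range_succ, Finset.sum_range_zero, Nat.factorial]
    push_cast
    ring
  rw [e, norm_div, Complex.norm_ofNat]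
  have h3 := norm_add_le (Complex.exp u - ∑ m ∈ Finset.range 2, u ^ m / m.factorial)
    (Complex.exp (-u) - ∑ m ∈ Finset.range 2, (-u) ^ m / m.factorial)
  linarith

theorem norm_sinh_le (u : ℂ) : ‖Complex.sinh u‖ ≤ ‖u‖ * Real.exp ‖u‖ := by
  have h1 := Complex.norm_exp_sub_sum_le_norm_mul_exp u 1
  have h2 := Complex.norm_exp_sub_sum_le_norm_mul_exp (-u) 1
  rw [norm_neg] at h2
  have e : Complex.sinh u = ((Complex.exp u - ∑ m ∈ Finset.range 1, u ^ m / m.factorial) -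
      (Complex.exp (-u) - ∑ m ∈ Finset.range 1, (-u) ^ m / m.factorial)) / 2 := by
    rw [Complex.sinh]
    simp only [Finset.sum_range_succ, Finset.sum_range_zero, Nat.factorial]
    push_cast
    ring
  rw [e, norm_div, Complex.norm_ofNat]
  have h3 := norm_sub_le (Complex.exp u - ∑ m ∈ Finset.range 1, u ^ m / m.factorial)
    (Complex.exp (-u) - ∑ m ∈ Finset.range 1, (-u) ^ m / m.factorial)
  rw [pow_one] at h1 h2
  linarith

theorem norm_sinh_le_exp (u : ℂ) : ‖Complex.sinh u‖ ≤ Real.exp |u.re| := by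
  rw [Complex.sinh, norm_div, Complex.norm_ofNat]
  have h1 := norm_sub_le (Complex.exp u) (Complex.exp (-u))
  rw [Complex.norm_exp, Complex.norm_exp, Complex.neg_re] at h1
  have h2 : Real.exp u.re ≤ Real.exp |u.re| := Real.exp_le_exp.2 (le_abs_self _)
  have h3 : Real.exp (-u.re) ≤ Real.exp |u.re| := Real.exp_le_exp.2 (neg_le_abs _)
  linarith

theorem norm_cosh_le_exp (u : ℂ) : ‖Complex.cosh u‖ ≤ Real.exp |u.re| := by
  rw [Complex.cosh, norm_div, Complex.norm_ofNat]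
  have h1 := norm_add_le (Complex.exp u) (Complex.exp (-u))
  rw [Complex.norm_exp, Complex.norm_exp, Complex.neg_re] at h1
  have h2 : Real.exp u.re ≤ Real.exp |u.re| := Real.exp_le_exp.2 (le_abs_self _)
  have h3 : Real.exp (-u.re) ≤ Real.exp |u.re| := Real.exp_le_exp.2 (neg_le_abs _)
  linarith

/-- The function `w t / sinh (w t)`. -/
noncomputable def psi (w t : ℝ) : ℝ := w * t / Real.sinh (w * t)

theorem psi_nonneg {w t : ℝ} (hw : 0 < w) (ht : 0 < t) : 0 ≤ psi w t := by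
  have h : 0 < w * t := mul_pos hw ht
  exact div_nonneg h.le (Real.sinh_pos_iff.2 h).le

theorem psi_le_one {w t : ℝ} (hw : 0 < w) (ht : 0 < t) : psi w t ≤ 1 := by
  have h : 0 < w * t := mul_pos hw ht
  have h2 : w * t ≤ Real.sinh (w * t) := Real.self_le_sinh_iff.2 h.le
  exact div_le_one_of_le₀ h2 (Real.sinh_pos_iff.2 h).le

theorem abs_psi_sub_one_le {w t : ℝ} (hw : 0 < w) (ht : 0 < t) (ht1 : t ≤ 1) :
    |psi w t - 1| ≤ w ^ 2 * Real.exp w * t ^ 2 := by
  have h : 0 < w * t := mul_pos hw ht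
  have h2 : w * t ≤ Real.sinh (w * t) := Real.self_le_sinh_iff.2 h.le
  have h3 : 0 < Real.sinh (w * t) := Real.sinh_pos_iff.2 h
  have h4 := norm_sinh_sub_le ((w * t : ℝ) : ℂ)
  rw [← Complex.ofReal_sinh, ← Complex.ofReal_sub, Complex.norm_real, Complex.norm_real,
    Real.norm_eq_abs, Real.norm_eq_abs, abs_of_pos h, abs_of_nonneg (by linarith)] at h4
  have h5 : psi w t - 1 = -((Real.sinh (w * t) - w * t) / Real.sinh (w * t)) := by
    rw [psi]
    field_simp
    ring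
  rw [h5, abs_neg, abs_of_nonneg (div_nonneg (by linarith) h3.le), div_le_iff₀ h3]
  have h6 : Real.exp (w * t) ≤ Real.exp w := Real.exp_le_exp.2 (by nlinarith)
  calc Real.sinh (w * t) - w * t ≤ (w * t) ^ 3 * Real.exp (w * t) := h4
    _ ≤ (w * t) ^ 3 * Real.exp w := by gcongr
    _ = w ^ 2 * Real.exp w * t ^ 2 * (w * t) := by ring
    _ ≤ w ^ 2 * Real.exp w * t ^ 2 * Real.sinh (w * t) := by gcongr

/-- The constant in the lower bound of `sinh (w t)` for `t ≥ 1`. -/
noncomputable def cc (w : ℝ) : ℝ := (1 - Real.exp (-(2 * w))) / 2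

theorem cc_pos {w : ℝ} (hw : 0 < w) : 0 < cc w := by
  have : Real.exp (-(2 * w)) < 1 := by
    have h := Real.exp_lt_exp.2 (show -(2 * w) < 0 by linarith)
    rwa [Real.exp_zero] at h
  unfold cc
  linarith

theorem le_sinh {w t : ℝ} (hw : 0 < w) (ht : 1 ≤ t) :
    cc w * Real.exp (w * t) ≤ Real.sinh (w * t) := by
  have e : Real.sinh (w * t) = Real.exp (w * t) * (1 - Real.exp (-(2 * (w * t)))) / 2 := by
    rw [Real.sinh_eq, mul_sub, mul_one, ← Real.exp_add]
    congr 3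
    ring
  have h1 : Real.exp (-(2 * (w * t))) ≤ Real.exp (-(2 * w)) := Real.exp_le_exp.2 (by nlinarith)
  rw [e, cc]
  have h2 := Real.exp_pos (w * t)
  nlinarith

theorem exp_neg_le {e t : ℝ} (he : 0 < e) (ht : 0 ≤ t) :
    Real.exp (-(e * t)) ≤ (1 + 2 / e ^ 2) * (1 + t ^ 2)⁻¹ := by
  have h1 := Real.quadratic_le_exp_of_nonneg (mul_nonneg he.le ht)
  rw [← div_eq_mul_inv, le_div_iff₀ (by positivity), Real.exp_neg, inv_mul_le_iff₀ (Real.exp_pos _)]
  have h2 : 0 ≤ e * t := by positivity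
  have h3 : (1 + t ^ 2) ≤ (1 + (e * t) ^ 2 / 2) * (1 + 2 / e ^ 2) := by
    have h4 : (1 + (e * t) ^ 2 / 2) * (1 + 2 / e ^ 2) =
        1 + t ^ 2 + (2 / e ^ 2 + (e * t) ^ 2 / 2) := by
      field_simp
      ring
    rw [h4]
    have : 0 ≤ 2 / e ^ 2 + (e * t) ^ 2 / 2 := by positivity
    linarith
  refine h3.trans ?_
  gcongr
  linarith

/-- The kernel of the double sine function. -/
noncomputable def K2 (w1 w2 : ℝ) (a : ℂ) (t : ℝ) : ℂ :=
  (Complex.sinh (a * t) / (2 * (Real.sinh (w1 * t) : ℂ) * (Real.sinh (w2 * t) : ℂ)) -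
    a / (2 * w1 * w2 * t)) / t

/-- The kernel of `log (2 cos (π a / 2))`. -/
noncomputable def K1 (a : ℂ) (t : ℝ) : ℂ :=
  (Complex.cosh (a * t) / (Real.sinh t : ℂ) - 1 / t) / t

/-- The derivative of `K1` in `a`. -/
noncomputable def K1' (a : ℂ) (t : ℝ) : ℂ := Complex.sinh (a * t) / (Real.sinh t : ℂ)

theorem K2_neg (w1 w2 : ℝ) (a : ℂ) (t : ℝ) : K2 w1 w2 a (-t) = K2 w1 w2 a t := by
  unfold K2
  simp only [Complex.ofReal_neg, mul_neg, Complex.sinh_neg, Real.sinh_neg, div_neg, neg_mul,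
    neg_neg, neg_div, sub_neg_eq_add]
  ring

theorem K1_neg (a : ℂ) (t : ℝ) : K1 a (-t) = K1 a t := by
  unfold K1
  simp only [Complex.ofReal_neg, mul_neg, Complex.cosh_neg, Real.sinh_neg, div_neg,
    sub_neg_eq_add]
  ring

theorem K1'_neg (a : ℂ) (t : ℝ) : K1' a (-t) = K1' a t := by
  unfold K1'
  simp only [Complex.ofReal_neg, mul_neg, Complex.sinh_neg, Real.sinh_neg, div_neg,
    neg_neg, neg_div]

theorem K2_zero (w1 w2 : ℝ) (a : ℂ) : K2 w1 w2 a 0 = 0 := by simp [K2]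
theorem K1_zero (a : ℂ) : K1 a 0 = 0 := by simp [K1]
theorem K1'_zero (a : ℂ) : K1' a 0 = 0 := by simp [K1']

theorem measurable_K2 (w1 w2 : ℝ) (a : ℂ) : Measurable (K2 w1 w2 a) := by
  unfold K2
  fun_prop

theorem measurable_K1 (a : ℂ) : Measurable (K1 a) := by
  unfold K1
  fun_prop

theorem measurable_K1' (a : ℂ) : Measurable (K1' a) := by
  unfold K1'
  fun_prop

/-- From a bound for positive `t` to a bound for all `t`, for an even kernel. -/
theorem bound_of_pos {K : ℝ → ℂ} (hev : ∀ t, K (-t) = K t) (h0 : K 0 = 0) {M : ℝ} (hM : 0 ≤ M)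
    (h : ∀ t, 0 < t → ‖K t‖ ≤ M * (1 + t ^ 2)⁻¹) (t : ℝ) : ‖K t‖ ≤ M * (1 + t ^ 2)⁻¹ := by
  rcases lt_trichotomy t 0 with ht | ht | ht
  · have := h (-t) (by linarith)
    rw [hev] at this
    simpa using this
  · rw [ht, h0, norm_zero]
    positivity
  · exact h t ht

theorem one_le_two_mul {t : ℝ} (ht : 0 < t) (ht1 : t ≤ 1) : 1 ≤ 2 * (1 + t ^ 2)⁻¹ := by
  rw [← div_eq_mul_inv, le_div_iff₀ (by positivity)]
  nlinarith

theorem inv_sq_le {t : ℝ} (ht : 1 ≤ t) : (t ^ 2)⁻¹ ≤ 2 * (1 + t ^ 2)⁻¹ := by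
  have h0 : 0 < t := by linarith
  rw [← div_eq_mul_inv, le_div_iff₀ (by positivity), inv_mul_le_iff₀ (by positivity)]
  nlinarith

/-- The main estimate for the kernel of the double sine function. -/
theorem K2_bound {w1 w2 : ℝ} (hw1 : 0 < w1) (hw2 : 0 < w2) {e R : ℝ} (he : 0 < e) (hR : 0 ≤ R) :
    ∃ M : ℝ, 0 ≤ M ∧ ∀ (a : ℂ) (t : ℝ), |a.re| ≤ w1 + w2 - e → ‖a‖ ≤ R →
      ‖K2 w1 w2 a t‖ ≤ M * (1 + t ^ 2)⁻¹ := by
  have hc1 := cc_pos hw1
  have hc2 := cc_pos hw2
  set M0 : ℝ := (R ^ 3 * Real.exp R + R * (w1 ^ 2 * Real.exp w1 + w2 ^ 2 * Real.exp w2)) /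
    (2 * w1 * w2) with hM0
  have hM0' : 0 ≤ M0 := by positivity
  set M1 : ℝ := (1 + 2 / e ^ 2) / (2 * cc w1 * cc w2) with hM1
  have hM1' : 0 ≤ M1 := by positivity
  set M2 : ℝ := R / (2 * w1 * w2) with hM2
  have hM2' : 0 ≤ M2 := by positivity
  refine ⟨2 * M0 + M1 + 2 * M2, by positivity, fun a t ha haR => ?_⟩
  refine bound_of_pos (K2_neg w1 w2 a) (K2_zero w1 w2 a) (by positivity) ?_ t
  clear t
  intro t ht
  have hs1 : 0 < Real.sinh (w1 * t) := Real.sinh_pos_iff.2 (mul_pos hw1 ht)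
  have hs2 : 0 < Real.sinh (w2 * t) := Real.sinh_pos_iff.2 (mul_pos hw2 ht)
  have hs1c : (Real.sinh (w1 * t) : ℂ) ≠ 0 := Complex.ofReal_ne_zero.2 hs1.ne'
  have hs2c : (Real.sinh (w2 * t) : ℂ) ≠ 0 := Complex.ofReal_ne_zero.2 hs2.ne'
  have htc : (t : ℂ) ≠ 0 := Complex.ofReal_ne_zero.2 ht.ne'
  have hw1c : (w1 : ℂ) ≠ 0 := Complex.ofReal_ne_zero.2 hw1.ne'
  have hw2c : (w2 : ℂ) ≠ 0 := Complex.ofReal_ne_zero.2 hw2.ne'
  have hpos : 0 < (1 + t ^ 2)⁻¹ := by positivity
  rcases le_or_gt t 1 with ht1 | ht1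
  · -- near zero
    have hb : ‖K2 w1 w2 a t‖ ≤ M0 := by
      have e1 : K2 w1 w2 a t = ((Complex.sinh (a * t) - a * t) / t *
          ((psi w1 t * psi w2 t : ℝ) : ℂ) + a * ((psi w1 t * psi w2 t - 1 : ℝ) : ℂ)) /
          (2 * w1 * w2 * t ^ 2) := by
        unfold K2 psi
        push_cast
        field_simp
        ring
      have p1 := psi_nonneg hw1 ht
      have p2 := psi_nonneg hw2 ht
      have q1 := psi_le_one hw1 ht
      have q2 := psi_le_one hw2 ht
      have r1 := abs_psi_sub_one_le hw1 ht ht1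
      have r2 := abs_psi_sub_one_le hw2 ht ht1
      have n1 : ‖(Complex.sinh (a * t) - a * t) / t * ((psi w1 t * psi w2 t : ℝ) : ℂ)‖ ≤
          R ^ 3 * Real.exp R * t ^ 2 := by
        rw [norm_mul, norm_div, Complex.norm_real, Complex.norm_real, Real.norm_eq_abs,
          Real.norm_eq_abs, abs_of_pos ht, abs_of_nonneg (mul_nonneg p1 p2)]
        have h1 := norm_sinh_sub_le (a * t)
        have h2 : ‖a * (t : ℂ)‖ = ‖a‖ * t := by
          rw [norm_mul, Complex.norm_real, Real.norm_eq_abs, abs_of_pos ht]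
        rw [h2] at h1
        have h3 : psi w1 t * psi w2 t ≤ 1 := mul_le_one₀ q1 p2 q2
        have h4 : (‖a‖ * t) ^ 3 * Real.exp (‖a‖ * t) ≤ (R * t) ^ 3 * Real.exp R := by
          have : ‖a‖ * t ≤ R * t := by gcongr
          have h5 : R * t ≤ R := by nlinarith
          gcongr
          linarith
        have h6 : ‖Complex.sinh (a * t) - a * t‖ / t ≤ R ^ 3 * Real.exp R * t ^ 2 := by
          rw [div_le_iff₀ ht]
          calc _ ≤ _ := h1
            _ ≤ _ := h4
            _ = _ := by ring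
        calc ‖Complex.sinh (a * t) - a * t‖ / t * (psi w1 t * psi w2 t)
            ≤ R ^ 3 * Real.exp R * t ^ 2 * 1 := by
              refine mul_le_mul h6 h3 (mul_nonneg p1 p2) (by positivity)
          _ = _ := mul_one _
      have n2 : ‖a * ((psi w1 t * psi w2 t - 1 : ℝ) : ℂ)‖ ≤
          R * (w1 ^ 2 * Real.exp w1 + w2 ^ 2 * Real.exp w2) * t ^ 2 := by
        rw [norm_mul, Complex.norm_real, Real.norm_eq_abs]
        have h1 : psi w1 t * psi w2 t - 1 = (psi w1 t - 1) * psi w2 t + (psi w2 t - 1) := by ring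
        have h2 : |psi w1 t * psi w2 t - 1| ≤ |psi w1 t - 1| + |psi w2 t - 1| := by
          rw [h1]
          refine (abs_add_le _ _).trans ?_
          rw [abs_mul, abs_of_nonneg p2]
          have := mul_le_of_le_one_right (abs_nonneg (psi w1 t - 1)) q2
          linarith
        calc ‖a‖ * |psi w1 t * psi w2 t - 1|
            ≤ R * ((w1 ^ 2 * Real.exp w1 + w2 ^ 2 * Real.exp w2) * t ^ 2) := by
              refine mul_le_mul haR ?_ (abs_nonneg _) hR
              linarith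
          _ = _ := by ring
      rw [e1, norm_div]
      have hden : ‖(2 * w1 * w2 * t ^ 2 : ℂ)‖ = 2 * w1 * w2 * t ^ 2 := by
        have : (2 * w1 * w2 * t ^ 2 : ℂ) = ((2 * w1 * w2 * t ^ 2 : ℝ) : ℂ) := by push_cast; ring
        rw [this, Complex.norm_real, Real.norm_eq_abs, abs_of_pos (by positivity)]
      rw [hden, div_le_iff₀ (by positivity)]
      refine (norm_add_le _ _).trans ((add_le_add n1 n2).trans (le_of_eq ?_))
      rw [hM0]
      field_simp
    have h2 := one_le_two_mul ht ht1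
    calc ‖K2 w1 w2 a t‖ ≤ M0 * 1 := by rw [mul_one]; exact hb
      _ ≤ M0 * (2 * (1 + t ^ 2)⁻¹) := by gcongr
      _ ≤ (2 * M0 + M1 + 2 * M2) * (1 + t ^ 2)⁻¹ := by
        have : 0 ≤ (M1 + 2 * M2) * (1 + t ^ 2)⁻¹ := by positivity
        nlinarith
  · -- near infinity
    have l1 := le_sinh hw1 ht1.le
    have l2 := le_sinh hw2 ht1.le
    have e1 : K2 w1 w2 a t = Complex.sinh (a * t) /
        (2 * (Real.sinh (w1 * t) : ℂ) * (Real.sinh (w2 * t) : ℂ)) / t -
        a / (2 * w1 * w2 * t ^ 2) := by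
      unfold K2
      field_simp
    rw [e1]
    refine (norm_sub_le _ _).trans ?_
    have n1 : ‖Complex.sinh (a * t) /
        (2 * (Real.sinh (w1 * t) : ℂ) * (Real.sinh (w2 * t) : ℂ)) / t‖ ≤
        M1 * (1 + t ^ 2)⁻¹ := by
      rw [norm_div, norm_div, norm_mul, norm_mul, Complex.norm_real, Complex.norm_real,
        Complex.norm_real, Real.norm_eq_abs, Real.norm_eq_abs, Real.norm_eq_abs,
        abs_of_pos ht, abs_of_pos hs1, abs_of_pos hs2, Complex.norm_ofNat]
      have h1 := norm_sinh_le_exp (a * t)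
      have h2 : (a * (t : ℂ)).re = a.re * t := by simp
      rw [h2, abs_mul, abs_of_pos ht] at h1
      have h3 : Real.exp (|a.re| * t) ≤ Real.exp (w1 * t) * Real.exp (w2 * t) *
          Real.exp (-(e * t)) := by
        rw [← Real.exp_add, ← Real.exp_add]
        apply Real.exp_le_exp.2
        nlinarith
      have h4 : ‖Complex.sinh (a * t)‖ / (2 * Real.sinh (w1 * t) * Real.sinh (w2 * t)) ≤
          Real.exp (-(e * t)) / (2 * cc w1 * cc w2) := by
        rw [div_le_div_iff₀ (by positivity) (by positivity)]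
        have h5 : cc w1 * Real.exp (w1 * t) * (cc w2 * Real.exp (w2 * t)) ≤
            Real.sinh (w1 * t) * Real.sinh (w2 * t) := by gcongr
        calc ‖Complex.sinh (a * t)‖ * (2 * cc w1 * cc w2)
            ≤ (Real.exp (w1 * t) * Real.exp (w2 * t) * Real.exp (-(e * t))) *
              (2 * cc w1 * cc w2) := by
              gcongr
              exact h1.trans h3
          _ = 2 * Real.exp (-(e * t)) *
              (cc w1 * Real.exp (w1 * t) * (cc w2 * Real.exp (w2 * t))) := by ring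
          _ ≤ 2 * Real.exp (-(e * t)) * (Real.sinh (w1 * t) * Real.sinh (w2 * t)) := by gcongr
          _ = _ := by ring
      have h6 := exp_neg_le he ht.le
      calc ‖Complex.sinh (a * t)‖ / (2 * Real.sinh (w1 * t) * Real.sinh (w2 * t)) / t
          ≤ ‖Complex.sinh (a * t)‖ / (2 * Real.sinh (w1 * t) * Real.sinh (w2 * t)) := by
            refine div_le_self (by positivity) ht1.le
        _ ≤ _ := h4
        _ ≤ (1 + 2 / e ^ 2) * (1 + t ^ 2)⁻¹ / (2 * cc w1 * cc w2) := by gcongr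
        _ = _ := by rw [hM1]; ring
    have n2 : ‖a / (2 * w1 * w2 * t ^ 2)‖ ≤ 2 * M2 * (1 + t ^ 2)⁻¹ := by
      have hden : ‖(2 * w1 * w2 * t ^ 2 : ℂ)‖ = 2 * w1 * w2 * t ^ 2 := by
        have : (2 * w1 * w2 * t ^ 2 : ℂ) = ((2 * w1 * w2 * t ^ 2 : ℝ) : ℂ) := by push_cast; ring
        rw [this, Complex.norm_real, Real.norm_eq_abs, abs_of_pos (by positivity)]
      rw [norm_div, hden]
      have h1 := inv_sq_le ht1.le
      calc ‖a‖ / (2 * w1 * w2 * t ^ 2) ≤ R / (2 * w1 * w2 * t ^ 2) := by gcongr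
        _ = M2 * (t ^ 2)⁻¹ := by rw [hM2]; field_simp
        _ ≤ M2 * (2 * (1 + t ^ 2)⁻¹) := by gcongr
        _ = _ := by ring
    have : 0 ≤ 2 * M0 * (1 + t ^ 2)⁻¹ := by positivity
    linarith

/-- The estimate for the kernel `K1`. -/
theorem K1_bound {e R : ℝ} (he : 0 < e) (hR : 0 ≤ R) :
    ∃ M : ℝ, 0 ≤ M ∧ ∀ (a : ℂ) (t : ℝ), |a.re| ≤ 1 - e → ‖a‖ ≤ R →
      ‖K1 a t‖ ≤ M * (1 + t ^ 2)⁻¹ := by
  have hc1 := cc_pos (w := 1) one_pos
  set M0 : ℝ := R ^ 2 * Real.exp R + 1 ^ 2 * Real.exp 1 with hM0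
  have hM0' : 0 ≤ M0 := by positivity
  set M1 : ℝ := (1 + 2 / e ^ 2) / cc 1 with hM1
  have hM1' : 0 ≤ M1 := by positivity
  refine ⟨2 * M0 + M1 + 2, by positivity, fun a t ha haR => ?_⟩
  refine bound_of_pos (K1_neg a) (K1_zero a) (by positivity) ?_ t
  clear t
  intro t ht
  have hs1 : 0 < Real.sinh t := Real.sinh_pos_iff.2 ht
  have hs1c : (Real.sinh t : ℂ) ≠ 0 := Complex.ofReal_ne_zero.2 hs1.ne'
  have htc : (t : ℂ) ≠ 0 := Complex.ofReal_ne_zero.2 ht.ne'
  have hpos : 0 < (1 + t ^ 2)⁻¹ := by positivity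
  rcases le_or_gt t 1 with ht1 | ht1
  · -- near zero
    have hb : ‖K1 a t‖ ≤ M0 := by
      have e1 : K1 a t = ((Complex.cosh (a * t) - 1) * ((psi 1 t : ℝ) : ℂ) +
          ((psi 1 t - 1 : ℝ) : ℂ)) / (t ^ 2 : ℂ) := by
        unfold K1 psi
        rw [one_mul]
        push_cast
        rw [Complex.ofReal_sinh] at hs1c
        field_simp
        ring
      have p1 := psi_nonneg (w := 1) one_pos ht
      have q1 := psi_le_one (w := 1) one_pos ht
      have r1 := abs_psi_sub_one_le (w := 1) one_pos ht ht1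
      have n1 : ‖(Complex.cosh (a * t) - 1) * ((psi 1 t : ℝ) : ℂ)‖ ≤
          R ^ 2 * Real.exp R * t ^ 2 := by
        rw [norm_mul, Complex.norm_real, Real.norm_eq_abs, abs_of_nonneg p1]
        have h1 := norm_cosh_sub_one_le (a * t)
        have h2 : ‖a * (t : ℂ)‖ = ‖a‖ * t := by
          rw [norm_mul, Complex.norm_real, Real.norm_eq_abs, abs_of_pos ht]
        rw [h2] at h1
        have h4 : (‖a‖ * t) ^ 2 * Real.exp (‖a‖ * t) ≤ (R * t) ^ 2 * Real.exp R := by
          have : ‖a‖ * t ≤ R * t := by gcongr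
          have h5 : R * t ≤ R := by nlinarith
          gcongr
          linarith
        calc ‖Complex.cosh (a * t) - 1‖ * psi 1 t
            ≤ (R * t) ^ 2 * Real.exp R * 1 :=
              mul_le_mul (h1.trans h4) q1 p1 (by positivity)
          _ = _ := by ring
      have n2 : ‖((psi 1 t - 1 : ℝ) : ℂ)‖ ≤ 1 ^ 2 * Real.exp 1 * t ^ 2 := by
        rw [Complex.norm_real, Real.norm_eq_abs]
        exact r1
      rw [e1, norm_div]
      have hden : ‖(t ^ 2 : ℂ)‖ = t ^ 2 := by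
        rw [norm_pow, Complex.norm_real, Real.norm_eq_abs, abs_of_pos ht]
      rw [hden, div_le_iff₀ (by positivity)]
      refine (norm_add_le _ _).trans ((add_le_add n1 n2).trans (le_of_eq ?_))
      rw [hM0]
      ring
    have h2 := one_le_two_mul ht ht1
    calc ‖K1 a t‖ ≤ M0 * 1 := by rw [mul_one]; exact hb
      _ ≤ M0 * (2 * (1 + t ^ 2)⁻¹) := by gcongr
      _ ≤ (2 * M0 + M1 + 2) * (1 + t ^ 2)⁻¹ := by
        have : 0 ≤ (M1 + 2) * (1 + t ^ 2)⁻¹ := by positivity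
        nlinarith
  · -- near infinity
    have l1 := le_sinh (w := 1) one_pos ht1.le
    rw [one_mul] at l1
    have e1 : K1 a t = Complex.cosh (a * t) / (Real.sinh t : ℂ) / t - 1 / (t ^ 2 : ℂ) := by
      unfold K1
      field_simp
    rw [e1]
    refine (norm_sub_le _ _).trans ?_
    have n1 : ‖Complex.cosh (a * t) / (Real.sinh t : ℂ) / t‖ ≤ M1 * (1 + t ^ 2)⁻¹ := by
      rw [norm_div, norm_div, Complex.norm_real, Complex.norm_real, Real.norm_eq_abs,
        Real.norm_eq_abs, abs_of_pos ht, abs_of_pos hs1]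
      have h1 := norm_cosh_le_exp (a * t)
      have h2 : (a * (t : ℂ)).re = a.re * t := by simp
      rw [h2, abs_mul, abs_of_pos ht] at h1
      have h3 : Real.exp (|a.re| * t) ≤ Real.exp t * Real.exp (-(e * t)) := by
        rw [← Real.exp_add]
        apply Real.exp_le_exp.2
        nlinarith
      have h4 : ‖Complex.cosh (a * t)‖ / Real.sinh t ≤ Real.exp (-(e * t)) / cc 1 := by
        rw [div_le_div_iff₀ (by positivity) (by positivity)]
        calc ‖Complex.cosh (a * t)‖ * cc 1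
            ≤ (Real.exp t * Real.exp (-(e * t))) * cc 1 := by
              gcongr
              exact h1.trans h3
          _ = Real.exp (-(e * t)) * (cc 1 * Real.exp t) := by ring
          _ ≤ Real.exp (-(e * t)) * Real.sinh t := by gcongr
      have h6 := exp_neg_le he ht.le
      calc ‖Complex.cosh (a * t)‖ / Real.sinh t / t
          ≤ ‖Complex.cosh (a * t)‖ / Real.sinh t := by
            refine div_le_self (by positivity) ht1.le
        _ ≤ _ := h4
        _ ≤ (1 + 2 / e ^ 2) * (1 + t ^ 2)⁻¹ / cc 1 := by gcongr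
        _ = _ := by rw [hM1]; ring
    have n2 : ‖1 / (t ^ 2 : ℂ)‖ ≤ 2 * (1 + t ^ 2)⁻¹ := by
      have hden : ‖(t ^ 2 : ℂ)‖ = t ^ 2 := by
        rw [norm_pow, Complex.norm_real, Real.norm_eq_abs, abs_of_pos ht]
      rw [norm_div, hden, norm_one, one_div]
      exact inv_sq_le ht1.le
    have : 0 ≤ 2 * M0 * (1 + t ^ 2)⁻¹ := by positivity
    linarith

/-- The estimate for the kernel `K1'`. -/
theorem K1'_bound {e R : ℝ} (he : 0 < e) (hR : 0 ≤ R) :
    ∃ M : ℝ, 0 ≤ M ∧ ∀ (a : ℂ) (t : ℝ), |a.re| ≤ 1 - e → ‖a‖ ≤ R →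
      ‖K1' a t‖ ≤ M * (1 + t ^ 2)⁻¹ := by
  have hc1 := cc_pos (w := 1) one_pos
  set M0 : ℝ := R * Real.exp R with hM0
  have hM0' : 0 ≤ M0 := by positivity
  set M1 : ℝ := (1 + 2 / e ^ 2) / cc 1 with hM1
  have hM1' : 0 ≤ M1 := by positivity
  refine ⟨2 * M0 + M1, by positivity, fun a t ha haR => ?_⟩
  refine bound_of_pos (K1'_neg a) (K1'_zero a) (by positivity) ?_ t
  clear t
  intro t ht
  have hs1 : 0 < Real.sinh t := Real.sinh_pos_iff.2 ht
  have hpos : 0 < (1 + t ^ 2)⁻¹ := by positivity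
  have e0 : ‖K1' a t‖ = ‖Complex.sinh (a * t)‖ / Real.sinh t := by
    rw [K1', norm_div, Complex.norm_real, Real.norm_eq_abs, abs_of_pos hs1]
  rw [e0]
  rcases le_or_gt t 1 with ht1 | ht1
  · -- near zero
    have hb : ‖Complex.sinh (a * t)‖ / Real.sinh t ≤ M0 := by
      rw [div_le_iff₀ hs1]
      have h1 := norm_sinh_le (a * t)
      have h2 : ‖a * (t : ℂ)‖ = ‖a‖ * t := by
        rw [norm_mul, Complex.norm_real, Real.norm_eq_abs, abs_of_pos ht]
      rw [h2] at h1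
      have h3 : t ≤ Real.sinh t := Real.self_le_sinh_iff.2 ht.le
      have h4 : ‖a‖ * t * Real.exp (‖a‖ * t) ≤ R * t * Real.exp R := by
        have : ‖a‖ * t ≤ R * t := by gcongr
        have h5 : R * t ≤ R := by nlinarith
        gcongr
        linarith
      calc _ ≤ _ := h1
        _ ≤ _ := h4
        _ = M0 * t := by rw [hM0]; ring
        _ ≤ M0 * Real.sinh t := by gcongr
    have h2 := one_le_two_mul ht ht1
    calc _ ≤ M0 * 1 := by rw [mul_one]; exact hb
      _ ≤ M0 * (2 * (1 + t ^ 2)⁻¹) := by gcongr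
      _ ≤ (2 * M0 + M1) * (1 + t ^ 2)⁻¹ := by
        have : 0 ≤ M1 * (1 + t ^ 2)⁻¹ := by positivity
        nlinarith
  · -- near infinity
    have l1 := le_sinh (w := 1) one_pos ht1.le
    rw [one_mul] at l1
    have h1 := norm_sinh_le_exp (a * t)
    have h2 : (a * (t : ℂ)).re = a.re * t := by simp
    rw [h2, abs_mul, abs_of_pos ht] at h1
    have h3 : Real.exp (|a.re| * t) ≤ Real.exp t * Real.exp (-(e * t)) := by
      rw [← Real.exp_add]
      apply Real.exp_le_exp.2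
      nlinarith
    have h4 : ‖Complex.sinh (a * t)‖ / Real.sinh t ≤ Real.exp (-(e * t)) / cc 1 := by
      rw [div_le_div_iff₀ (by positivity) (by positivity)]
      calc ‖Complex.sinh (a * t)‖ * cc 1
          ≤ (Real.exp t * Real.exp (-(e * t))) * cc 1 := by
            gcongr
            exact h1.trans h3
        _ = Real.exp (-(e * t)) * (cc 1 * Real.exp t) := by ring
        _ ≤ Real.exp (-(e * t)) * Real.sinh t := by gcongr
    have h6 := exp_neg_le he ht.le
    calc _ ≤ _ := h4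
      _ ≤ (1 + 2 / e ^ 2) * (1 + t ^ 2)⁻¹ / cc 1 := by gcongr
      _ = M1 * (1 + t ^ 2)⁻¹ := by rw [hM1]; ring
      _ ≤ (2 * M0 + M1) * (1 + t ^ 2)⁻¹ := by
        have : 0 ≤ 2 * M0 * (1 + t ^ 2)⁻¹ := by positivity
        linarith

theorem integrable_bd (M : ℝ) : Integrable fun t : ℝ => M * (1 + t ^ 2)⁻¹ :=
  integrable_inv_one_add_sq.const_mul M

theorem integrable_of_bd {K : ℝ → ℂ} {M : ℝ} (hK : Measurable K)
    (h : ∀ t, ‖K t‖ ≤ M * (1 + t ^ 2)⁻¹) : Integrable K :=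
  (integrable_bd M).mono' hK.aestronglyMeasurable (Eventually.of_forall h)

theorem integrable_K2 {w1 w2 : ℝ} (hw1 : 0 < w1) (hw2 : 0 < w2) {a : ℂ}
    (ha : |a.re| < w1 + w2) : Integrable (K2 w1 w2 a) := by
  obtain ⟨M, -, hM⟩ := K2_bound hw1 hw2 (e := w1 + w2 - |a.re|) (R := ‖a‖) (by linarith)
    (norm_nonneg _)
  exact integrable_of_bd (measurable_K2 _ _ _) fun t => hM a t (by linarith) le_rfl

theorem integrable_K1 {a : ℂ} (ha : |a.re| < 1) : Integrable (K1 a) := by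
  obtain ⟨M, -, hM⟩ := K1_bound (e := 1 - |a.re|) (R := ‖a‖) (by linarith) (norm_nonneg _)
  exact integrable_of_bd (measurable_K1 _) fun t => hM a t (by linarith) le_rfl

theorem integrable_K1' {a : ℂ} (ha : |a.re| < 1) : Integrable (K1' a) := by
  obtain ⟨M, -, hM⟩ := K1'_bound (e := 1 - |a.re|) (R := ‖a‖) (by linarith) (norm_nonneg _)
  exact integrable_of_bd (measurable_K1' _) fun t => hM a t (by linarith) le_rfl

end Pool.Agent.DS71
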