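import Pool.Agent.Lib.MP_d0f9e0_co.DS71a

/-!
# The integral for `log (2 cos (π a / 2))`
-/

set_option autoImplicit false

open MeasureTheory Filter Topology Set

namespace Pool.Agent.DS71

/-- Half the integral of the kernel `K1`. -/
noncomputable def L1 (a : ℂ) : ℂ := (1 / 2) * ∫ t : ℝ, K1 a t

theorem integral_even {K : ℝ → ℂ} (hK : Integrable K) (hev : ∀ t, K (-t) = K t) :
    ∫ t, K t = 2 * ∫ t in Ioi (0 : ℝ), K t := by
  have h1 := intervalIntegral.integral_Iic_add_Ioi (f := K) (b := 0) (μ := volume)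
    hK.integrableOn hK.integrableOn
  have h2 : ∫ t in Iic (0 : ℝ), K t = ∫ t in Ioi (0 : ℝ), K t := by
    have h3 := integral_comp_neg_Ioi (0 : ℝ) K
    rw [neg_zero] at h3
    rw [← h3]
    exact integral_congr_ae (Eventually.of_forall fun t => hev t)
  rw [← h1, h2]
  ring

theorem hasDerivAt_K1 (a : ℂ) (t : ℝ) : HasDerivAt (fun a => K1 a t) (K1' a t) a := by
  unfold K1 K1'
  rcases eq_or_ne t 0 with rfl | ht
  · simp only [Complex.ofReal_zero, div_zero]
    simp only [Real.sinh_zero, Complex.ofReal_zero, div_zero]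
    exact hasDerivAt_const a 0
  · have htc : (t : ℂ) ≠ 0 := Complex.ofReal_ne_zero.2 ht
    have h1 : HasDerivAt (fun a : ℂ => a * (t : ℂ)) (t : ℂ) a := by
      simpa using (hasDerivAt_id a).mul_const (t : ℂ)
    have h2 := ((h1.ccosh.div_const (Real.sinh t : ℂ)).sub_const (1 / (t : ℂ))).div_const (t : ℂ)
    refine h2.congr_deriv ?_
    rw [mul_div_right_comm, mul_div_assoc, div_self htc, mul_one]

theorem hasDerivAt_int_K1 {a : ℂ} (ha : |a.re| < 1) :
    HasDerivAt (fun a => ∫ t : ℝ, K1 a t) (∫ t : ℝ, K1' a t) a := by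
  set r : ℝ := (1 - |a.re|) / 2 with hr
  have hr0 : 0 < r := by rw [hr]; linarith
  obtain ⟨M, -, hM⟩ := K1'_bound (e := r) (R := ‖a‖ + r) hr0 (by positivity)
  have hball : ∀ x ∈ Metric.ball a r, |x.re| ≤ 1 - r ∧ ‖x‖ ≤ ‖a‖ + r := by
    intro x hx
    rw [Metric.mem_ball, dist_eq_norm] at hx
    constructor
    · have h1 : |(x - a).re| ≤ ‖x - a‖ := Complex.abs_re_le_norm _
      rw [Complex.sub_re] at h1
      have h2 : |x.re| ≤ |a.re| + |x.re - a.re| := by
        calc |x.re| = |a.re + (x.re - a.re)| := by ring_nf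
          _ ≤ _ := abs_add_le _ _
      rw [hr] at hx ⊢
      linarith
    · calc ‖x‖ = ‖a + (x - a)‖ := by ring_nf
        _ ≤ ‖a‖ + ‖x - a‖ := norm_add_le _ _
        _ ≤ _ := by linarith
  have key := hasDerivAt_integral_of_dominated_loc_of_deriv_le (μ := volume)
    (F := K1) (F' := K1') (x₀ := a) (s := Metric.ball a r)
    (bound := fun t => M * (1 + t ^ 2)⁻¹)
    (Metric.ball_mem_nhds a hr0)
    (Eventually.of_forall fun x => (measurable_K1 x).aestronglyMeasurable)
    (integrable_K1 ha)
    (measurable_K1' a).aestronglyMeasurable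
    (Eventually.of_forall fun t x hx => hM x t (hball x hx).1 (hball x hx).2)
    (integrable_bd M)
    (Eventually.of_forall fun t x _ => hasDerivAt_K1 x t)
  exact key.2

/-- The partial sums of the geometric series. -/
theorem partial_sum (a : ℂ) {t : ℝ} (ht : 0 < t) (N : ℕ) :
    ∑ k ∈ Finset.range N, (Complex.exp ((a - (1 + 2 * k)) * t) -
      Complex.exp ((-a - (1 + 2 * k)) * t)) =
      K1' a t * (1 - Complex.exp (-(2 * N * t))) := by
  have hs : Real.sinh t ≠ 0 := (Real.sinh_pos_iff.2 ht).ne'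
  have hsc : (Real.sinh t : ℂ) ≠ 0 := Complex.ofReal_ne_zero.2 hs
  unfold K1'
  induction N with
  | zero => simp
  | succ N ih =>
    rw [Finset.sum_range_succ, ih]
    have e1 : Complex.exp ((a - (1 + 2 * N)) * t) =
        Complex.exp (a * t) * Complex.exp (-t) * Complex.exp (-(2 * N * t)) := by
      rw [← Complex.exp_add, ← Complex.exp_add]
      congr 1
      ring
    have e2 : Complex.exp ((-a - (1 + 2 * N)) * t) =
        Complex.exp (-(a * t)) * Complex.exp (-t) * Complex.exp (-(2 * N * t)) := by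
      rw [← Complex.exp_add, ← Complex.exp_add]
      congr 1
      ring
    have e3 : Complex.exp (-(2 * ((N + 1 : ℕ) : ℂ) * t)) =
        Complex.exp (-(2 * N * t)) * (Complex.exp (-t) * Complex.exp (-t)) := by
      rw [← Complex.exp_add, ← Complex.exp_add]
      congr 1
      push_cast
      ring
    rw [e1, e2, e3]
    have e4 : (Real.sinh t : ℂ) = (Complex.exp t - Complex.exp (-t)) / 2 := by
      rw [Complex.ofReal_sinh, Complex.sinh]
    have e5 : Complex.exp t * Complex.exp (-t) = 1 := by
      rw [← Complex.exp_add, add_neg_cancel, Complex.exp_zero]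
    have e6 : Complex.sinh (a * t) = (Complex.exp (a * t) - Complex.exp (-(a * t))) / 2 := rfl
    rw [e6]
    rw [e4] at hsc ⊢
    generalize Complex.exp (-(2 * N * t)) = X
    generalize Complex.exp (a * t) = A at *
    generalize Complex.exp (-(a * t)) = B at *
    generalize Complex.exp (t : ℂ) = C at *
    generalize Complex.exp (-(t : ℂ)) = D at *
    have hCD : C - D ≠ 0 := by
      intro h
      apply hsc
      rw [h, zero_div]
    field_simp
    linear_combination (A - B) * X * e5

theorem integral_partial {a : ℂ} (ha : |a.re| < 1) (N : ℕ) :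
    ∫ t in Ioi (0 : ℝ), ∑ k ∈ Finset.range N, (Complex.exp ((a - (1 + 2 * k)) * t) -
      Complex.exp ((-a - (1 + 2 * k)) * t)) =
      ∑ k ∈ Finset.range N, (1 / (1 + 2 * k - a) - 1 / (1 + 2 * k + a)) := by
  have hab := abs_lt.1 ha
  have h1 : ∀ k : ℕ, (a - (1 + 2 * k)).re < 0 := by
    intro k
    simp
    have : (0 : ℝ) ≤ k := k.cast_nonneg
    linarith
  have h2 : ∀ k : ℕ, (-a - (1 + 2 * k)).re < 0 := by
    intro k
    simp
    have : (0 : ℝ) ≤ k := k.cast_nonneg
    linarith
  rw [integral_finsetSum]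
  · refine Finset.sum_congr rfl fun k _ => ?_
    rw [integral_sub (integrableOn_exp_mul_complex_Ioi (h1 k) 0)
      (integrableOn_exp_mul_complex_Ioi (h2 k) 0),
      integral_exp_mul_complex_Ioi (h1 k), integral_exp_mul_complex_Ioi (h2 k)]
    have n1 : (a - (1 + 2 * k)) ≠ 0 := by
      intro h
      have := h1 k
      rw [h] at this
      simp at this
    have n2 : (-a - (1 + 2 * k)) ≠ 0 := by
      intro h
      have := h2 k
      rw [h] at this
      simp at this
    have n3 : (1 + 2 * k - a) ≠ 0 := by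
      intro h
      apply n1
      linear_combination -h
    have n4 : (1 + 2 * k + a) ≠ 0 := by
      intro h
      apply n2
      linear_combination -h
    simp only [Complex.ofReal_zero, mul_zero, Complex.exp_zero]
    have q1 : -1 / (a - (1 + 2 * (k : ℂ))) = 1 / (1 + 2 * k - a) := by
      rw [div_eq_div_iff n1 n3]
      ring
    have q2 : -1 / (-a - (1 + 2 * (k : ℂ))) = 1 / (1 + 2 * k + a) := by
      rw [div_eq_div_iff n2 n4]
      ring
    rw [q1, q2]
  · intro k _
    exact (integrableOn_exp_mul_complex_Ioi (h1 k) 0).sub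
      (integrableOn_exp_mul_complex_Ioi (h2 k) 0)

theorem tendsto_integral_partial {a : ℂ} (ha : |a.re| < 1) :
    Tendsto (fun N : ℕ => ∫ t in Ioi (0 : ℝ), ∑ k ∈ Finset.range N,
      (Complex.exp ((a - (1 + 2 * k)) * t) - Complex.exp ((-a - (1 + 2 * k)) * t))) atTop
      (𝓝 (∫ t in Ioi (0 : ℝ), K1' a t)) := by
  refine tendsto_integral_of_dominated_convergence (fun t => ‖K1' a t‖) ?_ ?_ ?_ ?_
  · intro N
    refine Measurable.aestronglyMeasurable ?_
    fun_prop
  · exact (integrable_K1' ha).norm.integrableOn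
  · intro N
    refine (ae_restrict_iff' measurableSet_Ioi).2 (Eventually.of_forall fun t ht => ?_)
    rw [partial_sum a ht N, norm_mul]
    refine mul_le_of_le_one_right (norm_nonneg _) ?_
    have e : (1 - Complex.exp (-(2 * N * t)) : ℂ) = ((1 - Real.exp (-(2 * N * t)) : ℝ) : ℂ) := by
      push_cast
      rfl
    rw [e, Complex.norm_real, Real.norm_eq_abs, abs_le]
    have ht' : (0 : ℝ) < t := ht
    have h1 : Real.exp (-(2 * N * t)) ≤ 1 := by
      rw [← Real.exp_zero]
      apply Real.exp_le_exp.2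
      have : (0 : ℝ) ≤ 2 * N * t := by positivity
      linarith
    have h2 := Real.exp_pos (-(2 * N * t))
    constructor <;> linarith
  · refine (ae_restrict_iff' measurableSet_Ioi).2 (Eventually.of_forall fun t ht => ?_)
    have ht' : (0 : ℝ) < t := ht
    have h1 : Tendsto (fun N : ℕ => K1' a t * (1 - Complex.exp (-(2 * N * t)))) atTop
        (𝓝 (K1' a t * (1 - 0))) := by
      refine Tendsto.const_mul _ (Tendsto.const_sub _ ?_)
      have e : ∀ N : ℕ, Complex.exp (-(2 * N * t)) = ((Real.exp (-(2 * t)) ^ N : ℝ) : ℂ) := by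
        intro N
        rw [← Real.exp_nat_mul, Complex.ofReal_exp]
        congr 1
        push_cast
        ring
      simp_rw [e]
      have h2 : Real.exp (-(2 * t)) < 1 := by
        have h := Real.exp_lt_exp.2 (show -(2 * t) < 0 by linarith)
        rwa [Real.exp_zero] at h
      have h3 := tendsto_pow_atTop_nhds_zero_of_lt_one (Real.exp_pos (-(2 * t))).le h2
      have h4 := (Complex.continuous_ofReal.tendsto 0).comp h3
      rw [Complex.ofReal_zero] at h4
      exact h4
    rw [sub_zero, mul_one] at h1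
    refine h1.congr fun N => ?_
    rw [partial_sum a ht N]

theorem integral_K1' {a : ℂ} (ha : |a.re| < 1) :
    ∫ t : ℝ, K1' a t = Real.pi * Complex.cot (Real.pi * ((1 - a) / 2)) := by
  rw [integral_even (integrable_K1' ha) (K1'_neg a)]
  have hab := abs_lt.1 ha
  set z : ℂ := (1 - a) / 2 with hz
  have hzre : z.re = (1 - a.re) / 2 := by
    rw [hz]
    simp
  have hzc : z ∈ Complex.integerComplement := by
    rw [Complex.mem_integerComplement_iff]
    rintro ⟨n, hn⟩
    have h1 : (n : ℝ) = z.re := by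
      rw [← hn]
      simp
    rw [hzre] at h1
    have h2 : (0 : ℝ) < n := by rw [h1]; linarith
    have h3 : (n : ℝ) < 1 := by rw [h1]; linarith
    have h4 : (0 : ℤ) < n := by exact_mod_cast h2
    have h5 : n < (1 : ℤ) := by exact_mod_cast h3
    omega
  have h1 := tendsto_integral_partial ha
  simp_rw [integral_partial ha] at h1
  have h2 : Tendsto (fun N : ℕ => ∑ k ∈ Finset.range N, (1 / (1 + 2 * k - a) -
      1 / (1 + 2 * k + a))) atTop (𝓝 ((1 / 2) * (Real.pi * Complex.cot (Real.pi * z)))) := by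
    have e : ∀ N : ℕ, ∑ k ∈ Finset.range N, (1 / (1 + 2 * k - a) - 1 / (1 + 2 * k + a)) =
        (1 / 2) * (1 / z + ∑ j ∈ Finset.range N, (1 / (z - (j + 1)) + 1 / (z + (j + 1))) -
          1 / (z + N)) := by
      intro N
      have hne : ∀ m : ℕ, z + (m : ℂ) ≠ 0 := fun m => by
        have := Complex.integerComplement_add_ne_zero hzc (m : ℤ)
        simpa using this
      have hne' : ∀ m : ℕ, z - ((m : ℂ) + 1) ≠ 0 := fun m => by
        have := Complex.integerComplement_add_ne_zero hzc (-((m : ℤ) + 1))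
        intro h
        apply this
        push_cast
        linear_combination h
      induction N with
      | zero => simp
      | succ N ih =>
        rw [Finset.sum_range_succ, Finset.sum_range_succ, ih]
        have q1 : (1 + 2 * N - a : ℂ) = 2 * (z + N) := by rw [hz]; ring
        have q2 : (1 + 2 * N + a : ℂ) = -(2 * (z - (N + 1))) := by rw [hz]; ring
        rw [q1, q2]
        have n1 := hne N
        have n2 := hne' N
        have n3 := hne (N + 1)
        push_cast at n3 ⊢
        have r1 : (1 : ℂ) / (2 * (z + N)) = (1 / 2) * (1 / (z + N)) := by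
          rw [div_mul_div_comm, one_mul]
        have r2 : (1 : ℂ) / (-(2 * (z - (N + 1)))) = -((1 / 2) * (1 / (z - (N + 1)))) := by
          rw [div_mul_div_comm, one_mul, div_neg]
        rw [r1, r2]
        ring
    simp_rw [e]
    refine Tendsto.const_mul _ ?_
    have h3 := tendsto_logDeriv_euler_cot_sub hzc
    have h4 : Tendsto (fun N : ℕ => 1 / (z + N)) atTop (𝓝 0) := by
      have h5 : Tendsto (fun N : ℕ => ‖z + N‖) atTop atTop := by
        refine tendsto_atTop_mono (f := fun N : ℕ => (N : ℝ) - ‖z‖) ?_ ?_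
        · intro N
          have := norm_sub_norm_le ((N : ℂ)) (-z)
          rw [Complex.norm_natCast, norm_neg, sub_neg_eq_add, add_comm] at this
          exact this
        · exact tendsto_atTop_add_const_right _ _ tendsto_natCast_atTop_atTop
      have h6 := tendsto_inv₀_cobounded.comp (tendsto_norm_atTop_iff_cobounded.1 h5)
      refine h6.congr fun N => ?_
      simp
    have h7 := (h3.const_add (1 / z)).sub h4
    have e9 : 1 / z + (Real.pi * Complex.cot (Real.pi * z) - 1 / z) - 0 =
        Real.pi * Complex.cot (Real.pi * z) := by ring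
    rw [e9] at h7
    exact h7
  have h8 := tendsto_nhds_unique h1 h2
  rw [h8]
  ring

theorem isOpen_strip (c : ℝ) : IsOpen {a : ℂ | |a.re| < c} :=
  isOpen_lt (continuous_abs.comp Complex.continuous_re) continuous_const

theorem convex_strip (c : ℝ) : Convex ℝ {a : ℂ | |a.re| < c} := by
  have e : {a : ℂ | |a.re| < c} = Complex.reLm ⁻¹' Ioo (-c) c := by
    ext a
    simp [abs_lt]
  rw [e]
  exact (convex_Ioo (-c) c).linear_preimage _

theorem cos_ne_zero_of {a : ℂ} (ha : |a.re| < 1) : Complex.cos (Real.pi / 2 * a) ≠ 0 := by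
  rw [Complex.cos_ne_zero_iff]
  intro k hk
  have hpi : (Real.pi : ℂ) ≠ 0 := Complex.ofReal_ne_zero.2 Real.pi_ne_zero
  have h1 : a = ((2 * k + 1 : ℤ) : ℂ) := by
    have h2 : (Real.pi / 2 : ℂ) * a = (Real.pi / 2 : ℂ) * (2 * k + 1) := by
      rw [hk]
      ring
    have h3 := mul_left_cancel₀ (div_ne_zero hpi two_ne_zero) h2
    rw [h3]
    push_cast
    ring
  rw [h1, Complex.intCast_re] at ha
  have h4 : |(2 * k + 1 : ℤ)| < 1 := by exact_mod_cast ha
  rw [abs_lt] at h4
  omega

theorem exp_L1_mul_cos_const {a : ℂ} (ha : |a.re| < 1) :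
    Complex.exp (L1 a) * Complex.cos (Real.pi / 2 * a) = Complex.exp (L1 0) := by
  have hd : ∀ x : ℂ, |x.re| < 1 → HasDerivAt (fun a => Complex.exp (L1 a) *
      Complex.cos (Real.pi / 2 * a)) 0 x := by
    intro x hx
    have h1 : HasDerivAt L1 ((1 / 2) * (Real.pi * Complex.cot (Real.pi * ((1 - x) / 2)))) x := by
      have := (hasDerivAt_int_K1 hx).const_mul (1 / 2 : ℂ)
      rw [integral_K1' hx] at this
      exact this
    have h2 := h1.cexp
    have h3 : HasDerivAt (fun a : ℂ => (Real.pi / 2 : ℂ) * a) (Real.pi / 2 : ℂ) x := by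
      simpa using (hasDerivAt_id x).const_mul (Real.pi / 2 : ℂ)
    have h4 := h2.mul h3.ccos
    refine h4.congr_deriv ?_
    have e1 : Complex.cot (Real.pi * ((1 - x) / 2)) =
        Complex.sin (Real.pi / 2 * x) / Complex.cos (Real.pi / 2 * x) := by
      have e2 : (Real.pi * ((1 - x) / 2) : ℂ) = Real.pi / 2 - Real.pi / 2 * x := by ring
      rw [e2, Complex.cot, Complex.cos_pi_div_two_sub, Complex.sin_pi_div_two_sub]
    rw [e1]
    have hc := cos_ne_zero_of hx
    generalize Complex.cos (Real.pi / 2 * x) = C at *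
    generalize Complex.sin (Real.pi / 2 * x) = S at *
    field_simp
    ring
  have hU := isOpen_strip 1
  have h0 : (0 : ℂ) ∈ {a : ℂ | |a.re| < 1} := by simp
  have key := hU.is_const_of_deriv_eq_zero (convex_strip 1).isPreconnected
    (fun x hx => (hd x hx).differentiableAt.differentiableWithinAt)
    (fun x hx => (hd x hx).deriv) ha h0
  have k2 : Complex.exp (L1 a) * Complex.cos (Real.pi / 2 * a) =
      Complex.exp (L1 0) * Complex.cos (Real.pi / 2 * 0) := key
  rw [k2, mul_zero, Complex.cos_zero, mul_one]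

theorem two_mul_L1_half : 2 * L1 (1 / 2) = L1 0 := by
  have e1 : ∀ t : ℝ, K1 (1 / 2) t = (1 / 4) * K1 0 ((1 / 2) * t) := by
    intro t
    rcases eq_or_ne t 0 with rfl | ht
    · rw [mul_zero, K1_zero, K1_zero, mul_zero]
    · have htc : (t : ℂ) ≠ 0 := Complex.ofReal_ne_zero.2 ht
      have hs : Real.sinh ((1 / 2) * t) ≠ 0 := by
        rw [Ne, Real.sinh_eq_zero]
        positivity
      have hc : Real.cosh ((1 / 2) * t) ≠ 0 := (Real.cosh_pos _).ne'
      have hs2 : Real.sinh t = 2 * Real.sinh ((1 / 2) * t) * Real.cosh ((1 / 2) * t) := by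
        rw [← Real.sinh_two_mul]
        congr 1
        ring
      unfold K1
      rw [hs2, zero_mul, Complex.cosh_zero]
      have hc2 : Complex.cosh (1 / 2 * t) = (Real.cosh ((1 / 2) * t) : ℂ) := by
        push_cast
        rfl
      rw [hc2]
      have hsc : (Real.sinh ((1 / 2) * t) : ℂ) ≠ 0 := Complex.ofReal_ne_zero.2 hs
      have hcc : (Real.cosh ((1 / 2) * t) : ℂ) ≠ 0 := Complex.ofReal_ne_zero.2 hc
      generalize Real.sinh ((1 / 2) * t) = S at *
      generalize Real.cosh ((1 / 2) * t) = C at *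
      push_cast
      field_simp
      ring
  unfold L1
  have e2 : ∫ t : ℝ, K1 (1 / 2) t = (1 / 4) * ∫ t : ℝ, K1 0 ((1 / 2) * t) := by
    rw [← integral_const_mul]
    exact integral_congr_ae (Eventually.of_forall e1)
  rw [e2, Measure.integral_comp_mul_left (fun t => K1 0 t) (1 / 2 : ℝ)]
  have e3 : |((1 / 2 : ℝ))⁻¹| = 2 := by norm_num
  rw [e3, Complex.real_smul]
  push_cast
  ring

/-- The closed form. -/
theorem exp_L1 {a : ℂ} (ha : |a.re| < 1) :
    Complex.exp (L1 a) * (2 * Complex.cos (Real.pi / 2 * a)) = 1 := by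
  have hh : |((1 / 2 : ℂ)).re| < 1 := by
    have : ((1 / 2 : ℂ)).re = 1 / 2 := by simp
    rw [this, abs_of_pos (by norm_num)]
    norm_num
  have h1 := exp_L1_mul_cos_const hh
  have hcos : Complex.cos (Real.pi / 2 * (1 / 2)) ^ 2 = 1 / 2 := by
    have h2 := Complex.cos_sq (Real.pi / 2 * (1 / 2))
    rw [h2]
    have e : (2 * (Real.pi / 2 * (1 / 2)) : ℂ) = Real.pi / 2 := by ring
    rw [e, Complex.cos_pi_div_two]
    norm_num
  have h2 : Complex.exp (L1 0) = Complex.exp (L1 (1 / 2)) ^ 2 := by
    rw [← two_mul_L1_half, ← Complex.exp_nat_mul]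
    norm_num
  have h3 : Complex.exp (L1 0) ^ 2 = Complex.exp (L1 0) * (1 / 2) := by
    calc Complex.exp (L1 0) ^ 2
        = Complex.exp (L1 (1 / 2)) ^ 2 * Complex.cos (Real.pi / 2 * (1 / 2)) ^ 2 := by
          rw [← h1]; ring
      _ = _ := by rw [hcos, ← h2]
  have h4 : Complex.exp (L1 0) = 1 / 2 := by
    have := Complex.exp_ne_zero (L1 0)
    apply mul_left_cancel₀ this
    rw [← h3]
    ring
  have h5 := exp_L1_mul_cos_const ha
  rw [h4] at h5
  linear_combination 2 * h5

end Pool.Agent.DS71
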