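import Pool.Agent.Lib.MP_d0f9e0_co.DS71c

/-!
# The double sine function: special values and growth
-/

set_option autoImplicit false

open MeasureTheory Filter Topology Set
open scoped ComplexConjugate FourierTransform

namespace Pool.Agent.DS71

theorem tendsto_sin_div (w : ℝ) :
    Tendsto (fun x : ℝ => Complex.sin (Real.pi * x / w) / x) (𝓝[>] 0) (𝓝 (Real.pi / w)) := by
  have h1 : HasDerivAt (fun x : ℂ => (Real.pi * x / w : ℂ)) (Real.pi / w) ((0 : ℝ) : ℂ) := by
    simpa using ((hasDerivAt_id ((0 : ℝ) : ℂ)).const_mul (Real.pi : ℂ)).div_const (w : ℂ)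
  have h2 : HasDerivAt (fun x : ℝ => Complex.sin (Real.pi * (x : ℂ) / w))
      (Complex.cos (Real.pi * ((0 : ℝ) : ℂ) / w) * (Real.pi / w)) 0 := h1.csin.comp_ofReal
  have h3 := h2.tendsto_slope_zero_right
  simp only [Complex.ofReal_zero, mul_zero, zero_div, Complex.cos_zero, one_mul, zero_add,
    Complex.sin_zero, sub_zero] at h3
  refine h3.congr fun x => ?_
  rw [Complex.real_smul, Complex.ofReal_inv]
  exact (div_eq_inv_mul _ _).symm

theorem Sd_w1_mul {w1 w2 : ℝ} (hw1 : 0 < w1) (hw2 : 0 < w2) :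
    Sd w1 w2 w1 * (Real.pi / w2) = Sd w1 w2 w2 * (Real.pi / w1) := by
  have hc : Tendsto (fun x : ℝ => (x : ℂ)) (𝓝[>] 0) (𝓝 0) := by
    have := (Complex.continuous_ofReal.tendsto 0).mono_left
      (nhdsWithin_le_nhds (s := Ioi (0 : ℝ)))
    simpa using this
  have c1 : Tendsto (fun x : ℝ => Sd w1 w2 (x + w1)) (𝓝[>] 0) (𝓝 (Sd w1 w2 w1)) := by
    have h : ContinuousAt (Sd w1 w2) (w1 : ℂ) :=
      continuousAt_Sd hw1 hw2 (by simpa using hw1) (by simpa using hw2)
    have h2 : Tendsto (fun x : ℝ => (x : ℂ) + w1) (𝓝[>] 0) (𝓝 (w1 : ℂ)) := by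
      simpa using hc.add_const (w1 : ℂ)
    exact h.tendsto.comp h2
  have c2 : Tendsto (fun x : ℝ => Sd w1 w2 (x + w2)) (𝓝[>] 0) (𝓝 (Sd w1 w2 w2)) := by
    have h : ContinuousAt (Sd w1 w2) (w2 : ℂ) :=
      continuousAt_Sd hw1 hw2 (by simpa using hw2) (by simpa using hw1)
    have h2 : Tendsto (fun x : ℝ => (x : ℂ) + w2) (𝓝[>] 0) (𝓝 (w2 : ℂ)) := by
      simpa using hc.add_const (w2 : ℂ)
    exact h.tendsto.comp h2
  have t1 := c1.mul (tendsto_sin_div w2)
  have t2 := c2.mul (tendsto_sin_div w1)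
  refine tendsto_nhds_unique t1 (t2.congr' ?_)
  have hm : 0 < min w1 w2 := lt_min hw1 hw2
  filter_upwards [Ioo_mem_nhdsGT hm] with x hx
  have hx1 : x < w1 := hx.2.trans_le (min_le_left _ _)
  have hx2 : x < w2 := hx.2.trans_le (min_le_right _ _)
  have e1 := Sd_add hw1 hw2 (z := x) (by simpa using hx.1) (by simpa using hx2)
  have e2 := Sd_add' hw1 hw2 (z := x) (by simpa using hx.1) (by simpa using hx1)
  rw [← e2] at e1
  linear_combination (-(1 / (2 * (x : ℂ)))) * e1

/-- The value at the period. -/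
theorem Sd_w1 {w1 w2 : ℝ} (hw1 : 0 < w1) (hw2 : 0 < w2) :
    Sd w1 w2 w1 = ((√(w2 / w1) : ℝ) : ℂ) := by
  have h1 := Sd_w1_mul hw1 hw2
  have h2 := Sd_refl w1 w2 (w1 : ℂ)
  have e : (w1 + w2 - w1 : ℂ) = w2 := by ring
  rw [e] at h2
  have hw1c : (w1 : ℂ) ≠ 0 := Complex.ofReal_ne_zero.2 hw1.ne'
  have hw2c : (w2 : ℂ) ≠ 0 := Complex.ofReal_ne_zero.2 hw2.ne'
  have hpi : (Real.pi : ℂ) ≠ 0 := Complex.ofReal_ne_zero.2 Real.pi_ne_zero
  have h3 : Sd w1 w2 w1 ^ 2 = w2 / w1 := by
    have h4 : Sd w1 w2 w1 * w1 = Sd w1 w2 w2 * w2 := by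
      field_simp at h1
      linear_combination h1
    field_simp
    linear_combination Sd w1 w2 w1 * h4 + w2 * h2
  rw [Sd_ofReal] at h3 ⊢
  have h5 : Real.exp (-(L2 w1 w2 ((w1 + w2 - 2 * w1 : ℝ) : ℂ)).re) ^ 2 = w2 / w1 := by
    exact_mod_cast h3
  congr 1
  rw [← h5, Real.sqrt_sq (Real.exp_pos _).le]

/-- The real kernel. -/
noncomputable def k2 (w1 w2 a t : ℝ) : ℝ :=
  (Real.sinh (a * t) / (2 * Real.sinh (w1 * t) * Real.sinh (w2 * t)) - a / (2 * w1 * w2 * t)) / t

/-- The real kernel for the period `1`. -/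
noncomputable def k1 (t : ℝ) : ℝ := (1 / Real.sinh t - 1 / t) / t

/-- The kernel `(1 - cos (b t)) / t ^ 2`. -/
noncomputable def cz (b t : ℝ) : ℝ := (1 - Real.cos (b * t)) / t ^ 2

theorem K2_ofReal (w1 w2 a t : ℝ) : K2 w1 w2 (a : ℂ) t = ((k2 w1 w2 a t : ℝ) : ℂ) := by
  unfold K2 k2
  push_cast
  rfl

theorem K1_zero_eq (t : ℝ) : K1 0 t = ((k1 t : ℝ) : ℂ) := by
  unfold K1 k1
  rw [zero_mul, Complex.cosh_zero]
  push_cast
  rfl

theorem K2_re (w1 w2 a b t : ℝ) : (K2 w1 w2 (a + b * Complex.I) t).re =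
    Real.cos (b * t) * k2 w1 w2 a t - a / (2 * w1 * w2) * cz b t := by
  have e1 : Complex.sinh ((a + b * Complex.I) * t) =
      ((Real.sinh (a * t) * Real.cos (b * t) : ℝ) : ℂ) +
      ((Real.cosh (a * t) * Real.sin (b * t) : ℝ) : ℂ) * Complex.I := by
    have : (a + b * Complex.I) * t = ((a * t : ℝ) : ℂ) + ((b * t : ℝ) : ℂ) * Complex.I := by
      push_cast
      ring
    rw [this, Complex.sinh_add, Complex.cosh_mul_I, Complex.sinh_mul_I]
    push_cast
    ring
  have e2 : K2 w1 w2 (a + b * Complex.I) t =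
      (((Real.sinh (a * t) * Real.cos (b * t) / (2 * Real.sinh (w1 * t) * Real.sinh (w2 * t)) -
        a / (2 * w1 * w2 * t)) / t : ℝ) : ℂ) +
      (((Real.cosh (a * t) * Real.sin (b * t) / (2 * Real.sinh (w1 * t) * Real.sinh (w2 * t)) -
        b / (2 * w1 * w2 * t)) / t : ℝ) : ℂ) * Complex.I := by
    unfold K2
    rw [e1]
    simp only [Complex.ofReal_div, Complex.ofReal_sub, Complex.ofReal_mul, Complex.ofReal_ofNat]
    ring
  rw [e2]
  have e3 : ∀ X Y : ℝ, ((X : ℂ) + (Y : ℂ) * Complex.I).re = X := by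
    intro X Y
    simp
  rw [e3, k2, cz]
  ring

theorem K1_re (b t : ℝ) : (K1 (b * Complex.I) t).re = Real.cos (b * t) * k1 t - cz b t := by
  have e1 : Complex.cosh ((b * Complex.I) * t) = ((Real.cos (b * t) : ℝ) : ℂ) := by
    have : (b * Complex.I) * t = ((b * t : ℝ) : ℂ) * Complex.I := by
      push_cast
      ring
    rw [this, Complex.cosh_mul_I]
    push_cast
    rfl
  have e2 : K1 (b * Complex.I) t =
      (((Real.cos (b * t) / Real.sinh t - 1 / t) / t : ℝ) : ℂ) := by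
    unfold K1
    rw [e1]
    push_cast
    rfl
  rw [e2, Complex.ofReal_re, k1, cz]
  ring

theorem cz_nonneg (b t : ℝ) : 0 ≤ cz b t :=
  div_nonneg (by linarith [Real.cos_le_one (b * t)]) (sq_nonneg t)

theorem cz_le (b t : ℝ) : cz b t ≤ (b ^ 2 / 2 + 2) * (1 + t ^ 2)⁻¹ := by
  rw [← div_eq_mul_inv, le_div_iff₀ (by positivity)]
  rcases eq_or_ne t 0 with rfl | ht
  · simp [cz]
    positivity
  · have h1 : cz b t * t ^ 2 = 1 - Real.cos (b * t) := by
      unfold cz
      field_simp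
    have h2 := Real.one_sub_sq_div_two_le_cos (x := b * t)
    have h3 := Real.neg_one_le_cos (b * t)
    have h4 : cz b t ≤ b ^ 2 / 2 := by
      unfold cz
      rw [div_le_iff₀ (by positivity)]
      nlinarith
    nlinarith

theorem integrable_cz (b : ℝ) : Integrable (cz b) := by
  refine (integrable_bd (b ^ 2 / 2 + 2)).mono' ?_ (Eventually.of_forall fun t => ?_)
  · refine Measurable.aestronglyMeasurable ?_
    unfold cz
    fun_prop
  · rw [Real.norm_eq_abs, abs_of_nonneg (cz_nonneg b t)]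
    exact cz_le b t

theorem integrable_k2 {w1 w2 a : ℝ} (hw1 : 0 < w1) (hw2 : 0 < w2) (ha : |a| < w1 + w2) :
    Integrable (k2 w1 w2 a) := by
  have h := (integrable_K2 hw1 hw2 (a := (a : ℂ)) (by simpa using ha)).re
  refine h.congr (Eventually.of_forall fun t => ?_)
  simp [K2_ofReal]

theorem integrable_k1 : Integrable k1 := by
  have h := (integrable_K1 (a := 0) (by simp)).re
  refine h.congr (Eventually.of_forall fun t => ?_)
  simp [K1_zero_eq]

theorem integrable_cos_mul {f : ℝ → ℝ} (hf : Integrable f) (b : ℝ) :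
    Integrable fun t => Real.cos (b * t) * f t := by
  refine hf.bdd_mul (c := 1) ?_ (Eventually.of_forall fun t => ?_)
  · exact (by fun_prop : Continuous fun t : ℝ => Real.cos (b * t)).aestronglyMeasurable
  · rw [Real.norm_eq_abs]
    exact Real.abs_cos_le_one _

theorem abs_integral_cos_mul_le {f : ℝ → ℝ} (hf : Integrable f) (b : ℝ) :
    |∫ t, Real.cos (b * t) * f t| ≤ ∫ t, |f t| := by
  refine (norm_integral_le_integral_norm (fun t => Real.cos (b * t) * f t)).trans ?_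
  refine integral_mono (integrable_cos_mul hf b).norm hf.norm fun t => ?_
  simp only [norm_mul, Real.norm_eq_abs]
  exact mul_le_of_le_one_left (abs_nonneg _) (Real.abs_cos_le_one _)

/-- Half the integral of `(1 - cos (b t)) / t ^ 2`. -/
noncomputable def Kf (b : ℝ) : ℝ := (1 / 2) * ∫ t, cz b t

theorem re_half_mul (z : ℂ) : ((1 / 2 : ℂ) * z).re = (1 / 2) * z.re := by
  have : (1 / 2 : ℂ) = ((1 / 2 : ℝ) : ℂ) := by push_cast; rfl
  rw [this, Complex.re_ofReal_mul]

theorem integral_re' {K : ℝ → ℂ} (hK : Integrable K) : (∫ t, K t).re = ∫ t, (K t).re :=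
  (Complex.reCLM.integral_comp_comm hK).symm

theorem L2_re' {w1 w2 a : ℝ} (hw1 : 0 < w1) (hw2 : 0 < w2) (ha : |a| < w1 + w2) (b : ℝ) :
    (L2 w1 w2 (a + b * Complex.I)).re =
      (1 / 2) * (∫ t, Real.cos (b * t) * k2 w1 w2 a t) - a / (2 * w1 * w2) * Kf b := by
  have hre : ((a : ℂ) + b * Complex.I).re = a := by simp
  have hi : Integrable (K2 w1 w2 (a + b * Complex.I)) :=
    integrable_K2 hw1 hw2 (by rw [hre]; exact ha)
  unfold L2 Kf
  rw [re_half_mul, integral_re' hi]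
  simp_rw [K2_re]
  rw [integral_sub (integrable_cos_mul (integrable_k2 hw1 hw2 ha) b)
    ((integrable_cz b).const_mul _), integral_const_mul]
  ring

theorem L1_re' (b : ℝ) : (L1 (b * Complex.I)).re =
    (1 / 2) * (∫ t, Real.cos (b * t) * k1 t) - Kf b := by
  have hre : ((b : ℂ) * Complex.I).re = 0 := by simp
  have hi : Integrable (K1 (b * Complex.I)) := integrable_K1 (by rw [hre]; simp)
  unfold L1 Kf
  rw [re_half_mul, integral_re' hi]
  simp_rw [K1_re]
  rw [integral_sub (integrable_cos_mul integrable_k1 b) (integrable_cz b)]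
  ring

theorem L1_re_eq (b : ℝ) : (L1 (b * Complex.I)).re = -Real.log (2 * Real.cosh (Real.pi / 2 * b)) := by
  have hre : ((b : ℂ) * Complex.I).re = 0 := by simp
  have h := exp_L1 (a := b * Complex.I) (by rw [hre]; simp)
  have e : (Real.pi / 2 * (b * Complex.I) : ℂ) = ((Real.pi / 2 * b : ℝ) : ℂ) * Complex.I := by
    push_cast
    ring
  rw [e, Complex.cos_mul_I] at h
  have h2 : ‖Complex.exp (L1 (b * Complex.I)) *
      (2 * Complex.cosh ((Real.pi / 2 * b : ℝ) : ℂ))‖ = 1 := by rw [h, norm_one]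
  rw [norm_mul, Complex.norm_exp, norm_mul, Complex.norm_ofNat, ← Complex.ofReal_cosh,
    Complex.norm_real, Real.norm_eq_abs, abs_of_pos (Real.cosh_pos _)] at h2
  have hc : 0 < 2 * Real.cosh (Real.pi / 2 * b) := by
    have := Real.cosh_pos (Real.pi / 2 * b)
    positivity
  have h3 : Real.exp (L1 (b * Complex.I)).re = (2 * Real.cosh (Real.pi / 2 * b))⁻¹ := eq_inv_of_mul_eq_one_left h2
  rw [← Real.log_inv, ← h3, Real.log_exp]

theorem Kf_neg (b : ℝ) : Kf (-b) = Kf b := by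
  unfold Kf cz
  simp only [neg_mul, Real.cos_neg]

theorem Kf_pos {b : ℝ} (hb : 0 < b) : Kf b = b * Kf 1 := by
  have h1 : ∀ t : ℝ, cz b t = b ^ 2 * cz 1 (b * t) := by
    intro t
    unfold cz
    rw [one_mul]
    rcases eq_or_ne t 0 with rfl | ht
    · simp
    · field_simp
  unfold Kf
  have h2 : ∫ t, cz b t = b ^ 2 * ∫ t, cz 1 (b * t) := by
    rw [← integral_const_mul]
    exact integral_congr_ae (Eventually.of_forall h1)
  rw [h2, Measure.integral_comp_mul_left (fun t => cz 1 t) b, smul_eq_mul,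
    abs_of_pos (inv_pos.2 hb)]
  field_simp

theorem Kf_one : Kf 1 = Real.pi / 2 := by
  set D : ℝ := (1 / 2) * ∫ t, |k1 t| with hD
  have hpi := Real.pi_pos
  have key : ∀ b : ℝ, 0 < b → b * |Kf 1 - Real.pi / 2| ≤ Real.log 2 + D := by
    intro b hb
    have h1 := L1_re' b
    rw [L1_re_eq, Kf_pos hb] at h1
    have h2 := abs_integral_cos_mul_le integrable_k1 b
    set c : ℝ := Real.pi / 2 * b with hc
    have hc0 : 0 < c := by positivity
    have h3 : c ≤ Real.log (2 * Real.cosh c) := by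
      rw [Real.le_log_iff_exp_le (by have := Real.cosh_pos c; positivity), Real.cosh_eq]
      have := Real.exp_pos (-c)
      linarith
    have h4 : Real.log (2 * Real.cosh c) ≤ c + Real.log 2 := by
      rw [Real.log_le_iff_le_exp (by have := Real.cosh_pos c; positivity), Real.exp_add,
        Real.exp_log two_pos, Real.cosh_eq]
      have : Real.exp (-c) ≤ Real.exp c := Real.exp_le_exp.2 (by linarith)
      linarith
    have h5 : b * (Kf 1 - Real.pi / 2) =
        Real.log (2 * Real.cosh c) - c + (1 / 2) * ∫ t, Real.cos (b * t) * k1 t := by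
      rw [hc] at h1 ⊢
      linarith
    have h6 : b * |Kf 1 - Real.pi / 2| = |b * (Kf 1 - Real.pi / 2)| := by
      rw [abs_mul, abs_of_pos hb]
    rw [h6, h5]
    refine (abs_add_le _ _).trans ?_
    have h7 : |Real.log (2 * Real.cosh c) - c| ≤ Real.log 2 := by
      rw [abs_of_nonneg (by linarith)]
      linarith
    have h8 : |(1 / 2) * ∫ t, Real.cos (b * t) * k1 t| ≤ D := by
      rw [abs_mul, abs_of_pos (by norm_num : (0 : ℝ) < 1 / 2), hD]
      linarith
    linarith
  by_contra hne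
  have hpos : 0 < |Kf 1 - Real.pi / 2| := abs_pos.2 (sub_ne_zero.2 hne)
  have hD0 : 0 ≤ D := by
    rw [hD]
    have : 0 ≤ ∫ t, |k1 t| := integral_nonneg fun t => abs_nonneg _
    positivity
  have hl : 0 ≤ Real.log 2 := Real.log_nonneg (by norm_num)
  have h := key ((Real.log 2 + D + 1) / |Kf 1 - Real.pi / 2|) (by positivity)
  rw [div_mul_cancel₀ _ hpos.ne'] at h
  linarith

theorem Kf_eq (b : ℝ) : Kf b = Real.pi / 2 * |b| := by
  rcases lt_trichotomy b 0 with hb | rfl | hb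
  · rw [← Kf_neg, Kf_pos (by linarith : 0 < -b), Kf_one, abs_of_neg hb]
    ring
  · simp [Kf, cz]
  · rw [Kf_pos hb, Kf_one, abs_of_pos hb]
    ring

/-- The real part of the logarithm. -/
theorem L2_re {w1 w2 a : ℝ} (hw1 : 0 < w1) (hw2 : 0 < w2) (ha : |a| < w1 + w2) (b : ℝ) :
    (L2 w1 w2 (a + b * Complex.I)).re =
      (1 / 2) * (∫ t, Real.cos (b * t) * k2 w1 w2 a t) -
        a / (2 * w1 * w2) * (Real.pi / 2 * |b|) := by
  rw [L2_re' hw1 hw2 ha, Kf_eq]

/-- The modulus of the double sine function. -/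
theorem norm_Sd {w1 w2 : ℝ} (hw1 : 0 < w1) (hw2 : 0 < w2) {z : ℂ} (h0 : 0 < z.re)
    (h1 : z.re < w1 + w2) :
    ‖Sd w1 w2 z‖ = Real.exp (Real.pi * ((w1 + w2) / 2 - z.re) / (w1 * w2) * |z.im| -
      (1 / 2) * ∫ t, Real.cos (2 * z.im * t) * k2 w1 w2 (w1 + w2 - 2 * z.re) t) := by
  unfold Sd
  have e : (w1 + w2 - 2 * z : ℂ) =
      ((w1 + w2 - 2 * z.re : ℝ) : ℂ) + ((-(2 * z.im) : ℝ) : ℂ) * Complex.I := by
    apply Complex.ext <;> simp
  have ha : |w1 + w2 - 2 * z.re| < w1 + w2 := by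
    rw [abs_lt]
    constructor <;> linarith
  rw [Complex.norm_exp, Complex.neg_re, e, L2_re hw1 hw2 ha, abs_neg, abs_mul,
    abs_of_pos (two_pos : (0 : ℝ) < 2)]
  simp only [neg_mul, Real.cos_neg]
  congr 1
  field_simp
  ring

/-- The Riemann-Lebesgue lemma for the cosine. -/
theorem tendsto_cos_integral {f : ℝ → ℝ} (hf : Integrable f) :
    Tendsto (fun b : ℝ => ∫ t, Real.cos (b * t) * f t) atTop (𝓝 0) := by
  have h := Real.tendsto_integral_exp_smul_cocompact (fun t => (f t : ℂ))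
  have h1 : Tendsto (fun b : ℝ => b / (2 * Real.pi)) atTop (cocompact ℝ) := by
    refine Tendsto.mono_right ?_ (atTop_le_cocompact (α := ℝ))
    exact Tendsto.atTop_div_const (by have := Real.pi_pos; positivity) tendsto_id
  have h2 := (Complex.continuous_re.tendsto 0).comp (h.comp h1)
  rw [Complex.zero_re] at h2
  refine h2.congr fun b => ?_
  have hi : Integrable fun v : ℝ => 𝐞 (-(v * (b / (2 * Real.pi)))) • (f v : ℂ) := by
    have := (Real.fourierIntegral_convergent_iff (f := fun t => (f t : ℂ)) (V := ℝ)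
      (μ := volume) (b / (2 * Real.pi))).2 hf.ofReal
    refine this.congr (Eventually.of_forall fun v => ?_)
    simp [mul_comm]
  simp only [Function.comp_apply]
  rw [integral_re' hi]
  refine integral_congr_ae (Eventually.of_forall fun t => ?_)
  have hpi := Real.pi_pos
  simp only [Circle.smul_def, Real.fourierChar_apply, smul_eq_mul]
  have e : ((2 * Real.pi * (-(t * (b / (2 * Real.pi)))) : ℝ) : ℂ) * Complex.I =
      ((-(b * t) : ℝ) : ℂ) * Complex.I := by
    congr 2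
    field_simp
  rw [e, Complex.exp_mul_I, ← Complex.ofReal_cos, ← Complex.ofReal_sin, Real.cos_neg]
  have e3 : ∀ c s r : ℝ, (((c : ℂ) + (s : ℂ) * Complex.I) * (r : ℂ)).re = c * r := by
    intro c s r
    simp
  exact e3 _ _ _

/-- The limit of the normalised modulus. -/
theorem tendsto_norm_Sd {w1 w2 x : ℝ} (hw1 : 0 < w1) (hw2 : 0 < w2) (h0 : 0 < x)
    (h1 : x < w1 + w2) :
    Tendsto (fun y : ℝ => ‖Sd w1 w2 (x + y * Complex.I)‖ *
      Real.exp (-(Real.pi * ((w1 + w2) / 2 - x) / (w1 * w2) * y))) atTop (𝓝 1) := by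
  have ha : |w1 + w2 - 2 * x| < w1 + w2 := by
    rw [abs_lt]
    constructor <;> linarith
  have h2 := tendsto_cos_integral (integrable_k2 hw1 hw2 ha)
  have h3 : Tendsto (fun y : ℝ => 2 * y) atTop atTop :=
    Tendsto.const_mul_atTop two_pos tendsto_id
  have h4 := ((h2.comp h3).const_mul (-(1 / 2 : ℝ)))
  have h5 := (Real.continuous_exp.tendsto _).comp h4
  rw [mul_zero, Real.exp_zero] at h5
  refine h5.congr' ?_
  filter_upwards [eventually_ge_atTop 0] with y hy
  have hre : ((x : ℂ) + y * Complex.I).re = x := by simp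
  have him : ((x : ℂ) + y * Complex.I).im = y := by simp
  rw [norm_Sd hw1 hw2 (by rw [hre]; exact h0) (by rw [hre]; exact h1), hre, him, ← Real.exp_add,
    abs_of_nonneg hy]
  simp only [Function.comp_apply]
  congr 1
  ring

/-- Growth of the reciprocal double sine function, uniformly on compact subintervals. -/
theorem growth {w1 w2 : ℝ} (hw1 : 0 < w1) (hw2 : 0 < w2) {p q : ℝ} (hp : 0 < p)
    (hq : q < w1 + w2) :
    ∃ C : ℝ, ∀ z : ℂ, p ≤ z.re → z.re ≤ q →
      ‖(Sd w1 w2 z)⁻¹‖ ≤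
        C * Real.exp (-(Real.pi * ((w1 + w2) / 2 - z.re) / (w1 * w2) * |z.im|)) := by
  set e : ℝ := min (2 * p) (2 * (w1 + w2 - q)) with he
  have he0 : 0 < e := lt_min (by linarith) (by linarith)
  obtain ⟨M, hM0, hM⟩ := K2_bound hw1 hw2 (e := e) (R := w1 + w2) he0 (by positivity)
  refine ⟨Real.exp ((1 / 2) * ∫ t : ℝ, M * (1 + t ^ 2)⁻¹), fun z hz1 hz2 => ?_⟩
  have h0 : 0 < z.re := by linarith
  have h1 : z.re < w1 + w2 := by linarith
  rw [norm_inv, norm_Sd hw1 hw2 h0 h1, ← Real.exp_neg, ← Real.exp_add]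
  apply Real.exp_le_exp.2
  set a : ℝ := w1 + w2 - 2 * z.re with ha
  have ha1 : |a| < w1 + w2 := by
    rw [ha, abs_lt]
    constructor <;> linarith
  have ha2 : |a| ≤ w1 + w2 - e := by
    have e1 : e ≤ 2 * p := min_le_left _ _
    have e2 : e ≤ 2 * (w1 + w2 - q) := min_le_right _ _
    rw [ha, abs_le]
    constructor <;> linarith
  have hk := integrable_k2 hw1 hw2 ha1
  have h3 := abs_integral_cos_mul_le hk (2 * z.im)
  have h4 : ∫ t, |k2 w1 w2 a t| ≤ ∫ t : ℝ, M * (1 + t ^ 2)⁻¹ := by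
    refine integral_mono hk.norm (integrable_bd M) fun t => ?_
    have h5 := hM (a : ℂ) t (by simpa using ha2) (by
      rw [Complex.norm_real, Real.norm_eq_abs]
      exact ha1.le)
    rw [K2_ofReal, Complex.norm_real] at h5
    exact h5
  have h6 := (le_abs_self _).trans (h3.trans h4)
  linarith

/-- The functional equations for the reciprocal. -/
noncomputable def gd (β : ℝ) (z : ℂ) : ℂ := (Sd 1 β z)⁻¹

end Pool.Agent.DS71
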