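import Pool.Agent.Lib.MP_d0f9e0_co.DS71d
import Pool.Agent.Lib.MP_d0f9e0_co.B94b

/-!
# The reciprocal double sine function satisfies the interface of the beta integral
-/

set_option autoImplicit false

open MeasureTheory Filter Topology Set

namespace Pool.Agent.DS71

theorem ds {β : ℝ} (hβ : 1 < β) (hirr : Irrational β) : B94.DS β (gd β) where
  one_lt := hβ
  irr := hirr
  diff := by
    have h := differentiableOn_Sd (w1 := 1) (w2 := β) one_pos (by linarith)
    exact h.inv fun z _ => Sd_ne_zero 1 β z
  ne := fun z _ _ => inv_ne_zero (Sd_ne_zero 1 β z)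
  add_one := by
    intro z h0 h1
    have h := Sd_add (w1 := 1) (w2 := β) one_pos (by linarith) h0 h1
    rw [Complex.ofReal_one] at h
    have n1 := Sd_ne_zero 1 β z
    have n2 := Sd_ne_zero 1 β (z + 1)
    unfold gd
    rw [← h]
    have n3 : 2 * Complex.sin (Real.pi * z / β) ≠ 0 := by
      intro h3
      rw [h3, mul_zero] at h
      exact n1 h.symm
    rw [mul_inv, mul_comm (2 * Complex.sin (Real.pi * z / β)) (_ * _), mul_assoc,
      inv_mul_cancel₀ n3, mul_one]
  add_beta := by
    intro z h0 h1
    have h := Sd_add' (w1 := 1) (w2 := β) one_pos (by linarith) h0 h1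
    rw [Complex.ofReal_one, div_one] at h
    have n1 := Sd_ne_zero 1 β z
    have n2 := Sd_ne_zero 1 β (z + β)
    unfold gd
    rw [← h]
    have n3 : 2 * Complex.sin (Real.pi * z) ≠ 0 := by
      intro h3
      rw [h3, mul_zero] at h
      exact n1 h.symm
    rw [mul_inv, mul_comm (2 * Complex.sin (Real.pi * z)) (_ * _), mul_assoc,
      inv_mul_cancel₀ n3, mul_one]
  refl := by
    intro z _ _
    have h := Sd_refl 1 β z
    rw [Complex.ofReal_one] at h
    unfold gd
    rw [← mul_inv, h, inv_one]
  g_one := by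
    have h := Sd_w1 (w1 := 1) (w2 := β) one_pos (by linarith)
    rw [Complex.ofReal_one, div_one] at h
    unfold gd
    rw [h, ← Complex.ofReal_inv, one_div]
  growth := by
    intro a b ha hb
    obtain ⟨C, hC⟩ := growth (w1 := 1) (w2 := β) one_pos (by linarith) ha hb
    refine ⟨C, fun z hz1 hz2 => ?_⟩
    have h := hC z hz1 hz2
    rw [one_mul] at h
    exact h

end Pool.Agent.DS71
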