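import Pool.Agent.Lib.MP_d0f9e0_co.DS71d
import Pool.Agent.Lib.MP_d0f9e0_co.SH.Cone

/-!
# The real double sine function satisfies the interface of the Shintani layer
-/

set_option autoImplicit false

open Set

namespace Pool.Agent.DS71

/-- The real double sine function. -/
noncomputable def Sr (a b z : ℝ) : ℝ := (Sd a b (z : ℂ)).re

theorem Sd_eq_Sr (a b z : ℝ) : Sd a b (z : ℂ) = ((Sr a b z : ℝ) : ℂ) := by
  unfold Sr
  rw [Sd_ofReal, Complex.ofReal_re]

theorem Sr_pos (a b z : ℝ) : 0 < Sr a b z := Sd_re_pos a b z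

theorem Sr_shift {a b z : ℝ} (ha : 0 < a) (hb : 0 < b) (h0 : 0 < z) (h1 : z < b) :
    Sr a b (z + a) = Sr a b z / (2 * Real.sin (Real.pi * (z / b))) := by
  have h := Sd_add ha hb (z := (z : ℂ)) (by simpa using h0) (by simpa using h1)
  have e1 : ((z : ℂ) + (a : ℂ)) = ((z + a : ℝ) : ℂ) := by push_cast; rfl
  have e2 : (Real.pi * (z : ℂ) / b : ℂ) = ((Real.pi * (z / b) : ℝ) : ℂ) := by
    push_cast
    ring
  rw [e1, e2, Sd_eq_Sr, Sd_eq_Sr, ← Complex.ofReal_sin] at h
  have h2 : Sr a b (z + a) * (2 * Real.sin (Real.pi * (z / b))) = Sr a b z := by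
    exact_mod_cast h
  have h3 : 0 < Real.sin (Real.pi * (z / b)) := by
    apply Real.sin_pos_of_pos_of_lt_pi
    · have := Real.pi_pos
      positivity
    · have h4 : z / b < 1 := (div_lt_one hb).2 h1
      have := Real.pi_pos
      nlinarith
  rw [eq_div_iff (by positivity), h2]

theorem shDS : Pool.MP_d0f9e0_co.SH.DS Sr where
  pos := fun a b z _ _ _ _ _ => Sr_pos a b z
  cont := by
    intro a b ha hb _
    have h := (differentiableOn_Sd ha hb).continuousOn
    have h2 : ContinuousOn (fun x : ℝ => Sd a b (x : ℂ)) (Ioo 0 (a + b)) := by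
      refine h.comp Complex.continuous_ofReal.continuousOn ?_
      intro x hx
      exact ⟨by simpa using hx.1, by simpa using hx.2⟩
    exact Complex.continuous_re.comp_continuousOn h2
  shift := fun a b z ha hb _ h0 h1 => Sr_shift ha hb h0 h1
  symm := by
    intro a b z _ _ _ _ _
    unfold Sr
    rw [Sd_comm]
  refl := by
    intro a b z _ _ _ _ _
    have h := Sd_refl a b (z : ℂ)
    have e : ((a : ℂ) + b - z) = ((a + b - z : ℝ) : ℂ) := by push_cast; rfl
    rw [e, Sd_eq_Sr, Sd_eq_Sr] at h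
    have h2 : Sr a b z * Sr a b (a + b - z) = 1 := by exact_mod_cast h
    rw [mul_comm]
    exact h2
  homog := by
    intro l a b z hl _ _ _ _ _
    unfold Sr
    rw [Complex.ofReal_mul, Sd_scale hl]

end Pool.Agent.DS71
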