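import Mathlib

set_option autoImplicit false

/-!
KEY LEMMA (KL), note 9360, part 1: characteristic `q` algebra.
If `b : ZMod (q^m) → F` has constant self convolution then the restriction of `b` to every
coset of the subgroup of order `q` is a polynomial function of degree at most `(q-1)/2`.
-/

namespace Pool.MP_d0f9e0_co.KL

open Polynomial Finset

section CharQ

variable {F : Type*} [Field F]

/-- the shift operator on functions on `ZMod N` -/
noncomputable def S (F : Type*) [Field F] (N : ℕ) : Module.End F (ZMod N → F) :=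
  LinearMap.funLeft F F (fun x => x - 1)

theorem S_pow_apply (N k : ℕ) (f : ZMod N → F) (x : ZMod N) :
    ((S F N) ^ k) f x = f (x - k) := by
  induction k generalizing x with
  | zero => simp
  | succ k ih =>
    rw [pow_succ', Module.End.mul_apply]
    show ((S F N) ^ k) f (x - 1) = _
    rw [ih]
    congr 1
    push_cast
    ring

theorem geom_eq (q : ℕ) [Fact q.Prime] [CharP F q] (m : ℕ) :
    (∑ k ∈ range (q ^ m), (X : F[X]) ^ k) = (X - 1) ^ (q ^ m - 1) := by
  have hN : 1 ≤ q ^ m := Nat.one_le_pow _ _ (Fact.out (p := q.Prime)).pos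
  have h1 : (∑ k ∈ range (q ^ m), (X : F[X]) ^ k) * (X - 1) = X ^ (q ^ m) - 1 :=
    geom_sum_mul X (q ^ m)
  have h2 : ((X : F[X]) - 1) ^ (q ^ m - 1) * (X - 1) = X ^ (q ^ m) - 1 := by
    rw [← pow_succ, Nat.sub_add_cancel hN, sub_pow_char_pow, one_pow]
  have h3 : ((X : F[X]) - 1) ≠ 0 := by
    have := X_sub_C_ne_zero (1 : F)
    simpa using this
  exact mul_right_cancel₀ h3 (h1.trans h2.symm)

/-- the delta function at zero -/
noncomputable def δ (F : Type*) [Field F] (N : ℕ) : ZMod N → F := Pi.single 0 1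

theorem aeval_apply (N : ℕ) (a : ℕ → F) (n : ℕ) (f : ZMod N → F) (x : ZMod N) :
    (aeval (S F N) (∑ k ∈ range n, C (a k) * X ^ k)) f x = ∑ k ∈ range n, a k * f (x - k) := by
  rw [map_sum, LinearMap.sum_apply, Finset.sum_apply]
  refine Finset.sum_congr rfl fun k _ => ?_
  rw [map_mul, aeval_C, map_pow, aeval_X, Module.End.mul_apply, Module.algebraMap_end_apply,
    Pi.smul_apply, S_pow_apply, smul_eq_mul]

theorem aeval_delta (N : ℕ) [NeZero N] (a : ℕ → F) :
    (aeval (S F N) (∑ k ∈ range N, C (a k) * X ^ k)) (δ F N) = fun x => a x.val := by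
  funext x
  rw [aeval_apply]
  rw [Finset.sum_eq_single x.val]
  · have : x - ((x.val : ℕ) : ZMod N) = 0 := by
      rw [ZMod.natCast_zmod_val, sub_self]
    rw [this]
    simp [δ]
  · intro k hk hkx
    have : x - ((k : ℕ) : ZMod N) ≠ 0 := by
      intro h
      apply hkx
      have h' : x = ((k : ℕ) : ZMod N) := by
        rw [sub_eq_zero] at h
        exact h
      rw [h', ZMod.val_cast_of_lt (Finset.mem_range.mp hk)]
    simp [δ, this]
  · intro h
    exact absurd (Finset.mem_range.mpr (ZMod.val_lt x)) h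

theorem S_pow_N (N : ℕ) : (S F N) ^ N = 1 := by
  ext f x
  simp [S_pow_apply]

theorem aeval_dvd (N : ℕ) (R : F[X]) (h : (X ^ N - 1 : F[X]) ∣ R) : aeval (S F N) R = 0 := by
  obtain ⟨Q, rfl⟩ := h
  rw [map_mul, map_sub, map_pow, aeval_X, map_one, S_pow_N, sub_self, zero_mul]

theorem dvd_of_aeval (N : ℕ) [NeZero N] (R : F[X]) (h : aeval (S F N) R (δ F N) = 0) :
    (X ^ N - 1 : F[X]) ∣ R := by
  have hN : N ≠ 0 := NeZero.ne N
  have hm : (X ^ N - 1 : F[X]).Monic := by
    have := monic_X_pow_sub_C (1 : F) hN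
    simpa using this
  rw [← modByMonic_eq_zero_iff_dvd hm]
  set R' := R %ₘ (X ^ N - 1 : F[X]) with hR'
  have hdeg : R'.natDegree < N := by
    have h1 : (X ^ N - 1 : F[X]).natDegree = N := by
      have := natDegree_X_pow_sub_C (n := N) (r := (1 : F))
      simpa using this
    have h2 : (X ^ N - 1 : F[X]) ≠ 1 := by
      intro h3
      rw [h3] at h1
      simp at h1
      exact hN h1.symm
    have := natDegree_modByMonic_lt R hm h2
    rw [h1] at this
    exact this
  have hex : R = R' + (X ^ N - 1 : F[X]) * (R /ₘ (X ^ N - 1 : F[X])) :=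
    (modByMonic_add_div R (X ^ N - 1 : F[X])).symm
  have h0 : aeval (S F N) R' (δ F N) = 0 := by
    have h4 : aeval (S F N) R = aeval (S F N) R' := by
      conv_lhs => rw [hex]
      rw [map_add, aeval_dvd N _ (dvd_mul_right _ _), add_zero]
    rw [← h4]
    exact h
  have hs : R' = ∑ k ∈ range N, C (R'.coeff k) * X ^ k := by
    conv_lhs => rw [R'.as_sum_range' N hdeg]
    refine Finset.sum_congr rfl fun k _ => ?_
    rw [C_mul_X_pow_eq_monomial]
  rw [hs, aeval_delta] at h0
  ext k
  rw [coeff_zero]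
  by_cases hk : k < N
  · have := congrFun h0 ((k : ℕ) : ZMod N)
    simp only [Pi.zero_apply] at this
    rw [ZMod.val_cast_of_lt hk] at this
    exact this
  · exact coeff_eq_zero_of_natDegree_lt (by omega)

/-- constant self convolution implies divisibility by `(X-1)^((N-1)/2)` -/
theorem conv_dvd (q : ℕ) [Fact q.Prime] [CharP F q] (hq : q ≠ 2) (m : ℕ)
    (b : ZMod (q ^ m) → F) (c : F)
    (h : ∀ z, ∑ x ∈ range (q ^ m), b (x : ℕ) * b (z - (x : ℕ)) = c) :
    ((X : F[X]) - 1) ^ ((q ^ m - 1) / 2) ∣ ∑ k ∈ range (q ^ m), C (b (k : ℕ)) * X ^ k := by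
  have hpos : 0 < q ^ m := Nat.pow_pos (Fact.out (p := q.Prime)).pos
  have : NeZero (q ^ m) := ⟨hpos.ne'⟩
  set P : F[X] := ∑ k ∈ range (q ^ m), C (b (k : ℕ)) * X ^ k with hP
  have hb : aeval (S F (q ^ m)) P (δ F (q ^ m)) = b := by
    rw [hP, aeval_delta]
    funext x
    rw [ZMod.natCast_zmod_val]
  have hPP : aeval (S F (q ^ m)) (P * P) (δ F (q ^ m)) = fun _ => c := by
    rw [map_mul, Module.End.mul_apply, hb]
    funext z
    rw [hP, aeval_apply]
    exact h z
  have hc : aeval (S F (q ^ m)) (∑ k ∈ range (q ^ m), C c * X ^ k) (δ F (q ^ m)) =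
      fun _ => c := by
    rw [aeval_delta (q ^ m) (fun _ => c)]
  have hd : (X ^ (q ^ m) - 1 : F[X]) ∣ P * P - ∑ k ∈ range (q ^ m), C c * X ^ k := by
    apply dvd_of_aeval
    rw [map_sub, LinearMap.sub_apply, hPP, hc, sub_self]
  have hN : (X ^ (q ^ m) - 1 : F[X]) = (X - 1) ^ (q ^ m) := by
    rw [sub_pow_char_pow, one_pow]
  rw [hN, ← Finset.mul_sum, geom_eq q m] at hd
  have hd2 : ((X : F[X]) - 1) ^ (q ^ m - 1) ∣ P * P := by
    have h1 : ((X : F[X]) - 1) ^ (q ^ m - 1) ∣ P * P - C c * (X - 1) ^ (q ^ m - 1) :=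
      dvd_trans (pow_dvd_pow _ (Nat.sub_le _ _)) hd
    have h2 := dvd_add h1 (dvd_mul_left (((X : F[X]) - 1) ^ (q ^ m - 1)) (C c))
    simpa using h2
  have hodd : Odd (q ^ m) := ((Fact.out (p := q.Prime)).odd_of_ne_two hq).pow
  have heven : q ^ m - 1 = (q ^ m - 1) / 2 * 2 := by
    obtain ⟨k, hk⟩ := hodd
    omega
  rw [heven, pow_mul, ← sq] at hd2
  exact (IsIntegrallyClosed.pow_dvd_pow_iff (by norm_num)).mp hd2

/-- the `(q+1)/2`-th difference in the direction `q^e` vanishes -/
theorem diff_zero (q : ℕ) [Fact q.Prime] [CharP F q] (hq : q ≠ 2) (e : ℕ)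
    (b : ZMod (q ^ (e + 1)) → F) (c : F)
    (h : ∀ z, ∑ x ∈ range (q ^ (e + 1)), b (x : ℕ) * b (z - (x : ℕ)) = c) :
    (fwdDiff (-((q ^ e : ℕ) : ZMod (q ^ (e + 1)))))^[(q + 1) / 2] b = 0 := by
  have hpos : 0 < q ^ (e + 1) := Nat.pow_pos (Fact.out (p := q.Prime)).pos
  have : NeZero (q ^ (e + 1)) := ⟨hpos.ne'⟩
  have hd := conv_dvd q hq (e + 1) b c h
  set P : F[X] := ∑ k ∈ range (q ^ (e + 1)), C (b (k : ℕ)) * X ^ k with hP
  have hb : aeval (S F (q ^ (e + 1))) P (δ F (q ^ (e + 1))) = b := by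
    rw [hP, aeval_delta]
    funext x
    rw [ZMod.natCast_zmod_val]
  have hodd : Odd q := (Fact.out (p := q.Prime)).odd_of_ne_two hq
  have hN : (X ^ (q ^ (e + 1)) - 1 : F[X]) = (X - 1) ^ (q ^ (e + 1)) := by
    rw [sub_pow_char_pow, one_pow]
  have hM : (X ^ (q ^ e) - 1 : F[X]) = (X - 1) ^ (q ^ e) := by
    rw [sub_pow_char_pow, one_pow]
  have key : (X ^ (q ^ (e + 1)) - 1 : F[X]) ∣ (X ^ (q ^ e) - 1) ^ ((q + 1) / 2) * P := by
    rw [hN, hM, ← pow_mul]
    refine dvd_trans ?_ (mul_dvd_mul_left _ hd)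
    rw [← pow_add]
    apply pow_dvd_pow
    obtain ⟨k, hk⟩ := hodd
    have h1 : (q + 1) / 2 = k + 1 := by omega
    rw [h1, pow_succ]
    have h2 : 0 < q ^ e := Nat.pow_pos (Fact.out (p := q.Prime)).pos
    generalize q ^ e = u at h2
    subst hk
    have h3 : (u * (2 * k + 1) - 1) / 2 + u * (k + 1) ≥ u * (2 * k + 1) := by
      have h4 : u * (2 * k + 1) = 2 * (u * k) + u := by ring
      have h5 : u * (k + 1) = u * k + u := by ring
      rw [h4, h5]
      omega
    linarith
  have h5 := aeval_dvd _ _ key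
  rw [map_mul, map_pow, map_sub, map_pow, aeval_X, map_one] at h5
  have h6 := congrArg (fun T => T (δ F (q ^ (e + 1)))) h5
  simp only [Module.End.mul_apply, LinearMap.zero_apply] at h6
  rw [hb] at h6
  have h7 : ∀ (j : ℕ) (f : ZMod (q ^ (e + 1)) → F),
      (((S F (q ^ (e + 1))) ^ (q ^ e) - 1) ^ j) f =
        (fwdDiff (-((q ^ e : ℕ) : ZMod (q ^ (e + 1)))))^[j] f := by
    intro j
    induction j with
    | zero => intro f; simp
    | succ j ih =>
      intro f
      rw [pow_succ (S F (q ^ (e + 1)) ^ q ^ e - 1) j, Module.End.mul_apply, ih,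
        Function.iterate_succ_apply]
      congr 1
      funext x
      rw [LinearMap.sub_apply, Pi.sub_apply, S_pow_apply, Module.End.one_apply]
      simp [fwdDiff, sub_eq_add_neg]
  rw [← h7]
  exact h6

/-- Newton's formula: vanishing `(M+1)`-th difference with `M < q` gives polynomials -/
theorem poly_of_diff (q : ℕ) [Fact q.Prime] [CharP F q] {A : Type*} [AddCommMonoid A] (h : A)
    (b : A → F) (M : ℕ) (hM : M < q) (hb : (fwdDiff h)^[M + 1] b = 0) (z : A) :
    ∃ P : F[X], P.natDegree ≤ M ∧ ∀ n : ℕ, b (z + n • h) = P.eval (n : F) := by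
  refine ⟨∑ k ∈ range (M + 1), C ((fwdDiff h)^[k] b z * ((k.factorial : ℕ) : F)⁻¹) *
    descPochhammer F k, ?_, ?_⟩
  · apply natDegree_sum_le_of_forall_le
    intro k hk
    refine (natDegree_C_mul_le _ _).trans ?_
    rw [descPochhammer_natDegree]
    exact Nat.lt_succ_iff.mp (Finset.mem_range.mp hk)
  · intro n
    rw [shift_eq_sum_fwdDiff_iter h b n z, eval_finsetSum]
    have hz : ∀ k, M + 1 ≤ k → (fwdDiff h)^[k] b z = 0 := by
      intro k hk
      obtain ⟨j, rfl⟩ := Nat.exists_eq_add_of_le hk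
      rw [add_comm, Function.iterate_add_apply, hb]
      have : ∀ j, (fwdDiff h)^[j] (0 : A → F) = 0 := by
        intro j
        induction j with
        | zero => rfl
        | succ j ih =>
          rw [Function.iterate_succ_apply]
          have h0 : fwdDiff h (0 : A → F) = 0 := by
            funext y
            simp [fwdDiff]
          rw [h0, ih]
      rw [this]
      rfl
    have e1 : ∑ k ∈ range (n + 1), n.choose k • (fwdDiff h)^[k] b z =
        ∑ k ∈ range (M + 1), n.choose k • (fwdDiff h)^[k] b z := by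
      rcases le_total n M with hnM | hnM
      · apply Finset.sum_subset (Finset.range_mono (by omega))
        intro k _ hk2
        rw [Nat.choose_eq_zero_of_lt (by
          rw [Finset.mem_range] at hk2
          omega), zero_smul]
      · symm
        apply Finset.sum_subset (Finset.range_mono (by omega))
        intro k _ hk2
        rw [hz k (by
          rw [Finset.mem_range] at hk2
          omega), smul_zero]
    rw [e1]
    refine Finset.sum_congr rfl fun k hk => ?_
    rw [eval_mul, eval_C, descPochhammer_eval_eq_descFactorial,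
      Nat.descFactorial_eq_factorial_mul_choose, Nat.cast_mul, nsmul_eq_mul]
    have hk' : k < q := by
      rw [Finset.mem_range] at hk
      omega
    have hf : ((k.factorial : ℕ) : F) ≠ 0 := by
      intro h0
      rw [CharP.cast_eq_zero_iff F q] at h0
      rw [(Fact.out (p := q.Prime)).dvd_factorial] at h0
      omega
    field_simp

/-- **KL, characteristic q part.** -/
theorem kl_char (q : ℕ) [Fact q.Prime] [CharP F q] (hq : q ≠ 2) (e : ℕ)
    (b : ZMod (q ^ (e + 1)) → F) (c : F)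
    (h : ∀ z, ∑ x ∈ range (q ^ (e + 1)), b (x : ℕ) * b (z - (x : ℕ)) = c)
    (z : ZMod (q ^ (e + 1))) :
    ∃ P : F[X], P.natDegree ≤ (q - 1) / 2 ∧
      ∀ n : ℕ, b (z + ((n * q ^ e : ℕ) : ZMod (q ^ (e + 1)))) = P.eval (n : F) := by
  have hodd : Odd q := (Fact.out (p := q.Prime)).odd_of_ne_two hq
  have h1 := diff_zero q hq e b c h
  have h2 : (q + 1) / 2 = (q - 1) / 2 + 1 := by
    obtain ⟨k, hk⟩ := hodd
    omega
  rw [h2] at h1
  obtain ⟨P, hP, hPn⟩ := poly_of_diff q _ b ((q - 1) / 2) (by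
    have := (Fact.out (p := q.Prime)).pos
    omega) h1 z
  refine ⟨P.comp (-X), ?_, ?_⟩
  · rw [natDegree_comp]
    have : (-X : F[X]).natDegree = 1 := by
      rw [natDegree_neg, natDegree_X]
    rw [this, mul_one]
    exact hP
  · intro n
    rw [eval_comp, eval_neg, eval_X]
    -- use `n' = n * (q - 1)`, which is congruent to `-n`
    have h3 := hPn (n * (q - 1))
    have hq1 : 1 ≤ q := (Fact.out (p := q.Prime)).one_le
    have h4 : ((n * (q - 1) : ℕ) : F) = -(n : F) := by
      rw [Nat.cast_mul, Nat.cast_sub hq1, CharP.cast_eq_zero F q]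
      push_cast
      ring
    rw [h4] at h3
    rw [← h3]
    congr 2
    have h5 : ((q : ℕ) : ZMod (q ^ (e + 1))) ^ (e + 1) = 0 := by
      rw [← Nat.cast_pow]
      exact ZMod.natCast_self _
    rw [nsmul_eq_mul, Nat.cast_mul, Nat.cast_mul, Nat.cast_sub hq1]
    push_cast
    linear_combination (n : ZMod (q ^ (e + 1))) * h5

end CharQ

end Pool.MP_d0f9e0_co.KL
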