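import Pool.Agent.Lib.MP_d0f9e0_co.Slice76

set_option autoImplicit false

/-!
LEAF LEMMA IN RATIO FORM (notes 9360, 9445): `E : G → K`, `v (E x) v (E (-x)) = 1`, and for every
`p ≠ 0` with `q p = 0` a function `h` with `h a ≡ E a / E (a - p)` modulo `1 + m` whose Fourier
transform has the absolute values `v κ v (E p) v (E y) / v (E (y + p))`.
Conclusion: `E (a + z) ≡ E a` modulo `1 + m` for `q z = 0`.
-/

namespace Pool.MP_d0f9e0_co.KL

open Polynomial Finset

set_option linter.unusedSectionVars false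

/-- The data of the leaf lemma, ratio form. -/
structure LeafR {K : Type*} [Field K] {Γ₀ : Type*} [LinearOrderedCommGroupWithZero Γ₀]
    (v : Valuation K Γ₀) {G : Type*} [AddCommGroup G] [Fintype G]
    (b : G → G → K) (q e m : ℕ) (γ : G) (c : G → K) (kap : K) : Prop where
  prime : q.Prime
  ne_two : q ≠ 2
  q_ne_zero : (q : K) ≠ 0
  val_q : v (q : K) < 1
  bichar : IsBichar b
  card : Fintype.card G = m * q ^ (e + 1)
  not_dvd : ¬ q ∣ m
  order : addOrderOf γ = q ^ (e + 1)
  c_ne_zero : ∀ x, c x ≠ 0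
  c_neg : ∀ x, v (c x) * v (c (-x)) = 1
  kap_sq : v kap ^ 2 = v ((q : K) ^ (e + 1))
  A2 : ∀ p, p ≠ 0 → q • p = 0 → ∃ g : G → K,
    (∀ a, v (g a * c (a - p) / c a - 1) < 1) ∧
    ∀ x, v (∑ a, g a * b a x) = v kap * v (c p) * v (c x) / v (c (x + p))

namespace LeafR

variable {K : Type*} [Field K] {Γ₀ : Type*} [LinearOrderedCommGroupWithZero Γ₀]
    {v : Valuation K Γ₀} {G : Type*} [AddCommGroup G] [Fintype G]
    {b : G → G → K} {q e m : ℕ} {γ : G} {c : G → K} {kap : K} (h : LeafR v b q e m γ c kap)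

include h

theorem w_ne_zero (x : G) : v (c x) ≠ 0 := by
  rw [Ne, v.zero_iff]
  exact h.c_ne_zero x

theorem w_neg (x : G) : v (c x) * v (c (-x)) = 1 := h.c_neg x

theorem w_zero : v (c 0) = 1 := by
  have h1 := h.c_neg 0
  rw [neg_zero, ← sq] at h1
  exact (pow_eq_one_iff_of_nonneg zero_le two_ne_zero).mp h1

theorem w_inv (x : G) : v (c (-x)) = (v (c x))⁻¹ :=
  eq_inv_of_mul_eq_one_right (h.w_neg x)

theorem w_ratio (p x : G) : v (c x) / v (c (x - p)) = v (c x) * v (c (p - x)) := by
  have h1 : p - x = -(x - p) := by abel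
  rw [h1, h.w_inv, div_eq_mul_inv]

/-- the function `g` of (A2): its absolute values -/
theorem val_g (p : G) (g : G → K) (hg : ∀ a, v (g a * c (a - p) / c a - 1) < 1) (a : G) :
    v (g a) = v (c a) * v (c (p - a)) := by
  have h1 : v (g a * c (a - p) / c a) = 1 := by
    have h2 : g a * c (a - p) / c a = 1 + (g a * c (a - p) / c a - 1) := by ring
    rw [h2]
    exact v.map_one_add_of_lt (hg a)
  rw [map_div₀, map_mul] at h1
  rw [← h.w_ratio]
  have h3 := h.w_ne_zero a
  have h4 := h.w_ne_zero (a - p)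
  rw [div_eq_one_iff_eq h3] at h1
  rw [eq_div_iff h4, h1]

/-- elements of order `q` come from the cyclic `q`-subgroup -/
theorem exists_hom : ∃ φ : ZMod (q ^ (e + 1)) →+ G, Function.Injective φ ∧ φ 1 = γ := by
  have h1 : (zmultiplesHom G γ) ((q ^ (e + 1) : ℕ) : ℤ) = 0 := by
    rw [zmultiplesHom_apply, natCast_zsmul, ← h.order]
    exact addOrderOf_nsmul_eq_zero γ
  refine ⟨ZMod.lift (q ^ (e + 1)) ⟨zmultiplesHom G γ, h1⟩, ?_, ?_⟩
  · rw [ZMod.lift_injective]
    intro k hk
    simp only [zmultiplesHom_apply] at hk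
    rw [ZMod.intCast_zmod_eq_zero_iff_dvd, ← h.order]
    exact addOrderOf_dvd_iff_zsmul_eq_zero.mpr hk
  · have := ZMod.lift_coe (q ^ (e + 1)) ⟨zmultiplesHom G γ, h1⟩ 1
    simpa using this

theorem exists_mul (φ : ZMod (q ^ (e + 1)) →+ G) (hφ : Function.Injective φ) (z : G)
    (hz : q • z = 0) : ∃ j : ℕ, ∀ k : ℕ, k • z = φ ((k * j * q ^ e : ℕ) : ZMod (q ^ (e + 1))) := by
  classical
  have := Fact.mk h.prime
  have hpos : 0 < q ^ (e + 1) := Nat.pow_pos h.prime.pos
  have hN : NeZero (q ^ (e + 1)) := ⟨hpos.ne'⟩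
  have h1 : z ∈ φ.range := by
    apply mem_range_of_torsion h.bichar q e m h.card h.not_dvd φ hφ
    rw [pow_succ, mul_smul, hz, smul_zero]
  obtain ⟨x, rfl⟩ := h1
  have h2 : (q : ZMod (q ^ (e + 1))) * x = 0 := by
    apply hφ
    rw [map_zero, ← hz, ← map_nsmul, nsmul_eq_mul]
  have h3 : ((q * x.val : ℕ) : ZMod (q ^ (e + 1))) = 0 := by
    rw [Nat.cast_mul, ZMod.natCast_zmod_val, h2]
  rw [ZMod.natCast_eq_zero_iff] at h3
  obtain ⟨j, hj'⟩ := h3
  have hj : x.val = q ^ e * j := by
    apply Nat.eq_of_mul_eq_mul_left h.prime.pos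
    rw [hj']
    ring
  refine ⟨j, fun k => ?_⟩
  rw [← map_nsmul, nsmul_eq_mul]
  congr 1
  have h5 : x = ((x.val : ℕ) : ZMod (q ^ (e + 1))) := (ZMod.natCast_zmod_val x).symm
  rw [h5, hj]
  push_cast
  ring

/-- KL in the direction `z` -/
theorem kl_dir (f : G → K) (hf : ∀ x, v (f x) ≤ 1)
    (hF : ∀ r, v (∑ y, f y * b y r) ≤ v kap) (a z : G) (hz : q • z = 0) :
    ∃ P : (IsLocalRing.ResidueField v.valuationSubring)[X], P.natDegree ≤ (q - 1) / 2 ∧
      ∀ n : ℕ, IsLocalRing.residue v.valuationSubring ⟨f (a + n • z), hf _⟩ =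
          P.eval (n : IsLocalRing.ResidueField v.valuationSubring) := by
  classical
  have := Fact.mk h.prime
  obtain ⟨φ, hφ, -⟩ := h.exists_hom
  obtain ⟨j, hj⟩ := h.exists_mul φ hφ z hz
  obtain ⟨P, hP, hPn⟩ := kl v h.bichar q e m h.card h.not_dvd φ hφ h.ne_two h.q_ne_zero h.val_q
    f hf (v kap) h.kap_sq.le hF a
  refine ⟨P.comp (C (j : IsLocalRing.ResidueField v.valuationSubring) * X), ?_, ?_⟩
  · rw [natDegree_comp]
    calc P.natDegree * (C (j : IsLocalRing.ResidueField v.valuationSubring) * X).natDegree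
        ≤ P.natDegree * 1 := Nat.mul_le_mul_left _ ((natDegree_C_mul_le _ _).trans natDegree_X_le)
      _ ≤ _ := by rw [mul_one]; exact hP
  · intro n
    have h1 := hPn (n * j)
    rw [eval_comp, eval_mul, eval_C, eval_X]
    rw [mul_comm, ← Nat.cast_mul, ← h1]
    congr 2
    rw [hj n]

/-- `D p a = |c(a) c(p-a)|` -/
theorem D_le (p : G) : ∃ a0 : G, ∀ a, v (c a) * v (c (p - a)) ≤ v (c a0) * v (c (p - a0)) := by
  have : Nonempty G := ⟨0⟩
  obtain ⟨a0, -, h0⟩ := Finset.exists_max_image Finset.univ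
    (fun a => v (c a) * v (c (p - a))) Finset.univ_nonempty
  exact ⟨a0, fun a => h0 a (Finset.mem_univ a)⟩

/-- polynomials of degree less than `q` with `q` consecutive zeros vanish -/
theorem poly_zero (P : (IsLocalRing.ResidueField v.valuationSubring)[X]) (hP : P.natDegree < q)
    (hz : ∀ n : ℕ, P.eval (n : IsLocalRing.ResidueField v.valuationSubring) = 0) : P = 0 := by
  classical
  have := Fact.mk h.prime
  have hch := charP_residue v q h.val_q
  apply Polynomial.eq_zero_of_natDegree_lt_card_of_eval_eq_zero' P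
    ((Finset.range q).image (fun n : ℕ => (n : IsLocalRing.ResidueField v.valuationSubring)))
  · intro i hi
    obtain ⟨n, -, rfl⟩ := Finset.mem_image.mp hi
    exact hz n
  · rw [Finset.card_image_of_injOn, Finset.card_range]
    · exact hP
    · intro x hx y hy hxy
      have h1 := (CharP.natCast_injOn_Iio (IsLocalRing.ResidueField v.valuationSubring) q)
      exact h1 (by simpa using hx) (by simpa using hy) hxy

/-- CLAIM A -/
theorem claimA (p : G) (hp : p ≠ 0) (hqp : q • p = 0) (a0 a1 : G)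
    (h0 : ∀ a, v (c a) * v (c (p - a)) ≤ v (c a0) * v (c (p - a0)))
    (h1 : ∀ a, v (c a) * v (c (-p - a)) ≤ v (c a1) * v (c (-p - a1)))
    (hle : v (c a1) * v (c (-p - a1)) * v (c p) ≤ v (c a0) * v (c (p - a0))) :
    ∃ a, (v (c a0) * v (c (p - a0))) ^ 2 ≤ v (c a) * v (c (p + p - a)) := by
  classical
  have := Fact.mk h.prime
  have hch := charP_residue v q h.val_q
  obtain ⟨g, hg1, hg2⟩ := h.A2 p hp hqp
  have hvg := h.val_g p g hg1
  set lam : K := g a0 with hlam
  have hvlam : v lam = v (c a0) * v (c (p - a0)) := hvg a0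
  have hvlam0 : v lam ≠ 0 := by
    rw [hvlam]
    exact mul_ne_zero (h.w_ne_zero _) (h.w_ne_zero _)
  have hlam0 : lam ≠ 0 := by
    intro h2
    rw [h2, map_zero] at hvlam0
    exact hvlam0 rfl
  have hvlampos : 0 < v lam := zero_lt_iff.mpr hvlam0
  set f : G → K := fun a => g a / lam with hf
  have hfeq : ∀ a, v (f a) = v (c a) * v (c (p - a)) / v lam := by
    intro a
    rw [hf]
    simp only [map_div₀, hvg]
  have hf1 : ∀ a, v (f a) ≤ 1 := by
    intro a
    rw [hfeq, hvlam]
    exact div_le_one_of_le₀ (h0 a) zero_le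
  have hF : ∀ r, v (∑ y, f y * b y r) ≤ v kap := by
    intro r
    have h2 : ∑ y, f y * b y r = (∑ y, g y * b y r) / lam := by
      rw [Finset.sum_div]
      exact Finset.sum_congr rfl fun y _ => by rw [hf]; ring
    rw [h2, map_div₀, hg2]
    rw [div_le_iff₀ hvlampos]
    have h5 : v (c r) / v (c (r + p)) = v (c r) * v (c (-p - r)) := by
      have h6 := h.w_ratio (-p) r
      rwa [sub_neg_eq_add] at h6
    calc v kap * v (c p) * v (c r) / v (c (r + p))
        = v kap * (v (c r) * v (c (-p - r)) * v (c p)) := by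
          rw [← h5, mul_div_assoc, mul_assoc]
          congr 1
          exact mul_comm _ _
      _ ≤ v kap * (v (c a1) * v (c (-p - a1)) * v (c p)) := by
          have := h1 r
          gcongr
      _ ≤ v kap * v lam := by
          rw [hvlam]
          gcongr
  obtain ⟨P, hP, hPn⟩ := h.kl_dir f hf1 hF a0 p hqp
  have hodd : Odd q := h.prime.odd_of_ne_two h.ne_two
  have hf0 : f a0 = 1 := by
    rw [hf]
    exact div_self hlam0
  have hP0 : P ≠ 0 := by
    intro h2
    have h3 := hPn 0
    rw [h2, eval_zero] at h3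
    have h4 : (⟨f (a0 + (0 : ℕ) • p), hf1 _⟩ : v.valuationSubring) = 1 := by
      apply Subtype.ext
      show f (a0 + (0 : ℕ) • p) = 1
      rw [zero_smul, add_zero, hf0]
    rw [h4, map_one] at h3
    exact one_ne_zero h3
  have hX1 : (X + 1 : (IsLocalRing.ResidueField v.valuationSubring)[X]).natDegree = 1 := by
    have := natDegree_X_add_C (1 : IsLocalRing.ResidueField v.valuationSubring)
    simpa using this
  have hP1 : P.comp (X + 1) ≠ 0 := by
    intro h2
    rcases comp_eq_zero_iff.mp h2 with h4 | ⟨-, h5⟩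
    · exact hP0 h4
    · rw [h5, natDegree_C] at hX1
      exact zero_ne_one hX1
  have hne : P * P.comp (X + 1) ≠ 0 := mul_ne_zero hP0 hP1
  have hdeg : (P * P.comp (X + 1)).natDegree < q := by
    have h2 : (P.comp (X + 1)).natDegree ≤ (q - 1) / 2 := by
      rw [natDegree_comp, hX1, mul_one]
      exact hP
    have h3 := natDegree_mul_le (p := P) (q := P.comp (X + 1))
    have h4 := h.prime.pos
    omega
  have hex : ∃ n : ℕ, (P * P.comp (X + 1)).eval
      (n : IsLocalRing.ResidueField v.valuationSubring) ≠ 0 := by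
    by_contra hcon
    push Not at hcon
    exact hne (h.poly_zero _ hdeg hcon)
  obtain ⟨n, hn⟩ := hex
  rw [eval_mul, eval_comp, eval_add, eval_X, eval_one] at hn
  have hn1 : P.eval (n : IsLocalRing.ResidueField v.valuationSubring) ≠ 0 :=
    left_ne_zero_of_mul hn
  have hn2 : P.eval (((n + 1 : ℕ)) : IsLocalRing.ResidueField v.valuationSubring) ≠ 0 := by
    rw [Nat.cast_succ]
    exact right_ne_zero_of_mul hn
  rw [← hPn, Ne, residue_eq_zero, not_lt] at hn1 hn2
  simp only at hn1 hn2
  rw [hfeq, le_div_iff₀ hvlampos, one_mul, hvlam] at hn1 hn2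
  refine ⟨a0 + (n + 1) • p, ?_⟩
  set x := a0 + n • p with hx
  have e1 : a0 + (n + 1) • p = x + p := by rw [hx, succ_nsmul, add_assoc]
  rw [e1] at hn2 ⊢
  have e2 : p - (x + p) = -x := by abel
  have e3 : p + p - (x + p) = p - x := by abel
  rw [e2] at hn2
  rw [e3]
  calc (v (c a0) * v (c (p - a0))) ^ 2
      = (v (c a0) * v (c (p - a0))) * (v (c a0) * v (c (p - a0))) := sq _
    _ ≤ (v (c x) * v (c (p - x))) * (v (c (x + p)) * v (c (-x))) := by gcongr
    _ = (v (c x) * v (c (-x))) * (v (c (x + p)) * v (c (p - x))) := by ac_rfl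
    _ = v (c (x + p)) * v (c (p - x)) := by rw [h.w_neg, one_mul]

/-- STEP I, first form -/
theorem D_le_one (p : G) (hp : p ≠ 0) (hqp : q • p = 0) (a : G) :
    v (c a) * v (c (p - a)) ≤ 1 := by
  classical
  by_contra hcon
  rw [not_le] at hcon
  -- the maximum over all `p` of order `q` and all `a`
  obtain ⟨⟨s, a0⟩, hs, hmax⟩ := Finset.exists_max_image
    (Finset.univ.filter (fun x : G × G => x.1 ≠ 0 ∧ q • x.1 = 0))
    (fun x => v (c x.2) * v (c (x.1 - x.2)))
    ⟨(p, a), by rw [Finset.mem_filter]; exact ⟨Finset.mem_univ _, hp, hqp⟩⟩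
  rw [Finset.mem_filter] at hs
  obtain ⟨-, hs0, hqs⟩ := hs
  simp only at hs0 hqs
  have hM : ∀ s' a', s' ≠ 0 → q • s' = 0 → v (c a') * v (c (s' - a')) ≤
      v (c a0) * v (c (s - a0)) := by
    intro s' a' h1 h2
    exact hmax (s', a') (by rw [Finset.mem_filter]; exact ⟨Finset.mem_univ _, h1, h2⟩)
  set W := v (c a0) * v (c (s - a0)) with hW
  have hW1 : 1 < W := lt_of_lt_of_le hcon (hM p a hp hqp)
  have hWpos : 0 < W := lt_trans zero_lt_one hW1
  have hodd : Odd q := h.prime.odd_of_ne_two h.ne_two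
  have hdouble : ∀ t : G, t ≠ 0 → q • t = 0 → t + t ≠ 0 ∧ q • (t + t) = 0 := by
    intro t ht hqt
    constructor
    · intro h2
      apply ht
      obtain ⟨k, hk⟩ := hodd
      have h3 : q • t = k • (t + t) + t := by
        rw [hk, add_smul, one_smul, mul_comm, mul_smul, two_smul]
      rw [h2, smul_zero, zero_add] at h3
      rw [← h3, hqt]
    · rw [smul_add, hqt, add_zero]
  obtain ⟨a1, ha1⟩ := h.D_le (-s)
  have hns0 : -s ≠ 0 := neg_ne_zero.mpr hs0
  have hqns : q • (-s) = 0 := by rw [smul_neg, hqs, neg_zero]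
  by_cases hcase : v (c a1) * v (c (-s - a1)) * v (c s) ≤ W
  · obtain ⟨a2, ha2⟩ := h.claimA s hs0 hqs a0 a1 (fun a => hM s a hs0 hqs) ha1 hcase
    have h2 := (hdouble s hs0 hqs)
    have h3 := ha2.trans (hM (s + s) a2 h2.1 h2.2)
    rw [← hW, sq] at h3
    have h4 : W * 1 < W * W := by
      exact mul_lt_mul_of_pos_left hW1 hWpos
    rw [mul_one] at h4
    exact absurd h3 (not_le.mpr h4)
  · rw [not_le] at hcase
    have h0 : ∀ a, v (c a) * v (c (-(-s) - a)) ≤ v (c a0) * v (c (-(-s) - a0)) := by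
      intro a
      rw [neg_neg]
      exact hM s a hs0 hqs
    have hws : v (c s) * v (c (-s)) = 1 := h.w_neg s
    have hle : v (c a0) * v (c (-(-s) - a0)) * v (c (-s)) ≤ v (c a1) * v (c (-s - a1)) := by
      rw [neg_neg, ← hW]
      calc W * v (c (-s)) ≤ v (c a1) * v (c (-s - a1)) * v (c s) * v (c (-s)) := by
            gcongr
        _ = v (c a1) * v (c (-s - a1)) := by rw [mul_assoc, hws, mul_one]
    obtain ⟨a2, ha2⟩ := h.claimA (-s) hns0 hqns a1 a0 ha1 h0 hle
    have h2 := hdouble (-s) hns0 hqns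
    have h3 := ha2.trans (hM (-s + -s) a2 h2.1 h2.2)
    -- `v (c s) ^ 2 ≤ W`
    have h4 := hdouble s hs0 hqs
    have h5 := hM (s + s) s h4.1 h4.2
    have h6 : s + s - s = s := by abel
    rw [h6] at h5
    have h7 : W * W < (v (c a1) * v (c (-s - a1))) ^ 2 * (v (c s) * v (c s)) := by
      calc W * W < (v (c a1) * v (c (-s - a1)) * v (c s)) *
            (v (c a1) * v (c (-s - a1)) * v (c s)) := by
              exact mul_lt_mul'' hcase hcase zero_le zero_le
        _ = _ := by
          rw [sq]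
          ac_rfl
    have h8 : (v (c a1) * v (c (-s - a1))) ^ 2 * (v (c s) * v (c s)) ≤ W * W := by
      gcongr
    exact absurd h8 (not_le.mpr h7)

/-- **STEP I**: valuations are constant along elements of order `q` -/
theorem val_eq (x z : G) (hz : q • z = 0) : v (c (x + z)) = v (c x) := by
  by_cases hz0 : z = 0
  · rw [hz0, add_zero]
  have key : ∀ (x z : G), z ≠ 0 → q • z = 0 → v (c (x + z)) ≤ v (c x) := by
    intro x z hz0 hz
    have h1 := h.D_le_one z hz0 hz (x + z)
    have h2 : z - (x + z) = -x := by abel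
    rw [h2] at h1
    calc v (c (x + z)) = v (c (x + z)) * (v (c x) * v (c (-x))) := by rw [h.w_neg, mul_one]
      _ = v (c (x + z)) * v (c (-x)) * v (c x) := by ac_rfl
      _ ≤ 1 * v (c x) := by gcongr
      _ = v (c x) := one_mul _
  apply le_antisymm (key x z hz0 hz)
  have := key (x + z) (-z) (neg_ne_zero.mpr hz0) (by rw [smul_neg, hz, neg_zero])
  rwa [add_neg_cancel_right] at this

theorem val_cc (p x : G) (hqp : q • p = 0) : v (c x) * v (c (p - x)) = 1 := by
  have h1 : p - x = -x + p := by abel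
  rw [h1, h.val_eq (-x) p hqp, h.w_neg]

omit h in
theorem res_eq_iff (x y : v.valuationSubring) :
    IsLocalRing.residue v.valuationSubring x = IsLocalRing.residue v.valuationSubring y ↔
      v ((x : K) - y) < 1 := by
  rw [← sub_eq_zero, ← map_sub, residue_eq_zero]
  rfl

/-- **LEAF LEMMA**, congruence -/
theorem congr_sub (p : G) (hp : p ≠ 0) (hqp : q • p = 0) (a : G) :
    v (c a / c (a - p) - 1) < 1 := by
  classical
  have := Fact.mk h.prime
  have hch := charP_residue v q h.val_q
  set res := IsLocalRing.residue v.valuationSubring with hres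
  obtain ⟨f, hf0, hf2⟩ := h.A2 p hp hqp
  have hnp0 : -p ≠ 0 := neg_ne_zero.mpr hp
  have hqnp : q • (-p) = 0 := by rw [smul_neg, hqp, neg_zero]
  obtain ⟨f', hf0', hf2'⟩ := h.A2 (-p) hnp0 hqnp
  have hwp : v (c p) = 1 := by
    have h1 := h.val_eq 0 p hqp
    rw [zero_add] at h1
    rw [h1, h.w_zero]
  have hwnp : v (c (-p)) = 1 := by
    have h1 := h.val_eq 0 (-p) hqnp
    rw [zero_add] at h1
    rw [h1, h.w_zero]
  have hf1 : ∀ x, v (f x) = 1 := by
    intro x
    rw [h.val_g p f hf0, h.val_cc p x hqp]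
  have hf1' : ∀ x, v (f' x) = 1 := by
    intro x
    rw [h.val_g (-p) f' hf0', h.val_cc (-p) x hqnp]
  have hwr : ∀ x, v (c x) / v (c (x + p)) = 1 := by
    intro x
    rw [h.val_eq x p hqp, div_self (h.w_ne_zero x)]
  have hwr' : ∀ x, v (c x) / v (c (x + -p)) = 1 := by
    intro x
    rw [h.val_eq x (-p) hqnp, div_self (h.w_ne_zero x)]
  have hF : ∀ r, v (∑ y, f y * b y r) ≤ v kap := by
    intro r
    rw [hf2, hwp, mul_one, mul_div_assoc, hwr, mul_one]
  have hF' : ∀ r, v (∑ y, f' y * b y r) ≤ v kap := by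
    intro r
    rw [hf2', hwnp, mul_one, mul_div_assoc, hwr', mul_one]
  obtain ⟨P, hP, hPn⟩ := h.kl_dir f (fun x => (hf1 x).le) hF a p hqp
  obtain ⟨P', hP', hPn'⟩ := h.kl_dir f' (fun x => (hf1' x).le) hF' (a - p) p hqp
  have hratle : ∀ x, v (c x / c (x - p)) = 1 := by
    intro x
    rw [map_div₀, h.w_ratio, h.val_cc p x hqp]
  have hratle' : ∀ x, v (c (x - p) / c x) = 1 := by
    intro x
    have h1 := hratle x
    rw [map_div₀] at h1 ⊢
    rw [div_eq_one_iff_eq (h.w_ne_zero _)] at h1
    rw [h1, div_self (h.w_ne_zero _)]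
  -- residues of `f`
  have hresf : ∀ x, res ⟨f x, (hf1 x).le⟩ = res ⟨c x / c (x - p), (hratle x).le⟩ := by
    intro x
    rw [hres, res_eq_iff]
    have h1 : f x - c x / c (x - p) = (f x * c (x - p) / c x - 1) * (c x / c (x - p)) := by
      have h2 := h.c_ne_zero x
      have h3 := h.c_ne_zero (x - p)
      field_simp
    show v (f x - c x / c (x - p)) < 1
    rw [h1, map_mul, hratle, mul_one]
    exact hf0 x
  have hresf' : ∀ x, res ⟨f' (x - p), (hf1' _).le⟩ = res ⟨c (x - p) / c x, (hratle' x).le⟩ := by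
    intro x
    rw [hres, res_eq_iff]
    have h0 := hf0' (x - p)
    have e1 : x - p - -p = x := by abel
    rw [e1] at h0
    have h1 : f' (x - p) - c (x - p) / c x =
        (f' (x - p) * c x / c (x - p) - 1) * (c (x - p) / c x) := by
      have h2 := h.c_ne_zero x
      have h3 := h.c_ne_zero (x - p)
      field_simp
    show v (f' (x - p) - c (x - p) / c x) < 1
    rw [h1, map_mul, hratle', mul_one]
    exact h0
  have hprod : ∀ n : ℕ, P.eval (n : IsLocalRing.ResidueField v.valuationSubring) *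
      P'.eval (n : IsLocalRing.ResidueField v.valuationSubring) = 1 := by
    intro n
    rw [← hPn, ← hPn']
    have e1 : a - p + n • p = a + n • p - p := by abel
    have e2 : res ⟨f' (a - p + n • p), (hf1' _).le⟩ =
        res ⟨f' (a + n • p - p), (hf1' _).le⟩ := by
      congr 2
      rw [e1]
    rw [e2, hresf, hresf', ← map_mul, ← map_one res]
    congr 1
    apply Subtype.ext
    show c (a + n • p) / c (a + n • p - p) * (c (a + n • p - p) / c (a + n • p)) = 1
    have h2 := h.c_ne_zero (a + n • p)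
    have h3 := h.c_ne_zero (a + n • p - p)
    field_simp
  have hPP : P * P' - 1 = 0 := by
    apply h.poly_zero
    · have h1 : (P * P' - 1).natDegree ≤
          max (P * P').natDegree (1 : (IsLocalRing.ResidueField v.valuationSubring)[X]).natDegree :=
        natDegree_sub_le _ _
      have h2 := natDegree_mul_le (p := P) (q := P')
      rw [natDegree_one] at h1
      have h3 := h.prime.two_le
      omega
    · intro n
      rw [eval_sub, eval_mul, eval_one, hprod, sub_self]
  have hPP2 : P * P' = 1 := sub_eq_zero.mp hPP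
  have hPdeg : P.natDegree = 0 := by
    have hne1 : P * P' ≠ 0 := by
      rw [hPP2]
      exact one_ne_zero
    have h1 := natDegree_mul (left_ne_zero_of_mul hne1) (right_ne_zero_of_mul hne1)
    rw [hPP2, natDegree_one] at h1
    omega
  have hPc : ∀ x, P.eval x = P.coeff 0 := by
    intro x
    rw [eq_C_of_natDegree_eq_zero hPdeg, eval_C, coeff_C_zero]
  have hr : ∀ n : ℕ, res ⟨c (a + n • p) / c (a + n • p - p), (hratle _).le⟩ =
      res ⟨c a / c (a - p), (hratle _).le⟩ := by
    intro n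
    have h1 : res ⟨f (a + n • p), (hf1 _).le⟩ = res ⟨f (a + (0 : ℕ) • p), (hf1 _).le⟩ := by
      rw [hPn, hPn, hPc, hPc]
    rw [hresf, hresf] at h1
    rw [h1]
    congr 2
    rw [zero_smul, add_zero]
  set r := res ⟨c a / c (a - p), (hratle _).le⟩ with hrdef
  have hrq : r ^ q = 1 := by
    have h1 : ∏ n ∈ Finset.range q, res ⟨c (a + n • p) / c (a + n • p - p), (hratle _).le⟩ =
        r ^ q := by
      rw [Finset.prod_congr rfl (fun n _ => hr n), Finset.prod_const, Finset.card_range]
    rw [← h1, ← map_prod, ← map_one res]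
    congr 1
    apply Subtype.ext
    push_cast
    have h2 : ∀ n : ℕ, ∏ k ∈ Finset.range n, (c (a + k • p) / c (a + k • p - p)) =
        c (a + n • p - p) / c (a - p) := by
      intro n
      induction n with
      | zero =>
        rw [Finset.prod_range_zero, zero_smul, add_zero, div_self (h.c_ne_zero _)]
      | succ n ih =>
        rw [Finset.prod_range_succ, ih]
        have e1 : a + (n + 1) • p - p = a + n • p := by
          rw [succ_nsmul]
          abel
        rw [e1]
        have h3 := h.c_ne_zero (a + n • p - p)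
        have h4 := h.c_ne_zero (a - p)
        field_simp
    rw [h2, hqp, add_zero, div_self (h.c_ne_zero _)]
  have hr1 : r = 1 := by
    have h1 : (r - 1) ^ q = 0 := by
      rw [sub_pow_char, hrq, one_pow, sub_self]
    exact sub_eq_zero.mp ((pow_eq_zero_iff h.prime.ne_zero).mp h1)
  rw [hrdef, ← map_one res, hres, res_eq_iff] at hr1
  exact hr1

/-- **LEAF LEMMA, ratio form** -/
theorem congr (a z : G) (hz : q • z = 0) : v (c (a + z) / c a - 1) < 1 := by
  by_cases hz0 : z = 0
  · rw [hz0, add_zero, div_self (h.c_ne_zero a), sub_self, map_zero]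
    exact zero_lt_one
  have h1 := h.congr_sub z hz0 hz (a + z)
  rwa [add_sub_cancel_right] at h1

end LeafR

end Pool.MP_d0f9e0_co.KL
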