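import Mathlib
import Pool.Agent.Lib.MP_d0f9e0_co.Core

set_option autoImplicit false

namespace Pool.Agent.Lib.MP_d0f9e0_co

/-- If finitely many roots of unity of odd order have squares summing to an integer `c`,
then they themselves sum to `c`. -/
lemma sum_eq_of_sum_sq {α : Type*} (s : Finset α) (z : α → ℂ) (m : ℕ) (hm : Odd m)
    (hz : ∀ k ∈ s, z k ^ m = 1) (c : ℤ) (h : ∑ k ∈ s, z k ^ 2 = c) : ∑ k ∈ s, z k = c := by
  have hm0 : m ≠ 0 := by rintro rfl; exact absurd hm (by decide)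
  have : NeZero m := ⟨hm0⟩
  have hζ := Complex.isPrimitiveRoot_exp m hm0
  set ζ := Complex.exp (2 * Real.pi * Complex.I / m) with hζdef
  have hex : ∀ k ∈ s, ∃ a : ℕ, ζ ^ a = z k := by
    intro k hk
    obtain ⟨a, _, ha⟩ := hζ.eq_pow_of_pow_eq_one (hz k hk)
    exact ⟨a, ha⟩
  classical
  let a : α → ℕ := fun k => if hk : k ∈ s then Classical.choose (hex k hk) else 0
  have ha : ∀ k ∈ s, ζ ^ a k = z k := by
    intro k hk
    simp only [a, dif_pos hk]
    exact Classical.choose_spec (hex k hk)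
  let P : Polynomial ℤ := ∑ k ∈ s, Polynomial.X ^ a k - Polynomial.C c
  have hP1 : Polynomial.aeval (ζ ^ 2) P = 0 := by
    simp only [P, map_sub, map_sum, map_pow, Polynomial.aeval_X, Polynomial.aeval_C]
    have : ∑ k ∈ s, (ζ ^ 2) ^ a k = ∑ k ∈ s, z k ^ 2 := by
      refine Finset.sum_congr rfl fun k hk => ?_
      rw [← ha k hk]
      ring
    rw [this, h]
    simp
  have hcop : Nat.Coprime 2 m := (Nat.coprime_two_left).2 hm
  have hmin := hζ.minpoly_eq_pow_coprime hcop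
  have hint : IsIntegral ℤ (ζ ^ 2) := (hζ.isIntegral (Nat.pos_of_ne_zero hm0)).pow 2
  have hdvd : minpoly ℤ (ζ ^ 2) ∣ P := (minpoly.isIntegrallyClosed_dvd_iff hint P).1 hP1
  rw [← hmin] at hdvd
  have hP2 : Polynomial.aeval ζ P = 0 :=
    (minpoly.isIntegrallyClosed_dvd_iff (hζ.isIntegral (Nat.pos_of_ne_zero hm0)) P).2 hdvd
  simp only [P, map_sub, map_sum, map_pow, Polynomial.aeval_X, Polynomial.aeval_C] at hP2
  rw [Finset.sum_congr rfl ha] at hP2
  have := sub_eq_zero.1 hP2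
  rw [this]
  simp

theorem odd_order (d : ℕ) (hd : 2 ≤ d) (x : Fin (d ^ 2) → EuclideanSpace ℂ (Fin d))
    (h : MaxETF d x)
    (i j : Fin (d ^ 2)) (hij : i ≠ j) (ε : ℂ) (hε : ε = 1 ∨ ε = -1)
    (hT : ∀ k, k ≠ i → k ≠ j → ∃ m : ℕ, Odd m ∧
      ((Real.sqrt ((d : ℝ) + 1) : ℂ) ^ 3 *
        ((inner ℂ (x i) (x j) : ℂ) * inner ℂ (x j) (x k) * inner ℂ (x k) (x i))) ^ m = ε) :
    d = 3 ∧ ε = -1 := by
  classical
  set S : Finset (Fin (d ^ 2)) := (Finset.univ.erase i).erase j with hS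
  set T : Fin (d ^ 2) → ℂ := fun k => (Real.sqrt ((d : ℝ) + 1) : ℂ) ^ 3 *
      ((inner ℂ (x i) (x j) : ℂ) * inner ℂ (x j) (x k) * inner ℂ (x k) (x i)) with hTdef
  have h1 : ∑ k ∈ S, T k = ((d : ℂ) - 2) * Real.sqrt ((d : ℝ) + 1) := h.triple_sum hij
  have h2 : ∑ k ∈ S, T k ^ 2 = -2 := h.triple_sum_sq hij
  have hε2 : ε * ε = 1 := by rcases hε with rfl | rfl <;> norm_num
  have hodd : ∀ m : ℕ, Odd m → ε ^ m = ε := by
    intro m hm
    rcases hε with rfl | rfl
    · simp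
    · exact hm.neg_one_pow
  -- common exponent
  have hex : ∀ k ∈ S, ∃ m : ℕ, Odd m ∧ T k ^ m = ε := by
    intro k hk
    rw [hS, Finset.mem_erase, Finset.mem_erase] at hk
    exact hT k hk.2.1 hk.1
  let f : Fin (d ^ 2) → ℕ := fun k => if hk : k ∈ S then Classical.choose (hex k hk) else 1
  have hf : ∀ k ∈ S, Odd (f k) ∧ T k ^ f k = ε := by
    intro k hk
    simp only [f, dif_pos hk]
    exact Classical.choose_spec (hex k hk)
  set M : ℕ := ∏ k ∈ S, f k with hM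
  have hMo : Odd M := by
    rw [hM]
    refine Finset.prod_induction f Odd (fun a b ha hb => ha.mul hb) odd_one (fun k hk => (hf k hk).1)
  have hTM : ∀ k ∈ S, (ε * T k) ^ M = 1 := by
    intro k hk
    obtain ⟨c, hc⟩ := Finset.dvd_prod_of_mem f hk
    rw [← hM] at hc
    have hco : Odd c := by
      rw [hc] at hMo
      exact (Nat.odd_mul.1 hMo).2
    have : T k ^ M = ε := by
      rw [hc, pow_mul, (hf k hk).2, hodd c hco]
    rw [mul_pow, this, hodd M hMo, hε2]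
  have h3 : ∑ k ∈ S, (ε * T k) ^ 2 = ((-2 : ℤ) : ℂ) := by
    have : ∀ k ∈ S, (ε * T k) ^ 2 = T k ^ 2 := by
      intro k _
      rw [mul_pow, sq ε, hε2, one_mul]
    rw [Finset.sum_congr rfl this, h2]
    norm_num
  have h4 := sum_eq_of_sum_sq S (fun k => ε * T k) M hMo hTM (-2) h3
  rw [← Finset.mul_sum, h1] at h4
  have hsq : (Real.sqrt ((d : ℝ) + 1)) ^ 2 = (d : ℝ) + 1 := Real.sq_sqrt (by positivity)
  have hd2 : (2 : ℝ) ≤ d := by exact_mod_cast hd
  rcases hε with rfl | rfl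
  · exfalso
    have h5 : ((d : ℝ) - 2) * Real.sqrt ((d : ℝ) + 1) = -2 := by
      have : (((( d : ℝ) - 2) * Real.sqrt ((d : ℝ) + 1) : ℝ) : ℂ) = ((-2 : ℝ) : ℂ) := by
        push_cast
        rw [one_mul] at h4
        rw [h4]
        norm_num
      exact_mod_cast this
    have : 0 ≤ ((d : ℝ) - 2) * Real.sqrt ((d : ℝ) + 1) :=
      mul_nonneg (by linarith) (Real.sqrt_nonneg _)
    linarith
  · refine ⟨?_, rfl⟩
    have h5 : ((d : ℝ) - 2) * Real.sqrt ((d : ℝ) + 1) = 2 := by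
      have : (((( d : ℝ) - 2) * Real.sqrt ((d : ℝ) + 1) : ℝ) : ℂ) = ((2 : ℝ) : ℂ) := by
        push_cast
        have h6 : ((d : ℂ) - 2) * Real.sqrt ((d : ℝ) + 1) = 2 := by
          have := congrArg (fun z => -z) h4
          push_cast at this
          linear_combination this
        exact h6
      exact_mod_cast this
    have h6 : ((d : ℝ) - 2) ^ 2 * ((d : ℝ) + 1) = 4 := by
      rw [← hsq, ← mul_pow, h5]
      norm_num
    have h7 : ((d : ℤ) - 2) ^ 2 * ((d : ℤ) + 1) = 4 := by exact_mod_cast h6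
    have hd4 : d ≤ 3 := by
      by_contra hcon
      push Not at hcon
      have : (4 : ℤ) ≤ d := by exact_mod_cast hcon
      nlinarith [sq_nonneg ((d : ℤ) - 2)]
    have h8 : d = 2 ∨ d = 3 := by omega
    rcases h8 with h8 | h8
    · exfalso
      rw [h8] at h7
      norm_num at h7
    · exact h8

end Pool.Agent.Lib.MP_d0f9e0_co
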