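import Pool.Agent.Lib.MP_d0f9e0_co.KL76

set_option autoImplicit false

/-!
KEY LEMMA (KL), note 9360, part 2: slices of a function on a finite commutative group with
cyclic Sylow `q`-subgroup.
-/

namespace Pool.MP_d0f9e0_co.KL

open Polynomial Finset

set_option linter.unusedSectionVars false

section Pairing

variable {K : Type*} [Field K] {G : Type*} [AddCommGroup G]

/-- A symmetric nondegenerate bicharacter. -/
structure IsBichar (b : G → G → K) : Prop where
  add : ∀ x y z, b (x + y) z = b x z * b y z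
  zero : ∀ z, b 0 z = 1
  symm : ∀ x y, b x y = b y x
  nondeg : ∀ x, x ≠ 0 → ∃ y, b x y ≠ 1

namespace IsBichar

variable {b : G → G → K} (hb : IsBichar b)

include hb

theorem add' (x y z : G) : b x (y + z) = b x y * b x z := by
  rw [hb.symm x, hb.add, hb.symm y, hb.symm z]

theorem zero' (x : G) : b x 0 = 1 := by rw [hb.symm, hb.zero]

theorem neg_mul (x z : G) : b (-x) z * b x z = 1 := by
  rw [← hb.add, neg_add_cancel, hb.zero]

theorem ne_zero (x z : G) : b x z ≠ 0 := by
  intro h
  have := hb.neg_mul x z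
  rw [h, mul_zero] at this
  exact zero_ne_one this

theorem nsmul (n : ℕ) (x z : G) : b (n • x) z = b x z ^ n := by
  induction n with
  | zero => simp [hb.zero]
  | succ n ih => rw [succ_nsmul, hb.add, ih, pow_succ]

theorem nsmul' (n : ℕ) (x z : G) : b x (n • z) = b x z ^ n := by
  rw [hb.symm, hb.nsmul, hb.symm]

variable [Fintype G] [DecidableEq G]

/-- orthogonality -/
theorem sum_eq (x : G) : ∑ r, b x r = if x = 0 then (Fintype.card G : K) else 0 := by
  split_ifs with h
  · subst h
    simp [hb.zero]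
  · obtain ⟨y, hy⟩ := hb.nondeg x h
    have h1 : b x y * ∑ r, b x r = ∑ r, b x r := by
      rw [Finset.mul_sum]
      rw [← Equiv.sum_comp (Equiv.addLeft y) (fun r => b x r)]
      refine Finset.sum_congr rfl fun r _ => ?_
      rw [Equiv.coe_addLeft, hb.add']
    have h2 : (b x y - 1) * ∑ r, b x r = 0 := by
      rw [sub_mul, one_mul, h1, sub_self]
    rcases mul_eq_zero.mp h2 with h3 | h3
    · exact absurd (sub_eq_zero.mp h3) hy
    · exact h3

end IsBichar

end Pairing

section Val

variable {K : Type*} [Field K] {Γ₀ : Type*} [LinearOrderedCommGroupWithZero Γ₀]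
  (v : Valuation K Γ₀)

theorem isUnit_iff (x : v.valuationSubring) : IsUnit x ↔ v (x : K) = 1 := by
  constructor
  · rintro ⟨u, rfl⟩
    have h1 : v ((u : v.valuationSubring) : K) ≤ 1 := (u : v.valuationSubring).2
    have h2 : v (((u⁻¹ : (v.valuationSubring)ˣ) : v.valuationSubring) : K) ≤ 1 :=
      ((u⁻¹ : (v.valuationSubring)ˣ) : v.valuationSubring).2
    have h3 : v ((u : v.valuationSubring) : K) *
        v (((u⁻¹ : (v.valuationSubring)ˣ) : v.valuationSubring) : K) = 1 := by
      rw [← map_mul]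
      have : ((u : v.valuationSubring) : K) *
          (((u⁻¹ : (v.valuationSubring)ˣ) : v.valuationSubring) : K) = 1 := by
        exact congrArg (fun y : v.valuationSubring => (y : K)) (u.mul_inv)
      rw [this, map_one]
    refine le_antisymm h1 ?_
    calc (1 : Γ₀) = _ := h3.symm
      _ ≤ v ((u : v.valuationSubring) : K) * 1 := by gcongr
      _ = _ := mul_one _
  · intro h
    have h0 : (x : K) ≠ 0 := by
      intro h0
      rw [h0, map_zero] at h
      exact zero_ne_one h
    have hinv : v ((x : K)⁻¹) ≤ 1 := by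
      rw [map_inv₀, h, inv_one]
    exact IsUnit.of_mul_eq_one ⟨(x : K)⁻¹, hinv⟩ (Subtype.ext (mul_inv_cancel₀ h0))

theorem residue_eq_zero (x : v.valuationSubring) :
    IsLocalRing.residue v.valuationSubring x = 0 ↔ v (x : K) < 1 := by
  rw [IsLocalRing.residue_eq_zero_iff, IsLocalRing.mem_maximalIdeal, mem_nonunits_iff,
    isUnit_iff]
  have : v (x : K) ≤ 1 := x.2
  constructor
  · intro h
    exact lt_of_le_of_ne this h
  · intro h
    exact h.ne

theorem charP_residue (q : ℕ) [Fact q.Prime] (hvq : v (q : K) < 1) :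
    CharP (IsLocalRing.ResidueField v.valuationSubring) q := by
  rw [CharP.charP_iff_prime_eq_zero (Fact.out (p := q.Prime))]
  have h : IsLocalRing.residue v.valuationSubring ((q : ℕ) : v.valuationSubring) = 0 := by
    rw [residue_eq_zero]
    simpa using hvq
  rw [← h, map_natCast]

theorem val_natCast_le (n : ℕ) : v (n : K) ≤ 1 := by
  induction n with
  | zero => simp
  | succ n ih =>
    rw [Nat.cast_succ]
    exact (v.map_add _ _).trans (max_le ih (by rw [map_one]))

theorem val_natCast_eq_one (q : ℕ) [Fact q.Prime] (hvq : v (q : K) < 1) (m : ℕ)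
    (hm : ¬ q ∣ m) : v (m : K) = 1 := by
  refine le_antisymm (val_natCast_le v m) (not_lt.mp fun hlt => ?_)
  have := charP_residue v q hvq
  have h : IsLocalRing.residue v.valuationSubring ((m : ℕ) : v.valuationSubring) = 0 := by
    rw [residue_eq_zero]
    simpa using hlt
  rw [map_natCast, CharP.cast_eq_zero_iff _ q] at h
  exact hm h

theorem val_sum_le {ι : Type*} (s : Finset ι) (f : ι → K) (g : Γ₀) (h : ∀ i ∈ s, v (f i) ≤ g) :
    v (∑ i ∈ s, f i) ≤ g :=
  v.map_sum_le h

theorem val_eq_one_of_pow (x : K) (n : ℕ) (hn : n ≠ 0) (h : x ^ n = 1) : v x = 1 := by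
  have h1 : v x ^ n = 1 := by rw [← map_pow, h, map_one]
  exact (pow_eq_one_iff_of_nonneg zero_le hn).mp h1

end Val

section Slice

variable {K : Type*} [Field K] {Γ₀ : Type*} [LinearOrderedCommGroupWithZero Γ₀]
  (v : Valuation K Γ₀) {G : Type*} [AddCommGroup G] [Fintype G] [DecidableEq G]
  {b : G → G → K} (hb : IsBichar b) (q : ℕ) [Fact q.Prime] (e m : ℕ)
  (hcard : Fintype.card G = m * q ^ (e + 1)) (hm : ¬ q ∣ m)
  (φ : ZMod (q ^ (e + 1)) →+ G) (hφ : Function.Injective φ)

include hb hcard hm hφ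

theorem sumA_of_range (x : ZMod (q ^ (e + 1))) (s : G) (hs : m • s = 0) : b (φ x) s = 1 := by
  have h1 : b (φ x) s ^ (q ^ (e + 1)) = 1 := by
    rw [← hb.nsmul, ← map_nsmul, nsmul_eq_mul, ZMod.natCast_self, zero_mul, map_zero, hb.zero]
  have h2 : b (φ x) s ^ m = 1 := by
    rw [← hb.nsmul', hs, hb.zero']
  have hcop : Nat.gcd (q ^ (e + 1)) m = 1 :=
    Nat.Coprime.pow_left _ ((Nat.Prime.coprime_iff_not_dvd (Fact.out (p := q.Prime))).mpr hm)
  have h3 := pow_gcd_eq_one.mpr ⟨h1, h2⟩
  rwa [hcop, pow_one] at h3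

theorem mem_range_of_torsion (w : G) (hw : (q ^ (e + 1)) • w = 0) : w ∈ φ.range := by
  have hpos : 0 < q ^ (e + 1) := Nat.pow_pos (Fact.out (p := q.Prime)).pos
  have hcop : Nat.Coprime m (q ^ (e + 1)) :=
    Nat.Coprime.pow_right _ ((Nat.Prime.coprime_iff_not_dvd (Fact.out (p := q.Prime))).mpr hm).symm
  have hQ : Nat.card φ.range = q ^ (e + 1) := by
    rw [← Nat.card_congr (AddMonoidHom.ofInjective hφ).toEquiv, Nat.card_zmod]
  have hidx : φ.range.index = m := by
    have h1 := AddSubgroup.card_mul_index φ.range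
    rw [hQ, Nat.card_eq_fintype_card, hcard, mul_comm m] at h1
    exact Nat.eq_of_mul_eq_mul_left hpos h1
  have h2 : m • w ∈ φ.range := by
    have := AddSubgroup.nsmul_index_mem φ.range w
    rwa [hidx] at this
  obtain ⟨α, β, hαβ⟩ := Nat.isCoprime_iff_coprime.mpr hcop
  have h3 : w = α • (m • w) := by
    calc w = (1 : ℤ) • w := (one_smul _ _).symm
      _ = (α * (m : ℤ) + β * ((q ^ (e + 1) : ℕ) : ℤ)) • w := by rw [hαβ]
      _ = α • (m • w) + β • ((q ^ (e + 1)) • w) := by
        rw [add_smul, mul_smul, mul_smul, natCast_zsmul, natCast_zsmul]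
      _ = _ := by rw [hw, smul_zero, add_zero]
  rw [h3]
  exact AddSubgroup.zsmul_mem _ h2 _

theorem sumA (w : G) [DecidablePred (fun w => w ∈ φ.range)] :
    ∑ s ∈ univ.filter (fun s : G => m • s = 0), b w s =
      if w ∈ φ.range then ((univ.filter (fun s : G => m • s = 0)).card : K) else 0 := by
  split_ifs with h
  · obtain ⟨x, rfl⟩ := h
    rw [Finset.sum_congr rfl (fun s hs => sumA_of_range hb q e m hcard hm φ hφ x s
      (Finset.mem_filter.mp hs).2)]
    simp
  · have hex : ∃ y, m • y = 0 ∧ b w y ≠ 1 := by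
      by_contra hcon
      push Not at hcon
      apply h
      apply mem_range_of_torsion hb q e m hcard hm φ hφ
      by_contra hne
      obtain ⟨r, hr⟩ := hb.nondeg _ hne
      apply hr
      rw [hb.nsmul, ← hb.nsmul']
      apply hcon
      rw [smul_smul, ← hcard, card_nsmul_eq_zero]
    obtain ⟨y, hy0, hy⟩ := hex
    have h1 : b w y * ∑ s ∈ univ.filter (fun s : G => m • s = 0), b w s =
        ∑ s ∈ univ.filter (fun s : G => m • s = 0), b w s := by
      rw [Finset.mul_sum]
      apply Finset.sum_bij' (fun s _ => y + s) (fun s _ => -y + s)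
      · intro s hs
        rw [Finset.mem_filter] at hs ⊢
        exact ⟨Finset.mem_univ _, by rw [smul_add, hy0, hs.2, add_zero]⟩
      · intro s hs
        rw [Finset.mem_filter] at hs ⊢
        exact ⟨Finset.mem_univ _, by rw [smul_add, smul_neg, hy0, hs.2, neg_zero, add_zero]⟩
      · intro s _
        exact neg_add_cancel_left y s
      · intro s _
        exact add_neg_cancel_left y s
      · intro s _
        rw [hb.add']
    have h2 : (b w y - 1) * ∑ s ∈ univ.filter (fun s : G => m • s = 0), b w s = 0 := by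
      rw [sub_mul, one_mul, h1, sub_self]
    rcases mul_eq_zero.mp h2 with h3 | h3
    · exact absurd (sub_eq_zero.mp h3) hy
    · exact h3

theorem sum_range_eq (g : G → K) [DecidablePred (fun w => w ∈ φ.range)]
    [NeZero (q ^ (e + 1))] :
    ∑ w, (if w ∈ φ.range then g w else 0) = ∑ x, g (φ x) := by
  rw [← Finset.sum_filter]
  symm
  apply Finset.sum_bij (fun x _ => φ x)
  · intro x _
    rw [Finset.mem_filter]
    exact ⟨Finset.mem_univ _, ⟨x, rfl⟩⟩
  · intro x _ y _ h
    exact hφ h
  · intro w hw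
    obtain ⟨x, hx⟩ := (Finset.mem_filter.mp hw).2
    exact ⟨x, Finset.mem_univ _, hx⟩
  · intro x _
    rfl

theorem cardA (hq0 : (q : K) ≠ 0) :
    ((univ.filter (fun s : G => m • s = 0)).card : K) = m := by
  classical
  have hpos : 0 < q ^ (e + 1) := Nat.pow_pos (Fact.out (p := q.Prime)).pos
  have : NeZero (q ^ (e + 1)) := ⟨hpos.ne'⟩
  set A := univ.filter (fun s : G => m • s = 0) with hA
  have h1 : ∑ w : G, ∑ s ∈ A, b w s = (q ^ (e + 1) : ℕ) * (A.card : K) := by
    rw [Finset.sum_congr rfl (fun w _ => sumA hb q e m hcard hm φ hφ w)]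
    rw [sum_range_eq hb q e m hcard hm φ hφ (fun _ => (A.card : K))]
    rw [Finset.sum_const, Finset.card_univ, ZMod.card, nsmul_eq_mul]
  have h2 : ∑ w : G, ∑ s ∈ A, b w s = (Fintype.card G : K) := by
    rw [Finset.sum_comm]
    have h3 : ∀ s ∈ A, ∑ w, b w s = if s = 0 then (Fintype.card G : K) else 0 := by
      intro s _
      rw [← hb.sum_eq s]
      exact Finset.sum_congr rfl fun w _ => hb.symm w s
    rw [Finset.sum_congr rfl h3, Finset.sum_ite_eq']
    rw [if_pos]
    rw [hA, Finset.mem_filter]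
    exact ⟨Finset.mem_univ _, smul_zero _⟩
  rw [h1, hcard] at h2
  have hN : ((q ^ (e + 1) : ℕ) : K) ≠ 0 := by
    rw [Nat.cast_pow]
    exact pow_ne_zero _ hq0
  push_cast at h2 hN ⊢
  have h4 : (q : K) ^ (e + 1) * ((A.card : K) - m) = 0 := by
    linear_combination h2
  rcases mul_eq_zero.mp h4 with h5 | h5
  · exact absurd h5 hN
  · exact sub_eq_zero.mp h5

/-- slices of the Fourier transform -/
theorem slice_eq (hq0 : (q : K) ≠ 0) [NeZero (q ^ (e + 1))] (f : G → K) (a r : G) :
    (m : K) * ∑ x, f (a + φ x) * b (φ x) r =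
      ∑ s ∈ univ.filter (fun s : G => m • s = 0), b (-a) (r + s) * ∑ y, f y * b y (r + s) := by
  classical
  rw [← cardA hb q e m hcard hm φ hφ hq0]
  set A := univ.filter (fun s : G => m • s = 0) with hA
  calc (A.card : K) * ∑ x, f (a + φ x) * b (φ x) r
      = ∑ x, f (a + φ x) * b (φ x) r * (A.card : K) := by
        rw [Finset.mul_sum]
        exact Finset.sum_congr rfl fun x _ => mul_comm _ _
    _ = ∑ w : G, (if w ∈ φ.range then f (a + w) * b w r * (A.card : K) else 0) := by
        rw [sum_range_eq hb q e m hcard hm φ hφ (fun w => f (a + w) * b w r * (A.card : K))]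
    _ = ∑ w : G, f (a + w) * b w r * ∑ s ∈ A, b w s := by
        refine Finset.sum_congr rfl fun w _ => ?_
        rw [sumA hb q e m hcard hm φ hφ w]
        split_ifs with h
        · rfl
        · rw [mul_zero]
    _ = ∑ s ∈ A, ∑ w : G, f (a + w) * b w (r + s) := by
        rw [Finset.sum_comm]
        refine Finset.sum_congr rfl fun w _ => ?_
        rw [Finset.mul_sum]
        refine Finset.sum_congr rfl fun s _ => ?_
        rw [hb.add']
        ring
    _ = ∑ s ∈ A, b (-a) (r + s) * ∑ y, f y * b y (r + s) := by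
        refine Finset.sum_congr rfl fun s _ => ?_
        rw [Finset.mul_sum]
        rw [← Equiv.sum_comp (Equiv.addLeft a) (fun y => b (-a) (r + s) * (f y * b y (r + s)))]
        refine Finset.sum_congr rfl fun w _ => ?_
        rw [Equiv.coe_addLeft, hb.add a w]
        have := hb.neg_mul a (r + s)
        linear_combination (-(f (a + w) * b w (r + s))) * this

theorem slice_le (hq0 : (q : K) ≠ 0) (hvq : v (q : K) < 1) [NeZero (q ^ (e + 1))]
    (f : G → K) (C : Γ₀) (hF : ∀ r, v (∑ y, f y * b y r) ≤ C) (a r : G) :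
    v (∑ x, f (a + φ x) * b (φ x) r) ≤ C := by
  have h1 := slice_eq hb q e m hcard hm φ hφ hq0 f a r
  have h2 : v (m : K) = 1 := val_natCast_eq_one v q hvq m hm
  have h3 : v ((m : K) * ∑ x, f (a + φ x) * b (φ x) r) ≤ C := by
    rw [h1]
    apply v.map_sum_le
    intro s _
    rw [map_mul]
    have h4 : v (b (-a) (r + s)) = 1 := by
      apply val_eq_one_of_pow v _ (Fintype.card G) Fintype.card_ne_zero
      rw [← hb.nsmul, card_nsmul_eq_zero, hb.zero]
    rw [h4, one_mul]
    exact hF _
  rwa [map_mul, h2, one_mul] at h3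

/-- self convolution of a slice -/
theorem conv_eq [NeZero (q ^ (e + 1))] (f : G → K) (a : G) (z : ZMod (q ^ (e + 1))) :
    (Fintype.card G : K) * ∑ x, f (a + φ x) * f (a + φ (z - x)) =
      ∑ r, (∑ x, f (a + φ x) * b (φ x) r) ^ 2 * b (φ (-z)) r := by
  have h1 : ∀ r, (∑ x, f (a + φ x) * b (φ x) r) ^ 2 * b (φ (-z)) r =
      ∑ x, ∑ y, f (a + φ x) * f (a + φ y) * b (φ (x + y - z)) r := by
    intro r
    rw [sq, Finset.sum_mul_sum, Finset.sum_mul]
    refine Finset.sum_congr rfl fun x _ => ?_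
    rw [Finset.sum_mul]
    refine Finset.sum_congr rfl fun y _ => ?_
    have h2 : φ (x + y - z) = φ x + φ y + φ (-z) := by
      rw [sub_eq_add_neg, map_add, map_add]
    rw [h2, hb.add, hb.add]
    ring
  rw [Finset.sum_congr rfl (fun r _ => h1 r), Finset.sum_comm, Finset.mul_sum]
  refine Finset.sum_congr rfl fun x _ => ?_
  rw [Finset.sum_comm]
  have h3 : ∀ y, ∑ r, f (a + φ x) * f (a + φ y) * b (φ (x + y - z)) r =
      if y = z - x then f (a + φ x) * f (a + φ y) * (Fintype.card G : K) else 0 := by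
    intro y
    rw [← Finset.mul_sum, hb.sum_eq]
    by_cases hy : y = z - x
    · rw [if_pos hy, if_pos]
      rw [hy]
      simp
    · rw [if_neg hy, if_neg, mul_zero]
      intro h0
      apply hy
      have h4 : x + y - z = 0 := by
        apply hφ
        rw [h0, map_zero]
      linear_combination h4
  rw [Finset.sum_congr rfl (fun y _ => h3 y), Finset.sum_ite_eq' Finset.univ (z - x)]
  rw [if_pos (Finset.mem_univ _)]
  ring

omit hcard hm hφ in
theorem residue_one (hvq : v (q : K) < 1) (x : ZMod (q ^ (e + 1))) (r : G)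
    (h : v (b (φ x) r) ≤ 1) :
    IsLocalRing.residue v.valuationSubring ⟨b (φ x) r, h⟩ = 1 := by
  have := charP_residue v q hvq
  have h1 : b (φ x) r ^ (q ^ (e + 1)) = 1 := by
    rw [← hb.nsmul, ← map_nsmul, nsmul_eq_mul, ZMod.natCast_self, zero_mul, map_zero, hb.zero]
  have h2 : (⟨b (φ x) r, h⟩ : v.valuationSubring) ^ (q ^ (e + 1)) = 1 := Subtype.ext h1
  have h3 := congrArg (IsLocalRing.residue v.valuationSubring) h2
  rw [map_pow, map_one] at h3
  have h4 : (IsLocalRing.residue v.valuationSubring ⟨b (φ x) r, h⟩ - 1) ^ (q ^ (e + 1)) = 0 := by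
    rw [sub_pow_char_pow, h3, one_pow, sub_self]
  exact sub_eq_zero.mp
    ((pow_eq_zero_iff (Nat.pow_pos (Fact.out (p := q.Prime)).pos).ne').mp h4)

/-- **KEY LEMMA** -/
theorem kl (hq : q ≠ 2) (hq0 : (q : K) ≠ 0) (hvq : v (q : K) < 1) (f : G → K)
    (hf : ∀ x, v (f x) ≤ 1) (C : Γ₀) (hC : C ^ 2 ≤ v ((q : K) ^ (e + 1)))
    (hF : ∀ r, v (∑ y, f y * b y r) ≤ C) (a : G) :
    ∃ P : (IsLocalRing.ResidueField v.valuationSubring)[X], P.natDegree ≤ (q - 1) / 2 ∧
      ∀ n : ℕ, IsLocalRing.residue v.valuationSubring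
        ⟨f (a + φ ((n * q ^ e : ℕ) : ZMod (q ^ (e + 1)))), hf _⟩ =
          P.eval (n : IsLocalRing.ResidueField v.valuationSubring) := by
  have hpos : 0 < q ^ (e + 1) := Nat.pow_pos (Fact.out (p := q.Prime)).pos
  have : NeZero (q ^ (e + 1)) := ⟨hpos.ne'⟩
  have hch := charP_residue v q hvq
  set Fa : G → K := fun r => ∑ x, f (a + φ x) * b (φ x) r with hFa
  have hFa1 : ∀ r, v (Fa r) ≤ C := fun r =>
    slice_le v hb q e m hcard hm φ hφ hq0 hvq f C hF a r
  have hn : v ((Fintype.card G : ℕ) : K) = v ((q : K) ^ (e + 1)) := by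
    rw [hcard, Nat.cast_mul, map_mul, val_natCast_eq_one v q hvq m hm, one_mul, Nat.cast_pow]
  have hn0 : ((Fintype.card G : ℕ) : K) ≠ 0 := by
    intro h0
    rw [h0, map_zero] at hn
    exact (pow_ne_zero (e + 1) hq0) (v.zero_iff.mp hn.symm)
  have hg : ∀ r, v (Fa r ^ 2 / ((Fintype.card G : ℕ) : K)) ≤ 1 := by
    intro r
    rw [map_div₀, map_pow, hn]
    apply div_le_one_of_le₀ _ zero_le
    exact (pow_le_pow_left₀ zero_le (hFa1 r) 2).trans hC
  have hbv : ∀ x r, v (b (φ x) r) ≤ 1 := by
    intro x r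
    apply le_of_eq
    apply val_eq_one_of_pow v _ (Fintype.card G) Fintype.card_ne_zero
    rw [← hb.nsmul, card_nsmul_eq_zero, hb.zero]
  have hE : ∀ z, ∑ x, f (a + φ x) * f (a + φ (z - x)) =
      ∑ r, Fa r ^ 2 / ((Fintype.card G : ℕ) : K) * b (φ (-z)) r := by
    intro z
    have h1 := conv_eq hb q e m hcard hm φ hφ f a z
    have h2 : ∑ r, Fa r ^ 2 / ((Fintype.card G : ℕ) : K) * b (φ (-z)) r =
        (((Fintype.card G : ℕ) : K))⁻¹ * ∑ r, Fa r ^ 2 * b (φ (-z)) r := by
      rw [Finset.mul_sum]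
      exact Finset.sum_congr rfl fun r _ => by ring
    rw [h2, ← h1]
    field_simp
  -- residues
  set res := IsLocalRing.residue v.valuationSubring with hres
  set β : ZMod (q ^ (e + 1)) → IsLocalRing.ResidueField v.valuationSubring :=
    fun z => res ⟨f (a + φ z), hf _⟩ with hβ
  set c := ∑ r, res ⟨Fa r ^ 2 / ((Fintype.card G : ℕ) : K), hg r⟩ with hc
  have hconv : ∀ z, ∑ x, β x * β (z - x) = c := by
    intro z
    have h1 : (∑ x, (⟨f (a + φ x), hf _⟩ : v.valuationSubring) * ⟨f (a + φ (z - x)), hf _⟩) =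
        ∑ r, (⟨Fa r ^ 2 / ((Fintype.card G : ℕ) : K), hg r⟩ : v.valuationSubring) *
          ⟨b (φ (-z)) r, hbv _ _⟩ := by
      apply Subtype.ext
      have h2 := hE z
      simpa using h2
    have h3 := congrArg res h1
    rw [map_sum, map_sum] at h3
    rw [hβ, hc]
    calc ∑ x, res ⟨f (a + φ x), hf _⟩ * res ⟨f (a + φ (z - x)), hf _⟩
        = ∑ x, res ((⟨f (a + φ x), hf _⟩ : v.valuationSubring) * ⟨f (a + φ (z - x)), hf _⟩) := by
          exact Finset.sum_congr rfl fun x _ => (map_mul res _ _).symm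
      _ = _ := h3
      _ = _ := by
          refine Finset.sum_congr rfl fun r _ => ?_
          rw [map_mul, hres, residue_one v hb q e φ hvq (-z) r, mul_one]
  have hconv' : ∀ z, ∑ x ∈ range (q ^ (e + 1)), β (x : ℕ) * β (z - (x : ℕ)) = c := by
    intro z
    rw [← hconv z]
    symm
    apply Finset.sum_bij (fun (x : ZMod (q ^ (e + 1))) _ => x.val)
    · intro x _
      exact Finset.mem_range.mpr (ZMod.val_lt x)
    · intro x _ y _ h
      exact ZMod.val_injective _ h
    · intro k hk
      exact ⟨(k : ZMod (q ^ (e + 1))), Finset.mem_univ _,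
        ZMod.val_cast_of_lt (Finset.mem_range.mp hk)⟩
    · intro x _
      rw [ZMod.natCast_zmod_val]
  obtain ⟨P, hP, hPn⟩ := kl_char q hq e β c hconv' 0
  refine ⟨P, hP, fun n => ?_⟩
  have := hPn n
  rw [zero_add] at this
  exact this

end Slice

end Pool.MP_d0f9e0_co.KL
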